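import Mathlib

/-!
Verified certificate checker for piecewise linear inequalities about sumsets and difference sets of
unions of five intervals (problem MP_9a6c6e_co).
-/

namespace Pool.Agent.MSTDIntervals

/-- an integer linear form in the ten endpoints -/
abbrev Form := List Int

def addF : Form → Form → Form
  | [], g => g
  | f, [] => f
  | a :: f, b :: g => (a + b) :: addF f g

def smulF (m : Int) : Form → Form
  | [] => []
  | a :: f => (m * a) :: smulF m f

def subF (f g : Form) : Form := addF f (smulF (-1) g)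

def isZeroF : Form → Bool
  | [] => true
  | a :: f => (a == 0) && isZeroF f

/-- evaluation of a form at the values `y k, y (k+1), ...` -/
noncomputable def ev (y : ℕ → ℝ) : ℕ → Form → ℝ
  | _, [] => 0
  | k, c :: cs => (c : ℝ) * y k + ev y (k + 1) cs

@[simp] lemma ev_nil (y : ℕ → ℝ) (k : ℕ) : ev y k [] = 0 := rfl
@[simp] lemma ev_cons (y : ℕ → ℝ) (k : ℕ) (c : Int) (cs : Form) :
    ev y k (c :: cs) = (c : ℝ) * y k + ev y (k + 1) cs := rfl

lemma ev_addF (y : ℕ → ℝ) : ∀ (k : ℕ) (f g : Form), ev y k (addF f g) = ev y k f + ev y k g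
  | k, [], g => by simp [addF]
  | k, a :: f, [] => by simp [addF]
  | k, a :: f, b :: g => by
      simp only [addF, ev_cons]
      rw [ev_addF y (k + 1) f g]
      push_cast
      ring

lemma ev_smulF (y : ℕ → ℝ) (m : Int) : ∀ (k : ℕ) (f : Form),
    ev y k (smulF m f) = (m : ℝ) * ev y k f
  | k, [] => by simp [smulF]
  | k, a :: f => by
      simp only [smulF, ev_cons]
      rw [ev_smulF y m (k + 1) f]
      push_cast
      ring

lemma ev_subF (y : ℕ → ℝ) (k : ℕ) (f g : Form) : ev y k (subF f g) = ev y k f - ev y k g := by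
  simp only [subF, ev_addF, ev_smulF]
  push_cast
  ring

lemma ev_isZeroF (y : ℕ → ℝ) : ∀ (k : ℕ) (f : Form), isZeroF f = true → ev y k f = 0
  | k, [], _ => rfl
  | k, a :: f, h => by
      simp only [isZeroF, Bool.and_eq_true, beq_iff_eq] at h
      simp [h.1, ev_isZeroF y (k + 1) f h.2]

/-- nonnegative integer combination of forms from the context -/
def comb (ctx : List Form) : List (Nat × Nat) → Form
  | [] => []
  | (i, m) :: r => addF (smulF (Int.ofNat m) (ctx.getD i [])) (comb ctx r)

def Ctx (y : ℕ → ℝ) (ctx : List Form) : Prop := ∀ g ∈ ctx, 0 ≤ ev y 0 g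

lemma getD_nonneg {y : ℕ → ℝ} {ctx : List Form} (h : Ctx y ctx) (i : ℕ) :
    0 ≤ ev y 0 (ctx.getD i []) := by
  by_cases hi : i < ctx.length
  · have : ctx.getD i [] = ctx[i] := by simp [List.getD, hi]
    rw [this]
    exact h _ (List.getElem_mem hi)
  · have : ctx.getD i [] = [] := by
      simp only [List.getD]
      rw [List.getElem?_eq_none (by omega)]
      rfl
    rw [this]
    simp

lemma comb_nonneg {y : ℕ → ℝ} {ctx : List Form} (h : Ctx y ctx) :
    ∀ l : List (Nat × Nat), 0 ≤ ev y 0 (comb ctx l)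
  | [] => by simp [comb]
  | (i, m) :: r => by
      simp only [comb, ev_addF, ev_smulF]
      have h1 := comb_nonneg h r
      have h2 := getD_nonneg h i
      have h3 : (0 : ℝ) ≤ ((Int.ofNat m : ℤ) : ℝ) := by
        simp
      positivity

/-- `tgt ≥ 0` follows from the context: `N * tgt` is a nonnegative combination, `N > 0`. -/
def farkas (ctx : List Form) (tgt : Form) (N : Nat) (l : List (Nat × Nat)) : Bool :=
  (Nat.blt 0 N) && isZeroF (subF (comb ctx l) (smulF (Int.ofNat N) tgt))

lemma farkas_sound {y : ℕ → ℝ} {ctx : List Form} (h : Ctx y ctx) {tgt : Form} {N : Nat}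
    {l : List (Nat × Nat)} (hf : farkas ctx tgt N l = true) : 0 ≤ ev y 0 tgt := by
  simp only [farkas, Bool.and_eq_true] at hf
  obtain ⟨hN, hz⟩ := hf
  have hN' : 0 < N := by simpa [Nat.blt_eq] using hN
  have h0 := ev_isZeroF y 0 _ hz
  rw [ev_subF, ev_smulF] at h0
  have h1 := comb_nonneg h l
  have h2 : (0 : ℝ) ≤ (N : ℝ) * ev y 0 tgt := by
    have : ((Int.ofNat N : ℤ) : ℝ) = (N : ℝ) := by simp
    rw [this] at h0
    linarith
  have h3 : (0 : ℝ) < (N : ℝ) := by exact_mod_cast hN'
  exact nonneg_of_mul_nonneg_right h2 h3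

/-! ### the intervals of the sumset and of the difference set -/

/-- lower endpoints of the sum intervals; the endpoint vector is `(a1,b1,...,a5,b5)` -/
def SL : List Form :=
  [[2], [1, 0, 1], [1, 0, 0, 0, 1], [1, 0, 0, 0, 0, 0, 1], [1, 0, 0, 0, 0, 0, 0, 0, 1],
   [0, 0, 2], [0, 0, 1, 0, 1], [0, 0, 1, 0, 0, 0, 1], [0, 0, 1, 0, 0, 0, 0, 0, 1],
   [0, 0, 0, 0, 2], [0, 0, 0, 0, 1, 0, 1], [0, 0, 0, 0, 1, 0, 0, 0, 1],
   [0, 0, 0, 0, 0, 0, 2], [0, 0, 0, 0, 0, 0, 1, 0, 1], [0, 0, 0, 0, 0, 0, 0, 0, 2]]

/-- upper endpoints of the sum intervals -/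
def SR : List Form :=
  [[0, 2], [0, 1, 0, 1], [0, 1, 0, 0, 0, 1], [0, 1, 0, 0, 0, 0, 0, 1],
   [0, 1, 0, 0, 0, 0, 0, 0, 0, 1],
   [0, 0, 0, 2], [0, 0, 0, 1, 0, 1], [0, 0, 0, 1, 0, 0, 0, 1], [0, 0, 0, 1, 0, 0, 0, 0, 0, 1],
   [0, 0, 0, 0, 0, 2], [0, 0, 0, 0, 0, 1, 0, 1], [0, 0, 0, 0, 0, 1, 0, 0, 0, 1],
   [0, 0, 0, 0, 0, 0, 0, 2], [0, 0, 0, 0, 0, 0, 0, 1, 0, 1], [0, 0, 0, 0, 0, 0, 0, 0, 0, 2]]

/-- lower endpoints of the nonnegative difference intervals -/
def DL : List Form :=
  [[], [], [], [], [],
   [0, -1, 1], [0, -1, 0, 0, 1], [0, -1, 0, 0, 0, 0, 1], [0, -1, 0, 0, 0, 0, 0, 0, 1],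
   [0, 0, 0, -1, 1], [0, 0, 0, -1, 0, 0, 1], [0, 0, 0, -1, 0, 0, 0, 0, 1],
   [0, 0, 0, 0, 0, -1, 1], [0, 0, 0, 0, 0, -1, 0, 0, 1],
   [0, 0, 0, 0, 0, 0, 0, -1, 1]]

/-- upper endpoints of the nonnegative difference intervals -/
def DR : List Form :=
  [[-1, 1], [0, 0, -1, 1], [0, 0, 0, 0, -1, 1], [0, 0, 0, 0, 0, 0, -1, 1],
   [0, 0, 0, 0, 0, 0, 0, 0, -1, 1],
   [-1, 0, 0, 1], [-1, 0, 0, 0, 0, 1], [-1, 0, 0, 0, 0, 0, 0, 1], [-1, 0, 0, 0, 0, 0, 0, 0, 0, 1],
   [0, 0, -1, 0, 0, 1], [0, 0, -1, 0, 0, 0, 0, 1], [0, 0, -1, 0, 0, 0, 0, 0, 0, 1],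
   [0, 0, 0, 0, -1, 0, 0, 1], [0, 0, 0, 0, -1, 0, 0, 0, 0, 1],
   [0, 0, 0, 0, 0, 0, -1, 0, 0, 1]]

/-- order facts: type 0 `SL a ≤ SL b`, type 1 `SR a ≤ SR b`, type 2 `DL b ≤ DR a`,
type 3 `DR a ≤ DL b`; `id = 225 * type + 15 * a + b`. -/
def factForm (id : Nat) : Form :=
  let ty := id / 225
  let a := (id % 225) / 15
  let b := id % 15
  match ty with
  | 0 => subF (SL.getD b []) (SL.getD a [])
  | 1 => subF (SR.getD b []) (SR.getD a [])
  | 2 => subF (DR.getD a []) (DL.getD b [])
  | _ => subF (DL.getD b []) (DR.getD a [])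

def Known (y : ℕ → ℝ) (mask : Nat) : Prop :=
  ∀ id, mask.testBit id = true → 0 ≤ ev y 0 (factForm id)

lemma known_zero (y : ℕ → ℝ) : Known y 0 := by
  intro id h
  simp at h

lemma known_or {y : ℕ → ℝ} {mask : Nat} (h : Known y mask) {id : Nat}
    (hid : 0 ≤ ev y 0 (factForm id)) : Known y (mask ||| (1 <<< id)) := by
  intro j hj
  rw [Nat.testBit_or, Bool.or_eq_true] at hj
  rcases hj with hj | hj
  · exact h j hj
  · have : id = j := by
      by_contra hne
      rw [Nat.one_shiftLeft, Nat.testBit_two_pow_of_ne hne] at hj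
      exact absurd hj (by simp)
    exact this ▸ hid

/-! ### covers and paths -/

/-- one group of a cover: the hull runs from the lower endpoint number `kL` to the upper endpoint
number `kR`; `mem` are the members (nonempty) -/
structure Group where
  kL : Nat
  kR : Nat
  mem : List Nat

def memOK (mask : Nat) (kL kR : Nat) : List Nat → Bool
  | [] => true
  | i :: r => Nat.blt i 15 && ((Nat.beq kL i) || mask.testBit (15 * kL + i)) &&
      ((Nat.beq kR i) || mask.testBit (225 + 15 * i + kR)) && memOK mask kL kR r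

def groupsOK (mask : Nat) : List Group → Bool
  | [] => true
  | g :: r => (!g.mem.isEmpty) && Nat.blt g.kL 15 && Nat.blt g.kR 15 &&
      memOK mask g.kL g.kR g.mem && groupsOK mask r

def memMask : List Nat → Nat
  | [] => 0
  | i :: r => (1 <<< i) ||| memMask r

def groupsMask : List Group → Nat
  | [] => 0
  | g :: r => memMask g.mem ||| groupsMask r

def coverOK (mask : Nat) (gs : List Group) : Bool :=
  groupsOK mask gs && (Nat.beq (groupsMask gs) 32767)

def coverForm : List Group → Form
  | [] => []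
  | g :: r => addF (subF (SR.getD g.kR []) (SL.getD g.kL [])) (coverForm r)

/-- steps of a path: next interval and whether the step jumps over a gap -/
def stepsOK (mask : Nat) : Nat → List (Nat × Bool) → Bool
  | _, [] => true
  | i, (j, false) :: r => Nat.blt j 15 && mask.testBit (450 + 15 * i + j) && stepsOK mask j r
  | i, (j, true) :: r => Nat.blt j 15 && mask.testBit (675 + 15 * i + j) && stepsOK mask j r

def stepsForm : Nat → List (Nat × Bool) → Form
  | _, [] => []
  | i, (j, false) :: r => addF (subF (DR.getD j []) (DR.getD i [])) (stepsForm j r)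
  | _, (j, true) :: r => addF (subF (DR.getD j []) (DL.getD j [])) (stepsForm j r)

/-- `[]` is the empty path -/
def pathOK (mask : Nat) : List (Nat × Bool) → Bool
  | [] => true
  | (i, _) :: r => Nat.blt i 15 && stepsOK mask i r

def pathForm : List (Nat × Bool) → Form
  | [] => []
  | (i, _) :: r => addF (subF (DR.getD i []) (DL.getD i [])) (stepsForm i r)

def coversOK (mask : Nat) : List (Nat × List Group) → Bool
  | [] => true
  | (_, gs) :: r => coverOK mask gs && coversOK mask r

def coversForm : List (Nat × List Group) → Form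
  | [] => []
  | (w, gs) :: r => addF (smulF (Int.ofNat w) (coverForm gs)) (coversForm r)

def coversWt : List (Nat × List Group) → Nat
  | [] => 0
  | (w, _) :: r => w + coversWt r

def pathsOK (mask : Nat) : List (Nat × List (Nat × Bool)) → Bool
  | [] => true
  | (_, p) :: r => pathOK mask p && pathsOK mask r

def pathsForm : List (Nat × List (Nat × Bool)) → Form
  | [] => []
  | (w, p) :: r => addF (smulF (Int.ofNat w) (pathForm p)) (pathsForm r)

def pathsWt : List (Nat × List (Nat × Bool)) → Nat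
  | [] => 0
  | (w, _) :: r => w + pathsWt r

/-- derived facts: number of the fact, multiplier, certificate -/
abbrev Ders := List (Nat × Nat × List (Nat × Nat))

def dersOK (ctx : List Form) : Ders → Bool
  | [] => true
  | (id, N, l) :: r => farkas ctx (factForm id) N l && dersOK ctx r

def dersMask (mask : Nat) : Ders → Nat
  | [] => mask
  | (id, _, _) :: r => dersMask (mask ||| (1 <<< id)) r

/-- certificate trees -/
inductive Tree where
  | leaf (cs : List (Nat × List Group)) (ps : List (Nat × List (Nat × Bool))) (N : Nat)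
      (l : List (Nat × Nat)) : Tree
  | br (g : Form) (t1 t2 : Tree) : Tree
  | der (ds : Ders) (t : Tree) : Tree

def Tree.check (ctx : List Form) (mask : Nat) : Tree → Bool
  | .leaf cs ps N l =>
      coversOK mask cs && pathsOK mask ps && Nat.blt 0 (coversWt cs) &&
      Nat.beq (coversWt cs) (pathsWt ps) &&
      farkas ctx (subF (smulF 2 (pathsForm ps)) (coversForm cs)) N l
  | .br g t1 t2 => t1.check (g :: ctx) mask && t2.check (smulF (-1) g :: ctx) mask
  | .der ds t => dersOK ctx ds && t.check ctx (dersMask mask ds)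

/-- what we need to know about the sumset measure `s` and the difference set measure `d` -/
structure Geo (y : ℕ → ℝ) (s d : ℝ) : Prop where
  cover : ∀ gs : List Group,
    (∀ g ∈ gs, ev y 0 (SL.getD g.kL []) ≤ ev y 0 (SR.getD g.kR [])) →
    (∀ i < 15, ∃ g ∈ gs, ev y 0 (SL.getD g.kL []) ≤ ev y 0 (SL.getD i []) ∧
      ev y 0 (SR.getD i []) ≤ ev y 0 (SR.getD g.kR [])) → s ≤ ev y 0 (coverForm gs)
  len : ∀ i, ev y 0 (SL.getD i []) ≤ ev y 0 (SR.getD i [])
  path : ∀ (mask : Nat) (p : List (Nat × Bool)), Known y mask → pathOK mask p = true →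
    2 * ev y 0 (pathForm p) ≤ d

lemma memOK_sound {y : ℕ → ℝ} {mask : Nat} (h : Known y mask) {kL kR : Nat} (hkL : kL < 15)
    (hkR : kR < 15) : ∀ l : List Nat, memOK mask kL kR l = true → ∀ i ∈ l, i < 15 ∧
      ev y 0 (SL.getD kL []) ≤ ev y 0 (SL.getD i []) ∧
      ev y 0 (SR.getD i []) ≤ ev y 0 (SR.getD kR [])
  | [], _ => by simp
  | j :: r, hok => by
      simp only [memOK, Bool.and_eq_true, Bool.or_eq_true, Nat.blt_eq] at hok
      obtain ⟨⟨⟨hj, h1⟩, h2⟩, h3⟩ := hok
      have ih := memOK_sound h hkL hkR r h3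
      intro i hi
      rcases List.mem_cons.1 hi with rfl | hi
      · refine ⟨hj, ?_, ?_⟩
        · rcases h1 with h1 | h1
          · rw [Nat.eq_of_beq_eq_true h1]
          · have := h _ h1
            have e1 : (15 * kL + i) / 225 = 0 := by omega
            have e2 : (15 * kL + i) % 225 / 15 = kL := by omega
            have e3 : (15 * kL + i) % 15 = i := by omega
            simp only [factForm, e1, e2, e3, ev_subF] at this
            linarith
        · rcases h2 with h2 | h2
          · rw [Nat.eq_of_beq_eq_true h2]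
          · have := h _ h2
            have e1 : (225 + 15 * i + kR) / 225 = 1 := by omega
            have e2 : (225 + 15 * i + kR) % 225 / 15 = i := by omega
            have e3 : (225 + 15 * i + kR) % 15 = kR := by omega
            simp only [factForm, e1, e2, e3, ev_subF] at this
            linarith
      · exact ih i hi

lemma groupsOK_sound {y : ℕ → ℝ} {mask : Nat} (h : Known y mask) :
    ∀ gs : List Group, groupsOK mask gs = true → ∀ g ∈ gs, g.mem ≠ [] ∧ ∀ i ∈ g.mem, i < 15 ∧
      ev y 0 (SL.getD g.kL []) ≤ ev y 0 (SL.getD i []) ∧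
      ev y 0 (SR.getD i []) ≤ ev y 0 (SR.getD g.kR [])
  | [], _ => by simp
  | g0 :: r, hok => by
      simp only [groupsOK, Bool.and_eq_true, Nat.blt_eq] at hok
      obtain ⟨⟨⟨⟨h0, h1⟩, h2⟩, h3⟩, h4⟩ := hok
      have ih := groupsOK_sound h r h4
      intro g hg
      rcases List.mem_cons.1 hg with rfl | hg
      · refine ⟨?_, memOK_sound h h1 h2 _ h3⟩
        intro hc
        simp [hc] at h0
      · exact ih g hg

lemma memMask_sound (i : Nat) : ∀ l : List Nat, (memMask l).testBit i = true → i ∈ l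
  | [], h => by simp [memMask] at h
  | j :: r, h => by
      simp only [memMask, Nat.testBit_or, Bool.or_eq_true] at h
      rcases h with h | h
      · have : j = i := by
          by_contra hne
          rw [Nat.one_shiftLeft, Nat.testBit_two_pow_of_ne hne] at h
          exact absurd h (by simp)
        simp [this]
      · exact List.mem_cons_of_mem _ (memMask_sound i r h)

lemma groupsMask_sound (i : Nat) : ∀ gs : List Group, (groupsMask gs).testBit i = true →
    ∃ g ∈ gs, i ∈ g.mem
  | [], h => by simp [groupsMask] at h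
  | g :: r, h => by
      simp only [groupsMask, Nat.testBit_or, Bool.or_eq_true] at h
      rcases h with h | h
      · exact ⟨g, by simp, memMask_sound i _ h⟩
      · obtain ⟨g', hg', hi⟩ := groupsMask_sound i r h
        exact ⟨g', List.mem_cons_of_mem _ hg', hi⟩

lemma cover_sound {y : ℕ → ℝ} {s d : ℝ} (geo : Geo y s d) {mask : Nat} (h : Known y mask)
    (gs : List Group) (hok : coverOK mask gs = true) : s ≤ ev y 0 (coverForm gs) := by
  simp only [coverOK, Bool.and_eq_true] at hok
  obtain ⟨h1, h2⟩ := hok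
  have hg := groupsOK_sound h gs h1
  apply geo.cover gs
  · intro g hgm
    obtain ⟨hne, hm⟩ := hg g hgm
    obtain ⟨i, hi⟩ := List.exists_mem_of_ne_nil _ hne
    obtain ⟨_, ha, hb⟩ := hm i hi
    exact ha.trans ((geo.len i).trans hb)
  · intro i hi
    have h3 : (groupsMask gs).testBit i = true := by
      rw [Nat.eq_of_beq_eq_true h2]
      interval_cases i <;> rfl
    obtain ⟨g, hgm, him⟩ := groupsMask_sound i gs h3
    obtain ⟨_, ha, hb⟩ := (hg g hgm).2 i him
    exact ⟨g, hgm, ha, hb⟩

lemma covers_sound {y : ℕ → ℝ} {s d : ℝ} (geo : Geo y s d) {mask : Nat} (h : Known y mask) :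
    ∀ cs : List (Nat × List Group), coversOK mask cs = true →
      (coversWt cs : ℝ) * s ≤ ev y 0 (coversForm cs)
  | [], _ => by simp [coversWt, coversForm]
  | (w, gs) :: r, hok => by
      simp only [coversOK, Bool.and_eq_true] at hok
      have h1 := cover_sound geo h gs hok.1
      have h2 := covers_sound geo h r hok.2
      simp only [coversWt, coversForm, ev_addF, ev_smulF]
      push_cast
      have hw : (0 : ℝ) ≤ (w : ℝ) := Nat.cast_nonneg w
      have h3 := mul_le_mul_of_nonneg_left h1 hw
      have : ((Int.ofNat w : ℤ) : ℝ) = (w : ℝ) := by simp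
      rw [this]
      linarith

lemma paths_sound {y : ℕ → ℝ} {s d : ℝ} (geo : Geo y s d) {mask : Nat} (h : Known y mask) :
    ∀ ps : List (Nat × List (Nat × Bool)), pathsOK mask ps = true →
      2 * ev y 0 (pathsForm ps) ≤ (pathsWt ps : ℝ) * d
  | [], _ => by simp [pathsWt, pathsForm]
  | (w, p) :: r, hok => by
      simp only [pathsOK, Bool.and_eq_true] at hok
      have h1 := geo.path mask p h hok.1
      have h2 := paths_sound geo h r hok.2
      simp only [pathsWt, pathsForm, ev_addF, ev_smulF]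
      push_cast
      have hw : (0 : ℝ) ≤ (w : ℝ) := Nat.cast_nonneg w
      have h3 := mul_le_mul_of_nonneg_left h1 hw
      have : ((Int.ofNat w : ℤ) : ℝ) = (w : ℝ) := by simp
      rw [this]
      linarith

lemma ders_sound {y : ℕ → ℝ} {ctx : List Form} (hc : Ctx y ctx) : ∀ (ds : Ders) (mask : Nat),
    Known y mask → dersOK ctx ds = true → Known y (dersMask mask ds)
  | [], _, h, _ => h
  | (id, N, l) :: r, mask, h, hok => by
      simp only [dersOK, Bool.and_eq_true] at hok
      exact ders_sound hc r _ (known_or h (farkas_sound hc hok.1)) hok.2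

theorem Tree.sound {y : ℕ → ℝ} {s d : ℝ} (geo : Geo y s d) : ∀ (t : Tree) (ctx : List Form)
    (mask : Nat), Ctx y ctx → Known y mask → t.check ctx mask = true → s ≤ d
  | .leaf cs ps N l, ctx, mask, hc, hk, h => by
      simp only [Tree.check, Bool.and_eq_true, Nat.blt_eq] at h
      obtain ⟨⟨⟨⟨h1, h2⟩, h3⟩, h4⟩, h5⟩ := h
      have e1 := covers_sound geo hk cs h1
      have e2 := paths_sound geo hk ps h2
      have e3 := farkas_sound hc h5
      rw [ev_subF, ev_smulF] at e3
      rw [← Nat.eq_of_beq_eq_true h4] at e2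
      have e4 : (0 : ℝ) < (coversWt cs : ℝ) := by exact_mod_cast h3
      have e5 : (coversWt cs : ℝ) * s ≤ (coversWt cs : ℝ) * d := by
        have : (((2 : Int)) : ℝ) = 2 := by norm_num
        rw [this] at e3
        linarith
      exact le_of_mul_le_mul_left e5 e4
  | .br g t1 t2, ctx, mask, hc, hk, h => by
      simp only [Tree.check, Bool.and_eq_true] at h
      rcases le_total 0 (ev y 0 g) with hg | hg
      · refine Tree.sound geo t1 (g :: ctx) mask ?_ hk h.1
        intro f hf
        rcases List.mem_cons.1 hf with rfl | hf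
        · exact hg
        · exact hc f hf
      · refine Tree.sound geo t2 (smulF (-1) g :: ctx) mask ?_ hk h.2
        intro f hf
        rcases List.mem_cons.1 hf with rfl | hf
        · rw [ev_smulF]
          push_cast
          linarith
        · exact hc f hf
  | .der ds t, ctx, mask, hc, hk, h => by
      simp only [Tree.check, Bool.and_eq_true] at h
      exact Tree.sound geo t ctx _ hc (ders_sound hc ds mask hk h.1) h.2

end Pool.Agent.MSTDIntervals
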