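import Pool.Agent.MSTDIntervals.Basic

/-!
Certificate data (machine generated, checked by the kernel).
-/

namespace Pool.Agent.MSTDIntervals

/-- the region: the nine inequalities of `P_5` and the 7 region forms -/
def ctx0 : List Form :=
  [[-1, 1],
   [0, -1, 1],
   [0, 0, -1, 1],
   [0, 0, 0, -1, 1],
   [0, 0, 0, 0, -1, 1],
   [0, 0, 0, 0, 0, -1, 1],
   [0, 0, 0, 0, 0, 0, -1, 1],
   [0, 0, 0, 0, 0, 0, 0, -1, 1],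
   [0, 0, 0, 0, 0, 0, 0, 0, -1, 1],
   [0, 0, 0, -1, 1, 0, 0, 0, 1, -1],
   [0, 0, 0, 0, 0, 1, 0, -2, 0, 1],
   [0, 1, -1, 0, 0, 0, 0, 0, -1, 1],
   [1, 0, 0, -1, 0, -1, 0, 0, 1],
   [0, 0, 1, -1, 0, 0, 0, -1, 1],
   [-1, 0, 0, 1, 0, 0, 0, 1, -1],
   [0, -1, 0, 0, 1, 0, 1, 0, 0, -1]]

/-- facts valid on the whole region -/
def com : Ders :=
  [(1, 1, [(0, 1), (1, 1)]),
   (2, 1, [(0, 1), (1, 1), (2, 1), (3, 1)]),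
   (3, 1, [(0, 1), (1, 1), (2, 1), (3, 1), (4, 1), (5, 1)]),
   (4, 1, [(0, 1), (1, 1), (2, 1), (3, 1), (4, 1), (5, 1), (6, 1), (7, 1)]),
   (5, 1, [(0, 2), (1, 2)]),
   (6, 1, [(0, 2), (1, 2), (2, 1), (3, 1)]),
   (7, 1, [(0, 2), (1, 2), (2, 1), (3, 1), (4, 1), (5, 1)]),
   (8, 1, [(0, 2), (1, 2), (2, 1), (3, 1), (4, 1), (5, 1), (6, 1), (7, 1)]),
   (9, 1, [(0, 2), (1, 2), (2, 2), (3, 2)]),
   (10, 1, [(0, 2), (1, 2), (2, 2), (3, 2), (4, 1), (5, 1)]),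
   (11, 1, [(0, 2), (1, 2), (2, 2), (3, 2), (4, 1), (5, 1), (6, 1), (7, 1)]),
   (12, 1, [(0, 2), (1, 2), (2, 2), (3, 2), (4, 2), (5, 2)]),
   (13, 1, [(0, 2), (1, 2), (2, 2), (3, 2), (4, 2), (5, 2), (6, 1), (7, 1)]),
   (14, 1, [(0, 2), (1, 2), (2, 2), (3, 2), (4, 2), (5, 2), (6, 2), (7, 2)]),
   (17, 1, [(1, 1), (2, 1), (9, 1), (11, 1)]),
   (18, 1, [(0, 1), (1, 1), (2, 1), (4, 1), (11, 1), (12, 1), (15, 1)]),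
   (19, 1, [(0, 1), (1, 2), (2, 2), (4, 1), (9, 1), (11, 1), (12, 1)]),
   (20, 1, [(0, 1), (1, 1)]),
   (21, 1, [(0, 1), (1, 1), (2, 1), (3, 1)]),
   (22, 1, [(0, 1), (1, 1), (2, 1), (3, 1), (4, 1), (5, 1)]),
   (23, 1, [(0, 1), (1, 1), (2, 1), (3, 1), (4, 1), (5, 1), (6, 1), (7, 1)]),
   (24, 1, [(0, 1), (1, 3), (2, 2), (9, 2), (11, 2)]),
   (25, 1, [(0, 2), (1, 3), (2, 2), (4, 1), (9, 1), (11, 2), (12, 1), (15, 1)]),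
   (26, 1, [(0, 2), (1, 4), (2, 3), (4, 1), (9, 2), (11, 2), (12, 1)]),
   (27, 1, [(0, 3), (1, 3), (2, 2), (4, 2), (11, 2), (12, 2), (15, 2)]),
   (28, 1, [(0, 2), (1, 4), (2, 3), (4, 2), (5, 1), (9, 2), (11, 2), (12, 1)]),
   (33, 1, [(4, 1), (5, 1)]),
   (34, 1, [(4, 1), (5, 1), (6, 1), (7, 1)]),
   (36, 1, [(0, 1), (1, 1)]),
   (37, 1, [(0, 1), (1, 1), (4, 1), (5, 1)]),
   (38, 1, [(0, 1), (1, 1), (4, 1), (5, 1), (6, 1), (7, 1)]),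
   (39, 1, [(0, 1), (1, 1), (2, 1), (3, 1)]),
   (40, 1, [(0, 1), (1, 1), (2, 1), (3, 1), (4, 1), (5, 1)]),
   (41, 1, [(0, 1), (1, 1), (2, 1), (3, 1), (4, 1), (5, 1), (6, 1), (7, 1)]),
   (42, 1, [(0, 1), (1, 1), (2, 1), (3, 1), (4, 2), (5, 2)]),
   (43, 1, [(0, 1), (1, 1), (2, 1), (3, 1), (4, 2), (5, 2), (6, 1), (7, 1)]),
   (44, 1, [(0, 1), (1, 1), (2, 1), (3, 1), (4, 2), (5, 2), (6, 2), (7, 2)]),
   (49, 1, [(6, 1), (7, 1)]),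
   (52, 1, [(0, 1), (1, 1)]),
   (53, 1, [(0, 1), (1, 1), (6, 1), (7, 1)]),
   (55, 1, [(0, 1), (1, 1), (2, 1), (3, 1)]),
   (56, 1, [(0, 1), (1, 1), (2, 1), (3, 1), (6, 1), (7, 1)]),
   (57, 1, [(0, 1), (1, 1), (2, 1), (3, 1), (4, 1), (5, 1)]),
   (58, 1, [(0, 1), (1, 1), (2, 1), (3, 1), (4, 1), (5, 1), (6, 1), (7, 1)]),
   (59, 1, [(0, 1), (1, 1), (2, 1), (3, 1), (4, 1), (5, 1), (6, 2), (7, 2)]),
   (68, 1, [(0, 1), (1, 1)]),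
   (70, 1, [(0, 1), (8, 1), (15, 1)]),
   (71, 1, [(0, 1), (1, 1), (2, 1), (3, 1)]),
   (72, 1, [(0, 1), (4, 1), (5, 1), (8, 1), (15, 1)]),
   (78, 1, [(2, 1), (4, 1), (11, 1), (12, 1), (15, 1)]),
   (79, 2, [(0, 1), (2, 3), (4, 2), (6, 2), (10, 1), (11, 1), (12, 3), (15, 2)]),
   (81, 1, [(1, 1), (2, 1), (9, 1), (11, 1)]),
   (82, 1, [(0, 1), (1, 1), (2, 1), (4, 1), (11, 1), (12, 1), (15, 1)]),
   (83, 1, [(0, 1), (1, 2), (2, 2), (4, 1), (9, 1), (11, 1), (12, 1)]),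
   (84, 1, [(1, 2), (2, 2), (9, 2), (11, 2)]),
   (85, 1, [(0, 1), (1, 2), (2, 2), (4, 1), (9, 1), (11, 2), (12, 1), (15, 1)]),
   (86, 1, [(0, 2), (1, 1), (2, 2), (4, 1), (6, 2), (10, 1), (11, 1), (12, 2), (15, 2)]),
   (87, 1, [(0, 2), (1, 2), (2, 2), (4, 2), (11, 2), (12, 2), (15, 2)]),
   (88, 1, [(0, 2), (1, 3), (2, 3), (4, 2), (9, 1), (11, 2), (12, 2), (15, 1)]),
   (94, 1, [(2, 1), (4, 1), (12, 1)]),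
   (97, 1, [(4, 1), (5, 1)]),
   (98, 1, [(4, 1), (5, 1), (6, 1), (7, 1)]),
   (99, 1, [(1, 1), (2, 1), (9, 1), (11, 1)]),
   (100, 1, [(0, 1), (1, 1), (2, 1), (4, 1), (11, 1), (12, 1), (15, 1)]),
   (101, 1, [(0, 1), (1, 2), (2, 2), (4, 1), (9, 1), (11, 1), (12, 1)]),
   (102, 1, [(0, 1), (1, 1), (2, 1), (4, 2), (5, 1), (11, 1), (12, 1), (15, 1)]),
   (113, 1, [(6, 1), (7, 1)]),
   (115, 1, [(1, 1), (2, 1), (9, 1), (11, 1)]),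
   (116, 2, [(0, 1), (1, 2), (2, 3), (6, 2), (9, 2), (10, 1), (11, 1), (12, 1)]),
   (117, 1, [(0, 1), (1, 1), (2, 1), (4, 1), (11, 1), (12, 1), (15, 1)]),
   (145, 1, [(4, 1), (5, 1)]),
   (146, 1, [(4, 1), (5, 1), (6, 1), (7, 1)]),
   (147, 1, [(4, 2), (5, 2)]),
   (148, 1, [(4, 2), (5, 2), (6, 1), (7, 1)]),
   (149, 1, [(4, 2), (5, 2), (6, 2), (7, 2)]),
   (161, 1, [(6, 1), (7, 1)]),
   (162, 1, [(4, 1), (5, 1)]),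
   (163, 1, [(4, 1), (5, 1), (6, 1), (7, 1)]),
   (164, 1, [(4, 1), (5, 1), (6, 2), (7, 2)]),
   (178, 1, [(4, 1), (5, 1)]),
   (179, 1, [(4, 1), (5, 1), (6, 1), (7, 1)]),
   (193, 1, [(6, 1), (7, 1)]),
   (194, 1, [(6, 2), (7, 2)]),
   (209, 1, [(6, 1), (7, 1)]),
   (226, 1, [(1, 1), (2, 1)]),
   (227, 1, [(1, 1), (2, 1), (3, 1), (4, 1)]),
   (228, 1, [(1, 1), (2, 1), (3, 1), (4, 1), (5, 1), (6, 1)]),
   (230, 1, [(1, 2), (2, 2)]),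
   (231, 1, [(1, 2), (2, 2), (3, 1), (4, 1)]),
   (233, 1, [(0, 1), (1, 3), (2, 3), (3, 1), (4, 1), (8, 1), (12, 1)]),
   (235, 1, [(1, 2), (2, 2), (3, 2), (4, 2), (12, 1), (14, 1)]),
   (236, 1, [(0, 1), (1, 3), (2, 3), (3, 2), (4, 2), (8, 1), (12, 1)]),
   (238, 1, [(0, 1), (1, 3), (2, 3), (3, 2), (4, 2), (5, 1), (6, 1), (8, 1), (12, 1)]),
   (239, 1, [(0, 2), (1, 4), (2, 4), (3, 2), (4, 2), (8, 2), (12, 2)]),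
   (242, 1, [(3, 1), (4, 1)]),
   (243, 1, [(3, 1), (4, 1), (5, 1), (6, 1)]),
   (245, 1, [(1, 1), (2, 1)]),
   (246, 1, [(1, 1), (2, 1), (3, 1), (4, 1)]),
   (248, 1, [(0, 1), (1, 2), (2, 2), (3, 1), (4, 1), (8, 1), (12, 1)]),
   (250, 1, [(1, 1), (2, 1), (3, 2), (4, 2), (5, 1), (6, 1)]),
   (251, 1, [(0, 1), (1, 2), (2, 2), (3, 2), (4, 2), (8, 1), (12, 1)]),
   (253, 1, [(1, 1), (2, 1), (3, 2), (4, 2), (5, 3), (6, 3), (10, 1)]),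
   (254, 1, [(0, 2), (1, 3), (2, 3), (3, 2), (4, 2), (8, 2), (12, 2)]),
   (258, 1, [(5, 1), (6, 1)]),
   (261, 1, [(1, 1), (2, 1)]),
   (263, 1, [(0, 1), (1, 2), (2, 2), (8, 1), (12, 1)]),
   (264, 1, [(1, 1), (2, 1), (3, 1), (4, 1)]),
   (265, 1, [(1, 1), (2, 1), (3, 1), (4, 1), (5, 1), (6, 1)]),
   (266, 1, [(0, 1), (1, 2), (2, 2), (3, 1), (4, 1), (8, 1), (12, 1)]),
   (267, 1, [(1, 1), (2, 1), (3, 1), (4, 1), (5, 2), (6, 2)]),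
   (268, 1, [(0, 1), (1, 2), (2, 2), (3, 1), (4, 1), (5, 1), (6, 1), (8, 1), (12, 1)]),
   (269, 1, [(0, 2), (1, 3), (2, 3), (3, 1), (4, 1), (8, 2), (12, 2)]),
   (278, 2, [(0, 1), (1, 3), (2, 3), (8, 1), (10, 1), (12, 1)]),
   (279, 1, [(4, 1), (6, 1), (10, 1), (15, 1)]),
   (280, 1, [(1, 1), (2, 1), (3, 1), (4, 1)]),
   (281, 2, [(0, 1), (1, 3), (2, 3), (3, 2), (4, 2), (8, 1), (10, 1), (12, 1)]),
   (282, 1, [(1, 1), (2, 1), (3, 1), (4, 1), (5, 1), (6, 1)]),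
   (283, 1, [(0, 1), (1, 2), (2, 2), (3, 1), (4, 1), (8, 1), (12, 1)]),
   (284, 2, [(0, 3), (1, 5), (2, 5), (3, 2), (4, 2), (8, 3), (10, 1), (12, 3)]),
   (293, 1, [(1, 1), (2, 1)]),
   (295, 1, [(4, 1), (6, 1), (15, 1)]),
   (296, 1, [(1, 1), (2, 1), (3, 1), (4, 1)]),
   (297, 1, [(4, 1), (5, 1), (6, 2), (15, 1)]),
   (298, 1, [(1, 1), (2, 1), (3, 1), (4, 1), (5, 1), (6, 1)]),
   (299, 1, [(0, 1), (1, 2), (2, 2), (3, 1), (4, 1), (8, 1), (12, 1)]),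
   (306, 1, [(3, 1), (4, 1)]),
   (308, 1, [(3, 1), (4, 1), (5, 2), (6, 2), (10, 1)]),
   (309, 1, [(3, 2), (4, 2)]),
   (310, 1, [(3, 2), (4, 2), (5, 1), (6, 1)]),
   (311, 1, [(0, 1), (1, 1), (2, 1), (3, 2), (4, 2), (8, 1), (12, 1)]),
   (313, 1, [(3, 2), (4, 2), (5, 3), (6, 3), (10, 1)]),
   (314, 1, [(3, 2), (4, 2), (5, 4), (6, 4), (10, 2)]),
   (323, 1, [(5, 1), (6, 1), (7, 1), (8, 1)]),
   (324, 1, [(3, 1), (4, 1)]),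
   (325, 1, [(3, 1), (4, 1), (5, 1), (6, 1)]),
   (326, 1, [(3, 1), (4, 1), (5, 2), (6, 2), (10, 1)]),
   (327, 1, [(3, 1), (4, 1), (5, 2), (6, 2)]),
   (328, 1, [(3, 1), (4, 1), (5, 3), (6, 3), (10, 1)]),
   (329, 1, [(1, 2), (2, 2), (3, 1), (4, 1), (5, 2), (6, 2), (11, 2), (13, 2)]),
   (338, 1, [(7, 1), (8, 1)]),
   (340, 1, [(3, 1), (4, 1)]),
   (341, 2, [(0, 1), (1, 1), (2, 1), (3, 2), (4, 2), (8, 1), (10, 1), (12, 1)]),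
   (342, 1, [(3, 1), (4, 1), (5, 1), (6, 1)]),
   (343, 1, [(3, 1), (4, 1), (5, 2), (6, 2), (10, 1)]),
   (344, 2, [(0, 3), (1, 6), (2, 3), (3, 2), (4, 2), (10, 1), (11, 3), (12, 3)]),
   (356, 1, [(3, 1), (4, 1)]),
   (358, 1, [(3, 1), (4, 1), (5, 1), (6, 1)]),
   (359, 1, [(3, 1), (4, 1), (5, 2), (6, 2), (10, 1)]),
   (370, 1, [(5, 1), (6, 1)]),
   (371, 1, [(5, 1), (6, 1), (7, 1), (8, 1)]),
   (372, 1, [(5, 2), (6, 2)]),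
   (373, 1, [(5, 2), (6, 2), (7, 1), (8, 1)]),
   (374, 1, [(5, 2), (6, 2), (7, 2), (8, 2)]),
   (386, 1, [(7, 1), (8, 1)]),
   (387, 1, [(5, 1), (6, 1)]),
   (388, 1, [(5, 1), (6, 1), (7, 1), (8, 1)]),
   (389, 1, [(5, 1), (6, 1), (7, 2), (8, 2)]),
   (403, 1, [(5, 1), (6, 1)]),
   (404, 1, [(5, 1), (6, 1), (7, 1), (8, 1)]),
   (416, 1, [(10, 1)]),
   (418, 1, [(7, 1), (8, 1)]),
   (419, 1, [(7, 2), (8, 2)]),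
   (434, 1, [(7, 1), (8, 1)]),
   (515, 1, [(11, 1)]),
   (539, 1, [(14, 1)]),
   (566, 1, [(14, 1)]),
   (613, 1, [(4, 1), (6, 1), (11, 1), (15, 1)]),
   (623, 1, [(11, 1)]),
   (672, 1, [(6, 2), (10, 1)]),
   (688, 1, [(1, 1), (2, 1), (12, 1)]),
   (703, 1, [(5, 1), (6, 1), (13, 1)]),
   (704, 1, [(13, 1)]),
   (730, 1, [(4, 1), (5, 1), (11, 1), (13, 1), (15, 1)]),
   (744, 1, [(9, 1)]),
   (763, 1, [(12, 1)]),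
   (773, 1, [(1, 1), (2, 1), (12, 1)]),
   (776, 1, [(12, 1)]),
   (817, 1, [(1, 1), (5, 1)]),
   (821, 1, [(5, 1), (6, 1), (13, 1)]),
   (836, 1, [(13, 1)]),
   (865, 1, [(11, 1), (13, 1), (15, 1)]),
   (877, 1, [(15, 1)]),
   (881, 1, [(9, 1)]),
   (891, 1, [(15, 1)])]

theorem com_ok : dersOK ctx0 com = true := by decide +kernel

end Pool.Agent.MSTDIntervals
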