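import Mathlib

/-!
Definitions for problem MP_9a6c6e_co (collections of `n` intervals with more sums than differences).
-/

namespace Pool.Agent.MSTDIntervals

open MeasureTheory Set
open scoped Pointwise

/-- vectors `(a_1, b_1, ..., a_n, b_n)`; `v i = (a_i, b_i)`, with the product (Euclidean) topology -/
abbrev Vec (n : ℕ) := Fin n → ℝ × ℝ

/-- the parameter space `P_n`: `a_1 ≤ b_1 ≤ a_2 ≤ b_2 ≤ ... ≤ a_n ≤ b_n` -/
def PSet (n : ℕ) : Set (Vec n) :=
  {v | (∀ i, (v i).1 ≤ (v i).2) ∧ ∀ i j, i < j → (v i).2 ≤ (v j).1}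

/-- the set `J_v = [a_1, b_1] ∪ ... ∪ [a_n, b_n]` -/
def J {n : ℕ} (v : Vec n) : Set ℝ := ⋃ i, Icc (v i).1 (v i).2

/-- `v` is MSTD: the Lebesgue measure of `J_v + J_v` exceeds that of `J_v - J_v` -/
def MSTD {n : ℕ} (v : Vec n) : Prop := volume (J v - J v) < volume (J v + J v)

/-- the vector obtained from `v` by cutting the `i`-th interval at `p` -/
def cleave {n : ℕ} (v : Vec n) (i : Fin n) (p : ℝ) : Vec (n + 1) := fun j =>
  if h : j.val < i.val then v ⟨j.val, by omega⟩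
  else if j.val = i.val then ((v i).1, p)
  else if j.val = i.val + 1 then (p, (v i).2)
  else v ⟨j.val - 1, by omega⟩

/-- `w ∈ P_{n+1}` is a cleaved image of an MSTD point of `P_n` -/
def IsCleavedImage (n : ℕ) (w : Vec (n + 1)) : Prop :=
  ∃ v ∈ PSet n, MSTD v ∧ ∃ (i : Fin n) (p : ℝ), (v i).1 < p ∧ p < (v i).2 ∧ w = cleave v i p

/-- `w` and `w'` are joined by an MSTD path in `P_m` -/
def JoinedMSTD (m : ℕ) (w w' : Vec m) : Prop :=
  ∃ γ : unitInterval → Vec m, Continuous γ ∧ γ 0 = w ∧ γ 1 = w' ∧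
    ∀ t, γ t ∈ PSet m ∧ MSTD (γ t)

end Pool.Agent.MSTDIntervals
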