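import Pool.Agent.MSTDIntervals.Main

/-!
Exact measures of the sumset and the difference set of the starting point `w5`.
-/

namespace Pool.Agent.MSTDIntervals

open MeasureTheory Set
open scoped Pointwise

/-- the point `([0,1],[3,5],[9,16],[19,20],[23,26])` of `P_5` -/
def point5 : Vec 5 := ![(0, 1), (3, 5), (9, 16), (19, 20), (23, 26)]

lemma point5_eq : ofInt w5 = point5 := by
  funext i
  fin_cases i <;> simp [ofInt, w5, point5]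

lemma mem_J5 (x : ℝ) : x ∈ J point5 ↔
    (0 ≤ x ∧ x ≤ 1) ∨ (3 ≤ x ∧ x ≤ 5) ∨ (9 ≤ x ∧ x ≤ 16) ∨ (19 ≤ x ∧ x ≤ 20) ∨
      (23 ≤ x ∧ x ≤ 26) := by
  simp only [J, mem_iUnion, mem_Icc]
  constructor
  · rintro ⟨i, hi⟩
    fin_cases i <;> simp [point5] at hi <;> tauto
  · rintro (h | h | h | h | h)
    · exact ⟨0, by simpa [point5] using h⟩
    · exact ⟨1, by simpa [point5] using h⟩
    · exact ⟨2, by simpa [point5] using h⟩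
    · exact ⟨3, by simpa [point5] using h⟩
    · exact ⟨4, by simpa [point5] using h⟩

lemma add_split {a b c d x : ℝ} (hab : a ≤ b) (hcd : c ≤ d) (h1 : a + c ≤ x) (h2 : x ≤ b + d) :
    ∃ s t : ℝ, a ≤ s ∧ s ≤ b ∧ c ≤ t ∧ t ≤ d ∧ s + t = x := by
  by_cases h : x ≤ a + d
  · exact ⟨a, x - a, le_rfl, hab, by linarith, by linarith, by ring⟩
  · push Not at h
    exact ⟨x - d, d, by linarith, by linarith, hcd, le_rfl, by ring⟩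

lemma sub_split {a b c d x : ℝ} (hab : a ≤ b) (hcd : c ≤ d) (h1 : a - d ≤ x) (h2 : x ≤ b - c) :
    ∃ s t : ℝ, a ≤ s ∧ s ≤ b ∧ c ≤ t ∧ t ≤ d ∧ s - t = x := by
  obtain ⟨s, t, h3, h4, h5, h6, h7⟩ := add_split (a := a) (b := b) (c := -d) (d := -c) (x := x)
    hab (by linarith) (by linarith) (by linarith)
  exact ⟨s, -t, h3, h4, by linarith, by linarith, by linarith⟩

lemma add5 : J point5 + J point5 = Icc 0 2 ∪ Icc 3 52 := by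
  ext x
  rw [Set.mem_add]
  simp only [mem_J5, mem_union, mem_Icc]
  constructor
  · rintro ⟨s, hs, t, ht, rfl⟩
    rcases hs with hs | hs | hs | hs | hs <;> rcases ht with ht | ht | ht | ht | ht <;>
      first
        | exact Or.inl ⟨by linarith [hs.1, ht.1], by linarith [hs.2, ht.2]⟩
        | exact Or.inr ⟨by linarith [hs.1, ht.1], by linarith [hs.2, ht.2]⟩
  · intro hx
    have key : (0 ≤ x ∧ x ≤ 2) ∨ (3 ≤ x ∧ x ≤ 6) ∨ (6 ≤ x ∧ x ≤ 10) ∨ (9 ≤ x ∧ x ≤ 17) ∨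
        (12 ≤ x ∧ x ≤ 21) ∨ (18 ≤ x ∧ x ≤ 32) ∨ (28 ≤ x ∧ x ≤ 36) ∨ (32 ≤ x ∧ x ≤ 42) ∨
        (42 ≤ x ∧ x ≤ 46) ∨ (46 ≤ x ∧ x ≤ 52) := by
      rcases hx with ⟨h1, h2⟩ | ⟨h1, h2⟩
      · exact Or.inl ⟨h1, h2⟩
      · rcases le_total x 6 with h | h
        · exact Or.inr (Or.inl ⟨h1, h⟩)
        rcases le_total x 10 with h' | h'
        · exact Or.inr (Or.inr (Or.inl ⟨h, h'⟩))
        rcases le_total x 17 with h3 | h3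
        · exact Or.inr (Or.inr (Or.inr (Or.inl ⟨by linarith, h3⟩)))
        rcases le_total x 21 with h4 | h4
        · exact Or.inr (Or.inr (Or.inr (Or.inr (Or.inl ⟨by linarith, h4⟩))))
        rcases le_total x 32 with h5 | h5
        · exact Or.inr (Or.inr (Or.inr (Or.inr (Or.inr (Or.inl ⟨by linarith, h5⟩)))))
        rcases le_total x 36 with h6 | h6
        · exact Or.inr (Or.inr (Or.inr (Or.inr (Or.inr (Or.inr (Or.inl ⟨by linarith, h6⟩))))))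
        rcases le_total x 42 with h7 | h7
        · exact Or.inr (Or.inr (Or.inr (Or.inr (Or.inr (Or.inr (Or.inr (Or.inl
            ⟨by linarith, h7⟩)))))))
        rcases le_total x 46 with h8 | h8
        · exact Or.inr (Or.inr (Or.inr (Or.inr (Or.inr (Or.inr (Or.inr (Or.inr (Or.inl
            ⟨h7, h8⟩))))))))
        · exact Or.inr (Or.inr (Or.inr (Or.inr (Or.inr (Or.inr (Or.inr (Or.inr (Or.inr
            ⟨h8, h2⟩))))))))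
    have mk : ∀ a b c d : ℝ, a ≤ b → c ≤ d →
        (∀ s, a ≤ s → s ≤ b → ((0 ≤ s ∧ s ≤ 1) ∨ (3 ≤ s ∧ s ≤ 5) ∨ (9 ≤ s ∧ s ≤ 16) ∨
          (19 ≤ s ∧ s ≤ 20) ∨ (23 ≤ s ∧ s ≤ 26))) →
        (∀ s, c ≤ s → s ≤ d → ((0 ≤ s ∧ s ≤ 1) ∨ (3 ≤ s ∧ s ≤ 5) ∨ (9 ≤ s ∧ s ≤ 16) ∨
          (19 ≤ s ∧ s ≤ 20) ∨ (23 ≤ s ∧ s ≤ 26))) → a + c ≤ x → x ≤ b + d →
        ∃ s, ((0 ≤ s ∧ s ≤ 1) ∨ (3 ≤ s ∧ s ≤ 5) ∨ (9 ≤ s ∧ s ≤ 16) ∨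
          (19 ≤ s ∧ s ≤ 20) ∨ (23 ≤ s ∧ s ≤ 26)) ∧ ∃ t, ((0 ≤ t ∧ t ≤ 1) ∨ (3 ≤ t ∧ t ≤ 5) ∨
          (9 ≤ t ∧ t ≤ 16) ∨ (19 ≤ t ∧ t ≤ 20) ∨ (23 ≤ t ∧ t ≤ 26)) ∧ s + t = x := by
      intro a b c d hab hcd hA hC h1 h2
      obtain ⟨s, t, h3, h4, h5, h6, h7⟩ := add_split hab hcd h1 h2
      exact ⟨s, hA s h3 h4, t, hC t h5 h6, h7⟩
    have A1 : ∀ s : ℝ, 0 ≤ s → s ≤ 1 → ((0 ≤ s ∧ s ≤ 1) ∨ (3 ≤ s ∧ s ≤ 5) ∨ (9 ≤ s ∧ s ≤ 16) ∨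
          (19 ≤ s ∧ s ≤ 20) ∨ (23 ≤ s ∧ s ≤ 26)) := fun s h h' => Or.inl ⟨h, h'⟩
    have A2 : ∀ s : ℝ, 3 ≤ s → s ≤ 5 → ((0 ≤ s ∧ s ≤ 1) ∨ (3 ≤ s ∧ s ≤ 5) ∨ (9 ≤ s ∧ s ≤ 16) ∨
          (19 ≤ s ∧ s ≤ 20) ∨ (23 ≤ s ∧ s ≤ 26)) := fun s h h' => Or.inr (Or.inl ⟨h, h'⟩)
    have A3 : ∀ s : ℝ, 9 ≤ s → s ≤ 16 → ((0 ≤ s ∧ s ≤ 1) ∨ (3 ≤ s ∧ s ≤ 5) ∨ (9 ≤ s ∧ s ≤ 16) ∨
          (19 ≤ s ∧ s ≤ 20) ∨ (23 ≤ s ∧ s ≤ 26)) :=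
      fun s h h' => Or.inr (Or.inr (Or.inl ⟨h, h'⟩))
    have A4 : ∀ s : ℝ, 19 ≤ s → s ≤ 20 → ((0 ≤ s ∧ s ≤ 1) ∨ (3 ≤ s ∧ s ≤ 5) ∨ (9 ≤ s ∧ s ≤ 16) ∨
          (19 ≤ s ∧ s ≤ 20) ∨ (23 ≤ s ∧ s ≤ 26)) :=
      fun s h h' => Or.inr (Or.inr (Or.inr (Or.inl ⟨h, h'⟩)))
    have A5 : ∀ s : ℝ, 23 ≤ s → s ≤ 26 → ((0 ≤ s ∧ s ≤ 1) ∨ (3 ≤ s ∧ s ≤ 5) ∨ (9 ≤ s ∧ s ≤ 16) ∨
          (19 ≤ s ∧ s ≤ 20) ∨ (23 ≤ s ∧ s ≤ 26)) :=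
      fun s h h' => Or.inr (Or.inr (Or.inr (Or.inr ⟨h, h'⟩)))
    rcases key with ⟨h1, h2⟩ | ⟨h1, h2⟩ | ⟨h1, h2⟩ | ⟨h1, h2⟩ | ⟨h1, h2⟩ | ⟨h1, h2⟩ | ⟨h1, h2⟩ |
      ⟨h1, h2⟩ | ⟨h1, h2⟩ | ⟨h1, h2⟩
    · exact mk 0 1 0 1 (by norm_num) (by norm_num) A1 A1 (by linarith) (by linarith)
    · exact mk 0 1 3 5 (by norm_num) (by norm_num) A1 A2 (by linarith) (by linarith)
    · exact mk 3 5 3 5 (by norm_num) (by norm_num) A2 A2 (by linarith) (by linarith)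
    · exact mk 0 1 9 16 (by norm_num) (by norm_num) A1 A3 (by linarith) (by linarith)
    · exact mk 3 5 9 16 (by norm_num) (by norm_num) A2 A3 (by linarith) (by linarith)
    · exact mk 9 16 9 16 (by norm_num) (by norm_num) A3 A3 (by linarith) (by linarith)
    · exact mk 9 16 19 20 (by norm_num) (by norm_num) A3 A4 (by linarith) (by linarith)
    · exact mk 9 16 23 26 (by norm_num) (by norm_num) A3 A5 (by linarith) (by linarith)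
    · exact mk 19 20 23 26 (by norm_num) (by norm_num) A4 A5 (by linarith) (by linarith)
    · exact mk 23 26 23 26 (by norm_num) (by norm_num) A5 A5 (by linarith) (by linarith)

lemma sub5 : J point5 - J point5 = (Icc (-26) (-18) ∪ Icc (-17) 17) ∪ Icc 18 26 := by
  ext x
  rw [Set.mem_sub]
  simp only [mem_J5, mem_union, mem_Icc]
  constructor
  · rintro ⟨s, hs, t, ht, rfl⟩
    rcases hs with hs | hs | hs | hs | hs <;> rcases ht with ht | ht | ht | ht | ht <;>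
      first
        | exact Or.inl (Or.inl ⟨by linarith [hs.1, ht.2], by linarith [hs.2, ht.1]⟩)
        | exact Or.inl (Or.inr ⟨by linarith [hs.1, ht.2], by linarith [hs.2, ht.1]⟩)
        | exact Or.inr ⟨by linarith [hs.1, ht.2], by linarith [hs.2, ht.1]⟩
  · intro hx
    have key : (-26 ≤ x ∧ x ≤ -22) ∨ (-23 ≤ x ∧ x ≤ -18) ∨ (-17 ≤ x ∧ x ≤ -7) ∨
        (-7 ≤ x ∧ x ≤ 7) ∨ (7 ≤ x ∧ x ≤ 17) ∨ (18 ≤ x ∧ x ≤ 23) ∨ (22 ≤ x ∧ x ≤ 26) := by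
      rcases hx with (⟨h1, h2⟩ | ⟨h1, h2⟩) | ⟨h1, h2⟩
      · rcases le_total x (-22) with h | h
        · exact Or.inl ⟨h1, h⟩
        · exact Or.inr (Or.inl ⟨by linarith, h2⟩)
      · rcases le_total x (-7) with h | h
        · exact Or.inr (Or.inr (Or.inl ⟨h1, h⟩))
        rcases le_total x 7 with h' | h'
        · exact Or.inr (Or.inr (Or.inr (Or.inl ⟨h, h'⟩)))
        · exact Or.inr (Or.inr (Or.inr (Or.inr (Or.inl ⟨h', h2⟩))))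
      · rcases le_total x 23 with h | h
        · exact Or.inr (Or.inr (Or.inr (Or.inr (Or.inr (Or.inl ⟨h1, h⟩)))))
        · exact Or.inr (Or.inr (Or.inr (Or.inr (Or.inr (Or.inr ⟨by linarith, h2⟩)))))
    have mk : ∀ a b c d : ℝ, a ≤ b → c ≤ d →
        (∀ s, a ≤ s → s ≤ b → ((0 ≤ s ∧ s ≤ 1) ∨ (3 ≤ s ∧ s ≤ 5) ∨ (9 ≤ s ∧ s ≤ 16) ∨
          (19 ≤ s ∧ s ≤ 20) ∨ (23 ≤ s ∧ s ≤ 26))) →
        (∀ s, c ≤ s → s ≤ d → ((0 ≤ s ∧ s ≤ 1) ∨ (3 ≤ s ∧ s ≤ 5) ∨ (9 ≤ s ∧ s ≤ 16) ∨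
          (19 ≤ s ∧ s ≤ 20) ∨ (23 ≤ s ∧ s ≤ 26))) → a - d ≤ x → x ≤ b - c →
        ∃ s, ((0 ≤ s ∧ s ≤ 1) ∨ (3 ≤ s ∧ s ≤ 5) ∨ (9 ≤ s ∧ s ≤ 16) ∨
          (19 ≤ s ∧ s ≤ 20) ∨ (23 ≤ s ∧ s ≤ 26)) ∧ ∃ t, ((0 ≤ t ∧ t ≤ 1) ∨ (3 ≤ t ∧ t ≤ 5) ∨
          (9 ≤ t ∧ t ≤ 16) ∨ (19 ≤ t ∧ t ≤ 20) ∨ (23 ≤ t ∧ t ≤ 26)) ∧ s - t = x := by
      intro a b c d hab hcd hA hC h1 h2
      obtain ⟨s, t, h3, h4, h5, h6, h7⟩ := sub_split hab hcd h1 h2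
      exact ⟨s, hA s h3 h4, t, hC t h5 h6, h7⟩
    have A1 : ∀ s : ℝ, 0 ≤ s → s ≤ 1 → ((0 ≤ s ∧ s ≤ 1) ∨ (3 ≤ s ∧ s ≤ 5) ∨ (9 ≤ s ∧ s ≤ 16) ∨
          (19 ≤ s ∧ s ≤ 20) ∨ (23 ≤ s ∧ s ≤ 26)) := fun s h h' => Or.inl ⟨h, h'⟩
    have A2 : ∀ s : ℝ, 3 ≤ s → s ≤ 5 → ((0 ≤ s ∧ s ≤ 1) ∨ (3 ≤ s ∧ s ≤ 5) ∨ (9 ≤ s ∧ s ≤ 16) ∨
          (19 ≤ s ∧ s ≤ 20) ∨ (23 ≤ s ∧ s ≤ 26)) := fun s h h' => Or.inr (Or.inl ⟨h, h'⟩)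
    have A3 : ∀ s : ℝ, 9 ≤ s → s ≤ 16 → ((0 ≤ s ∧ s ≤ 1) ∨ (3 ≤ s ∧ s ≤ 5) ∨ (9 ≤ s ∧ s ≤ 16) ∨
          (19 ≤ s ∧ s ≤ 20) ∨ (23 ≤ s ∧ s ≤ 26)) :=
      fun s h h' => Or.inr (Or.inr (Or.inl ⟨h, h'⟩))
    have A5 : ∀ s : ℝ, 23 ≤ s → s ≤ 26 → ((0 ≤ s ∧ s ≤ 1) ∨ (3 ≤ s ∧ s ≤ 5) ∨ (9 ≤ s ∧ s ≤ 16) ∨
          (19 ≤ s ∧ s ≤ 20) ∨ (23 ≤ s ∧ s ≤ 26)) :=
      fun s h h' => Or.inr (Or.inr (Or.inr (Or.inr ⟨h, h'⟩)))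
    rcases key with ⟨h1, h2⟩ | ⟨h1, h2⟩ | ⟨h1, h2⟩ | ⟨h1, h2⟩ | ⟨h1, h2⟩ | ⟨h1, h2⟩ | ⟨h1, h2⟩
    · exact mk 0 1 23 26 (by norm_num) (by norm_num) A1 A5 (by linarith) (by linarith)
    · exact mk 3 5 23 26 (by norm_num) (by norm_num) A2 A5 (by linarith) (by linarith)
    · exact mk 9 16 23 26 (by norm_num) (by norm_num) A3 A5 (by linarith) (by linarith)
    · exact mk 9 16 9 16 (by norm_num) (by norm_num) A3 A3 (by linarith) (by linarith)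
    · exact mk 23 26 9 16 (by norm_num) (by norm_num) A5 A3 (by linarith) (by linarith)
    · exact mk 23 26 3 5 (by norm_num) (by norm_num) A5 A2 (by linarith) (by linarith)
    · exact mk 23 26 0 1 (by norm_num) (by norm_num) A5 A1 (by linarith) (by linarith)

lemma vol_add5 : volume (J point5 + J point5) = 51 := by
  rw [add5, measure_union _ measurableSet_Icc, Real.volume_Icc, Real.volume_Icc,
    ← ENNReal.ofReal_add (by norm_num) (by norm_num)]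
  · norm_num
  · rw [Set.disjoint_left]
    intro x hx hy
    simp only [mem_Icc] at hx hy
    linarith [hx.2, hy.1]

lemma vol_sub5 : volume (J point5 - J point5) = 50 := by
  rw [sub5, measure_union _ measurableSet_Icc, measure_union _ measurableSet_Icc,
    Real.volume_Icc, Real.volume_Icc, Real.volume_Icc,
    ← ENNReal.ofReal_add (by norm_num) (by norm_num),
    ← ENNReal.ofReal_add (by norm_num) (by norm_num)]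
  · norm_num
  · rw [Set.disjoint_left]
    intro x hx hy
    simp only [mem_Icc] at hx hy
    linarith [hx.2, hy.1]
  · rw [Set.disjoint_left]
    intro x hx hy
    simp only [mem_Icc, mem_union] at hx hy
    rcases hx with hx | hx <;> linarith [hx.2, hy.1]

end Pool.Agent.MSTDIntervals
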