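import Pool.Agent.MSTDIntervals.Data0

/-!
Certificate data (machine generated, checked by the kernel).
-/

namespace Pool.Agent.MSTDIntervals

/-- certificate for the face `[0, -1, 1] = 0` -/
def tree0 : Tree :=
  (.der [(455, 1, [(0, 1), (1, 1)]), (591, 1, [(0, 1), (5, 1)]), (597, 1, [(0, 1), (5, 1), (7, 2), (11, 1), (16, 1)]), (607, 1, [(0, 1), (7, 1)])]
  (.br [-1, 1, 0, 0, 0, 1, -1]
  (.der [(462, 1, [(0, 1)]), (547, 1, [(0, 1)])]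
  (.br [0, 1, 0, 0, -2, 1]
  (.der [(486, 1, [(0, 1)])]
  (.leaf [(1, [⟨0, 14, [0, 1, 2, 3, 4, 5, 6, 7, 8, 9, 10, 11, 12, 13, 14]⟩])] [(1, [(2, false), (6, false), (7, false), (11, false), (8, false)])] 1 []))
  (.br [0, 0, 0, 1, -2, 0, 0, 0, 0, 1]
  (.der [(654, 1, [(0, 1)])]
  (.br [0, 0, 0, 1, 0, -2, 0, 0, 0, 1]
  (.der [(368, 1, [(0, 1)])]
  (.br [0, 0, 0, 1, -1, 0, -1, 0, 0, 1]
  (.der [(669, 1, [(0, 1)])]
  (.leaf [(1, [⟨0, 14, [0, 1, 2, 3, 4, 5, 6, 7, 8, 9, 10, 11, 12, 13, 14]⟩])] [(1, [(0, false), (5, false), (14, false), (9, false), (6, false), (7, false), (11, false), (8, false)])] 1 []))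
  (.der [(894, 1, [(0, 1)])]
  (.leaf [(2, [⟨0, 8, [0, 1, 2, 3, 4, 5, 6, 7, 8, 9]⟩, ⟨10, 14, [10, 11, 12, 13, 14]⟩]), (4, [⟨0, 5, [0, 1, 5]⟩, ⟨2, 8, [2, 3, 4, 6, 7, 8, 9]⟩, ⟨10, 11, [10, 11, 12]⟩, ⟨13, 14, [13, 14]⟩])] [(1, [(0, false), (5, false), (13, true), (9, false), (6, false), (11, true), (8, false)]), (5, [(0, false), (5, false), (14, false), (9, true), (6, false), (7, false), (11, false), (8, false)])] 1 []))))
  (.der [(294, 1, [(0, 1), (6, 1), (7, 1)]), (339, 4, [(0, 3), (1, 1), (8, 2), (15, 2)]), (354, 1, [(0, 1)])]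
  (.br [0, 0, 0, 0, -1, 1, 0, 1, -1]
  (.der [(643, 1, [(0, 1)])]
  (.leaf [(1, [⟨0, 14, [0, 1, 2, 3, 4, 5, 6, 7, 8, 9, 10, 11, 12, 13, 14]⟩])] [(1, [(0, false), (12, false), (13, false), (9, false), (6, false), (7, false), (11, false), (8, false)])] 1 []))
  (.der [(868, 1, [(0, 1)])]
  (.br [0, 0, 0, 1, -1, 0, -1, 0, 0, 1]
  (.der [(669, 1, [(0, 1)])]
  (.leaf [(1, [⟨0, 14, [0, 1, 2, 3, 4, 5, 6, 7, 8, 9, 10, 11, 12, 13, 14]⟩])] [(1, [(0, false), (5, false), (14, false), (9, false), (6, false), (7, false), (11, false), (8, false)])] 1 []))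
  (.der [(894, 1, [(0, 1)])]
  (.leaf [(4, [⟨0, 5, [0, 1, 5]⟩, ⟨2, 9, [2, 3, 4, 6, 7, 8, 9]⟩, ⟨10, 13, [10, 11, 12, 13]⟩, ⟨14, 14, [14]⟩])] [(1, [(0, false), (5, false), (13, true), (9, false), (6, false), (11, true), (8, false)]), (2, [(0, false), (12, false), (13, true), (9, false), (6, false), (7, false), (11, false), (8, false)]), (1, [(0, false), (5, false), (14, false), (9, true), (6, false), (7, false), (11, false), (8, false)])] 1 [(0, 2)]))))))))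
  (.der [(879, 1, [(0, 1)])]
  (.br [0, 0, 0, 0, 0, 1, -1, 0, -1, 1]
  (.der [(673, 1, [(0, 1)])]
  (.leaf [(2, [⟨0, 5, [0, 1, 5]⟩, ⟨2, 8, [2, 3, 4, 6, 7, 8]⟩, ⟨9, 13, [9, 10, 11, 12, 13]⟩, ⟨14, 14, [14]⟩]), (2, [⟨0, 5, [0, 1, 5]⟩, ⟨2, 8, [2, 3, 4, 6, 7, 8]⟩, ⟨9, 9, [9]⟩, ⟨10, 13, [10, 11, 12, 13]⟩, ⟨14, 14, [14]⟩])] [(1, [(0, false), (5, false), (14, false), (6, true), (7, false), (11, false), (8, false)]), (1, [(0, false), (5, false), (13, true), (9, true), (6, false), (11, true), (8, false)]), (2, [(1, false), (14, true), (13, false), (9, true), (6, false), (7, false), (11, false), (8, false)])] 1 [(4, 2), (7, 2)]))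
  (.der [(898, 1, [(0, 1)])]
  (.leaf [(2, [⟨0, 5, [0, 1, 5]⟩, ⟨2, 8, [2, 3, 4, 6, 7, 8]⟩, ⟨9, 11, [9, 10, 11, 12]⟩, ⟨13, 13, [13]⟩, ⟨14, 14, [14]⟩]), (2, [⟨0, 5, [0, 1, 5]⟩, ⟨2, 8, [2, 3, 4, 6, 7, 8]⟩, ⟨9, 9, [9]⟩, ⟨10, 11, [10, 11, 12]⟩, ⟨13, 13, [13]⟩, ⟨14, 14, [14]⟩])] [(1, [(0, false), (5, false), (14, false), (6, true), (7, false), (11, false), (8, false)]), (1, [(0, false), (5, false), (13, true), (9, true), (6, false), (11, true), (8, false)]), (2, [(1, false), (14, true), (13, true), (9, true), (6, false), (7, false), (11, false), (8, false)])] 1 [(4, 2), (7, 2)])))))))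
  (.der [(687, 1, [(0, 1)]), (772, 1, [(0, 1)])]
  (.br [1, 0, 0, -1, 0, -1, 1]
  (.der [(762, 1, [(0, 1)]), (775, 1, [(0, 1)])]
  (.br [0, 0, 0, 1, -2, 0, 0, 0, 0, 1]
  (.der [(654, 1, [(0, 1)])]
  (.br [0, 0, 0, 0, 1, -1, 0, -1, 1]
  (.der [(868, 1, [(0, 1)])]
  (.br [0, 0, 0, 1, 0, -2, 0, 0, 0, 1]
  (.der [(368, 1, [(0, 1)])]
  (.br [-1, 0, 0, 0, 2, 0, -1]
  (.der [(54, 1, [(0, 1)])]
  (.br [0, 0, 0, 1, -1, 0, -1, 0, 0, 1]
  (.der [(669, 1, [(0, 1)])]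
  (.leaf [(1, [⟨0, 5, [0, 1, 5]⟩, ⟨2, 6, [2, 6]⟩, ⟨3, 11, [3, 4, 7, 8, 9, 10, 11, 12]⟩, ⟨13, 14, [13, 14]⟩])] [(1, [(0, false), (5, false), (14, false), (9, false), (6, false), (10, true), (7, false), (11, false), (8, false)])] 1 [(17, 1)]))
  (.der [(894, 1, [(0, 1)])]
  (.leaf [(2, [⟨0, 6, [0, 1, 2, 5, 6]⟩, ⟨3, 8, [3, 4, 7, 8, 9]⟩, ⟨10, 14, [10, 11, 12, 13, 14]⟩]), (18, [⟨0, 5, [0, 1, 5]⟩, ⟨2, 6, [2, 6]⟩, ⟨3, 8, [3, 4, 7, 8, 9]⟩, ⟨10, 11, [10, 11, 12]⟩, ⟨13, 14, [13, 14]⟩])] [(2, [(0, false), (5, false), (14, false), (6, true), (7, true), (11, false), (8, false)]), (2, [(1, false), (14, true), (12, false), (13, true), (9, false), (6, false), (10, true), (11, true), (8, false)]), (1, [(4, false), (9, true), (12, false), (13, true), (11, true), (8, false)]), (15, [(0, false), (5, false), (14, false), (9, true), (6, false), (10, true), (7, false), (11, false),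 (8, false)])] 1 [(7, 8), (12, 6), (14, 14)]))))
  (.der [(138, 1, [(0, 1)]), (139, 1, [(0, 1), (2, 1), (11, 1), (13, 1)]), (142, 1, [(0, 1), (7, 1), (8, 1)]), (143, 1, [(0, 1), (2, 1), (7, 1), (8, 1), (11, 1), (13, 1)]), (177, 2, [(0, 2), (4, 1), (7, 1), (10, 1), (17, 1), (21, 2), (22, 1)]), (655, 1, [(0, 1), (2, 1), (13, 2), (17, 1), (21, 1)]), (669, 1, [(0, 1), (2, 1), (13, 2), (17, 1), (21, 1)])]
  (.br [-1, 0, 0, 0, 0, 2, 0, 0, -1]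
  (.der [(553, 1, [(0, 1)])]
  (.leaf [(1, [⟨0, 14, [0, 1, 2, 3, 4, 5, 6, 7, 8, 9, 10, 11, 12, 13, 14]⟩])] [(1, [(0, false), (5, false), (14, false), (9, false), (6, false), (13, false), (10, false), (7, false), (11, false), (8, false)])] 1 []))
  (.der [(383, 1, [(0, 1), (18, 1), (22, 1)]), (778, 1, [(0, 1)])]
  (.leaf [(6, [⟨0, 6, [0, 1, 2, 5, 6]⟩, ⟨9, 8, [3, 4, 7, 8, 9, 10]⟩, ⟨11, 11, [11, 12]⟩, ⟨13, 13, [13]⟩, ⟨14, 14, [14]⟩])] [(5, [(4, false), (9, true), (12, false), (13, true), (11, true), (8, false)]), (1, [(0, false), (5, false), (14, false), (9, false), (6, false), (13, true), (10, false), (7, false), (11, false), (8, false)])] 1 [(1, 6), (18, 2), (22, 8)]))))))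
  (.der [(54, 1, [(0, 1), (1, 2), (3, 1), (12, 2), (16, 1), (20, 2)]), (294, 1, [(0, 1), (7, 1), (8, 1)]), (339, 4, [(0, 3), (2, 1), (9, 2), (16, 2)]), (354, 1, [(0, 1)])]
  (.leaf [(2, [⟨0, 5, [0, 1, 5]⟩, ⟨2, 9, [2, 3, 4, 6, 7, 8, 9]⟩, ⟨10, 13, [10, 11, 12, 13]⟩, ⟨14, 14, [14]⟩]), (2, [⟨0, 5, [0, 1, 5]⟩, ⟨2, 6, [2, 6]⟩, ⟨3, 9, [3, 4, 7, 8, 9]⟩, ⟨10, 13, [10, 11, 12, 13]⟩, ⟨14, 14, [14]⟩])] [(4, [(0, false), (5, false), (14, false), (12, false), (13, true), (9, false), (6, false), (10, true), (7, false), (11, false), (8, false)])] 1 [(0, 3), (2, 1), (6, 2), (12, 4), (21, 2)]))))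
  (.der [(494, 1, [(0, 1)]), (643, 1, [(0, 1)])]
  (.leaf [(4, [⟨0, 5, [0, 1, 5]⟩, ⟨2, 11, [2, 3, 4, 6, 7, 8, 9, 10, 11, 12]⟩, ⟨13, 14, [13, 14]⟩])] [(1, [(1, false), (14, true), (12, false), (13, false), (9, false), (6, false), (10, true), (11, true), (8, false)]), (2, [(2, false), (14, false), (12, false), (13, false), (7, true), (11, false), (8, false)]), (1, [(2, false), (14, false), (12, false), (13, false), (9, false), (6, false), (10, true), (7, false), (11, false), (8, false)])] 1 [(4, 4), (11, 4)]))))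
  (.der [(876, 1, [(0, 1), (5, 1), (6, 1)]), (879, 1, [(0, 1)])]
  (.br [0, 0, 0, 0, -1, 1, 0, 1, -1]
  (.der [(643, 1, [(0, 1)])]
  (.leaf [(1, [⟨0, 5, [0, 1, 5]⟩, ⟨2, 6, [2, 6]⟩, ⟨3, 8, [3, 4, 7, 8]⟩, ⟨9, 9, [9]⟩, ⟨10, 14, [10, 11, 12, 13, 14]⟩]), (6, [⟨0, 5, [0, 1, 5]⟩, ⟨2, 6, [2, 6]⟩, ⟨3, 8, [3, 4, 7, 8]⟩, ⟨9, 9, [9]⟩, ⟨10, 11, [10, 11, 12]⟩, ⟨13, 14, [13, 14]⟩])] [(2, [(0, false), (13, true), (6, true), (8, true)]), (5, [(0, false), (5, false), (12, true), (13, false), (9, true), (6, false), (10, true), (7, false), (11, false), (8, false)])] 1 [(5, 12), (15, 1), (19, 2)]))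
  (.leaf [(1, [⟨0, 5, [0, 1, 5]⟩, ⟨2, 6, [2, 6]⟩, ⟨3, 8, [3, 4, 7, 8]⟩, ⟨9, 9, [9]⟩, ⟨10, 14, [10, 11, 12, 13, 14]⟩])] [(1, [(0, false), (5, false), (13, true), (9, true), (6, false), (10, true), (7, false), (11, false), (8, false)])] 1 [(15, 1), (19, 2)])))))
  (.der [(537, 1, [(0, 1)]), (550, 1, [(0, 1)])]
  (.br [0, 0, 0, 1, -2, 0, 0, 0, 0, 1]
  (.der [(654, 1, [(0, 1)])]
  (.br [0, 0, 0, 1, -1, 0, -1, 0, 0, 1]
  (.der [(669, 1, [(0, 1)])]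
  (.leaf [(1, [⟨0, 14, [0, 1, 2, 3, 4, 5, 6, 7, 8, 9, 10, 11, 12, 13, 14]⟩])] [(1, [(0, false), (5, false), (14, false), (9, false), (6, false), (10, false), (7, false), (11, false), (8, false)])] 1 []))
  (.der [(355, 1, [(0, 1), (9, 1), (11, 1)]), (894, 1, [(0, 1)])]
  (.br [0, 0, 0, 0, -1, 1, 0, 1, -1]
  (.der [(643, 1, [(0, 1)])]
  (.leaf [(1, [⟨0, 14, [0, 1, 2, 3, 4, 5, 6, 7, 8, 9, 10, 11, 12, 13, 14]⟩])] [(1, [(0, false), (5, false), (12, false), (13, false), (9, false), (6, false), (10, false), (7, false), (11, false), (8, false)])] 1 []))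
  (.der [(868, 1, [(0, 1)])]
  (.br [0, 0, 0, 0, -1, 0, 2, 0, -1]
  (.der [(177, 1, [(0, 1)])]
  (.leaf [(4, [⟨0, 10, [0, 1, 2, 3, 4, 5, 6, 7, 8, 9, 10]⟩, ⟨11, 14, [11, 12, 13, 14]⟩]), (8, [⟨0, 5, [0, 1, 5]⟩, ⟨2, 10, [2, 3, 4, 6, 7, 8, 9, 10]⟩, ⟨11, 11, [11, 12]⟩, ⟨13, 14, [13, 14]⟩])] [(2, [(0, false), (5, false), (13, true), (9, false), (6, false), (10, false), (11, true), (8, false)]), (4, [(0, false), (5, false), (14, false), (9, true), (6, false), (10, false), (7, false), (11, false), (8, false)]), (1, [(0, false), (12, true), (13, true), (9, false), (6, false), (7, true), (11, false), (8, false)]), (5, [(0, false), (5, false), (12, false), (13, true), (9, false), (6, false), (10, false), (7, false), (11, false), (8, false)])] 1 [(6, 4), (13, 4)]))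
  (.der [(191, 1, [(0, 1)])]
  (.leaf [(1, [⟨0, 5, [0, 1, 5]⟩, ⟨2, 14, [2, 3, 4, 6, 7, 8, 9, 10, 11, 12, 13, 14]⟩]), (2, [⟨0, 5, [0, 1, 5]⟩, ⟨2, 10, [2, 3, 4, 6, 7, 8, 9, 10]⟩, ⟨12, 14, [11, 12, 13, 14]⟩]), (3, [⟨0, 5, [0, 1, 5]⟩, ⟨2, 10, [2, 3, 4, 6, 7, 8, 9, 10]⟩, ⟨12, 13, [11, 12, 13]⟩, ⟨14, 14, [14]⟩]), (2, [⟨0, 5, [0, 1, 5]⟩, ⟨2, 8, [2, 3, 4, 6, 7, 8]⟩, ⟨9, 10, [9, 10]⟩, ⟨12, 13, [11, 12, 13]⟩, ⟨14, 14, [14]⟩])] [(2, [(0, false), (5, false), (13, true), (9, false), (6, false), (10, false), (11, true), (8, false)]), (5, [(0, false), (5, false), (14, false), (9, true), (6, false), (10, false), (7, false), (11, false), (8, false)]), (1, [(0, false), (12, true), (13, true), (9, false), (6, false), (7, true), (11, false), (8, false)])] 1 [(6, 4), (17, 3)]))))))))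
  (.der [(879, 1, [(0, 1)])]
  (.br [0, 0, 0, 0, -1, 1, 0, 1, -1]
  (.der [(643, 1, [(0, 1)])]
  (.leaf [(14, [⟨0, 5, [0, 1, 5]⟩, ⟨2, 8, [2, 3, 4, 6, 7, 8]⟩, ⟨9, 14, [9, 10, 11, 12, 13, 14]⟩]), (12, [⟨0, 5, [0, 1, 5]⟩, ⟨2, 8, [2, 3, 4, 6, 7, 8]⟩, ⟨9, 13, [9, 10, 11, 12, 13]⟩, ⟨14, 14, [14]⟩]), (24, [⟨0, 5, [0, 1, 5]⟩, ⟨2, 8, [2, 3, 4, 6, 7, 8]⟩, ⟨9, 9, [9]⟩, ⟨10, 13, [10, 11, 12, 13]⟩, ⟨14, 14, [14]⟩])] [(2, []), (9, [(0, false), (5, false), (14, false), (6, true), (7, true), (11, false), (8, false)]), (18, [(0, false), (5, false), (13, true), (9, true), (6, false), (10, false), (11, true), (8, false)]), (21, [(0, false), (5, false), (12, false), (13, false), (9, true), (6, false), (10, false), (7, false), (11, false), (8, false)])] 1 [(4, 36), (11, 12), (15, 6)]))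
  (.der [(868, 1, [(0, 1)])]
  (.leaf [(4, [⟨0, 5, [0, 1, 5]⟩, ⟨2, 8, [2, 3, 4, 6, 7, 8]⟩, ⟨9, 9, [9]⟩, ⟨10, 13, [10, 11, 12, 13]⟩, ⟨14, 14, [14]⟩])] [(1, [(0, false), (5, false), (14, false), (6, true), (7, true), (11, false), (8, false)]), (2, [(0, false), (5, false), (13, true), (9, true), (6, false), (10, false), (11, true), (8, false)]), (1, [(0, false), (5, false), (12, false), (13, true), (9, true), (6, false), (10, false), (7, false), (11, false), (8, false)])] 1 [(4, 4), (19, 2)]))))))))))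

theorem tree0_ok : tree0.check ([0, 1, -1] :: ctx0) (dersMask 0 com) = true := by decide +kernel

end Pool.Agent.MSTDIntervals
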