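import Pool.Agent.MSTDIntervals.Data0

/-!
Certificate data (machine generated, checked by the kernel).
-/

namespace Pool.Agent.MSTDIntervals

/-- certificate for the face `[0, 0, 0, -1, 1] = 0` -/
def tree1 : Tree :=
  (.der [(471, 1, [(0, 2), (10, 1), (12, 1)]), (550, 1, [(0, 1), (7, 1), (10, 1), (11, 1), (15, 1)]), (611, 1, [(0, 1), (7, 1), (12, 1), (16, 1)])]
  (.leaf [(1, [⟨0, 14, [0, 1, 2, 3, 4, 5, 6, 7, 8, 9, 10, 11, 12, 13, 14]⟩])] [(1, [(1, false), (6, false), (10, false), (11, false), (8, false)])] 1 []))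

theorem tree1_ok : tree1.check ([0, 0, 0, 1, -1] :: ctx0) (dersMask 0 com) = true := by decide +kernel

end Pool.Agent.MSTDIntervals
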