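import Pool.Agent.MSTDIntervals.Data0

/-!
Certificate data (machine generated, checked by the kernel).
-/

namespace Pool.Agent.MSTDIntervals

/-- certificate for the face `[0, -1, 0, 0, 1, 0, 1, 0, 0, -1] = 0` -/
def tree10 : Tree :=
  (.der [(652, 1, [(0, 1)]), (666, 1, [(0, 1)])]
  (.br [0, 0, 0, 0, 0, 1, -1, 0, -1, 1]
  (.der [(673, 1, [(0, 1)])]
  (.leaf [(1, [⟨0, 14, [0, 1, 2, 3, 4, 5, 6, 7, 8, 9, 10, 11, 12, 13, 14]⟩])] [(1, [(4, false), (5, false), (14, false), (13, false), (7, false), (11, false), (8, false)])] 1 []))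
  (.der [(143, 1, [(0, 1), (1, 1), (3, 1), (6, 1)]), (898, 1, [(0, 1)])]
  (.br [-1, 0, 0, 0, 2, 0, -1]
  (.der [(54, 1, [(0, 1)])]
  (.br [-1, 0, 0, 0, 0, 2, 0, 0, -1]
  (.der [(553, 1, [(0, 1)])]
  (.br [-1, 1, 0, 0, 0, 0, 0, 1, -1]
  (.der [(464, 1, [(0, 1)]), (563, 1, [(0, 1)])]
  (.leaf [(2, [⟨0, 11, [0, 1, 2, 3, 4, 5, 6, 7, 8, 9, 10, 11, 12]⟩, ⟨13, 14, [13, 14]⟩])] [(1, [(4, false), (5, false), (14, false), (13, true), (7, false), (11, false), (8, false)]), (1, [(0, false), (14, false), (6, false), (13, false), (7, false), (8, false)])] 1 []))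
  (.leaf [(2, [⟨0, 11, [0, 1, 2, 3, 4, 5, 6, 7, 8, 9, 10, 11, 12]⟩, ⟨13, 14, [13, 14]⟩])] [(1, [(4, false), (5, false), (14, false), (13, true), (7, false), (11, false), (8, false)]), (1, [(4, false), (5, false), (14, false), (6, false), (13, false), (7, false), (11, false), (8, false)])] 1 [])))
  (.der [(778, 1, [(0, 1)])]
  (.br [-1, 0, 0, 1, 0, 1, -1]
  (.der [(550, 1, [(0, 1)])]
  (.leaf [(4, [⟨0, 0, [0]⟩, ⟨1, 6, [1, 2, 5, 6]⟩, ⟨3, 11, [3, 4, 7, 8, 9, 10, 11, 12]⟩, ⟨13, 13, [13]⟩, ⟨14, 14, [14]⟩])] [(1, [(1, false), (14, true), (6, false), (10, false), (11, true), (8, false)]), (3, [(4, false), (5, false), (14, false), (6, false), (13, true), (7, false), (11, false), (8, false)])] 1 [(1, 2), (9, 8), (20, 8)]))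
  (.der [(775, 1, [(0, 1)])]
  (.leaf [(2, [⟨0, 6, [0, 1, 2, 5, 6]⟩, ⟨3, 11, [3, 4, 7, 8, 9, 10, 11, 12]⟩, ⟨13, 14, [13, 14]⟩]), (4, [⟨0, 0, [0]⟩, ⟨1, 6, [1, 2, 5, 6]⟩, ⟨3, 11, [3, 4, 7, 8, 9, 10, 11, 12]⟩, ⟨13, 13, [13]⟩, ⟨14, 14, [14]⟩])] [(1, [(4, false), (5, false), (14, false), (13, true), (7, false), (11, false), (8, false)]), (1, [(1, false), (14, true), (6, false), (10, true), (11, true), (8, false)]), (4, [(4, false), (5, false), (14, false), (6, false), (13, true), (7, false), (11, false), (8, false)])] 1 [(9, 8), (20, 8)]))))))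
  (.der [(138, 1, [(0, 1)]), (139, 1, [(0, 1), (2, 1), (4, 1), (5, 1), (12, 1)]), (142, 1, [(0, 1), (3, 1), (4, 1)])]
  (.br [0, 0, -1, 0, 0, 2, 0, 0, -1]
  (.der [(485, 2, [(0, 1), (1, 1), (3, 1), (4, 1), (6, 1), (13, 1)]), (553, 1, [(0, 1), (4, 1), (5, 1)])]
  (.leaf [(1, [⟨0, 14, [0, 1, 2, 3, 4, 5, 6, 7, 8, 9, 10, 11, 12, 13, 14]⟩])] [(1, [(2, false), (5, false), (14, false), (6, false), (13, false), (7, false), (11, false), (8, false)])] 1 []))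
  (.der [(823, 1, [(0, 1)])]
  (.br [-1, 0, 0, 0, 0, 2, 0, 0, -1]
  (.der [(553, 1, [(0, 1)])]
  (.leaf [(1, [⟨0, 11, [0, 1, 2, 3, 4, 5, 6, 7, 8, 9, 10, 11, 12]⟩, ⟨13, 14, [13, 14]⟩]), (1, [⟨0, 0, [0]⟩, ⟨1, 6, [1, 2, 5, 6]⟩, ⟨9, 11, [3, 4, 7, 8, 9, 10, 11, 12]⟩, ⟨13, 14, [13, 14]⟩])] [(2, [(4, false), (5, false), (14, false), (6, false), (13, false), (7, false), (11, false), (8, false)])] 1 [(1, 1), (17, 1), (20, 2)]))
  (.der [(778, 1, [(0, 1)])]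
  (.leaf [(2, [⟨0, 6, [0, 1, 2, 5, 6]⟩, ⟨9, 11, [3, 4, 7, 8, 9, 10, 11, 12]⟩, ⟨13, 13, [13]⟩, ⟨14, 14, [14]⟩]), (2, [⟨0, 0, [0]⟩, ⟨1, 6, [1, 2, 5, 6]⟩, ⟨9, 11, [3, 4, 7, 8, 9, 10, 11, 12]⟩, ⟨13, 13, [13]⟩, ⟨14, 14, [14]⟩])] [(2, [(4, false), (5, false), (14, false), (13, true), (7, false), (11, false), (8, false)]), (1, [(4, false), (9, true), (13, true), (11, true), (8, false)]), (1, [(4, false), (5, false), (14, false), (6, false), (13, true), (7, false), (11, false), (8, false)])] 1 [(11, 4), (15, 4), (20, 4)]))))))))))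

theorem tree10_ok : tree10.check ([0, 1, 0, 0, -1, 0, -1, 0, 0, 1] :: ctx0) (dersMask 0 com) = true := by decide +kernel

end Pool.Agent.MSTDIntervals
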