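import Pool.Agent.MSTDIntervals.Data0

/-!
Certificate data (machine generated, checked by the kernel).
-/

namespace Pool.Agent.MSTDIntervals

/-- certificate for the face `[0, 0, 0, 0, 0, 0, 0, -1, 1] = 0` -/
def tree2 : Tree :=
  (.der [(523, 1, [(0, 2), (11, 1)])]
  (.br [0, 1, 0, 0, -2, 1]
  (.der [(486, 1, [(0, 1)])]
  (.leaf [(2, [⟨0, 1, [0, 1]⟩, ⟨5, 5, [5]⟩, ⟨2, 14, [2, 3, 4, 6, 7, 8, 9, 10, 11, 12, 13, 14]⟩])] [(1, [(4, false), (13, false), (11, true), (8, false)]), (1, [(2, false), (6, false), (8, true)])] 1 [(1, 8), (12, 2), (15, 4)]))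
  (.br [0, 1, 0, 0, -2, 0, 0, 0, 0, 1]
  (.der [(651, 1, [(0, 1)])]
  (.leaf [(2, [⟨0, 5, [0, 1, 5]⟩, ⟨2, 14, [2, 3, 4, 6, 7, 8, 9, 10, 11, 12, 13, 14]⟩])] [(1, [(4, false), (13, false), (11, true), (8, false)]), (1, [(4, false), (13, false), (6, false), (11, true), (8, false)])] 1 [(2, 4), (13, 2)]))
  (.der [(876, 1, [(0, 1)])]
  (.br [0, 0, 0, -1, 0, 2, 0, 0, 0, -1]
  (.leaf [(1, [⟨0, 0, [0]⟩, ⟨1, 5, [1, 5]⟩, ⟨2, 8, [2, 3, 4, 6, 7, 8]⟩, ⟨9, 9, [9]⟩, ⟨10, 14, [10, 11, 12, 13, 14]⟩])] [(1, [(4, false), (13, false), (6, true), (11, true), (8, false)])] 1 [(3, 3), (9, 1), (14, 1), (17, 1)])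
  (.der [(654, 1, [(0, 1), (8, 2)]), (816, 2, [(0, 1), (1, 1), (3, 1), (5, 1), (17, 1)])]
  (.leaf [(2, [⟨0, 1, [0, 1]⟩, ⟨5, 5, [5]⟩, ⟨2, 14, [2, 3, 4, 6, 7, 8, 9, 10, 11, 12, 13, 14]⟩])] [(1, [(4, false), (13, false), (11, true), (8, false)]), (1, [(4, false), (13, false), (9, false), (6, true), (11, true), (8, false)])] 1 [(3, 6), (8, 2), (14, 2), (17, 2)])))))))

theorem tree2_ok : tree2.check ([0, 0, 0, 0, 0, 0, 0, 1, -1] :: ctx0) (dersMask 0 com) = true := by decide +kernel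

end Pool.Agent.MSTDIntervals
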