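import Pool.Agent.MSTDIntervals.Data0

/-!
Certificate data (machine generated, checked by the kernel).
-/

namespace Pool.Agent.MSTDIntervals

/-- certificate for the face `[0, 0, 0, 0, 0, -1, 1] = 0` -/
def tree3 : Tree :=
  (.der [(547, 1, [(0, 1), (1, 1)]), (595, 1, [(0, 1), (3, 1)]), (673, 1, [(0, 1), (9, 1)])]
  (.br [0, 1, 0, 0, -2, 0, 0, 0, 0, 1]
  (.der [(651, 1, [(0, 1)])]
  (.leaf [(1, [⟨0, 14, [0, 1, 2, 3, 4, 5, 6, 7, 8, 9, 10, 11, 12, 13, 14]⟩])] [(1, [(4, false), (5, false), (14, false), (13, false), (6, false), (7, false), (11, false), (8, false)])] 1 []))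
  (.der [(876, 1, [(0, 1)])]
  (.br [0, 0, 0, 1, -2, 0, 0, 0, 0, 1]
  (.der [(654, 1, [(0, 1)])]
  (.br [0, 1, -1, 0, 0, 0, -1, 1]
  (.der [(500, 1, [(0, 1)]), (607, 1, [(0, 1)])]
  (.br [0, 0, 0, 1, 0, 0, -2, 0, 0, 1]
  (.der [(670, 1, [(0, 1)])]
  (.leaf [(1, [⟨0, 14, [0, 1, 2, 3, 4, 5, 6, 7, 8, 9, 10, 11, 12, 13, 14]⟩])] [(1, [(3, false), (5, false), (14, false), (10, false), (7, false), (11, false), (8, false)])] 1 []))
  (.der [(895, 1, [(0, 1)])]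
  (.leaf [(2, [⟨0, 5, [0, 1, 5]⟩, ⟨2, 13, [2, 3, 4, 6, 7, 8, 9, 10, 11, 12, 13]⟩, ⟨14, 14, [14]⟩]), (2, [⟨0, 1, [0, 1]⟩, ⟨5, 5, [5]⟩, ⟨2, 13, [2, 3, 4, 6, 7, 8, 9, 10, 11, 12, 13]⟩, ⟨14, 14, [14]⟩])] [(2, [(4, false), (5, false), (13, true), (9, false), (10, false), (11, true), (8, false)]), (1, [(3, false), (5, false), (14, false), (10, true), (7, false), (11, false), (8, false)]), (1, [(3, false), (5, false), (14, false), (13, false), (6, true), (7, false), (11, false), (8, false)])] 1 [(4, 4)]))))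
  (.der [(832, 1, [(0, 1)])]
  (.leaf [(2, [⟨0, 0, [0]⟩, ⟨1, 5, [1, 5]⟩, ⟨2, 13, [2, 3, 4, 6, 7, 8, 9, 10, 11, 12, 13]⟩, ⟨14, 14, [14]⟩])] [(1, [(4, false), (5, false), (14, false), (6, true), (11, true), (8, false)]), (1, [(4, false), (5, false), (13, true), (9, false), (10, false), (7, true), (11, false), (8, false)])] 1 [(3, 4)]))))
  (.der [(879, 1, [(0, 1)]), (880, 1, [(0, 1), (7, 1), (8, 1)]), (895, 1, [(0, 1), (7, 2), (8, 2)])]
  (.br [0, 1, -1, 0, -1, 0, 0, 1]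
  (.der [(606, 1, [(0, 1)])]
  (.leaf [(8, [⟨0, 5, [0, 1, 5]⟩, ⟨2, 8, [2, 3, 4, 6, 7, 8]⟩, ⟨9, 14, [9, 10, 11, 12, 13, 14]⟩])] [(2, [(4, false), (5, false), (13, true), (10, true), (6, false), (11, true), (8, false)]), (1, [(4, false), (5, false), (14, false), (10, true), (6, false), (7, false), (11, false), (8, false)]), (5, [(4, false), (5, false), (14, false), (13, false), (9, true), (10, false), (6, false), (7, false), (11, false), (8, false)])] 1 [(3, 8), (5, 8), (15, 8)]))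
  (.der [(725, 1, [(0, 1), (8, 1), (9, 1)]), (831, 1, [(0, 1)])]
  (.leaf [(1, [⟨0, 0, [0]⟩, ⟨1, 1, [1]⟩, ⟨5, 5, [5]⟩, ⟨2, 8, [2, 3, 4, 6, 7, 8]⟩, ⟨9, 13, [9, 10, 11, 12, 13]⟩, ⟨14, 14, [14]⟩]), (2, [⟨0, 0, [0]⟩, ⟨1, 1, [1]⟩, ⟨5, 5, [5]⟩, ⟨2, 8, [2, 3, 4, 6, 7, 8]⟩, ⟨9, 12, [9, 10, 12]⟩, ⟨11, 13, [11, 13]⟩, ⟨14, 14, [14]⟩])] [(1, [(4, false), (5, false), (14, false), (6, true), (11, true), (8, false)]), (1, [(1, false), (14, true), (13, false), (9, true), (7, true), (11, false), (8, false)]), (1, [(3, false), (5, true), (13, true), (10, true), (6, true), (11, true), (8, false)])] 1 [(0, 1), (3, 8)]))))))))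

theorem tree3_ok : tree3.check ([0, 0, 0, 0, 0, 1, -1] :: ctx0) (dersMask 0 com) = true := by decide +kernel

end Pool.Agent.MSTDIntervals
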