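import Pool.Agent.MSTDIntervals.Data0

/-!
Certificate data (machine generated, checked by the kernel).
-/

namespace Pool.Agent.MSTDIntervals

/-- certificate for the face `[0, 0, 0, -1, 1, 0, 0, 0, 1, -1] = 0` -/
def tree4 : Tree :=
  (.der [(519, 1, [(0, 1)]), (656, 1, [(0, 1)])]
  (.br [0, 0, -1, 0, 0, 2, 0, 0, -1]
  (.der [(598, 1, [(0, 1)])]
  (.leaf [(1, [⟨0, 14, [0, 1, 2, 3, 4, 5, 6, 7, 8, 9, 10, 11, 12, 13, 14]⟩])] [(1, [(4, false), (9, false), (13, false), (11, false), (8, false)])] 1 []))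
  (.der [(143, 1, [(0, 1), (6, 2)]), (823, 1, [(0, 1)])]
  (.br [-1, 1, 0, 1, -1]
  (.der [(455, 1, [(0, 1), (12, 1), (14, 1)]), (531, 1, [(0, 1)]), (550, 1, [(0, 1), (9, 2), (13, 1), (18, 1)])]
  (.leaf [(1, [⟨0, 14, [0, 1, 2, 3, 4, 5, 6, 7, 8, 9, 10, 11, 12, 13, 14]⟩])] [(1, [(0, false), (5, false), (6, false), (10, false), (13, false), (11, false), (8, false)])] 1 []))
  (.br [-1, 0, 0, 0, 0, 2, 0, 0, -1]
  (.der [(553, 1, [(0, 1)])]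
  (.br [0, 0, 0, 0, 0, 1, -1, 0, -1, 1]
  (.der [(673, 1, [(0, 1)])]
  (.leaf [(1, [⟨0, 14, [0, 1, 2, 3, 4, 5, 6, 7, 8, 9, 10, 11, 12, 13, 14]⟩])] [(1, [(4, false), (5, false), (14, false), (13, false), (11, false), (8, false)])] 1 []))
  (.der [(898, 1, [(0, 1)])]
  (.br [1, 0, -1, 0, -1, 0, 1]
  (.der [(93, 1, [(0, 1)])]
  (.br [0, 1, 0, -2, 0, 1]
  (.der [(302, 1, [(0, 1)])]
  (.leaf [(2, [⟨0, 2, [0, 1, 2, 5]⟩, ⟨6, 11, [3, 4, 6, 7, 8, 9, 10, 11, 12]⟩, ⟨13, 14, [13, 14]⟩])] [(1, [(4, false), (9, false), (13, true), (11, false), (8, false)]), (1, [(4, false), (5, false), (14, false), (6, true), (13, false), (11, false), (8, false)])] 1 []))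
  (.der [(260, 1, [(0, 1)])]
  (.br [-1, 0, 0, 0, 2, 0, 0, 0, -1]
  (.der [(69, 1, [(0, 1)])]
  (.br [-1, 0, 1, 0, 0, 0, 1, 0, -1]
  (.der [(67, 1, [(0, 1)])]
  (.br [0, 1, 0, -1, 0, -1, 0, 1]
  (.der [(318, 1, [(0, 1)])]
  (.leaf [(2, [⟨0, 5, [0, 1, 2, 5]⟩, ⟨6, 3, [3, 6]⟩, ⟨4, 11, [4, 7, 8, 9, 10, 11, 12]⟩, ⟨13, 14, [13, 14]⟩])] [(1, [(4, false), (5, false), (14, false), (6, true), (13, false), (11, false), (8, false)]), (1, [(4, false), (5, false), (13, true), (11, false), (8, false)])] 1 [(23, 2)]))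
  (.der [(276, 1, [(0, 1)])]
  (.leaf [(2, [⟨0, 6, [0, 1, 2, 3, 5, 6]⟩, ⟨4, 11, [4, 7, 8, 9, 10, 11, 12]⟩, ⟨13, 14, [13, 14]⟩])] [(1, [(4, false), (5, false), (13, true), (11, false), (8, false)]), (1, [(4, false), (5, false), (14, false), (13, true), (11, false), (8, false)])] 1 []))))
  (.der [(109, 1, [(0, 1)]), (114, 1, [(0, 1), (1, 1)])]
  (.br [0, -1, 0, 1, 0, 1, 0, -1]
  (.der [(276, 1, [(0, 1)])]
  (.leaf [(1, [⟨0, 6, [0, 1, 2, 3, 5, 6]⟩, ⟨7, 11, [4, 7, 8, 9, 10, 11, 12]⟩, ⟨13, 13, [13]⟩, ⟨14, 14, [14]⟩])] [(1, [(4, false), (5, false), (14, false), (13, true), (11, false), (8, false)])] 1 [(23, 1)]))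
  (.der [(303, 5, [(0, 7), (1, 1), (4, 1), (6, 4), (7, 2), (8, 2), (14, 2), (19, 1), (20, 1)]), (318, 1, [(0, 1)])]
  (.leaf [(2, [⟨0, 3, [0, 1, 2, 3, 5, 6]⟩, ⟨7, 11, [4, 7, 8, 9, 10, 11, 12]⟩, ⟨13, 14, [13, 14]⟩])] [(1, [(4, false), (5, false), (14, false), (6, true), (13, false), (11, false), (8, false)]), (1, [(4, false), (5, false), (14, false), (13, true), (11, false), (8, false)])] 1 [(9, 2), (23, 2)]))))))
  (.br [0, -1, 1, 0, 1, -1]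
  (.der [(816, 1, [(0, 1)])]
  (.leaf [(2, [⟨0, 0, [0]⟩, ⟨1, 11, [1, 2, 3, 4, 5, 6, 7, 8, 9, 10, 11, 12]⟩, ⟨13, 14, [13, 14]⟩])] [(1, [(4, false), (5, false), (14, false), (6, true), (13, false), (11, false), (8, false)]), (1, [(4, false), (9, false), (6, true), (13, false), (11, false), (8, false)])] 1 [(1, 2)]))
  (.leaf [(2, [⟨0, 11, [0, 1, 2, 3, 4, 5, 6, 7, 8, 9, 10, 11, 12]⟩, ⟨13, 14, [13, 14]⟩])] [(1, [(4, false), (9, false), (13, true), (11, false), (8, false)]), (1, [(4, false), (5, false), (14, false), (6, true), (13, false), (11, false), (8, false)])] 1 [(0, 2)]))))))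
  (.der [(51, 1, [(0, 1)]), (54, 3, [(0, 4), (1, 2), (2, 1), (3, 2), (8, 2), (12, 1), (13, 1), (17, 2)])]
  (.br [0, 1, 0, -2, 0, 1]
  (.der [(302, 1, [(0, 1)])]
  (.leaf [(2, [⟨0, 11, [0, 1, 2, 3, 4, 5, 6, 7, 8, 9, 10, 11, 12]⟩, ⟨13, 14, [13, 14]⟩]), (2, [⟨0, 2, [0, 1, 2, 5]⟩, ⟨3, 11, [3, 4, 6, 7, 8, 9, 10, 11, 12]⟩, ⟨13, 14, [13, 14]⟩])] [(1, [(4, false), (5, false), (14, false), (6, true), (13, false), (11, false), (8, false)]), (1, [(4, false), (5, false), (13, true), (11, false), (8, false)]), (2, [(4, false), (5, false), (14, false), (13, true), (11, false), (8, false)])] 1 [(6, 2)]))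
  (.der [(260, 1, [(0, 1)])]
  (.br [-1, 0, 0, 2, 0, 0, -1]
  (.der [(535, 1, [(0, 1)])]
  (.leaf [(1, [⟨0, 14, [0, 1, 2, 3, 4, 5, 6, 7, 8, 9, 10, 11, 12, 13, 14]⟩])] [(1, [(4, false), (5, false), (10, false), (13, false), (11, false), (8, false)])] 1 []))
  (.der [(760, 1, [(0, 1)])]
  (.leaf [(2, [⟨0, 5, [0, 1, 2, 5]⟩, ⟨3, 11, [3, 4, 6, 7, 8, 9, 10, 11, 12]⟩, ⟨13, 14, [13, 14]⟩])] [(1, [(4, false), (5, false), (14, false), (13, true), (11, false), (8, false)]), (1, [(4, false), (5, false), (10, true), (13, false), (11, false), (8, false)])] 1 []))))))))))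
  (.der [(139, 1, [(0, 1), (8, 2)]), (778, 1, [(0, 1)])]
  (.br [-1, 0, 0, 0, 2, 0, -1]
  (.der [(54, 1, [(0, 1)])]
  (.leaf [(1, [⟨0, 0, [0]⟩, ⟨1, 6, [1, 2, 5, 6]⟩, ⟨3, 11, [3, 4, 7, 8, 9, 10, 11, 12]⟩, ⟨13, 13, [13]⟩, ⟨14, 14, [14]⟩])] [(1, [(4, false), (5, false), (14, false), (6, true), (13, true), (11, false), (8, false)])] 1 [(9, 2), (18, 1)]))
  (.der [(138, 1, [(0, 1)]), (142, 1, [(0, 1), (5, 1), (6, 1)])]
  (.leaf [(1, [⟨0, 6, [0, 1, 2, 5, 6]⟩, ⟨9, 11, [3, 4, 7, 8, 9, 10, 11, 12]⟩, ⟨13, 13, [13]⟩, ⟨14, 14, [14]⟩])] [(1, [(4, false), (5, false), (14, false), (6, true), (13, true), (11, false), (8, false)])] 1 [(5, 2), (9, 1), (11, 1), (14, 1), (15, 1)])))))))))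

theorem tree4_ok : tree4.check ([0, 0, 0, 1, -1, 0, 0, 0, -1, 1] :: ctx0) (dersMask 0 com) = true := by decide +kernel

end Pool.Agent.MSTDIntervals
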