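import Pool.Agent.MSTDIntervals.Data0

/-!
Certificate data (machine generated, checked by the kernel).
-/

namespace Pool.Agent.MSTDIntervals

/-- certificate for the face `[0, 0, 0, 0, 0, 1, 0, -2, 0, 1] = 0` -/
def tree5 : Tree :=
  (.der [(303, 1, [(0, 1), (4, 1), (5, 1), (12, 1), (14, 1)]), (318, 1, [(0, 1), (12, 1), (14, 1)]), (606, 1, [(0, 1), (5, 1), (8, 1), (12, 1)])]
  (.br [-1, 0, 0, 0, 2, 0, -1]
  (.der [(54, 1, [(0, 1)])]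
  (.br [0, 1, 0, 0, -2, 0, 0, 1]
  (.der [(636, 1, [(0, 1)])]
  (.br [-1, 0, 0, 1, 0, 1, -1]
  (.der [(537, 1, [(0, 1)]), (550, 1, [(0, 1)])]
  (.br [1, 0, -2, 0, 1]
  (.der [(77, 1, [(0, 1)])]
  (.br [-1, 1, 0, 0, 0, 1, -1]
  (.der [(462, 1, [(0, 1)]), (547, 1, [(0, 1)])]
  (.leaf [(1, [⟨0, 14, [0, 1, 2, 3, 4, 5, 6, 7, 8, 9, 10, 11, 12, 13, 14]⟩])] [(1, [(0, false), (12, false), (6, false), (7, false), (11, false), (8, false)])] 1 []))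
  (.br [0, 1, -1, 0, 0, 0, -1, 1]
  (.der [(485, 1, [(0, 1), (4, 1), (17, 1), (22, 1)]), (607, 1, [(0, 1)])]
  (.leaf [(1, [⟨0, 14, [0, 1, 2, 3, 4, 5, 6, 7, 8, 9, 10, 11, 12, 13, 14]⟩])] [(1, [(2, false), (5, false), (12, false), (6, false), (10, false), (7, false), (11, false), (8, false)])] 1 []))
  (.der [(832, 1, [(0, 1)])]
  (.leaf [(2, [⟨0, 1, [0, 1]⟩, ⟨5, 11, [2, 3, 4, 5, 6, 7, 8, 9, 10, 11, 12]⟩, ⟨13, 14, [13, 14]⟩])] [(1, [(4, false), (5, false), (12, false), (6, false), (10, false), (11, true), (8, false)]), (1, [(4, false), (5, false), (12, false), (6, false), (10, false), (7, true), (11, false), (8, false)])] 1 [(6, 2)])))))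
  (.der [(35, 1, [(0, 1)])]
  (.leaf [(2, [⟨0, 1, [0, 1]⟩, ⟨2, 11, [2, 3, 4, 5, 6, 7, 8, 9, 10, 11, 12]⟩, ⟨13, 14, [13, 14]⟩])] [(1, [(4, false), (5, false), (14, false), (12, false), (6, false), (11, true), (8, false)]), (1, [(4, false), (5, false), (12, false), (6, false), (10, false), (13, false), (7, true), (11, false), (8, false)])] 1 []))))
  (.der [(177, 1, [(0, 1), (1, 1), (14, 1), (18, 1), (19, 1)]), (762, 1, [(0, 1)]), (775, 1, [(0, 1)])]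
  (.br [1, 0, 0, 0, 0, -2, 0, 0, 1]
  (.der [(368, 2, [(0, 2), (2, 1), (3, 1), (6, 1), (7, 1), (10, 1), (13, 1), (15, 1), (19, 1)]), (383, 1, [(0, 1), (15, 1), (19, 1)]), (778, 1, [(0, 1)])]
  (.leaf [(2, [⟨0, 0, [0]⟩, ⟨1, 6, [1, 2, 5, 6]⟩, ⟨3, 11, [3, 4, 7, 8, 9, 10, 11, 12]⟩, ⟨13, 14, [13, 14]⟩]), (2, [⟨0, 0, [0]⟩, ⟨1, 6, [1, 2, 5, 6]⟩, ⟨3, 8, [3, 4, 7, 8, 9, 10]⟩, ⟨11, 11, [11, 12]⟩, ⟨13, 13, [13]⟩, ⟨14, 14, [14]⟩])] [(1, [(1, false), (14, true), (6, true), (10, true), (11, true), (8, false)]), (3, [(4, false), (5, false), (14, false), (6, true), (13, true), (7, true), (11, false), (8, false)])] 1 [(2, 6), (11, 8), (15, 6)]))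
  (.der [(553, 1, [(0, 1)])]
  (.br [-1, 0, 2, 0, -1]
  (.der [(35, 1, [(0, 1)])]
  (.leaf [(2, [⟨0, 1, [0, 1]⟩, ⟨2, 11, [2, 3, 4, 5, 6, 7, 8, 9, 10, 11, 12]⟩, ⟨13, 14, [13, 14]⟩])] [(1, [(4, false), (5, false), (14, false), (12, false), (6, false), (11, true), (8, false)]), (1, [(4, false), (5, false), (14, false), (12, false), (6, false), (13, false), (7, true), (11, false), (8, false)])] 1 []))
  (.der [(77, 1, [(0, 1)])]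
  (.br [0, 0, 0, 1, -1, 0, -1, 0, 0, 1]
  (.der [(655, 1, [(0, 1)])]
  (.br [0, -1, 1, 0, 0, 0, 1, -1]
  (.der [(832, 1, [(0, 1)])]
  (.leaf [(4, [⟨0, 1, [0, 1]⟩, ⟨5, 6, [2, 5, 6]⟩, ⟨3, 11, [3, 4, 7, 8, 9, 10, 11, 12]⟩, ⟨13, 14, [13, 14]⟩])] [(1, [(4, false), (5, false), (12, true), (6, false), (10, true), (11, true), (8, false)]), (1, [(4, false), (5, false), (14, false), (12, false), (6, false), (13, false), (10, false), (11, true), (8, false)]), (2, [(4, false), (5, false), (14, false), (12, false), (6, false), (13, false), (10, false), (7, true), (11, false), (8, false)])] 1 [(7, 4)]))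
  (.leaf [(2, [⟨0, 5, [0, 1, 5]⟩, ⟨2, 6, [2, 6]⟩, ⟨3, 11, [3, 4, 7, 8, 9, 10, 11, 12]⟩, ⟨13, 14, [13, 14]⟩])] [(1, [(4, false), (5, false), (12, true), (6, false), (10, true), (13, false), (7, true), (11, false), (8, false)]), (1, [(4, false), (5, false), (14, false), (12, false), (6, false), (13, false), (10, false), (11, true), (8, false)])] 1 [(0, 2)])))
  (.der [(485, 1, [(0, 1), (4, 1), (9, 1), (13, 1), (17, 1)]), (880, 1, [(0, 1)])]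
  (.br [0, -1, 1, 0, 0, 0, 1, -1]
  (.der [(832, 1, [(0, 1)])]
  (.leaf [(2, [⟨0, 1, [0, 1]⟩, ⟨5, 5, [5]⟩, ⟨2, 11, [2, 3, 4, 6, 7, 8, 9, 10, 11, 12]⟩, ⟨13, 14, [13, 14]⟩])] [(1, [(2, false), (5, false), (14, false), (12, false), (6, false), (13, false), (10, true), (11, true), (8, false)]), (1, [(2, false), (5, false), (14, false), (12, false), (6, false), (10, true), (7, true), (11, false), (8, false)])] 1 [(14, 4)]))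
  (.leaf [(2, [⟨0, 5, [0, 1, 5]⟩, ⟨2, 6, [2, 6]⟩, ⟨3, 11, [3, 4, 7, 8, 9, 10, 11, 12]⟩, ⟨13, 14, [13, 14]⟩])] [(1, [(4, false), (5, false), (14, false), (12, false), (6, false), (13, false), (7, true), (11, false), (8, false)]), (1, [(4, false), (5, false), (12, true), (6, false), (10, true), (11, true), (8, false)])] 1 [(0, 2)])))))))))))
  (.der [(861, 1, [(0, 1)])]
  (.br [0, 0, 0, 0, 0, 1, -1, 0, -1, 1]
  (.der [(509, 1, [(0, 1), (3, 1)]), (522, 1, [(0, 1)]), (673, 1, [(0, 1)])]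
  (.br [0, 0, 0, 1, 0, -2, 0, 0, 0, 1]
  (.der [(368, 1, [(0, 1)])]
  (.br [0, 0, 0, 1, -1, 0, -1, 0, 0, 1]
  (.der [(655, 1, [(0, 1)])]
  (.br [0, 1, -1, 0, 0, 0, -1, 1]
  (.der [(607, 1, [(0, 1)])]
  (.leaf [(1, [⟨0, 14, [0, 1, 2, 3, 4, 5, 6, 7, 8, 9, 10, 11, 12, 13, 14]⟩])] [(1, [(3, false), (14, false), (13, false), (10, false), (7, false), (11, false), (8, false)])] 1 []))
  (.der [(832, 1, [(0, 1)])]
  (.br [-1, 0, 2, 0, -1]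
  (.der [(35, 1, [(0, 1)])]
  (.br [-1, 1, 0, 0, 0, 0, 0, 1, -1]
  (.der [(464, 1, [(0, 1)]), (563, 1, [(0, 1)])]
  (.leaf [(2, [⟨0, 1, [0, 1]⟩, ⟨2, 11, [2, 3, 4, 5, 6, 7, 8, 9, 10, 11, 12]⟩, ⟨13, 14, [13, 14]⟩])] [(1, [(3, false), (14, false), (13, false), (10, false), (6, false), (11, true), (8, false)]), (1, [(0, false), (14, false), (13, false), (7, true), (8, false)])] 1 []))
  (.leaf [(2, [⟨0, 1, [0, 1]⟩, ⟨2, 11, [2, 3, 4, 5, 6, 7, 8, 9, 10, 11, 12]⟩, ⟨13, 14, [13, 14]⟩])] [(1, [(3, false), (14, false), (13, false), (10, false), (7, true), (11, false), (8, false)]), (1, [(3, false), (14, false), (13, false), (11, true), (8, false)])] 1 [(0, 2), (8, 2), (20, 2)])))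
  (.der [(77, 1, [(0, 1)])]
  (.leaf [(2, [⟨0, 1, [0, 1]⟩, ⟨5, 11, [2, 3, 4, 5, 6, 7, 8, 9, 10, 11, 12]⟩, ⟨13, 14, [13, 14]⟩])] [(1, [(3, false), (14, false), (13, false), (10, false), (7, true), (11, false), (8, false)]), (1, [(3, false), (14, false), (13, false), (10, false), (11, true), (8, false)])] 1 [(7, 2)]))))))
  (.der [(880, 1, [(0, 1)])]
  (.br [0, 1, -1, 0, 0, 0, -1, 1]
  (.der [(607, 1, [(0, 1)])]
  (.leaf [(1, [⟨0, 5, [0, 1, 5]⟩, ⟨2, 8, [2, 3, 4, 6, 7, 8, 9]⟩, ⟨10, 11, [10, 11, 12]⟩, ⟨13, 14, [13, 14]⟩])] [(1, [(3, false), (14, false), (13, false), (10, true), (7, false), (11, false), (8, false)])] 1 [(19, 1)]))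
  (.der [(832, 1, [(0, 1)])]
  (.leaf [(2, [⟨0, 1, [0, 1]⟩, ⟨5, 5, [5]⟩, ⟨2, 8, [2, 3, 4, 6, 7, 8, 9]⟩, ⟨10, 11, [10, 11, 12]⟩, ⟨13, 14, [13, 14]⟩])] [(1, [(3, false), (14, false), (13, false), (10, true), (7, true), (11, false), (8, false)]), (1, [(4, false), (5, false), (13, true), (10, true), (11, true), (8, false)])] 1 [(3, 2), (6, 2)]))))))
  (.der [(294, 1, [(0, 1), (6, 1), (7, 1)]), (339, 2, [(0, 1), (8, 1), (9, 1), (15, 1)]), (354, 1, [(0, 1)])]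
  (.br [1, 0, -2, 0, 1]
  (.der [(77, 1, [(0, 1)])]
  (.br [0, 1, -1, 0, 0, 0, -1, 1]
  (.der [(607, 1, [(0, 1)])]
  (.br [0, 0, -1, 1, 0, 1, -1]
  (.der [(595, 1, [(0, 1)])]
  (.br [0, 0, 0, 1, -2, 0, 0, 0, 0, 1]
  (.der [(654, 1, [(0, 1)])]
  (.leaf [(1, [⟨0, 14, [0, 1, 2, 3, 4, 5, 6, 7, 8, 9, 10, 11, 12, 13, 14]⟩])] [(1, [(3, false), (14, false), (13, false), (9, false), (10, false), (7, false), (11, false), (8, false)])] 1 []))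
  (.der [(879, 1, [(0, 1)])]
  (.leaf [(1, [⟨0, 5, [0, 1, 5]⟩, ⟨2, 8, [2, 3, 4, 6, 7, 8]⟩, ⟨9, 14, [9, 10, 11, 12, 13, 14]⟩])] [(1, [(3, false), (14, false), (13, false), (9, true), (10, false), (7, false), (11, false), (8, false)])] 1 [(10, 1), (13, 1), (20, 1), (21, 1)]))))
  (.der [(820, 1, [(0, 1)])]
  (.br [0, 0, 0, 1, -2, 0, 0, 0, 0, 1]
  (.der [(654, 1, [(0, 1)])]
  (.br [0, 1, 0, 0, -2, 0, 0, 0, 0, 1]
  (.der [(651, 1, [(0, 1)])]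
  (.br [0, 0, 0, 1, -1, 0, -1, 0, 0, 1]
  (.der [(655, 1, [(0, 1)])]
  (.leaf [(1, [⟨0, 14, [0, 1, 2, 3, 4, 5, 6, 7, 8, 9, 10, 11, 12, 13, 14]⟩])] [(1, [(3, false), (14, false), (13, false), (10, false), (7, false), (11, false), (8, false)])] 1 []))
  (.der [(880, 1, [(0, 1)])]
  (.br [-1, 0, 0, 1, 0, 1, -1]
  (.der [(550, 1, [(0, 1)])]
  (.leaf [(1, [⟨0, 14, [0, 1, 2, 3, 4, 5, 6, 7, 8, 9, 10, 11, 12, 13, 14]⟩])] [(1, [(3, false), (14, false), (13, false), (6, false), (10, false), (7, false), (11, false), (8, false)])] 1 []))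
  (.der [(775, 1, [(0, 1)])]
  (.leaf [(2, [⟨0, 5, [0, 1, 5]⟩, ⟨2, 11, [2, 3, 4, 6, 7, 8, 9, 10, 11, 12]⟩, ⟨13, 14, [13, 14]⟩])] [(1, [(3, false), (14, false), (13, false), (10, true), (7, false), (11, false), (8, false)]), (1, [(1, false), (14, true), (13, false), (6, false), (10, true), (11, true), (8, false)])] 1 [(8, 2), (11, 2), (14, 4)]))))))
  (.leaf [(1, [⟨0, 1, [0, 1]⟩, ⟨5, 5, [5]⟩, ⟨2, 9, [2, 3, 4, 6, 7, 8, 9]⟩, ⟨10, 11, [10, 11, 12]⟩, ⟨13, 14, [13, 14]⟩])] [(1, [(3, false), (14, false), (13, false), (9, false), (10, true), (7, false), (11, false), (8, false)])] 1 [(0, 1), (22, 1)])))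
  (.der [(879, 1, [(0, 1)])]
  (.leaf [(1, [⟨0, 5, [0, 1, 5]⟩, ⟨2, 8, [2, 3, 4, 6, 7, 8]⟩, ⟨9, 9, [9]⟩, ⟨10, 11, [10, 11, 12]⟩, ⟨13, 14, [13, 14]⟩])] [(1, [(3, false), (14, false), (13, false), (9, true), (10, true), (7, false), (11, false), (8, false)])] 1 [(11, 2), (21, 1)]))))))
  (.der [(725, 1, [(0, 1)]), (820, 1, [(0, 1), (6, 1), (18, 1), (20, 1)]), (832, 1, [(0, 1)])]
  (.br [0, 0, 0, 1, -2, 0, 0, 0, 0, 1]
  (.der [(654, 1, [(0, 1)])]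
  (.br [-1, 1, 0, 0, 0, 1, -1]
  (.der [(464, 1, [(0, 1), (2, 1), (8, 1), (20, 1)]), (547, 1, [(0, 1)]), (563, 1, [(0, 1), (2, 1), (8, 1), (20, 1)])]
  (.br [0, 1, 0, 0, -2, 0, 0, 0, 0, 1]
  (.der [(651, 1, [(0, 1)])]
  (.leaf [(1, [⟨0, 14, [0, 1, 2, 3, 4, 5, 6, 7, 8, 9, 10, 11, 12, 13, 14]⟩])] [(1, [(0, false), (14, false), (13, false), (6, false), (7, false), (8, false)])] 1 []))
  (.der [(876, 1, [(0, 1)])]
  (.leaf [(4, [⟨0, 1, [0, 1]⟩, ⟨5, 5, [5]⟩, ⟨2, 9, [2, 3, 4, 6, 7, 8, 9]⟩, ⟨10, 11, [10, 11, 12]⟩, ⟨13, 14, [13, 14]⟩])] [(1, [(1, false), (14, true), (13, false), (9, false), (10, true), (11, true), (8, false)]), (2, [(0, false), (14, false), (13, false), (6, true), (7, false), (8, false)]), (1, [(3, false), (5, true), (13, true), (9, false), (10, true), (7, true), (8, false)])] 1 [(9, 4), (21, 4), (22, 2)]))))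
  (.der [(772, 1, [(0, 1)])]
  (.br [0, 1, 0, 0, -2, 0, 0, 0, 0, 1]
  (.der [(651, 1, [(0, 1)])]
  (.br [-1, 0, 0, 1, 0, 1, -1]
  (.der [(550, 1, [(0, 1)])]
  (.leaf [(2, [⟨0, 1, [0, 1]⟩, ⟨5, 11, [2, 3, 4, 5, 6, 7, 8, 9, 10, 11, 12]⟩, ⟨13, 14, [13, 14]⟩])] [(1, [(3, false), (14, false), (13, false), (6, false), (10, false), (7, true), (11, false), (8, false)]), (1, [(3, false), (14, false), (13, false), (6, false), (10, false), (11, true), (8, false)])] 1 [(10, 2)]))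
  (.der [(775, 1, [(0, 1)])]
  (.leaf [(2, [⟨0, 0, [0]⟩, ⟨1, 5, [1, 5]⟩, ⟨2, 9, [2, 3, 4, 6, 7, 8, 9]⟩, ⟨10, 11, [10, 11, 12]⟩, ⟨13, 14, [13, 14]⟩])] [(1, [(3, false), (14, false), (13, false), (6, false), (7, true), (11, false), (8, false)]), (1, [(4, false), (12, false), (6, true), (10, true), (11, true), (8, false)])] 1 [(10, 2)]))))
  (.der [(876, 1, [(0, 1)])]
  (.leaf [(2, [⟨0, 1, [0, 1]⟩, ⟨5, 5, [5]⟩, ⟨2, 9, [2, 3, 4, 6, 7, 8, 9]⟩, ⟨10, 11, [10, 11, 12]⟩, ⟨13, 14, [13, 14]⟩])] [(1, [(1, false), (14, true), (13, false), (9, false), (10, true), (11, true), (8, false)]), (1, [(3, false), (14, false), (13, false), (6, true), (7, true), (11, false), (8, false)])] 1 [(9, 2), (21, 2)]))))))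
  (.der [(876, 1, [(0, 1), (9, 1), (10, 1)]), (879, 1, [(0, 1)]), (880, 2, [(0, 1), (1, 2), (3, 1), (7, 1), (8, 1), (10, 1), (19, 1), (20, 1)])]
  (.br [-1, 1, 0, 0, 0, 1, -1]
  (.der [(462, 1, [(0, 1)]), (464, 1, [(0, 1), (2, 1), (8, 1), (20, 1)]), (547, 1, [(0, 1)]), (563, 1, [(0, 1), (2, 1), (8, 1), (20, 1)])]
  (.br [0, 1, -1, 0, -1, 1]
  (.der [(591, 1, [(0, 1)]), (643, 1, [(0, 1), (3, 1), (6, 1), (9, 1)])]
  (.leaf [(78, [⟨0, 5, [0, 1, 5]⟩, ⟨2, 8, [2, 3, 4, 6, 7, 8]⟩, ⟨9, 11, [9, 10, 11, 12]⟩, ⟨13, 14, [13, 14]⟩]), (5, [⟨0, 5, [0, 1, 5]⟩, ⟨2, 8, [2, 3, 4, 6, 7, 8]⟩, ⟨9, 9, [9]⟩, ⟨10, 11, [10, 11, 12]⟩, ⟨13, 14, [13, 14]⟩]), (8, [⟨0, 0, [0]⟩, ⟨1, 1, [1]⟩, ⟨5, 5, [5]⟩, ⟨2, 8, [2, 3, 4, 6, 7, 8]⟩, ⟨9, 9, [9]⟩, ⟨10, 11, [10, 11, 12]⟩, ⟨13, 14, [13, 14]⟩]), (14, [⟨0, 0, [0]⟩, ⟨1, 1, [1]⟩, ⟨5, 5, [5]⟩, ⟨2, 8, [2, 3, 4, 6, 7, 8]⟩,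 ⟨9, 9, [9]⟩, ⟨10, 11, [10, 11, 12]⟩, ⟨13, 13, [13]⟩, ⟨14, 14, [14]⟩])] [(3, []), (33, [(3, false), (5, true), (13, true), (10, true), (6, false), (11, true), (8, false)]), (69, [(0, false), (12, false), (13, false), (9, true), (6, false), (7, false), (8, false)])] 1 [(9, 26), (22, 1)]))
  (.der [(816, 1, [(0, 1)])]
  (.leaf [(4, [⟨0, 5, [0, 1, 5]⟩, ⟨2, 8, [2, 3, 4, 6, 7, 8]⟩, ⟨9, 9, [9]⟩, ⟨10, 14, [10, 11, 12, 13, 14]⟩]), (2, [⟨0, 0, [0]⟩, ⟨1, 1, [1]⟩, ⟨5, 5, [5]⟩, ⟨2, 8, [2, 3, 4, 6, 7, 8]⟩, ⟨9, 9, [9]⟩, ⟨10, 11, [10, 11, 12]⟩, ⟨13, 14, [13, 14]⟩]), (6, [⟨0, 0, [0]⟩, ⟨1, 1, [1]⟩, ⟨5, 5, [5]⟩, ⟨2, 8, [2, 3, 4, 6, 7, 8]⟩, ⟨9, 9, [9]⟩, ⟨10, 11, [10, 11, 12]⟩, ⟨13, 13, [13]⟩, ⟨14, 14, [14]⟩])] [(5, [(3, false), (5, true), (13, true), (10, true), (6, false), (11, true), (8, false)]), (7, [(0, false), (14, false), (13, false), (9, true),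 (6, true), (7, false), (8, false)])] 1 [(9, 2), (14, 4)]))))
  (.der [(772, 1, [(0, 1)])]
  (.leaf [(2, [⟨0, 1, [0, 1]⟩, ⟨5, 5, [5]⟩, ⟨2, 8, [2, 3, 4, 6, 7, 8]⟩, ⟨9, 9, [9]⟩, ⟨10, 11, [10, 11, 12]⟩, ⟨13, 14, [13, 14]⟩])] [(1, [(1, false), (14, true), (13, false), (9, true), (10, true), (11, true), (8, false)]), (1, [(3, false), (14, false), (13, false), (6, true), (7, true), (11, false), (8, false)])] 1 [(8, 2), (20, 2)]))))))))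
  (.der [(35, 1, [(0, 1)]), (485, 1, [(0, 1), (1, 1), (8, 2), (17, 1), (18, 1)]), (534, 1, [(0, 1), (8, 2)]), (591, 1, [(0, 1), (1, 1), (8, 2), (17, 1), (18, 1)])]
  (.leaf [(2, [⟨0, 1, [0, 1]⟩, ⟨2, 5, [5]⟩, ⟨2, 13, [2, 3, 4, 6, 7, 8, 9, 10, 11, 12, 13]⟩, ⟨14, 14, [14]⟩])] [(1, [(4, false), (5, false), (14, false), (12, false), (6, true), (11, true), (8, false)]), (1, [(2, false), (5, false), (9, false), (6, false), (11, true), (8, false)])] 1 [(1, 2)]))))))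
  (.der [(734, 1, [(0, 1), (14, 1)]), (898, 1, [(0, 1)])]
  (.br [-1, 0, 0, 1, 0, 1, -1]
  (.der [(537, 1, [(0, 1)]), (550, 1, [(0, 1)])]
  (.br [0, 1, -1, 0, 0, 0, -1, 1]
  (.der [(500, 1, [(0, 1)]), (607, 1, [(0, 1)])]
  (.br [0, -1, 1, 0, 1, -1]
  (.der [(816, 1, [(0, 1)])]
  (.br [0, 0, 0, 1, -2, 0, 0, 0, 0, 1]
  (.der [(654, 1, [(0, 1)])]
  (.br [0, 0, 0, 1, 0, -1, 0, -1, 0, 1]
  (.der [(368, 9, [(0, 8), (1, 3), (2, 2), (7, 2), (8, 4), (14, 2), (20, 2), (21, 2)]), (383, 1, [(0, 1)]), (651, 1, [(0, 1), (8, 1), (13, 2), (20, 1), (22, 1)]), (655, 1, [(0, 1), (3, 1), (10, 1), (13, 1)])]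
  (.br [-1, 0, 2, 0, -1]
  (.der [(35, 1, [(0, 1)]), (455, 1, [(0, 1), (4, 2), (6, 1), (20, 1), (21, 1), (25, 1)]), (464, 1, [(0, 1), (4, 1), (21, 1), (25, 1)]), (547, 1, [(0, 1), (4, 2), (20, 1), (25, 1)]), (563, 1, [(0, 1), (4, 1), (21, 1), (25, 1)])]
  (.leaf [(2, [⟨0, 1, [0, 1]⟩, ⟨2, 11, [2, 3, 4, 5, 6, 7, 8, 9, 10, 11, 12]⟩, ⟨13, 14, [13, 14]⟩])] [(1, [(0, false), (14, false), (6, true), (7, false), (8, false)]), (1, [(0, false), (5, false), (13, true), (6, false), (7, false), (8, false)])] 1 []))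
  (.br [0, 0, 0, -1, 0, 0, 2, 0, 0, -1]
  (.der [(895, 1, [(0, 1)])]
  (.br [0, 0, 0, 0, -1, 0, 2, 0, -1]
  (.der [(177, 1, [(0, 1)])]
  (.leaf [(4, [⟨0, 8, [0, 1, 2, 3, 4, 5, 6, 7, 8, 9, 10]⟩, ⟨11, 11, [11, 12]⟩, ⟨13, 14, [13, 14]⟩])] [(1, [(1, false), (14, true), (6, true), (10, false), (11, true), (8, false)]), (1, [(3, false), (5, false), (14, false), (6, true), (10, false), (7, false), (11, false), (8, false)]), (2, [(3, false), (5, false), (14, false), (13, true), (10, false), (7, false), (11, false), (8, false)])] 1 [(6, 4)]))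
  (.der [(191, 1, [(0, 1)])]
  (.leaf [(2, [⟨0, 8, [0, 1, 2, 3, 4, 5, 6, 7, 8, 9, 10]⟩, ⟨12, 11, [11, 12]⟩, ⟨13, 14, [13, 14]⟩])] [(1, [(3, false), (5, false), (14, false), (10, true), (7, false), (11, false), (8, false)]), (1, [(3, false), (5, false), (14, false), (13, true), (10, false), (7, false), (11, false), (8, false)])] 1 []))))
  (.der [(670, 1, [(0, 1)])]
  (.leaf [(1, [⟨0, 14, [0, 1, 2, 3, 4, 5, 6, 7, 8, 9, 10, 11, 12, 13, 14]⟩])] [(1, [(3, false), (5, false), (14, false), (10, false), (7, false), (11, false), (8, false)])] 1 [])))))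
  (.der [(339, 1, [(0, 1), (19, 1)]), (355, 1, [(0, 1)])]
  (.br [0, 0, 0, 1, -2, 0, 0, 1]
  (.der [(639, 1, [(0, 1)]), (651, 1, [(0, 1), (21, 1), (23, 1)]), (655, 1, [(0, 1), (3, 1), (4, 1), (20, 1)])]
  (.br [-1, 0, 2, 0, -1]
  (.der [(35, 1, [(0, 1)]), (455, 1, [(0, 1), (5, 2), (7, 1), (21, 1), (22, 1), (26, 1)]), (464, 1, [(0, 1), (5, 1), (22, 1), (26, 1)]), (547, 1, [(0, 1), (5, 2), (21, 1), (26, 1)]), (563, 1, [(0, 1), (5, 1), (22, 1), (26, 1)])]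
  (.leaf [(2, [⟨0, 1, [0, 1]⟩, ⟨2, 11, [2, 3, 4, 5, 6, 7, 8, 9, 10, 11, 12]⟩, ⟨13, 14, [13, 14]⟩])] [(1, [(0, false), (14, false), (6, true), (7, false), (8, false)]), (1, [(0, false), (5, false), (13, true), (6, false), (7, false), (8, false)])] 1 []))
  (.br [0, 0, 0, 0, -1, 0, 2, 0, -1]
  (.der [(177, 1, [(0, 1)])]
  (.leaf [(2, [⟨0, 11, [0, 1, 2, 3, 4, 5, 6, 7, 8, 9, 10, 11, 12]⟩, ⟨13, 14, [13, 14]⟩]), (2, [⟨0, 10, [0, 1, 2, 3, 4, 5, 6, 7, 8, 9, 10]⟩, ⟨11, 11, [11, 12]⟩, ⟨13, 14, [13, 14]⟩])] [(1, [(3, false), (5, false), (12, false), (9, false), (6, true), (10, false), (7, false), (11, false), (8, false)]), (3, [(3, false), (5, false), (14, false), (13, true), (10, false), (7, false), (11, false), (8, false)])] 1 [(6, 2), (22, 2)]))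
  (.der [(191, 1, [(0, 1)])]
  (.leaf [(1, [⟨0, 11, [0, 1, 2, 3, 4, 5, 6, 7, 8, 9, 10, 11, 12]⟩, ⟨13, 14, [13, 14]⟩]), (1, [⟨0, 10, [0, 1, 2, 3, 4, 5, 6, 7, 8, 9, 10]⟩, ⟨12, 11, [11, 12]⟩, ⟨13, 13, [13]⟩, ⟨14, 14, [14]⟩])] [(2, [(3, false), (5, false), (14, false), (13, true), (10, false), (7, false), (11, false), (8, false)])] 1 [(22, 1)])))))
  (.der [(864, 1, [(0, 1)])]
  (.br [0, 0, 0, 0, 1, 0, -2, 0, 1]
  (.der [(191, 1, [(0, 1)])]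
  (.br [0, 0, 0, 1, -1, 0, -1, 0, 0, 1]
  (.der [(655, 1, [(0, 1)])]
  (.leaf [(1, [⟨0, 11, [0, 1, 2, 3, 4, 5, 6, 7, 8, 9, 10, 11, 12]⟩, ⟨13, 14, [13, 14]⟩]), (1, [⟨0, 10, [0, 1, 2, 3, 4, 5, 6, 7, 8, 9, 10]⟩, ⟨12, 11, [11, 12]⟩, ⟨13, 13, [13]⟩, ⟨14, 14, [14]⟩])] [(2, [(3, false), (5, false), (14, false), (13, true), (10, false), (7, false), (11, false), (8, false)])] 1 [(22, 1)]))
  (.der [(880, 1, [(0, 1)]), (894, 1, [(0, 1)])]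
  (.br [0, 0, -1, 1, 0, 1, -1]
  (.der [(470, 1, [(0, 1), (9, 1), (24, 1)]), (595, 1, [(0, 1)])]
  (.leaf [(2, [⟨0, 5, [0, 1, 5]⟩, ⟨2, 13, [2, 3, 4, 6, 7, 8, 9, 10, 11, 12, 13]⟩, ⟨14, 14, [14]⟩]), (2, [⟨0, 5, [0, 1, 5]⟩, ⟨2, 11, [2, 3, 4, 6, 7, 8, 9, 10, 11, 12]⟩, ⟨13, 13, [13]⟩, ⟨14, 14, [14]⟩])] [(1, [(1, false), (5, false), (13, true), (9, false), (10, false), (6, false), (11, true), (8, false)]), (2, [(1, false), (5, false), (14, false), (9, true), (10, false), (7, false), (11, false), (8, false)]), (1, [(1, false), (14, true), (13, true), (9, false), (10, false), (11, true), (8, false)])] 1 [(0, 4)]))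
  (.der [(820, 1, [(0, 1)])]
  (.br [1, 0, -2, 0, 1]
  (.der [(77, 1, [(0, 1)])]
  (.br [0, 0, 0, 1, 0, -2, 0, 0, 0, 1]
  (.der [(368, 1, [(0, 1)])]
  (.br [0, 0, -1, 0, 0, 2, 0, 0, -1]
  (.der [(598, 1, [(0, 1)])]
  (.br [-1, 1, 0, 0, 0, 0, 0, 1, -1]
  (.der [(455, 1, [(0, 1), (11, 1), (13, 1), (27, 1)]), (464, 1, [(0, 1)]), (563, 1, [(0, 1)])]
  (.leaf [(1, [⟨0, 5, [0, 1, 5]⟩, ⟨2, 8, [2, 3, 4, 6, 7, 8, 9]⟩, ⟨10, 11, [10, 11, 12]⟩, ⟨13, 14, [13, 14]⟩]), (1, [⟨0, 5, [0, 1, 5]⟩, ⟨2, 8, [2, 3, 4, 6, 7, 8, 9]⟩, ⟨10, 10, [10]⟩, ⟨12, 11, [11, 12]⟩, ⟨13, 13, [13]⟩, ⟨14, 14, [14]⟩])] [(1, [(0, false), (5, false), (13, true), (10, true), (7, false), (8, false)]), (1, [(0, false), (14, false), (13, true), (10, true), (7, false), (8, false)])] 1 [(27, 1)]))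
  (.der [(689, 1, [(0, 1)]), (788, 1, [(0, 1)])]
  (.leaf [(2, [⟨0, 0, [0]⟩, ⟨1, 5, [1, 5]⟩, ⟨2, 8, [2, 3, 4, 6, 7, 8, 9]⟩, ⟨10, 10, [10]⟩, ⟨12, 11, [11, 12]⟩, ⟨13, 13, [13]⟩, ⟨14, 14, [14]⟩])] [(1, [(3, false), (5, false), (14, false), (9, true), (13, false), (10, true), (7, false), (11, false), (8, false)]), (1, [(0, false), (14, true), (13, true), (9, false), (10, true), (7, false), (8, true)])] 1 []))))
  (.der [(823, 1, [(0, 1)])]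
  (.br [-1, 1, 0, 0, 0, 0, 0, 1, -1]
  (.der [(464, 1, [(0, 1)]), (563, 1, [(0, 1)])]
  (.leaf [(2, [⟨0, 1, [0, 1]⟩, ⟨5, 8, [2, 3, 4, 5, 6, 7, 8, 9]⟩, ⟨10, 10, [10]⟩, ⟨12, 11, [11, 12]⟩, ⟨13, 13, [13]⟩, ⟨14, 14, [14]⟩])] [(1, [(3, false), (14, true), (13, true), (9, false), (6, true), (10, false), (7, false), (11, false), (8, false)]), (1, [(0, false), (14, false), (9, true), (13, true), (10, true), (7, false), (8, false)])] 1 [(21, 4)]))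
  (.der [(689, 1, [(0, 1)]), (788, 1, [(0, 1)])]
  (.leaf [(4, [⟨0, 1, [0, 1]⟩, ⟨5, 5, [5]⟩, ⟨2, 8, [2, 3, 4, 6, 7, 8]⟩, ⟨9, 8, [9]⟩, ⟨10, 10, [10]⟩, ⟨12, 11, [11, 12]⟩, ⟨13, 13, [13]⟩, ⟨14, 14, [14]⟩])] [(1, [(0, false), (14, true), (9, true), (13, true), (10, true), (7, false), (8, true)]), (3, [(3, false), (5, false), (14, false), (9, true), (13, true), (10, true), (7, false), (11, false), (8, false)])] 1 [(8, 4), (27, 4)]))))))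
  (.der [(294, 2, [(0, 3), (7, 1), (8, 2), (17, 2)]), (354, 1, [(0, 1)])]
  (.leaf [(2, [⟨0, 1, [0, 1]⟩, ⟨5, 5, [5]⟩, ⟨2, 9, [2, 3, 4, 6, 7, 8, 9]⟩, ⟨10, 11, [10, 11, 12]⟩, ⟨13, 13, [13]⟩, ⟨14, 14, [14]⟩]), (6, [⟨0, 1, [0, 1]⟩, ⟨5, 5, [5]⟩, ⟨2, 9, [2, 3, 4, 6, 7, 8, 9]⟩, ⟨10, 10, [10]⟩, ⟨12, 11, [11, 12]⟩, ⟨13, 13, [13]⟩, ⟨14, 14, [14]⟩])] [(5, [(3, false), (14, true), (13, true), (9, false), (6, true), (10, false), (7, false), (11, false), (8, false)]), (1, [(3, false), (5, false), (12, false), (9, true), (6, true), (10, false), (7, false), (11, false), (8, false)]), (2, [(3, false), (5, false), (13, true), (9, false), (10, true), (6, false), (11, true), (8, false)])] 1 [(0, 6), (2, 4), (14, 4), (26, 4)]))))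
  (.der [(35, 1, [(0, 1)]), (455, 2, [(0, 1), (2, 1), (8, 2), (9, 1), (10, 2), (24, 1), (25, 2)]), (547, 2, [(0, 1), (2, 1), (8, 2), (9, 1), (24, 1)]), (563, 2, [(0, 1), (2, 1), (9, 1), (13, 1), (25, 2)]), (651, 1, [(0, 1), (16, 1), (18, 1), (25, 1), (26, 1)])]
  (.leaf [(2, [⟨0, 1, [0, 1]⟩, ⟨2, 10, [2, 3, 4, 5, 6, 7, 8, 9, 10]⟩, ⟨12, 11, [11, 12]⟩, ⟨13, 13, [13]⟩, ⟨14, 14, [14]⟩])] [(1, [(3, false), (14, true), (13, true), (7, true), (11, false), (8, false)]), (1, [(0, false), (5, false), (13, true), (6, false), (7, false), (8, false)])] 1 []))))))))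
  (.der [(177, 1, [(0, 1)]), (820, 2, [(0, 1), (4, 1), (10, 1), (22, 1), (24, 2)])]
  (.br [0, 1, 0, 0, -2, 0, 0, 0, 0, 1]
  (.der [(651, 1, [(0, 1)])]
  (.br [-1, 0, 1, 0, 1, 0, -1]
  (.der [(464, 1, [(0, 1), (2, 1), (7, 1)]), (563, 1, [(0, 1), (2, 1), (7, 1)])]
  (.leaf [(2, [⟨0, 10, [0, 1, 2, 3, 4, 5, 6, 7, 8, 9, 10]⟩, ⟨11, 11, [11, 12]⟩, ⟨13, 14, [13, 14]⟩]), (4, [⟨0, 5, [0, 1, 5]⟩, ⟨2, 10, [2, 3, 4, 6, 7, 8, 9, 10]⟩, ⟨11, 11, [11, 12]⟩, ⟨13, 14, [13, 14]⟩])] [(1, [(3, false), (5, false), (12, false), (9, true), (6, true), (10, false), (7, false), (11, false), (8, false)]), (1, [(3, false), (5, false), (13, true), (6, false), (11, true), (8, false)]), (4, [(0, false), (14, false), (13, true), (6, false), (10, false), (7, false), (8, false)])] 1 [(3, 2), (7, 2), (23, 2)]))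
  (.der [(93, 1, [(0, 1)])]
  (.br [0, 0, -1, 0, 0, 2, 0, 0, -1]
  (.der [(598, 1, [(0, 1)])]
  (.br [0, 0, 0, 1, -1, 0, -1, 0, 0, 1]
  (.der [(655, 1, [(0, 1)]), (669, 1, [(0, 1)])]
  (.leaf [(8, [⟨0, 5, [0, 1, 5]⟩, ⟨2, 2, [2]⟩, ⟨6, 10, [3, 4, 6, 7, 8, 9, 10]⟩, ⟨11, 11, [11, 12]⟩, ⟨13, 14, [13, 14]⟩])] [(2, [(3, false), (14, true), (13, true), (9, false), (6, true), (10, false), (7, false), (11, false), (8, false)]), (4, [(3, false), (5, false), (12, false), (9, true), (6, true), (10, false), (7, false), (11, false), (8, false)]), (1, [(3, false), (5, false), (13, true), (6, false), (11, true), (8, false)]), (1, [(1, false), (14, true), (9, false), (13, false), (10, false), (11, true), (8, false)])] 1 [(2, 4), (9, 4), (14, 4)]))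
  (.der [(894, 1, [(0, 1)])]
  (.leaf [(8, [⟨0, 5, [0, 1, 5]⟩, ⟨2, 2, [2]⟩, ⟨6, 10, [3, 4, 6, 7, 8, 9, 10]⟩, ⟨11, 11, [11, 12]⟩, ⟨13, 14, [13, 14]⟩])] [(2, [(3, false), (14, true), (13, true), (9, false), (6, true), (10, false), (7, false), (11, false), (8, false)]), (3, [(3, false), (5, false), (12, false), (9, true), (6, true), (10, false), (7, false), (11, false), (8, false)]), (2, [(3, false), (5, false), (13, true), (6, false), (11, true), (8, false)]), (1, [(3, false), (5, false), (14, false), (9, true), (13, false), (6, false), (10, false), (7, false), (11, false), (8, false)])] 1 [(9, 2), (14, 2)]))))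
  (.leaf [(4, [⟨0, 5, [0, 1, 5]⟩, ⟨2, 2, [2]⟩, ⟨6, 10, [3, 4, 6, 7, 8, 9, 10]⟩, ⟨11, 11, [11, 12]⟩, ⟨13, 14, [13, 14]⟩])] [(1, [(3, false), (14, true), (13, true), (9, false), (6, true), (10, false), (7, false), (11, false), (8, false)]), (3, [(3, false), (5, false), (12, false), (9, true), (6, true), (10, false), (7, false), (11, false), (8, false)])] 1 [(0, 4), (1, 4), (5, 2), (8, 4), (18, 4)])))))
  (.der [(876, 1, [(0, 1)])]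
  (.leaf [(4, [⟨0, 5, [0, 1, 5]⟩, ⟨2, 10, [2, 3, 4, 6, 7, 8, 9, 10]⟩, ⟨11, 11, [11, 12]⟩, ⟨13, 14, [13, 14]⟩])] [(1, [(3, false), (5, false), (13, true), (9, false), (10, true), (11, true), (8, false)]), (1, [(3, false), (5, false), (13, true), (9, false), (6, true), (10, false), (7, false), (11, false), (8, false)]), (2, [(3, false), (5, false), (14, false), (13, true), (6, true), (10, false), (7, false), (11, false), (8, false)])] 1 [(1, 2), (6, 6), (22, 4)]))))))))))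
  (.der [(879, 1, [(0, 1)])]
  (.br [0, 0, -1, 1, 0, 1, -1]
  (.der [(470, 1, [(0, 1), (5, 1), (20, 1)]), (595, 1, [(0, 1)])]
  (.leaf [(32, [⟨0, 5, [0, 1, 5]⟩, ⟨2, 8, [2, 3, 4, 6, 7, 8]⟩, ⟨9, 9, [9]⟩, ⟨10, 11, [10, 11, 12]⟩, ⟨13, 13, [13]⟩, ⟨14, 14, [14]⟩])] [(1, []), (21, [(3, false), (14, true), (13, true), (9, true), (6, true), (10, false), (7, false), (11, false), (8, false)]), (10, [(1, false), (5, false), (13, true), (9, true), (10, false), (11, true), (8, false)])] 1 [(0, 20), (8, 36), (13, 38), (20, 42), (21, 14)]))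
  (.leaf [(4, [⟨0, 5, [0, 1, 5]⟩, ⟨2, 8, [2, 3, 4, 6, 7, 8]⟩, ⟨9, 9, [9]⟩, ⟨10, 11, [10, 11, 12]⟩, ⟨13, 13, [13]⟩, ⟨14, 14, [14]⟩])] [(3, [(3, false), (14, true), (13, true), (9, true), (6, true), (10, false), (7, false), (11, false), (8, false)]), (1, [(3, false), (5, false), (13, true), (9, true), (6, true), (11, true), (8, false)])] 1 [(3, 4), (8, 2), (13, 8), (20, 4)])))))
  (.der [(485, 1, [(0, 1)]), (591, 1, [(0, 1)])]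
  (.br [0, 0, 0, 1, -2, 0, 0, 0, 0, 1]
  (.der [(654, 1, [(0, 1)])]
  (.br [-1, 0, 0, 2, -1]
  (.der [(534, 1, [(0, 1)])]
  (.leaf [(1, [⟨0, 14, [0, 1, 2, 3, 4, 5, 6, 7, 8, 9, 10, 11, 12, 13, 14]⟩])] [(1, [(2, false), (5, false), (9, false), (6, false), (10, false), (7, false), (11, false), (8, false)])] 1 []))
  (.der [(759, 1, [(0, 1)])]
  (.br [0, 0, 0, -1, 0, 1, 0, 1, 0, -1]
  (.der [(355, 1, [(0, 1)])]
  (.br [0, 0, 0, 0, -1, 0, 2, 0, -1]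
  (.der [(177, 1, [(0, 1)])]
  (.br [0, 0, 0, 1, -2, 0, 0, 1]
  (.der [(639, 1, [(0, 1)])]
  (.leaf [(1, [⟨0, 14, [0, 1, 2, 3, 4, 5, 6, 7, 8, 9, 10, 11, 12, 13, 14]⟩])] [(1, [(2, false), (5, false), (12, false), (9, false), (6, false), (10, false), (7, false), (11, false), (8, false)])] 1 []))
  (.der [(864, 1, [(0, 1)])]
  (.leaf [(4, [⟨0, 5, [0, 1, 5]⟩, ⟨2, 10, [2, 3, 4, 6, 7, 8, 9, 10]⟩, ⟨11, 11, [11, 12]⟩, ⟨13, 14, [13, 14]⟩])] [(1, [(3, false), (14, true), (13, true), (9, false), (6, false), (10, false), (7, false), (11, false), (8, false)]), (1, [(2, false), (5, false), (13, true), (9, false), (6, false), (11, true), (8, false)]), (2, [(2, false), (5, false), (12, false), (9, true), (6, false), (10, false), (7, false), (11, false), (8, false)])] 1 [(11, 2)]))))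
  (.der [(191, 1, [(0, 1)])]
  (.leaf [(2, [⟨0, 5, [0, 1, 5]⟩, ⟨2, 10, [2, 3, 4, 6, 7, 8, 9, 10]⟩, ⟨12, 13, [11, 12, 13]⟩, ⟨14, 14, [14]⟩])] [(1, [(3, false), (14, true), (13, true), (9, false), (6, false), (10, false), (7, false), (11, false), (8, false)]), (1, [(2, false), (5, false), (9, true), (6, false), (10, false), (7, false), (11, false), (8, false)])] 1 []))))
  (.der [(470, 1, [(0, 1), (3, 2), (7, 1), (9, 1)])]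
  (.leaf [(2, [⟨0, 5, [0, 1, 5]⟩, ⟨2, 11, [2, 3, 4, 6, 7, 8, 9, 10, 11, 12]⟩, ⟨13, 14, [13, 14]⟩])] [(1, [(2, false), (5, false), (9, true), (6, false), (10, false), (11, true), (8, false)]), (1, [(1, false), (5, false), (14, false), (6, true), (10, false), (7, false), (11, false), (8, false)])] 1 [(0, 2), (3, 2), (9, 2)]))))))
  (.der [(759, 1, [(0, 1), (1, 1), (9, 2), (19, 1), (20, 1)]), (879, 1, [(0, 1)])]
  (.br [0, 0, 0, 0, -1, 1, 0, 1, -1]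
  (.der [(643, 1, [(0, 1)])]
  (.leaf [(2, [⟨0, 5, [0, 1, 5]⟩, ⟨2, 8, [2, 3, 4, 6, 7, 8]⟩, ⟨9, 11, [9, 10, 11, 12]⟩, ⟨13, 13, [13]⟩, ⟨14, 14, [14]⟩]), (4, [⟨0, 5, [0, 1, 5]⟩, ⟨2, 8, [2, 3, 4, 6, 7, 8]⟩, ⟨9, 9, [9]⟩, ⟨10, 11, [10, 11, 12]⟩, ⟨13, 13, [13]⟩, ⟨14, 14, [14]⟩])] [(1, [(4, false), (5, false), (14, false), (12, false), (6, true), (11, true), (8, false)]), (3, [(3, false), (14, true), (13, true), (9, true), (6, false), (10, false), (7, false), (11, false), (8, false)]), (1, [(2, false), (5, false), (9, true), (6, false), (11, true), (8, false)]), (1, [(2, false), (5, false), (12, false), (13, false), (9, true), (6, false), (10, false), (11, true), (8, false)])] 1 [(3, 2), (8, 4)]))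
  (.der [(868, 1, [(0, 1)])]
  (.leaf [(6, [⟨0, 5, [0, 1, 5]⟩, ⟨2, 8, [2, 3, 4, 6, 7, 8]⟩, ⟨9, 9, [9]⟩, ⟨10, 11, [10, 11, 12]⟩, ⟨13, 13, [13]⟩, ⟨14, 14, [14]⟩])] [(1, [(4, false), (5, false), (14, false), (12, false), (6, true), (11, true), (8, false)]), (3, [(3, false), (14, true), (13, true), (9, true), (6, false), (10, false), (7, false), (11, false), (8, false)]), (1, [(2, false), (5, false), (9, true), (6, false), (11, true), (8, false)]), (1, [(2, false), (5, false), (12, false), (13, true), (9, true), (6, false), (10, false), (11, true), (8, false)])] 1 [(8, 6), (20, 2)]))))))))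
  (.der [(725, 1, [(0, 1)]), (820, 1, [(0, 1), (5, 1), (17, 1), (19, 1)]), (832, 1, [(0, 1)])]
  (.br [0, 0, 0, 1, -2, 0, 0, 0, 0, 1]
  (.der [(654, 1, [(0, 1)])]
  (.br [0, 1, 0, -2, 0, 1]
  (.der [(302, 1, [(0, 1)])]
  (.br [0, -1, 0, 0, 2, 0, 0, 0, 0, -1]
  (.der [(77, 1, [(0, 1), (11, 1), (13, 1), (20, 1), (21, 1)]), (294, 1, [(0, 1), (13, 2)]), (339, 2, [(0, 1), (1, 1), (13, 2), (19, 1)]), (355, 2, [(0, 1), (1, 1), (8, 1), (13, 2)]), (598, 1, [(0, 1), (13, 2), (20, 1)]), (876, 1, [(0, 1)])]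
  (.br [0, -1, 1, 0, 1, -1]
  (.der [(816, 1, [(0, 1)])]
  (.br [0, 0, 0, 1, 0, -2, 0, 0, 0, 1]
  (.der [(368, 1, [(0, 1)])]
  (.br [0, 0, 0, 0, 1, 0, -2, 0, 1]
  (.der [(191, 1, [(0, 1)])]
  (.br [0, 0, 0, 1, -1, 0, -1, 0, 0, 1]
  (.der [(655, 1, [(0, 1)]), (669, 1, [(0, 1)])]
  (.leaf [(4, [⟨0, 0, [0]⟩, ⟨1, 1, [1]⟩, ⟨5, 10, [2, 3, 4, 5, 6, 7, 8, 9, 10]⟩, ⟨12, 11, [11, 12]⟩, ⟨13, 14, [13, 14]⟩])] [(1, [(4, false), (5, false), (14, false), (9, false), (13, false), (10, false), (6, false), (11, true), (8, false)]), (3, [(3, false), (5, true), (14, false), (9, false), (13, false), (10, false), (7, true), (11, false), (8, false)])] 1 [(12, 4), (25, 2)]))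
  (.der [(880, 1, [(0, 1)])]
  (.leaf [(2, [⟨0, 1, [0, 1]⟩, ⟨5, 5, [5]⟩, ⟨2, 8, [2, 3, 4, 6, 7, 8, 9]⟩, ⟨10, 10, [10]⟩, ⟨12, 11, [11, 12]⟩, ⟨13, 13, [13]⟩, ⟨14, 14, [14]⟩])] [(1, [(4, false), (5, false), (13, true), (10, true), (7, true), (11, false), (8, false)]), (1, [(4, false), (5, false), (14, false), (13, true), (10, true), (11, true), (8, false)])] 1 []))))
  (.der [(177, 1, [(0, 1)])]
  (.br [0, 0, 0, 1, -1, 0, -1, 0, 0, 1]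
  (.der [(655, 1, [(0, 1)]), (669, 1, [(0, 1)])]
  (.leaf [(2, [⟨0, 1, [0, 1]⟩, ⟨5, 11, [2, 3, 4, 5, 6, 7, 8, 9, 10, 11, 12]⟩, ⟨13, 14, [13, 14]⟩]), (1, [⟨0, 1, [0, 1]⟩, ⟨5, 8, [2, 3, 4, 5, 6, 7, 8, 9]⟩, ⟨10, 11, [10, 11, 12]⟩, ⟨13, 14, [13, 14]⟩]), (1, [⟨0, 1, [0, 1]⟩, ⟨5, 8, [2, 3, 4, 5, 6, 7, 8, 9]⟩, ⟨10, 10, [10]⟩, ⟨11, 11, [11, 12]⟩, ⟨13, 13, [13]⟩, ⟨14, 14, [14]⟩])] [(1, [(4, false), (5, false), (14, false), (13, true), (6, true), (10, false), (7, true), (11, false), (8, false)]), (3, [(4, false), (5, false), (14, false), (9, false), (13, false), (10, false), (11, true), (8, false)])] 1 [(1, 1), (12, 3)]))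
  (.der [(880, 1, [(0, 1)])]
  (.leaf [(2, [⟨0, 1, [0, 1]⟩, ⟨5, 5, [5]⟩, ⟨2, 8, [2, 3, 4, 6, 7, 8, 9]⟩, ⟨10, 10, [10]⟩, ⟨11, 11, [11, 12]⟩, ⟨13, 13, [13]⟩, ⟨14, 14, [14]⟩])] [(1, [(4, false), (5, false), (13, true), (6, true), (10, false), (11, true), (8, false)]), (1, [(4, false), (5, false), (14, false), (13, true), (10, true), (11, true), (8, false)])] 1 []))))))
  (.der [(354, 1, [(0, 1)])]
  (.leaf [(1, [⟨0, 0, [0]⟩, ⟨1, 1, [1]⟩, ⟨5, 5, [5]⟩, ⟨2, 9, [2, 3, 4, 6, 7, 8, 9]⟩, ⟨10, 11, [10, 11, 12]⟩, ⟨13, 14, [13, 14]⟩])] [(1, [(4, false), (5, false), (13, true), (9, false), (6, true), (10, false), (7, true), (11, false), (8, false)])] 1 [(0, 1), (10, 1), (22, 1)]))))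
  (.der [(177, 1, [(0, 1), (4, 2), (9, 1), (21, 1)]), (485, 1, [(0, 1)]), (591, 1, [(0, 1)])]
  (.br [0, 0, 0, 0, 1, -1, 0, -1, 1]
  (.der [(868, 1, [(0, 1)])]
  (.leaf [(2, [⟨0, 5, [0, 1, 5]⟩, ⟨2, 10, [2, 3, 4, 6, 7, 8, 9, 10]⟩, ⟨11, 11, [11, 12]⟩, ⟨13, 14, [13, 14]⟩]), (6, [⟨0, 1, [0, 1]⟩, ⟨5, 5, [5]⟩, ⟨2, 10, [2, 3, 4, 6, 7, 8, 9, 10]⟩, ⟨11, 11, [11, 12]⟩, ⟨13, 13, [13]⟩, ⟨14, 14, [14]⟩])] [(3, [(4, false), (5, false), (13, true), (6, true), (10, false), (11, true), (8, false)]), (1, [(4, false), (5, false), (14, false), (13, true), (6, true), (10, false), (7, true), (11, false), (8, false)]), (1, [(4, false), (5, false), (13, true), (9, false), (10, true), (7, true), (11, false), (8, false)]), (3, [(2, false), (5, false), (12, false), (13, true), (9, false), (6, false), (10, false), (11, true), (8, false)])] 1 [(1, 6), (10, 4)]))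
  (.der [(643, 1, [(0, 1)])]
  (.leaf [(2, [⟨0, 1, [0, 1]⟩, ⟨5, 5, [5]⟩, ⟨2, 10, [2, 3, 4, 6, 7, 8, 9, 10]⟩, ⟨11, 13, [11, 12, 13]⟩, ⟨14, 14, [14]⟩])] [(1, [(4, false), (5, false), (13, true), (6, true), (10, false), (11, true), (8, false)]), (1, [(2, false), (5, false), (12, false), (13, false), (9, false), (6, false), (10, false), (11, true), (8, false)])] 1 []))))))
  (.der [(651, 1, [(0, 1)])]
  (.br [0, 0, 0, -1, 1, 0, 1, 0, 0, -1]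
  (.der [(355, 1, [(0, 1), (14, 1), (16, 1)]), (880, 1, [(0, 1)]), (894, 1, [(0, 1)])]
  (.br [0, 0, -1, 0, 0, 2, 0, 0, -1]
  (.der [(598, 1, [(0, 1)])]
  (.br [1, 0, -2, 0, 1]
  (.der [(77, 1, [(0, 1)])]
  (.br [-1, 0, 0, 2, -1]
  (.der [(534, 1, [(0, 1)])]
  (.leaf [(2, [⟨0, 1, [0, 1]⟩, ⟨5, 11, [2, 3, 4, 5, 6, 7, 8, 9, 10, 11, 12]⟩, ⟨13, 14, [13, 14]⟩])] [(1, [(4, false), (5, false), (9, false), (13, false), (6, false), (10, false), (7, true), (11, false), (8, false)]), (1, [(4, false), (5, false), (9, false), (13, false), (6, false), (10, false), (11, true), (8, false)])] 1 [(12, 2)]))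
  (.der [(759, 1, [(0, 1)])]
  (.br [0, 0, 0, 0, 1, -1, 0, -1, 1]
  (.der [(868, 1, [(0, 1)])]
  (.br [0, 0, 0, 0, -1, 0, 2, 0, -1]
  (.der [(177, 1, [(0, 1)])]
  (.leaf [(2, [⟨0, 1, [0, 1]⟩, ⟨5, 5, [5]⟩, ⟨2, 10, [2, 3, 4, 6, 7, 8, 9, 10]⟩, ⟨11, 11, [11, 12]⟩, ⟨13, 14, [13, 14]⟩])] [(1, [(4, false), (5, false), (9, true), (13, false), (6, false), (10, false), (7, true), (11, false), (8, false)]), (1, [(4, false), (5, false), (12, false), (13, true), (6, false), (10, false), (11, true), (8, false)])] 1 [(14, 2)]))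
  (.der [(191, 1, [(0, 1)])]
  (.leaf [(2, [⟨0, 11, [0, 1, 2, 3, 4, 5, 6, 7, 8, 9, 10, 11, 12]⟩, ⟨13, 14, [13, 14]⟩]), (1, [⟨0, 1, [0, 1]⟩, ⟨5, 5, [5]⟩, ⟨2, 11, [2, 3, 4, 6, 7, 8, 9, 10, 11, 12]⟩, ⟨13, 14, [13, 14]⟩]), (7, [⟨0, 1, [0, 1]⟩, ⟨5, 5, [5]⟩, ⟨2, 10, [2, 3, 4, 6, 7, 8, 9, 10]⟩, ⟨12, 11, [11, 12]⟩, ⟨13, 13, [13]⟩, ⟨14, 14, [14]⟩])] [(4, [(4, false), (5, false), (14, false), (13, true), (6, false), (10, false), (7, true), (11, false), (8, false)]), (2, [(4, false), (5, false), (13, true), (6, false), (11, true), (8, false)]), (4, [(4, false), (5, false), (14, false), (9, true), (13, false), (6, false), (10, false), (11, true), (8, false)])] 1 [(14, 1)]))))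
  (.der [(643, 1, [(0, 1)])]
  (.leaf [(2, [⟨0, 1, [0, 1]⟩, ⟨5, 5, [5]⟩, ⟨2, 11, [2, 3, 4, 6, 7, 8, 9, 10, 11, 12]⟩, ⟨13, 14, [13, 14]⟩])] [(1, [(4, false), (5, false), (9, true), (13, false), (6, false), (10, false), (7, true), (11, false), (8, false)]), (1, [(4, false), (5, false), (12, false), (13, false), (6, false), (10, false), (11, true), (8, false)])] 1 [(13, 2)]))))))
  (.der [(35, 1, [(0, 1)]), (534, 1, [(0, 1), (14, 2)]), (563, 2, [(0, 1), (2, 1), (7, 1), (11, 1), (23, 2)])]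
  (.br [1, -1, 0, 0, 0, -1, 1]
  (.der [(177, 1, [(0, 1), (1, 1), (2, 1), (9, 1), (24, 1)]), (772, 1, [(0, 1)])]
  (.leaf [(2, [⟨0, 1, [0, 1]⟩, ⟨2, 11, [2, 3, 4, 5, 6, 7, 8, 9, 10, 11, 12]⟩, ⟨13, 14, [13, 14]⟩]), (2, [⟨0, 1, [0, 1]⟩, ⟨2, 5, [5]⟩, ⟨2, 6, [2, 6]⟩, ⟨3, 10, [3, 4, 7, 8, 9, 10]⟩, ⟨11, 11, [11, 12]⟩, ⟨13, 14, [13, 14]⟩])] [(3, [(4, false), (5, false), (9, false), (13, false), (6, false), (11, true), (8, false)]), (1, [(4, false), (5, false), (12, false), (6, true), (7, true), (8, false)])] 1 [(3, 4)]))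
  (.der [(462, 1, [(0, 1)]), (547, 1, [(0, 1)])]
  (.leaf [(2, [⟨0, 11, [0, 1, 2, 3, 4, 5, 6, 7, 8, 9, 10, 11, 12]⟩, ⟨13, 14, [13, 14]⟩]), (2, [⟨0, 1, [0, 1]⟩, ⟨2, 11, [2, 3, 4, 5, 6, 7, 8, 9, 10, 11, 12]⟩, ⟨13, 14, [13, 14]⟩]), (6, [⟨0, 1, [0, 1]⟩, ⟨2, 5, [5]⟩, ⟨2, 11, [2, 3, 4, 6, 7, 8, 9, 10, 11, 12]⟩, ⟨13, 14, [13, 14]⟩])] [(7, [(4, false), (5, false), (9, false), (13, false), (6, false), (11, true), (8, false)]), (1, [(3, false), (5, true), (9, false), (13, false), (10, true), (7, true), (8, false)]), (2, [(0, false), (12, false), (6, true), (7, false), (8, false)])] 1 [(2, 4), (3, 4), (12, 4)]))))))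
  (.der [(368, 1, [(0, 1), (12, 1), (13, 1), (22, 1)]), (823, 1, [(0, 1)])]
  (.br [-1, 0, 2, 0, -1]
  (.der [(35, 1, [(0, 1)]), (464, 2, [(0, 1), (2, 1), (7, 1), (11, 1), (23, 2)]), (534, 1, [(0, 1), (14, 2)]), (563, 2, [(0, 1), (2, 1), (7, 1), (11, 1), (23, 2)])]
  (.br [-1, 0, 1, 0, 1, 0, -1]
  (.der [(51, 1, [(0, 1)])]
  (.br [-1, 1, 0, 0, 0, 1, -1]
  (.der [(455, 1, [(0, 1), (10, 1), (25, 1)]), (547, 1, [(0, 1)])]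
  (.leaf [(2, [⟨0, 1, [0, 1]⟩, ⟨2, 11, [2, 3, 4, 5, 6, 7, 8, 9, 10, 11, 12]⟩, ⟨13, 14, [13, 14]⟩])] [(1, [(0, false), (5, false), (13, true), (6, false), (7, false), (8, false)]), (1, [(0, false), (14, false), (6, true), (7, false), (8, false)])] 1 []))
  (.der [(177, 1, [(0, 1), (2, 1), (4, 1), (16, 1), (18, 1), (25, 1)]), (772, 1, [(0, 1)])]
  (.leaf [(2, [⟨0, 1, [0, 1]⟩, ⟨2, 5, [5]⟩, ⟨2, 2, [2]⟩, ⟨3, 10, [3, 4, 6, 7, 8, 9, 10]⟩, ⟨11, 11, [11, 12]⟩, ⟨13, 14, [13, 14]⟩])] [(1, [(4, false), (5, false), (12, false), (6, true), (11, true), (8, false)]), (1, [(4, false), (5, false), (13, true), (6, false), (7, true), (8, false)])] 1 [(4, 2)]))))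
  (.der [(177, 2, [(0, 2), (1, 1), (3, 1), (7, 1), (24, 1), (27, 1)])]
  (.br [-1, 1, 0, 0, 0, 1, -1]
  (.der [(455, 3, [(0, 3), (1, 1), (2, 1), (3, 1), (4, 2), (13, 1), (16, 2), (21, 2), (25, 3)]), (547, 1, [(0, 1)]), (591, 1, [(0, 1), (1, 1)])]
  (.leaf [(1, [⟨0, 14, [0, 1, 2, 3, 4, 5, 6, 7, 8, 9, 10, 11, 12, 13, 14]⟩])] [(1, [(0, false), (5, false), (9, false), (6, false), (7, false), (8, false)])] 1 []))
  (.der [(772, 1, [(0, 1)])]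
  (.leaf [(2, [⟨0, 1, [0, 1]⟩, ⟨2, 2, [2, 5]⟩, ⟨6, 6, [6]⟩, ⟨3, 10, [3, 4, 7, 8, 9, 10]⟩, ⟨11, 11, [11, 12]⟩, ⟨13, 14, [13, 14]⟩])] [(1, [(4, false), (5, false), (12, false), (6, true), (11, true), (8, false)]), (1, [(4, false), (5, false), (9, false), (13, true), (6, false), (7, true), (8, false)])] 1 [(4, 2)]))))))
  (.der [(77, 1, [(0, 1)])]
  (.br [0, 0, 0, 0, -1, 0, 2, 0, -1]
  (.der [(177, 1, [(0, 1)])]
  (.br [-1, 0, 1, 0, 1, 0, -1]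
  (.der [(51, 1, [(0, 1)])]
  (.br [-1, 1, 0, 0, 0, 0, 0, 1, -1]
  (.der [(464, 1, [(0, 1)]), (563, 1, [(0, 1)])]
  (.br [0, -1, 1, 0, 1, -1]
  (.der [(816, 1, [(0, 1)])]
  (.br [-1, 1, 0, 0, 0, 1, -1]
  (.der [(547, 1, [(0, 1)])]
  (.leaf [(4, [⟨0, 10, [0, 1, 2, 3, 4, 5, 6, 7, 8, 9, 10]⟩, ⟨11, 11, [11, 12]⟩, ⟨13, 14, [13, 14]⟩]), (8, [⟨0, 1, [0, 1]⟩, ⟨5, 2, [2, 5]⟩, ⟨3, 10, [3, 4, 6, 7, 8, 9, 10]⟩, ⟨11, 11, [11, 12]⟩, ⟨13, 14, [13, 14]⟩]), (20, [⟨0, 1, [0, 1]⟩, ⟨5, 2, [2, 5]⟩, ⟨3, 8, [3, 4, 6, 7, 8, 9]⟩, ⟨10, 10, [10]⟩, ⟨11, 11, [11, 12]⟩, ⟨13, 14, [13, 14]⟩])] [(15, [(4, false), (5, false), (14, false), (13, true), (6, false), (10, false), (7, true), (11, false), (8, false)]), (7, [(4, false), (5, false), (13, true), (6, false), (11, true), (8, false)]), (10, [(0, false), (14, false), (9, true), (6, true), (7, false), (8, false)])]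 1 [(6, 6), (14, 6), (16, 2)]))
  (.der [(772, 1, [(0, 1)])]
  (.leaf [(4, [⟨0, 1, [0, 1]⟩, ⟨5, 2, [2, 5]⟩, ⟨3, 8, [3, 4, 6, 7, 8, 9]⟩, ⟨10, 10, [10]⟩, ⟨11, 11, [11, 12]⟩, ⟨13, 14, [13, 14]⟩]), (2, [⟨0, 1, [0, 1]⟩, ⟨5, 2, [2, 5]⟩, ⟨3, 6, [6]⟩, ⟨3, 8, [3, 4, 7, 8, 9]⟩, ⟨10, 10, [10]⟩, ⟨11, 11, [11, 12]⟩, ⟨13, 14, [13, 14]⟩])] [(1, [(4, false), (5, false), (14, false), (9, true), (13, true), (10, true), (11, true), (8, false)]), (2, [(4, false), (5, false), (14, false), (13, true), (6, false), (10, false), (7, true), (11, false), (8, false)]), (1, [(4, false), (5, false), (13, true), (6, false), (11, true), (8, false)]), (2, [(0, false), (14, false), (9, true), (6, true), (7, true), (8, false)])] 1 []))))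
  (.der [(547, 1, [(0, 1), (2, 1)]), (591, 1, [(0, 1)])]
  (.leaf [(2, [⟨0, 8, [0, 1, 2, 3, 4, 5, 6, 7, 8, 9]⟩, ⟨10, 11, [10, 11, 12]⟩, ⟨13, 14, [13, 14]⟩]), (5, [⟨0, 5, [0, 1, 5]⟩, ⟨2, 8, [2, 3, 4, 6, 7, 8, 9]⟩, ⟨10, 11, [10, 11, 12]⟩, ⟨13, 14, [13, 14]⟩])] [(1, [(4, false), (5, false), (13, true), (6, false), (11, true), (8, false)]), (6, [(0, false), (14, false), (9, true), (6, false), (7, false), (8, false)])] 1 [(0, 2), (4, 1), (5, 2), (10, 2), (15, 1), (25, 1)]))))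
  (.leaf [(2, [⟨0, 1, [0, 1]⟩, ⟨5, 2, [2, 5]⟩, ⟨3, 8, [3, 4, 6, 7, 8, 9]⟩, ⟨10, 10, [10]⟩, ⟨11, 11, [11, 12]⟩, ⟨13, 14, [13, 14]⟩]), (2, [⟨0, 1, [0, 1]⟩, ⟨5, 2, [2, 5]⟩, ⟨3, 8, [3, 4, 6, 7, 8, 9]⟩, ⟨10, 10, [10]⟩, ⟨11, 11, [11, 12]⟩, ⟨13, 13, [13]⟩, ⟨14, 14, [14]⟩])] [(1, [(4, false), (5, false), (12, false), (6, true), (11, true), (8, false)]), (1, [(4, false), (5, false), (14, false), (9, true), (13, true), (10, true), (11, true), (8, false)]), (2, [(4, false), (5, false), (14, false), (13, true), (6, false), (10, false), (7, true), (11, false), (8, false)])] 1 [(0, 2), (14, 2)])))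
  (.der [(93, 1, [(0, 1)])]
  (.br [0, 1, -1, 0, -1, 1]
  (.der [(455, 1, [(0, 1), (4, 1), (5, 1), (10, 1), (26, 1)]), (591, 1, [(0, 1)])]
  (.leaf [(2, [⟨0, 1, [0, 1]⟩, ⟨5, 8, [2, 3, 4, 5, 6, 7, 8, 9]⟩, ⟨10, 10, [10]⟩, ⟨11, 11, [11, 12]⟩, ⟨13, 14, [13, 14]⟩]), (6, [⟨0, 1, [0, 1]⟩, ⟨5, 2, [2, 5]⟩, ⟨6, 8, [3, 4, 6, 7, 8, 9]⟩, ⟨10, 10, [10]⟩, ⟨11, 11, [11, 12]⟩, ⟨13, 14, [13, 14]⟩])] [(2, [(4, false), (5, false), (12, false), (6, true), (11, true), (8, false)]), (1, [(4, false), (5, false), (14, false), (9, true), (13, true), (10, true), (11, true), (8, false)]), (5, [(0, false), (5, false), (14, false), (9, true), (6, false), (10, false), (7, true), (11, false), (8, false)])] 1 [(4, 8), (10, 4), (14, 2), (21, 4)]))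
  (.der [(816, 1, [(0, 1)])]
  (.br [-1, 0, 0, 2, -1]
  (.der [(534, 1, [(0, 1)])]
  (.leaf [(6, [⟨0, 1, [0, 1]⟩, ⟨5, 2, [2, 5]⟩, ⟨6, 8, [3, 4, 6, 7, 8, 9]⟩, ⟨10, 10, [10]⟩, ⟨11, 11, [11, 12]⟩, ⟨13, 14, [13, 14]⟩]), (2, [⟨0, 1, [0, 1]⟩, ⟨5, 5, [5]⟩, ⟨2, 2, [2]⟩, ⟨6, 6, [6]⟩, ⟨3, 8, [3, 4, 7, 8, 9]⟩, ⟨10, 10, [10]⟩, ⟨11, 11, [11, 12]⟩, ⟨13, 14, [13, 14]⟩])] [(2, [(4, false), (5, false), (12, false), (6, true), (11, true), (8, false)]), (3, [(4, false), (5, false), (14, false), (9, true), (13, true), (10, true), (11, true), (8, false)]), (3, [(4, false), (5, false), (9, false), (6, true), (10, false), (7, true), (11, false), (8, false)])] 1 [(15, 4)]))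
  (.der [(759, 1, [(0, 1)])]
  (.leaf [(6, [⟨0, 1, [0, 1]⟩, ⟨5, 5, [5]⟩, ⟨2, 2, [2]⟩, ⟨6, 8, [3, 4, 6, 7, 8, 9]⟩, ⟨10, 10, [10]⟩, ⟨11, 11, [11, 12]⟩, ⟨13, 14, [13, 14]⟩]), (2, [⟨0, 1, [0, 1]⟩, ⟨5, 5, [5]⟩, ⟨2, 2, [2]⟩, ⟨6, 6, [6]⟩, ⟨3, 8, [3, 4, 7, 8, 9]⟩, ⟨10, 10, [10]⟩, ⟨11, 11, [11, 12]⟩, ⟨13, 14, [13, 14]⟩])] [(2, [(4, false), (5, false), (12, false), (6, true), (11, true), (8, false)]), (3, [(4, false), (5, false), (14, false), (9, true), (13, true), (10, true), (11, true), (8, false)]), (3, [(4, false), (5, false), (9, true), (6, true), (10, false), (7, true), (11, false), (8, false)])] 1 [(15, 4)]))))))))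
  (.der [(191, 1, [(0, 1)])]
  (.leaf [(2, [⟨0, 1, [0, 1]⟩, ⟨5, 10, [2, 3, 4, 5, 6, 7, 8, 9, 10]⟩, ⟨12, 11, [11, 12]⟩, ⟨13, 14, [13, 14]⟩]), (5, [⟨0, 1, [0, 1]⟩, ⟨5, 8, [2, 3, 4, 5, 6, 7, 8, 9]⟩, ⟨10, 10, [10]⟩, ⟨12, 11, [11, 12]⟩, ⟨13, 13, [13]⟩, ⟨14, 14, [14]⟩])] [(2, [(4, false), (5, false), (14, false), (9, true), (13, true), (10, true), (11, true), (8, false)]), (5, [(4, false), (5, false), (14, false), (13, true), (6, false), (10, false), (7, true), (11, false), (8, false)])] 1 [(0, 1), (1, 1), (12, 1), (13, 1), (17, 5), (24, 2)]))))))))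
  (.der [(655, 1, [(0, 1)]), (669, 1, [(0, 1)])]
  (.br [1, 0, -1, 0, 0, 0, -1, 0, 1]
  (.der [(77, 1, [(0, 1), (22, 1), (26, 1)]), (109, 1, [(0, 1)])]
  (.br [1, 0, -1, 0, -1, 0, 1]
  (.der [(93, 1, [(0, 1)])]
  (.br [0, 0, -1, 0, 0, 2, 0, 0, -1]
  (.der [(598, 1, [(0, 1)])]
  (.leaf [(1, [⟨0, 0, [0]⟩, ⟨1, 11, [1, 2, 3, 4, 5, 6, 7, 8, 9, 10, 11, 12]⟩, ⟨13, 14, [13, 14]⟩])] [(1, [(4, false), (5, false), (14, false), (9, false), (13, false), (10, false), (7, true), (11, false), (8, false)])] 1 [(2, 1), (12, 1)]))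
  (.der [(368, 4, [(0, 3), (2, 1), (3, 2), (7, 4), (11, 1), (12, 2), (15, 2), (24, 4)]), (823, 1, [(0, 1)])]
  (.br [0, 0, 0, 0, -1, 0, 2, 0, -1]
  (.der [(177, 1, [(0, 1)])]
  (.br [0, -1, 1, 0, 1, -1]
  (.der [(816, 1, [(0, 1)])]
  (.br [0, 0, 0, 1, 0, -1, 0, -1, 0, 1]
  (.der [(383, 1, [(0, 1)])]
  (.leaf [(2, [⟨0, 1, [0, 1]⟩, ⟨5, 2, [2, 5]⟩, ⟨6, 8, [3, 4, 6, 7, 8, 9, 10]⟩, ⟨11, 11, [11, 12]⟩, ⟨13, 14, [13, 14]⟩])] [(1, [(4, false), (5, false), (14, false), (9, false), (6, true), (10, false), (11, true), (8, false)]), (1, [(4, false), (5, false), (14, false), (6, true), (10, false), (11, true), (8, false)])] 1 [(15, 2)]))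
  (.der [(355, 1, [(0, 1)])]
  (.leaf [(4, [⟨0, 0, [0]⟩, ⟨1, 2, [1, 2, 5]⟩, ⟨6, 10, [3, 4, 6, 7, 8, 9, 10]⟩, ⟨11, 14, [11, 12, 13, 14]⟩]), (4, [⟨0, 0, [0]⟩, ⟨1, 2, [1, 2, 5]⟩, ⟨6, 10, [3, 4, 6, 7, 8, 9, 10]⟩, ⟨11, 11, [11, 12]⟩, ⟨13, 14, [13, 14]⟩]), (6, [⟨0, 0, [0]⟩, ⟨1, 1, [1]⟩, ⟨5, 2, [2, 5]⟩, ⟨6, 10, [3, 4, 6, 7, 8, 9, 10]⟩, ⟨11, 11, [11, 12]⟩, ⟨13, 14, [13, 14]⟩])] [(11, [(4, false), (5, false), (14, false), (9, false), (6, true), (10, false), (7, true), (11, false), (8, false)]), (2, [(4, false), (5, false), (14, false), (9, false), (13, true), (10, false), (11, true), (8, false)]), (1, [(4, false), (5, false), (14, false), (6, true), (10, false), (11, true), (8, false)])] 1 [(5, 14), (13, 2), (15, 8)]))))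
  (.der [(485, 1, [(0, 1)]), (591, 1, [(0, 1)]), (639, 1, [(0, 1), (5, 1), (9, 1), (14, 1)])]
  (.leaf [(1, [⟨0, 0, [0]⟩, ⟨1, 11, [1, 2, 3, 4, 5, 6, 7, 8, 9, 10, 11, 12]⟩, ⟨13, 14, [13, 14]⟩])] [(1, [(2, false), (5, false), (12, false), (9, false), (6, false), (10, false), (7, true), (11, false), (8, false)])] 1 [(4, 1), (14, 1)]))))
  (.der [(114, 1, [(0, 1), (25, 1), (29, 1)])]
  (.leaf [(1, [⟨0, 2, [0, 1, 2, 5]⟩, ⟨6, 3, [3, 6]⟩, ⟨7, 11, [4, 7, 8, 9, 10, 11, 12]⟩, ⟨13, 13, [13]⟩, ⟨14, 14, [14]⟩])] [(1, [(4, false), (5, false), (14, false), (13, true), (10, false), (7, true), (11, false), (8, false)])] 1 [(0, 1)]))))))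
  (.der [(51, 1, [(0, 1)]), (114, 1, [(0, 1), (1, 1), (23, 1), (27, 1)])]
  (.leaf [(1, [⟨0, 2, [0, 1, 2, 5]⟩, ⟨3, 3, [3, 6]⟩, ⟨7, 11, [4, 7, 8, 9, 10, 11, 12]⟩, ⟨13, 13, [13]⟩, ⟨14, 14, [14]⟩])] [(1, [(4, false), (5, false), (14, false), (13, true), (10, false), (7, true), (11, false), (8, false)])] 1 [(1, 1)]))))
  (.br [0, 0, 0, 0, -1, 0, 2, 0, -1]
  (.der [(177, 1, [(0, 1)])]
  (.br [1, 0, -1, 0, -1, 0, 1]
  (.der [(93, 1, [(0, 1)])]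
  (.br [0, 0, -1, 0, 0, 2, 0, 0, -1]
  (.der [(598, 1, [(0, 1)])]
  (.br [1, 0, -2, 0, 1]
  (.der [(77, 1, [(0, 1)])]
  (.br [-1, 0, 0, 2, -1]
  (.der [(534, 1, [(0, 1)])]
  (.leaf [(2, [⟨0, 1, [0, 1]⟩, ⟨5, 11, [2, 3, 4, 5, 6, 7, 8, 9, 10, 11, 12]⟩, ⟨13, 14, [13, 14]⟩])] [(1, [(4, false), (5, false), (14, false), (9, false), (13, false), (10, false), (7, true), (11, false), (8, false)]), (1, [(4, false), (5, false), (9, false), (13, false), (10, false), (11, true), (8, false)])] 1 [(15, 2)]))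
  (.der [(759, 1, [(0, 1)])]
  (.leaf [(2, [⟨0, 1, [0, 1]⟩, ⟨5, 5, [5]⟩, ⟨2, 11, [2, 3, 4, 6, 7, 8, 9, 10, 11, 12]⟩, ⟨13, 14, [13, 14]⟩])] [(1, [(4, false), (5, false), (14, false), (9, false), (13, false), (10, false), (7, true), (11, false), (8, false)]), (1, [(4, false), (5, false), (9, true), (13, false), (10, false), (11, true), (8, false)])] 1 [(15, 2)]))))
  (.der [(35, 1, [(0, 1)])]
  (.leaf [(2, [⟨0, 1, [0, 1]⟩, ⟨2, 2, [2, 5]⟩, ⟨6, 11, [3, 4, 6, 7, 8, 9, 10, 11, 12]⟩, ⟨13, 14, [13, 14]⟩])] [(1, [(4, false), (5, false), (14, false), (12, false), (6, true), (11, true), (8, false)]), (1, [(4, false), (5, false), (14, false), (9, false), (13, false), (10, false), (7, true), (11, false), (8, false)])] 1 [(14, 2)]))))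
  (.der [(368, 12, [(0, 10), (2, 5), (4, 9), (11, 6), (12, 1), (13, 3), (16, 4), (25, 6), (26, 1)]), (823, 1, [(0, 1)])]
  (.br [0, 0, 0, 1, 0, -1, 0, -1, 0, 1]
  (.der [(383, 1, [(0, 1)]), (639, 1, [(0, 1), (14, 1), (19, 2)])]
  (.br [-1, 0, 2, 0, -1]
  (.der [(35, 1, [(0, 1)])]
  (.leaf [(4, [⟨0, 1, [0, 1]⟩, ⟨2, 2, [2, 5]⟩, ⟨6, 8, [3, 4, 6, 7, 8, 9, 10]⟩, ⟨11, 11, [11, 12]⟩, ⟨13, 14, [13, 14]⟩])] [(2, [(4, false), (5, false), (14, false), (12, false), (6, true), (11, true), (8, false)]), (1, [(4, false), (5, false), (14, false), (6, true), (10, false), (13, false), (7, true), (11, false), (8, false)]), (1, [(4, false), (5, false), (13, true), (11, true), (8, false)])] 1 [(0, 2), (15, 2)]))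
  (.der [(77, 1, [(0, 1)])]
  (.br [0, -1, 1, 0, 1, -1]
  (.der [(816, 1, [(0, 1)])]
  (.leaf [(2, [⟨0, 1, [0, 1]⟩, ⟨5, 2, [2, 5]⟩, ⟨6, 8, [3, 4, 6, 7, 8, 9, 10]⟩, ⟨11, 11, [11, 12]⟩, ⟨13, 14, [13, 14]⟩])] [(1, [(4, false), (5, false), (14, false), (6, true), (10, false), (11, true), (8, false)]), (1, [(4, false), (5, false), (12, false), (9, false), (6, true), (10, false), (11, true), (8, false)])] 1 [(16, 2)]))
  (.der [(470, 1, [(0, 2), (2, 1), (14, 1), (16, 1)]), (534, 1, [(0, 1), (2, 1), (11, 1), (12, 1), (16, 1)]), (591, 1, [(0, 1)])]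
  (.leaf [(2, [⟨0, 2, [0, 1, 2, 5]⟩, ⟨6, 8, [3, 4, 6, 7, 8, 9, 10]⟩, ⟨11, 14, [11, 12, 13, 14]⟩]), (4, [⟨0, 2, [0, 1, 2, 5]⟩, ⟨6, 8, [3, 4, 6, 7, 8, 9, 10]⟩, ⟨11, 11, [11, 12]⟩, ⟨13, 14, [13, 14]⟩]), (2, [⟨0, 1, [0, 1]⟩, ⟨5, 2, [2, 5]⟩, ⟨6, 8, [3, 4, 6, 7, 8, 9, 10]⟩, ⟨11, 11, [11, 12]⟩, ⟨13, 14, [13, 14]⟩])] [(2, [(4, false), (5, false), (14, false), (9, false), (13, true), (10, false), (11, true), (8, false)]), (3, [(4, false), (5, false), (12, false), (6, true), (10, false), (13, false), (11, true), (8, false)]), (3, [(1, false), (5, false), (9, false), (6, false), (10, false), (7, true), (11, false), (8, false)])] 1 [(0, 2), (16, 8)]))))))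
  (.der [(355, 1, [(0, 1)])]
  (.br [-1, 0, 2, 0, -1]
  (.der [(35, 1, [(0, 1)]), (534, 1, [(0, 1), (18, 2)])]
  (.leaf [(2, [⟨0, 1, [0, 1]⟩, ⟨2, 2, [2, 5]⟩, ⟨6, 10, [3, 4, 6, 7, 8, 9, 10]⟩, ⟨11, 11, [11, 12]⟩, ⟨13, 14, [13, 14]⟩])] [(1, [(4, false), (5, false), (14, false), (12, false), (6, true), (11, true), (8, false)]), (1, [(4, false), (5, false), (9, false), (13, true), (7, true), (11, false), (8, false)])] 1 []))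
  (.der [(77, 1, [(0, 1)])]
  (.leaf [(2, [⟨0, 1, [0, 1]⟩, ⟨5, 2, [2, 5]⟩, ⟨6, 10, [3, 4, 6, 7, 8, 9, 10]⟩, ⟨11, 11, [11, 12]⟩, ⟨13, 14, [13, 14]⟩])] [(1, [(4, false), (5, false), (14, false), (9, false), (13, true), (10, false), (11, true), (8, false)]), (1, [(4, false), (5, false), (12, false), (6, true), (10, false), (7, true), (11, false), (8, false)])] 1 [(15, 2)]))))))))
  (.der [(51, 1, [(0, 1)]), (553, 1, [(0, 1), (17, 2), (24, 1), (28, 1)])]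
  (.br [0, 0, -1, 0, 0, 2, 0, 0, -1]
  (.der [(355, 1, [(0, 1), (13, 1), (27, 1)]), (598, 1, [(0, 1)])]
  (.br [-1, 0, 2, 0, -1]
  (.der [(35, 1, [(0, 1)]), (534, 1, [(0, 1), (17, 2)]), (563, 2, [(0, 1), (1, 1), (2, 1), (11, 1), (14, 1), (26, 2)])]
  (.br [-1, 1, 0, 0, 0, 1, -1]
  (.der [(462, 1, [(0, 1)]), (547, 1, [(0, 1)])]
  (.leaf [(2, [⟨0, 1, [0, 1]⟩, ⟨2, 10, [2, 3, 4, 5, 6, 7, 8, 9, 10]⟩, ⟨11, 14, [11, 12, 13, 14]⟩])] [(1, [(4, false), (5, false), (14, false), (9, false), (13, false), (6, false), (11, true), (8, false)]), (1, [(0, false), (12, false), (6, true), (7, false), (8, false)])] 1 []))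
  (.der [(772, 1, [(0, 1)])]
  (.leaf [(2, [⟨0, 1, [0, 1]⟩, ⟨2, 2, [2, 5]⟩, ⟨3, 10, [3, 4, 6, 7, 8, 9, 10]⟩, ⟨11, 14, [11, 12, 13, 14]⟩])] [(1, [(4, false), (5, false), (14, false), (12, false), (6, true), (11, true), (8, false)]), (1, [(4, false), (5, false), (9, false), (13, false), (6, false), (7, true), (8, false)])] 1 []))))
  (.der [(77, 1, [(0, 1)])]
  (.leaf [(2, [⟨0, 1, [0, 1]⟩, ⟨5, 2, [2, 5]⟩, ⟨3, 11, [3, 4, 6, 7, 8, 9, 10, 11, 12]⟩, ⟨13, 14, [13, 14]⟩])] [(1, [(4, false), (5, false), (14, false), (9, false), (13, false), (6, false), (11, true), (8, false)]), (1, [(3, false), (5, true), (14, false), (9, false), (13, false), (10, false), (7, true), (11, false), (8, false)])] 1 [(14, 2)]))))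
  (.der [(368, 3, [(0, 2), (2, 1), (4, 3), (10, 1), (11, 2), (13, 1), (25, 2)]), (823, 1, [(0, 1)])]
  (.br [0, 0, 0, -1, 0, 1, 0, 1, 0, -1]
  (.der [(355, 1, [(0, 1)])]
  (.br [-1, 0, 2, 0, -1]
  (.der [(35, 1, [(0, 1)])]
  (.br [-1, 1, 0, 0, 0, 0, 0, 1, -1]
  (.der [(464, 1, [(0, 1)]), (563, 1, [(0, 1)])]
  (.br [-1, 1, 0, 0, 0, 1, -1]
  (.der [(547, 1, [(0, 1)])]
  (.leaf [(2, [⟨0, 1, [0, 1]⟩, ⟨2, 10, [2, 3, 4, 5, 6, 7, 8, 9, 10]⟩, ⟨11, 11, [11, 12]⟩, ⟨13, 14, [13, 14]⟩])] [(1, [(4, false), (5, false), (14, false), (12, false), (6, true), (11, true), (8, false)]), (1, [(0, false), (14, false), (13, true), (6, false), (7, false), (8, false)])] 1 []))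
  (.der [(772, 1, [(0, 1)])]
  (.leaf [(2, [⟨0, 1, [0, 1]⟩, ⟨2, 2, [2, 5]⟩, ⟨3, 10, [3, 4, 6, 7, 8, 9, 10]⟩, ⟨11, 11, [11, 12]⟩, ⟨13, 14, [13, 14]⟩])] [(1, [(4, false), (5, false), (14, false), (12, false), (6, true), (11, true), (8, false)]), (1, [(0, false), (14, false), (13, true), (6, false), (7, true), (8, false)])] 1 []))))
  (.leaf [(2, [⟨0, 1, [0, 1]⟩, ⟨2, 2, [2, 5]⟩, ⟨3, 10, [3, 4, 6, 7, 8, 9, 10]⟩, ⟨11, 11, [11, 12]⟩, ⟨13, 14, [13, 14]⟩])] [(1, [(4, false), (5, false), (14, false), (9, false), (13, true), (6, false), (11, true), (8, false)]), (1, [(4, false), (5, false), (14, false), (6, true), (13, false), (7, true), (11, false), (8, false)])] 1 [(0, 2), (28, 2)])))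
  (.der [(77, 1, [(0, 1)])]
  (.leaf [(1, [⟨0, 1, [0, 1]⟩, ⟨5, 2, [2, 5]⟩, ⟨3, 10, [3, 4, 6, 7, 8, 9, 10]⟩, ⟨11, 11, [11, 12]⟩, ⟨13, 14, [13, 14]⟩])] [(1, [(4, false), (5, false), (14, false), (9, false), (13, true), (10, false), (7, true), (11, false), (8, false)])] 1 [(0, 1), (1, 1)]))))
  (.der [(383, 1, [(0, 1)])]
  (.br [-1, 0, 2, 0, -1]
  (.der [(35, 1, [(0, 1)])]
  (.leaf [(2, [⟨0, 1, [0, 1]⟩, ⟨2, 2, [2, 5]⟩, ⟨3, 8, [3, 4, 6, 7, 8, 9, 10]⟩, ⟨11, 11, [11, 12]⟩, ⟨13, 14, [13, 14]⟩])] [(1, [(4, false), (5, false), (14, false), (6, true), (13, false), (7, true), (11, false), (8, false)]), (1, [(4, false), (5, false), (13, true), (6, false), (11, true), (8, false)])] 1 []))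
  (.der [(77, 1, [(0, 1)])]
  (.br [1, -1, 0, -1, 1]
  (.der [(756, 1, [(0, 1)])]
  (.leaf [(2, [⟨0, 1, [0, 1]⟩, ⟨5, 2, [2, 5]⟩, ⟨3, 8, [3, 4, 6, 7, 8, 9, 10]⟩, ⟨11, 11, [11, 12]⟩, ⟨13, 14, [13, 14]⟩])] [(1, [(4, false), (5, false), (14, false), (13, true), (10, false), (7, true), (11, false), (8, false)]), (1, [(4, false), (5, false), (6, true), (10, false), (11, true), (8, false)])] 1 [(16, 2)]))
  (.leaf [(2, [⟨0, 2, [0, 1, 2, 5]⟩, ⟨3, 8, [3, 4, 6, 7, 8, 9, 10]⟩, ⟨11, 11, [11, 12]⟩, ⟨13, 14, [13, 14]⟩])] [(1, [(4, false), (5, false), (14, false), (6, true), (13, false), (7, true), (11, false), (8, false)]), (1, [(4, false), (5, false), (13, true), (6, false), (11, true), (8, false)])] 1 [(0, 2)])))))))))))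
  (.der [(51, 1, [(0, 1), (1, 1)]), (191, 1, [(0, 1)]), (368, 1, [(0, 1), (2, 1), (6, 2), (8, 1), (11, 1), (23, 2)]), (553, 1, [(0, 1), (1, 1), (16, 2), (23, 1), (27, 1)])]
  (.br [0, 0, 0, 1, 0, -1, 0, -1, 0, 1]
  (.der [(383, 1, [(0, 1)])]
  (.br [-1, 1, 0, 0, 0, 0, 0, 1, -1]
  (.der [(464, 1, [(0, 1)]), (563, 1, [(0, 1)])]
  (.br [-1, 1, 0, 0, 0, 1, -1]
  (.der [(455, 1, [(0, 1), (11, 1), (26, 1)]), (547, 1, [(0, 1)])]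
  (.br [-1, 0, 0, 2, 0, 0, -1]
  (.der [(535, 1, [(0, 1)])]
  (.leaf [(1, [⟨0, 14, [0, 1, 2, 3, 4, 5, 6, 7, 8, 9, 10, 11, 12, 13, 14]⟩])] [(1, [(0, false), (5, false), (10, false), (6, false), (7, false), (8, false)])] 1 []))
  (.der [(760, 1, [(0, 1)])]
  (.br [1, 0, -2, 0, 1]
  (.der [(77, 1, [(0, 1)])]
  (.leaf [(2, [⟨0, 1, [0, 1]⟩, ⟨5, 2, [2, 5]⟩, ⟨3, 8, [3, 4, 6, 7, 8, 9, 10]⟩, ⟨12, 11, [11, 12]⟩, ⟨13, 14, [13, 14]⟩])] [(1, [(4, false), (5, false), (14, false), (13, true), (10, false), (7, true), (11, false), (8, false)]), (1, [(0, false), (5, false), (10, true), (6, false), (7, false), (8, false)])] 1 [(11, 2), (16, 2)]))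
  (.der [(35, 1, [(0, 1)])]
  (.leaf [(2, [⟨0, 1, [0, 1]⟩, ⟨2, 11, [2, 3, 4, 5, 6, 7, 8, 9, 10, 11, 12]⟩, ⟨13, 14, [13, 14]⟩]), (6, [⟨0, 1, [0, 1]⟩, ⟨2, 8, [2, 3, 4, 5, 6, 7, 8, 9, 10]⟩, ⟨12, 11, [11, 12]⟩, ⟨13, 14, [13, 14]⟩])] [(2, [(0, false), (14, false), (6, true), (13, false), (7, true), (8, false)]), (3, [(0, false), (14, false), (13, true), (6, false), (7, false), (8, false)]), (3, [(0, false), (5, false), (10, true), (6, false), (7, false), (8, false)])] 1 [(29, 2)]))))))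
  (.der [(760, 1, [(0, 1), (7, 1)]), (772, 1, [(0, 1)])]
  (.br [-1, 0, 2, 0, -1]
  (.der [(35, 1, [(0, 1)])]
  (.leaf [(4, [⟨0, 1, [0, 1]⟩, ⟨2, 2, [2, 5]⟩, ⟨3, 8, [3, 4, 6, 7, 8, 9, 10]⟩, ⟨12, 11, [11, 12]⟩, ⟨13, 14, [13, 14]⟩])] [(1, [(0, false), (14, false), (6, true), (13, false), (7, true), (8, false)]), (2, [(0, false), (14, false), (13, true), (6, false), (7, true), (8, false)]), (1, [(4, false), (5, false), (10, true), (6, false), (7, true), (8, false)])] 1 [(8, 2)]))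
  (.der [(77, 1, [(0, 1)])]
  (.leaf [(2, [⟨0, 1, [0, 1]⟩, ⟨5, 2, [2, 5]⟩, ⟨3, 8, [3, 4, 6, 7, 8, 9, 10]⟩, ⟨12, 11, [11, 12]⟩, ⟨13, 14, [13, 14]⟩])] [(1, [(4, false), (5, false), (14, false), (13, true), (10, false), (7, true), (11, false), (8, false)]), (1, [(4, false), (5, false), (10, true), (7, true), (8, false)])] 1 [(15, 2)]))))))
  (.der [(689, 1, [(0, 1)]), (788, 1, [(0, 1)])]
  (.br [-1, 0, 2, 0, -1]
  (.der [(35, 1, [(0, 1)])]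
  (.leaf [(2, [⟨0, 1, [0, 1]⟩, ⟨2, 2, [2, 5]⟩, ⟨3, 8, [3, 4, 6, 7, 8, 9, 10]⟩, ⟨12, 11, [11, 12]⟩, ⟨13, 14, [13, 14]⟩]), (2, [⟨0, 1, [0, 1]⟩, ⟨2, 2, [2, 5]⟩, ⟨3, 8, [3, 4, 6, 7, 8, 9, 10]⟩, ⟨12, 11, [11, 12]⟩, ⟨13, 13, [13]⟩, ⟨14, 14, [14]⟩])] [(3, [(4, false), (5, false), (14, false), (13, true), (10, false), (7, true), (11, false), (8, false)]), (1, [(0, false), (14, true), (6, true), (13, false), (7, true), (8, true)])] 1 [(1, 4), (7, 4), (14, 6), (26, 6)]))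
  (.der [(77, 1, [(0, 1)])]
  (.leaf [(1, [⟨0, 1, [0, 1]⟩, ⟨5, 2, [2, 5]⟩, ⟨3, 8, [3, 4, 6, 7, 8, 9, 10]⟩, ⟨12, 11, [11, 12]⟩, ⟨13, 13, [13]⟩, ⟨14, 14, [14]⟩])] [(1, [(4, false), (5, false), (14, false), (13, true), (10, false), (7, true), (11, false), (8, false)])] 1 [(1, 1), (7, 1), (14, 1)]))))))
  (.der [(355, 1, [(0, 1)])]
  (.br [-1, 0, 2, 0, -1]
  (.der [(35, 1, [(0, 1)])]
  (.br [-1, 1, 0, 0, 0, 1, -1]
  (.der [(464, 2, [(0, 1), (4, 1), (14, 1), (26, 1)]), (547, 1, [(0, 1)]), (563, 2, [(0, 1), (4, 1), (14, 1), (26, 1)])]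
  (.leaf [(2, [⟨0, 10, [0, 1, 2, 3, 4, 5, 6, 7, 8, 9, 10]⟩, ⟨12, 14, [11, 12, 13, 14]⟩]), (4, [⟨0, 1, [0, 1]⟩, ⟨2, 10, [2, 3, 4, 5, 6, 7, 8, 9, 10]⟩, ⟨12, 11, [11, 12]⟩, ⟨13, 14, [13, 14]⟩])] [(3, [(4, false), (5, false), (14, false), (13, true), (10, false), (7, true), (11, false), (8, false)]), (1, [(4, false), (5, false), (13, true), (6, false), (11, true), (8, false)]), (2, [(0, false), (14, false), (6, true), (7, false), (8, false)])] 1 [(26, 6)]))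
  (.leaf [(1, [⟨0, 1, [0, 1]⟩, ⟨2, 10, [2, 3, 4, 5, 6, 7, 8, 9, 10]⟩, ⟨12, 11, [11, 12]⟩, ⟨13, 14, [13, 14]⟩])] [(1, [(4, false), (5, false), (14, false), (13, true), (10, false), (7, true), (11, false), (8, false)])] 1 [(0, 1), (2, 1), (3, 1), (26, 2)])))
  (.der [(77, 1, [(0, 1)])]
  (.leaf [(2, [⟨0, 11, [0, 1, 2, 3, 4, 5, 6, 7, 8, 9, 10, 11, 12]⟩, ⟨13, 14, [13, 14]⟩]), (1, [⟨0, 1, [0, 1]⟩, ⟨5, 2, [2, 5]⟩, ⟨3, 11, [3, 4, 6, 7, 8, 9, 10, 11, 12]⟩, ⟨13, 14, [13, 14]⟩]), (7, [⟨0, 1, [0, 1]⟩, ⟨5, 2, [2, 5]⟩, ⟨3, 10, [3, 4, 6, 7, 8, 9, 10]⟩, ⟨12, 11, [11, 12]⟩, ⟨13, 13, [13]⟩, ⟨14, 14, [14]⟩])] [(8, [(4, false), (5, false), (14, false), (13, true), (10, false), (7, true), (11, false), (8, false)]), (2, [(4, false), (5, false), (13, true), (6, false), (11, true), (8, false)])] 1 [(13, 1)])))))))))))))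
  (.der [(260, 1, [(0, 1)]), (368, 3, [(0, 3), (1, 1), (2, 1), (6, 1), (7, 2), (19, 4), (20, 1), (21, 3)]), (383, 1, [(0, 1), (19, 1), (21, 1)]), (651, 1, [(0, 1), (7, 1), (12, 2), (19, 2), (21, 2)]), (655, 1, [(0, 1), (12, 1), (14, 1), (19, 1), (21, 1)])]
  (.br [1, -1, 0, -1, 1]
  (.der [(756, 1, [(0, 1)])]
  (.br [1, 0, -1, 0, -1, 0, 1]
  (.der [(93, 1, [(0, 1)])]
  (.br [0, 0, 0, 0, -1, 0, 2, 0, -1]
  (.der [(177, 1, [(0, 1)])]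
  (.leaf [(2, [⟨0, 0, [0]⟩, ⟨1, 5, [1, 2, 5]⟩, ⟨6, 8, [3, 4, 6, 7, 8, 9, 10]⟩, ⟨11, 11, [11, 12]⟩, ⟨13, 14, [13, 14]⟩])] [(1, [(4, false), (5, false), (14, false), (6, true), (10, false), (11, true), (8, false)]), (1, [(4, false), (5, false), (6, true), (10, false), (11, true), (8, false)])] 1 [(10, 2)]))
  (.der [(109, 1, [(0, 1), (1, 1)]), (114, 1, [(0, 1), (22, 1), (26, 1)])]
  (.leaf [(2, [⟨0, 5, [0, 1, 2, 5]⟩, ⟨6, 3, [3, 6]⟩, ⟨7, 11, [4, 7, 8, 9, 10, 11, 12]⟩, ⟨13, 13, [13]⟩, ⟨14, 14, [14]⟩])] [(1, [(4, false), (5, false), (14, false), (13, true), (10, false), (11, true), (8, false)]), (1, [(4, false), (5, false), (14, false), (6, true), (10, false), (11, true), (8, false)])] 1 []))))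
  (.der [(51, 1, [(0, 1)]), (69, 1, [(0, 1), (21, 1), (25, 1)])]
  (.br [-1, 0, 0, 2, 0, 0, -1]
  (.der [(535, 1, [(0, 1)])]
  (.br [-1, 0, 2, 0, -1]
  (.der [(35, 1, [(0, 1)]), (67, 1, [(0, 1), (23, 1), (27, 1)])]
  (.br [-1, 1, 0, 0, 0, 0, 0, 1, -1]
  (.der [(563, 1, [(0, 1)])]
  (.leaf [(2, [⟨0, 1, [0, 1]⟩, ⟨2, 11, [2, 3, 4, 5, 6, 7, 8, 9, 10, 11, 12]⟩, ⟨13, 14, [13, 14]⟩])] [(1, [(4, false), (5, false), (10, false), (6, false), (11, true), (8, false)]), (1, [(4, false), (5, false), (10, false), (13, false), (7, true), (8, false)])] 1 []))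
  (.der [(772, 1, [(0, 1), (7, 1), (12, 1), (24, 1)]), (788, 1, [(0, 1)])]
  (.leaf [(2, [⟨0, 1, [0, 1]⟩, ⟨2, 3, [2, 3, 5, 6]⟩, ⟨4, 11, [4, 7, 8, 9, 10, 11, 12]⟩, ⟨13, 14, [13, 14]⟩])] [(1, [(4, false), (5, false), (10, false), (13, false), (11, true), (8, false)]), (1, [(4, false), (5, false), (10, false), (6, false), (7, true), (8, true)])] 1 []))))
  (.der [(77, 1, [(0, 1)])]
  (.leaf [(2, [⟨0, 1, [0, 1]⟩, ⟨5, 11, [2, 3, 4, 5, 6, 7, 8, 9, 10, 11, 12]⟩, ⟨13, 14, [13, 14]⟩])] [(1, [(4, false), (5, false), (10, false), (11, true), (8, false)]), (1, [(4, false), (5, false), (10, false), (7, true), (11, false), (8, false)])] 1 [(11, 2)]))))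
  (.der [(760, 1, [(0, 1)]), (772, 1, [(0, 1), (3, 1)])]
  (.br [0, 0, 0, 0, -1, 0, 2, 0, -1]
  (.der [(177, 1, [(0, 1)])]
  (.br [-1, 0, 2, 0, -1]
  (.der [(35, 1, [(0, 1)])]
  (.leaf [(4, [⟨0, 1, [0, 1]⟩, ⟨2, 5, [2, 5]⟩, ⟨3, 8, [3, 4, 6, 7, 8, 9, 10]⟩, ⟨11, 11, [11, 12]⟩, ⟨13, 14, [13, 14]⟩])] [(1, [(4, false), (5, false), (14, false), (6, true), (10, false), (13, false), (7, true), (11, false), (8, false)]), (1, [(4, false), (5, false), (13, true), (6, false), (11, true), (8, false)]), (2, [(4, false), (5, false), (10, true), (13, false), (11, true), (8, false)])] 1 []))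
  (.der [(77, 1, [(0, 1)])]
  (.leaf [(2, [⟨0, 1, [0, 1]⟩, ⟨5, 5, [2, 5]⟩, ⟨3, 8, [3, 4, 6, 7, 8, 9, 10]⟩, ⟨11, 11, [11, 12]⟩, ⟨13, 14, [13, 14]⟩])] [(1, [(4, false), (5, false), (10, true), (11, true), (8, false)]), (1, [(4, false), (5, false), (14, false), (6, true), (10, false), (11, true), (8, false)])] 1 [(12, 2)]))))
  (.der [(191, 1, [(0, 1)])]
  (.br [1, 0, -2, 0, 1]
  (.der [(77, 1, [(0, 1)])]
  (.br [0, 0, 0, 1, 0, 0, -2, 0, 0, 1]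
  (.der [(670, 1, [(0, 1)])]
  (.leaf [(2, [⟨0, 1, [0, 1]⟩, ⟨5, 5, [2, 5]⟩, ⟨3, 11, [3, 4, 6, 7, 8, 9, 10, 11, 12]⟩, ⟨13, 14, [13, 14]⟩])] [(1, [(4, false), (5, false), (10, true), (11, true), (8, false)]), (1, [(4, false), (5, false), (14, false), (10, false), (7, true), (11, false), (8, false)])] 1 [(13, 2)]))
  (.der [(895, 1, [(0, 1)])]
  (.leaf [(2, [⟨0, 1, [0, 1]⟩, ⟨5, 5, [2, 5]⟩, ⟨3, 8, [3, 4, 6, 7, 8, 9, 10]⟩, ⟨12, 11, [11, 12]⟩, ⟨13, 14, [13, 14]⟩])] [(1, [(4, false), (5, false), (10, true), (11, true), (8, false)]), (1, [(4, false), (5, false), (14, false), (10, true), (7, true), (11, false), (8, false)])] 1 [(13, 2)]))))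
  (.der [(35, 1, [(0, 1)])]
  (.br [0, 0, 0, 1, 0, 0, -2, 0, 0, 1]
  (.der [(670, 1, [(0, 1)])]
  (.leaf [(2, [⟨0, 1, [0, 1]⟩, ⟨2, 5, [2, 5]⟩, ⟨3, 11, [3, 4, 6, 7, 8, 9, 10, 11, 12]⟩, ⟨13, 14, [13, 14]⟩])] [(1, [(4, false), (5, false), (10, true), (6, false), (7, true), (11, false), (8, false)]), (1, [(4, false), (5, false), (14, false), (10, false), (13, false), (11, true), (8, false)])] 1 []))
  (.der [(895, 1, [(0, 1)])]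
  (.leaf [(2, [⟨0, 1, [0, 1]⟩, ⟨2, 5, [2, 5]⟩, ⟨3, 8, [3, 4, 6, 7, 8, 9, 10]⟩, ⟨12, 11, [11, 12]⟩, ⟨13, 14, [13, 14]⟩])] [(1, [(4, false), (5, false), (10, true), (6, false), (7, true), (11, false), (8, false)]), (1, [(4, false), (5, false), (14, false), (10, true), (13, false), (11, true), (8, false)])] 1 []))))))))))))
  (.der [(455, 1, [(0, 1), (18, 1), (20, 1)]), (531, 1, [(0, 1)])]
  (.br [-1, 1, 0, 0, 0, 0, 0, 1, -1]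
  (.der [(553, 1, [(0, 1), (7, 1), (14, 2)]), (563, 1, [(0, 1)])]
  (.leaf [(2, [⟨0, 11, [0, 1, 2, 3, 4, 5, 6, 7, 8, 9, 10, 11, 12]⟩, ⟨13, 14, [13, 14]⟩])] [(1, [(0, false), (5, false), (6, false), (11, true), (8, false)]), (1, [(0, false), (5, false), (6, false), (13, false), (7, true), (8, false)])] 1 [(1, 2)]))
  (.leaf [(2, [⟨0, 13, [0, 1, 2, 3, 4, 5, 6, 7, 8, 9, 10, 11, 12, 13]⟩, ⟨14, 14, [14]⟩]), (4, [⟨0, 11, [0, 1, 2, 3, 4, 5, 6, 7, 8, 9, 10, 11, 12]⟩, ⟨13, 13, [13]⟩, ⟨14, 14, [14]⟩])] [(1, [(4, false), (5, false), (14, false), (6, true), (10, false), (13, false), (7, true), (11, false), (8, false)]), (2, [(0, false), (5, false), (6, false), (11, true), (8, false)]), (3, [(0, false), (5, false), (6, false), (10, false), (13, false), (11, true), (8, false)])] 1 [(0, 6), (1, 10)])))))))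
  (.der [(876, 1, [(0, 1), (8, 1), (9, 1)]), (879, 1, [(0, 1)])]
  (.br [0, -1, 1, 0, 1, -1]
  (.der [(816, 1, [(0, 1)])]
  (.leaf [(1, [⟨0, 0, [0]⟩, ⟨1, 1, [1]⟩, ⟨5, 5, [5]⟩, ⟨2, 8, [2, 3, 4, 6, 7, 8]⟩, ⟨9, 9, [9]⟩, ⟨10, 11, [10, 11, 12]⟩, ⟨13, 14, [13, 14]⟩])] [(1, [(4, false), (5, false), (13, true), (9, true), (6, true), (10, false), (7, true), (11, false), (8, false)])] 1 [(7, 1), (12, 2), (19, 1)]))
  (.der [(485, 1, [(0, 1)]), (591, 1, [(0, 1)])]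
  (.br [0, 0, 0, 0, -1, 1, 0, 1, -1]
  (.der [(643, 1, [(0, 1)])]
  (.leaf [(36, [⟨0, 5, [0, 1, 5]⟩, ⟨2, 8, [2, 3, 4, 6, 7, 8]⟩, ⟨9, 11, [9, 10, 11, 12]⟩, ⟨13, 14, [13, 14]⟩]), (26, [⟨0, 5, [0, 1, 5]⟩, ⟨2, 8, [2, 3, 4, 6, 7, 8]⟩, ⟨9, 9, [9]⟩, ⟨10, 11, [10, 11, 12]⟩, ⟨13, 14, [13, 14]⟩]), (30, [⟨0, 5, [0, 1, 5]⟩, ⟨2, 8, [2, 3, 4, 6, 7, 8]⟩, ⟨9, 9, [9]⟩, ⟨10, 11, [10, 11, 12]⟩, ⟨13, 13, [13]⟩, ⟨14, 14, [14]⟩]), (74, [⟨0, 1, [0, 1]⟩, ⟨5, 5, [5]⟩, ⟨2, 8, [2, 3, 4, 6, 7, 8]⟩, ⟨9, 9, [9]⟩, ⟨10, 11, [10, 11, 12]⟩, ⟨13, 13, [13]⟩, ⟨14, 14, [14]⟩])] [(9, []), (30, [(3, false), (14, true), (13, true), (9, true), (10, true), (7, true), (11, false), (8, false)]), (14, [(4, false), (5, false), (14, false), (13, true), (6, true), (10, false), (7, true), (11, false), (8, false)]), (113, [(2, false), (5, false), (12, false), (13, false), (9, true),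 (6, false), (11, true), (8, false)])] 1 [(8, 52), (9, 42)]))
  (.der [(868, 1, [(0, 1)])]
  (.leaf [(2, [⟨0, 5, [0, 1, 5]⟩, ⟨2, 8, [2, 3, 4, 6, 7, 8]⟩, ⟨9, 9, [9]⟩, ⟨10, 11, [10, 11, 12]⟩, ⟨13, 13, [13]⟩, ⟨14, 14, [14]⟩]), (6, [⟨0, 1, [0, 1]⟩, ⟨5, 5, [5]⟩, ⟨2, 8, [2, 3, 4, 6, 7, 8]⟩, ⟨9, 9, [9]⟩, ⟨10, 11, [10, 11, 12]⟩, ⟨13, 13, [13]⟩, ⟨14, 14, [14]⟩])] [(3, [(4, false), (5, false), (13, true), (9, true), (10, true), (11, true), (8, false)]), (3, [(4, false), (5, false), (14, false), (13, true), (6, true), (10, false), (7, true), (11, false), (8, false)]), (2, [(2, false), (5, false), (12, false), (13, true), (9, true), (6, false), (11, true), (8, false)])] 1 [(1, 4), (4, 2), (8, 4), (20, 2)]))))))))))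
  (.der [(93, 1, [(0, 1), (7, 1), (9, 1)]), (762, 1, [(0, 1)]), (772, 1, [(0, 1), (6, 1), (7, 1)]), (775, 1, [(0, 1)])]
  (.br [0, -1, 1, 0, 1, -1]
  (.der [(710, 1, [(0, 1)]), (816, 1, [(0, 1)])]
  (.br [0, 1, 0, -2, 0, 1]
  (.der [(302, 1, [(0, 1)])]
  (.br [0, 0, 0, 1, -2, 0, 0, 0, 0, 1]
  (.der [(654, 1, [(0, 1)])]
  (.br [0, 0, 0, 0, -1, 0, 2, 0, -1]
  (.der [(177, 1, [(0, 1)])]
  (.br [0, 0, 0, 1, 0, -2, 0, 0, 0, 1]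
  (.der [(368, 1, [(0, 1)])]
  (.br [0, -1, 1, 0, 0, 0, 1, -1]
  (.der [(832, 1, [(0, 1)])]
  (.br [1, 0, 0, 0, 0, -2, 0, 0, 1]
  (.der [(383, 1, [(0, 1), (22, 1), (26, 1)]), (655, 1, [(0, 1), (16, 1), (18, 1), (22, 1), (26, 1)]), (669, 1, [(0, 1), (16, 1), (18, 1), (22, 1), (26, 1)]), (778, 1, [(0, 1)])]
  (.leaf [(2, [⟨0, 0, [0]⟩, ⟨1, 2, [1, 2, 5]⟩, ⟨6, 6, [6]⟩, ⟨3, 8, [3, 4, 7, 8, 9, 10]⟩, ⟨11, 11, [11, 12]⟩, ⟨13, 14, [13, 14]⟩])] [(1, [(4, false), (5, false), (14, false), (9, false), (6, true), (13, true), (10, false), (7, true), (11, false), (8, false)]), (1, [(4, false), (5, false), (14, false), (6, true), (10, true), (13, false), (11, true), (8, false)])] 1 [(16, 2), (18, 2)]))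
  (.der [(553, 1, [(0, 1)])]
  (.br [0, 0, 0, 1, -1, 0, -1, 0, 0, 1]
  (.der [(655, 1, [(0, 1)]), (669, 1, [(0, 1)])]
  (.br [1, 0, -2, 0, 1]
  (.der [(77, 1, [(0, 1)])]
  (.br [0, 0, 1, 0, 0, -2, 0, 0, 1]
  (.der [(823, 1, [(0, 1)])]
  (.br [0, 0, 0, 1, 0, -1, 0, -1, 0, 1]
  (.der [(383, 1, [(0, 1)])]
  (.leaf [(2, [⟨0, 1, [0, 1]⟩, ⟨5, 2, [2, 5]⟩, ⟨6, 6, [6]⟩, ⟨3, 8, [3, 4, 7, 8, 9, 10]⟩, ⟨11, 11, [11, 12]⟩, ⟨13, 14, [13, 14]⟩])] [(1, [(4, false), (5, false), (14, false), (9, false), (6, true), (10, true), (11, true), (8, false)]), (1, [(4, false), (5, false), (14, false), (6, true), (13, false), (10, false), (11, true), (8, false)])] 1 [(15, 2)]))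
  (.der [(355, 1, [(0, 1)])]
  (.leaf [(6, [⟨0, 1, [0, 1]⟩, ⟨5, 2, [2, 5]⟩, ⟨6, 10, [3, 4, 6, 7, 8, 9, 10]⟩, ⟨11, 11, [11, 12]⟩, ⟨13, 14, [13, 14]⟩]), (2, [⟨0, 1, [0, 1]⟩, ⟨5, 5, [5]⟩, ⟨2, 2, [2]⟩, ⟨6, 6, [6]⟩, ⟨3, 10, [3, 4, 7, 8, 9, 10]⟩, ⟨11, 11, [11, 12]⟩, ⟨13, 14, [13, 14]⟩])] [(3, [(4, false), (5, false), (14, false), (9, false), (6, true), (13, false), (10, false), (7, true), (11, false), (8, false)]), (3, [(4, false), (5, false), (14, false), (9, false), (13, true), (10, false), (11, true), (8, false)]), (2, [(4, false), (5, false), (12, true), (6, true), (13, false), (11, true), (8, false)])] 1 [(15, 4)]))))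
  (.der [(598, 1, [(0, 1)])]
  (.leaf [(2, [⟨0, 1, [0, 1]⟩, ⟨5, 2, [2, 5]⟩, ⟨6, 11, [3, 4, 6, 7, 8, 9, 10, 11, 12]⟩, ⟨13, 14, [13, 14]⟩])] [(1, [(4, false), (5, false), (14, false), (9, false), (6, true), (13, false), (10, false), (7, true), (11, false), (8, false)]), (1, [(4, false), (5, false), (14, false), (9, false), (13, false), (10, false), (11, true), (8, false)])] 1 [(14, 2)]))))
  (.der [(35, 1, [(0, 1)]), (534, 1, [(0, 1), (16, 2)])]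
  (.br [0, 0, 0, 1, 0, -1, 0, -1, 0, 1]
  (.der [(383, 1, [(0, 1)])]
  (.leaf [(8, [⟨0, 1, [0, 1]⟩, ⟨2, 2, [2, 5]⟩, ⟨6, 6, [6]⟩, ⟨3, 8, [3, 4, 7, 8, 9, 10]⟩, ⟨11, 11, [11, 12]⟩, ⟨13, 14, [13, 14]⟩])] [(5, [(4, false), (5, false), (12, true), (6, true), (11, true), (8, false)]), (3, [(4, false), (5, false), (14, false), (6, true), (13, false), (11, true), (8, false)])] 1 [(0, 2), (1, 4), (14, 6), (19, 4)]))
  (.der [(355, 1, [(0, 1)]), (597, 1, [(0, 1), (17, 1), (21, 1), (25, 1)])]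
  (.leaf [(2, [⟨0, 1, [0, 1]⟩, ⟨2, 5, [5]⟩, ⟨2, 2, [2]⟩, ⟨6, 10, [3, 4, 6, 7, 8, 9, 10]⟩, ⟨11, 11, [11, 12]⟩, ⟨13, 14, [13, 14]⟩]), (2, [⟨0, 1, [0, 1]⟩, ⟨2, 5, [5]⟩, ⟨2, 2, [2]⟩, ⟨6, 6, [6]⟩, ⟨3, 10, [3, 4, 7, 8, 9, 10]⟩, ⟨11, 11, [11, 12]⟩, ⟨13, 14, [13, 14]⟩])] [(3, [(4, false), (5, false), (12, true), (6, true), (11, true), (8, false)]), (1, [(4, false), (5, false), (9, false), (12, false), (6, true), (13, false), (11, true), (8, false)])] 1 [(1, 2), (14, 2)]))))))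
  (.der [(759, 1, [(0, 1), (8, 1), (19, 2), (23, 1)]), (880, 1, [(0, 1)]), (894, 1, [(0, 1)])]
  (.br [0, 0, 1, 0, 0, -2, 0, 0, 1]
  (.der [(651, 1, [(0, 1), (18, 2), (25, 1)]), (823, 1, [(0, 1)])]
  (.leaf [(8, [⟨0, 1, [0, 1]⟩, ⟨5, 5, [5]⟩, ⟨2, 2, [2]⟩, ⟨6, 6, [6]⟩, ⟨3, 8, [3, 4, 7, 8, 9]⟩, ⟨10, 10, [10]⟩, ⟨11, 11, [11, 12]⟩, ⟨13, 14, [13, 14]⟩])] [(2, [(4, false), (5, false), (14, false), (12, false), (6, true), (11, true), (8, false)]), (3, [(4, false), (5, false), (9, true), (13, true), (6, false), (10, true), (11, true), (8, false)]), (3, [(4, false), (5, false), (14, false), (9, true), (6, true), (13, false), (10, true), (7, true), (11, false), (8, false)])] 1 [(13, 4)]))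
  (.der [(598, 1, [(0, 1)])]
  (.br [0, 1, 0, 0, -2, 0, 0, 0, 0, 1]
  (.der [(651, 1, [(0, 1)])]
  (.br [0, 0, 0, 1, -2, 0, 0, 1]
  (.der [(639, 1, [(0, 1)])]
  (.leaf [(6, [⟨0, 1, [0, 1]⟩, ⟨5, 5, [5]⟩, ⟨2, 6, [2, 6]⟩, ⟨3, 8, [3, 4, 7, 8, 9]⟩, ⟨10, 10, [10]⟩, ⟨11, 11, [11, 12]⟩, ⟨13, 14, [13, 14]⟩]), (2, [⟨0, 1, [0, 1]⟩, ⟨5, 5, [5]⟩, ⟨2, 2, [2]⟩, ⟨6, 6, [6]⟩, ⟨3, 8, [3, 4, 7, 8, 9]⟩, ⟨10, 10, [10]⟩, ⟨11, 11, [11, 12]⟩, ⟨13, 14, [13, 14]⟩])] [(2, [(4, false), (5, false), (14, false), (12, false), (6, true), (11, true), (8, false)]), (3, [(4, false), (5, false), (12, true), (9, false), (13, false), (6, false), (10, true), (11, true), (8, false)]), (3, [(2, false), (5, true), (14, false), (9, true), (13, false), (10, true), (11, true), (8, false)])] 1 [(15, 4)]))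
  (.der [(864, 1, [(0, 1)])]
  (.leaf [(2, [⟨0, 5, [0, 1, 5]⟩, ⟨2, 2, [2]⟩, ⟨6, 6, [6]⟩, ⟨3, 8, [3, 4, 7, 8, 9]⟩, ⟨10, 10, [10]⟩, ⟨11, 11, [11, 12]⟩, ⟨13, 14, [13, 14]⟩]), (2, [⟨0, 1, [0, 1]⟩, ⟨5, 5, [5]⟩, ⟨2, 2, [2]⟩, ⟨6, 6, [6]⟩, ⟨3, 8, [3, 4, 7, 8, 9]⟩, ⟨10, 10, [10]⟩, ⟨11, 11, [11, 12]⟩, ⟨13, 14, [13, 14]⟩])] [(1, [(4, false), (5, false), (14, false), (12, false), (6, true), (11, true), (8, false)]), (1, [(4, false), (5, false), (12, true), (9, true), (13, false), (6, false), (10, true), (11, true), (8, false)]), (1, [(4, false), (5, false), (14, false), (13, true), (6, false), (10, true), (7, true), (11, false), (8, false)]), (1, [(2, false), (5, true), (14, false), (12, false), (9, true), (13, false), (10, true), (11, true), (8, false)])] 1 [(15, 4)]))))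
  (.der [(876, 1, [(0, 1)])]
  (.leaf [(2, [⟨0, 1, [0, 1]⟩, ⟨5, 5, [5]⟩, ⟨2, 2, [2]⟩, ⟨6, 6, [6]⟩, ⟨3, 8, [3, 4, 7, 8, 9]⟩, ⟨10, 10, [10]⟩, ⟨11, 11, [11, 12]⟩, ⟨13, 14, [13, 14]⟩]), (6, [⟨0, 1, [0, 1]⟩, ⟨5, 5, [5]⟩, ⟨2, 2, [2]⟩, ⟨6, 6, [6]⟩, ⟨3, 8, [3, 4, 7, 8, 9]⟩, ⟨10, 10, [10]⟩, ⟨11, 11, [11, 12]⟩, ⟨13, 13, [13]⟩, ⟨14, 14, [14]⟩])] [(2, [(4, false), (5, false), (14, false), (12, false), (6, true), (11, true), (8, false)]), (3, [(1, false), (14, true), (13, true), (9, false), (6, true), (10, true), (11, true), (8, false)]), (3, [(4, false), (5, false), (14, false), (9, true), (13, false), (6, true), (10, true), (11, true), (8, false)])] 1 [(14, 4)]))))))))))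
  (.der [(500, 1, [(0, 1)]), (607, 1, [(0, 1)]), (868, 1, [(0, 1), (5, 1), (7, 1), (21, 1)])]
  (.br [0, 0, 0, 1, 0, -1, 0, -1, 0, 1]
  (.der [(383, 1, [(0, 1)]), (655, 1, [(0, 1), (1, 1), (13, 1), (16, 1)]), (669, 1, [(0, 1), (1, 1), (13, 1), (16, 1)]), (823, 1, [(0, 1), (11, 1), (25, 1)])]
  (.leaf [(2, [⟨0, 2, [0, 1, 2, 5]⟩, ⟨6, 6, [6]⟩, ⟨3, 11, [3, 4, 7, 8, 9, 10, 11, 12]⟩, ⟨13, 14, [13, 14]⟩]), (4, [⟨0, 2, [0, 1, 2, 5]⟩, ⟨6, 6, [6]⟩, ⟨3, 8, [3, 4, 7, 8, 9, 10]⟩, ⟨11, 11, [11, 12]⟩, ⟨13, 14, [13, 14]⟩]), (4, [⟨0, 5, [0, 1, 5]⟩, ⟨2, 2, [2]⟩, ⟨6, 6, [6]⟩, ⟨3, 8, [3, 4, 7, 8, 9, 10]⟩, ⟨11, 11, [11, 12]⟩, ⟨13, 14, [13, 14]⟩])] [(7, [(3, false), (5, false), (14, false), (6, true), (10, true), (7, false), (11, false), (8, false)]), (3, [(1, false), (14, true), (9, false), (13, true), (10, false), (11, true), (8, false)])] 1 [(1, 8),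 (9, 4), (11, 4)]))
  (.der [(355, 1, [(0, 1)])]
  (.leaf [(4, [⟨0, 5, [0, 1, 5]⟩, ⟨2, 2, [2]⟩, ⟨6, 6, [6]⟩, ⟨3, 10, [3, 4, 7, 8, 9, 10]⟩, ⟨11, 11, [11, 12]⟩, ⟨13, 14, [13, 14]⟩])] [(1, [(1, false), (14, true), (13, true), (9, false), (6, true), (10, true), (11, true), (8, false)]), (2, [(3, false), (5, false), (14, false), (6, true), (10, true), (7, false), (11, false), (8, false)]), (1, [(2, false), (5, true), (14, false), (12, false), (13, true), (9, false), (6, true), (10, true), (7, false), (11, false), (8, false)])] 1 [(1, 6), (22, 2)]))))))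
  (.der [(294, 1, [(0, 1), (11, 1), (12, 1)]), (339, 3, [(0, 2), (2, 1), (3, 1), (7, 1), (20, 1)]), (354, 1, [(0, 1)])]
  (.br [0, 0, 0, 1, -2, 0, 0, 1]
  (.der [(639, 1, [(0, 1)])]
  (.leaf [(2, [⟨0, 0, [0]⟩, ⟨1, 1, [1]⟩, ⟨5, 5, [5]⟩, ⟨2, 2, [2]⟩, ⟨6, 6, [6]⟩, ⟨3, 9, [3, 4, 7, 8, 9]⟩, ⟨10, 11, [10, 11, 12]⟩, ⟨13, 14, [13, 14]⟩]), (4, [⟨0, 0, [0]⟩, ⟨1, 1, [1]⟩, ⟨5, 5, [5]⟩, ⟨2, 2, [2]⟩, ⟨6, 6, [6]⟩, ⟨3, 9, [3, 4, 7, 8, 9]⟩, ⟨10, 11, [10, 11, 12]⟩, ⟨13, 13, [13]⟩, ⟨14, 14, [14]⟩])] [(3, [(4, false), (5, false), (14, false), (13, true), (9, false), (6, true), (7, true), (11, false), (8, false)]), (3, [(2, false), (5, true), (12, true), (9, false), (6, true), (10, true), (11, true), (8, false)])] 1 [(0, 2), (1, 6), (9, 2), (17, 4), (21, 2), (23, 2)]))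
  (.der [(864, 1, [(0, 1)])]
  (.leaf [(38, [⟨0, 1, [0, 1]⟩, ⟨5, 5, [5]⟩, ⟨2, 2, [2]⟩, ⟨6, 6, [6]⟩, ⟨3, 9, [3, 4, 7, 8, 9]⟩, ⟨10, 10, [10]⟩, ⟨11, 11, [11, 12]⟩, ⟨13, 14, [13, 14]⟩]), (120, [⟨0, 0, [0]⟩, ⟨1, 1, [1]⟩, ⟨5, 5, [5]⟩, ⟨2, 2, [2]⟩, ⟨6, 6, [6]⟩, ⟨3, 9, [3, 4, 7, 8, 9]⟩, ⟨10, 10, [10]⟩, ⟨11, 11, [11, 12]⟩, ⟨13, 14, [13, 14]⟩]), (88, [⟨0, 0, [0]⟩, ⟨1, 1, [1]⟩, ⟨5, 5, [5]⟩, ⟨2, 2, [2]⟩, ⟨6, 6, [6]⟩, ⟨3, 9, [3, 4, 7, 8, 9]⟩, ⟨10, 10, [10]⟩, ⟨11, 11, [11, 12]⟩, ⟨13, 13, [13]⟩, ⟨14, 14, [14]⟩])] [(3, []), (32, [(1, false), (14, true), (13, true), (9, false), (6, true), (10, true), (11, true), (8, false)]), (128, [(4, false), (5, false), (14, false), (13, true), (9, false), (6, true), (7, true), (11, false), (8, false)]), (83, [(2, false), (5, true), (12, true), (9, true), (6, true), (10, true), (11, true), (8, false)])] 1 [(1,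 74), (17, 234), (21, 54), (23, 54)]))))))
  (.der [(109, 1, [(0, 1), (4, 1), (11, 1), (13, 1)]), (114, 1, [(0, 1), (20, 1), (24, 1)]), (191, 1, [(0, 1)])]
  (.br [0, 1, -1, 0, 0, 0, -1, 1]
  (.der [(500, 1, [(0, 1)]), (607, 1, [(0, 1)])]
  (.br [0, 0, 0, -1, 0, 1, 0, 1, 0, -1]
  (.der [(355, 1, [(0, 1)])]
  (.leaf [(8, [⟨0, 2, [0, 1, 2, 5]⟩, ⟨6, 6, [6]⟩, ⟨3, 10, [3, 4, 7, 8, 9, 10]⟩, ⟨12, 11, [11, 12]⟩, ⟨13, 14, [13, 14]⟩]), (4, [⟨0, 0, [0]⟩, ⟨1, 5, [1, 5]⟩, ⟨2, 2, [2]⟩, ⟨6, 6, [6]⟩, ⟨3, 10, [3, 4, 7, 8, 9, 10]⟩, ⟨12, 11, [11, 12]⟩, ⟨13, 14, [13, 14]⟩]), (4, [⟨0, 0, [0]⟩, ⟨1, 5, [1, 5]⟩, ⟨2, 2, [2]⟩, ⟨6, 6, [6]⟩, ⟨3, 10, [3, 4, 7, 8, 9, 10]⟩, ⟨12, 11, [11, 12]⟩, ⟨13, 13, [13]⟩, ⟨14, 14, [14]⟩])] [(1, [(1, false), (14, true), (13, true), (9, false), (6, true), (10, true), (11, true), (8, false)]), (6, [(3, false), (5, false), (14,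 false), (6, true), (10, true), (7, false), (11, false), (8, false)]), (9, [(3, false), (5, false), (14, false), (13, true), (9, false), (6, true), (10, true), (7, false), (11, false), (8, false)])] 1 [(3, 4), (21, 8)]))
  (.der [(368, 5, [(0, 6), (3, 2), (4, 1), (5, 1), (9, 1), (10, 3), (22, 1), (23, 1), (26, 1)]), (383, 1, [(0, 1)]), (655, 2, [(0, 2), (2, 1), (10, 1), (12, 1), (15, 3), (22, 1)]), (669, 2, [(0, 2), (2, 1), (10, 1), (12, 1), (15, 3), (22, 1)]), (823, 1, [(0, 1), (10, 1), (24, 1)])]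
  (.leaf [(28, [⟨0, 5, [0, 1, 5]⟩, ⟨2, 2, [2]⟩, ⟨6, 11, [3, 4, 6, 7, 8, 9, 10, 11, 12]⟩, ⟨13, 14, [13, 14]⟩]), (136, [⟨0, 5, [0, 1, 5]⟩, ⟨2, 2, [2]⟩, ⟨6, 8, [3, 4, 6, 7, 8, 9, 10]⟩, ⟨12, 11, [11, 12]⟩, ⟨13, 14, [13, 14]⟩]), (46, [⟨0, 5, [0, 1, 5]⟩, ⟨2, 2, [2]⟩, ⟨6, 6, [6]⟩, ⟨3, 8, [3, 4, 7, 8, 9, 10]⟩, ⟨12, 11, [11, 12]⟩, ⟨13, 14, [13, 14]⟩]), (21, [⟨0, 0, [0]⟩, ⟨1, 5, [1, 5]⟩, ⟨2, 2, [2]⟩, ⟨6, 6, [6]⟩, ⟨3, 8, [3, 4, 7, 8, 9, 10]⟩, ⟨12, 11, [11, 12]⟩, ⟨13, 14, [13, 14]⟩]), (21, [⟨0, 0, [0]⟩, ⟨1, 5, [1, 5]⟩, ⟨2, 2, [2]⟩, ⟨6, 6, [6]⟩, ⟨3, 8, [3, 4, 7, 8, 9, 10]⟩, ⟨12, 11, [11, 12]⟩, ⟨13, 13, [13]⟩, ⟨14, 14, [14]⟩])] [(6, []), (197, [(3, false), (5, false), (14, false), (6, true), (10, true), (7, false), (11, false), (8, false)]), (49, [(1, false), (14, true), (9, false), (13, true), (10, false), (11, true), (8, false)])] 1 [(4, 113),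 (8, 55), (10, 115)]))))
  (.der [(725, 1, [(0, 1)]), (832, 1, [(0, 1)])]
  (.br [0, 0, 0, -1, 0, 1, 0, 1, 0, -1]
  (.der [(355, 1, [(0, 1)])]
  (.leaf [(1, [⟨0, 0, [0]⟩, ⟨1, 5, [1, 5]⟩, ⟨2, 2, [2]⟩, ⟨6, 3, [3, 6]⟩, ⟨7, 10, [4, 7, 8, 9, 10]⟩, ⟨12, 11, [11, 12]⟩, ⟨13, 14, [13, 14]⟩]), (3, [⟨0, 0, [0]⟩, ⟨1, 5, [1, 5]⟩, ⟨2, 2, [2]⟩, ⟨6, 3, [3, 6]⟩, ⟨7, 10, [4, 7, 8, 9, 10]⟩, ⟨12, 11, [11, 12]⟩, ⟨13, 13, [13]⟩, ⟨14, 14, [14]⟩]), (4, [⟨0, 0, [0]⟩, ⟨1, 1, [1]⟩, ⟨5, 5, [5]⟩, ⟨2, 2, [2]⟩, ⟨6, 3, [3, 6]⟩, ⟨7, 10, [4, 7, 8, 9, 10]⟩, ⟨12, 11, [11, 12]⟩, ⟨13, 13, [13]⟩, ⟨14, 14, [14]⟩])] [(2, [(3, false), (5, true), (14, false), (6, true), (10, true), (7, true), (11, false), (8, false)]), (6, [(4, false), (5, false), (14, false), (13, true), (9, false), (6, true), (10, true), (7, true), (11, false), (8, false)])] 1 [(0, 7), (2, 10), (3, 3), (15,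 4), (21, 5)]))
  (.der [(368, 5, [(0, 6), (3, 2), (4, 1), (5, 1), (9, 1), (10, 3), (22, 1), (23, 1), (26, 1)]), (383, 1, [(0, 1)]), (639, 1, [(0, 1), (10, 1), (15, 2)]), (655, 2, [(0, 2), (2, 1), (10, 1), (12, 1), (15, 3), (22, 1)]), (823, 1, [(0, 1), (10, 1), (24, 1)])]
  (.leaf [(6, [⟨0, 0, [0]⟩, ⟨1, 5, [1, 5]⟩, ⟨2, 2, [2]⟩, ⟨6, 3, [3, 6]⟩, ⟨7, 8, [4, 7, 8, 9, 10]⟩, ⟨12, 11, [11, 12]⟩, ⟨13, 14, [13, 14]⟩]), (4, [⟨0, 0, [0]⟩, ⟨1, 5, [1, 5]⟩, ⟨2, 2, [2]⟩, ⟨6, 3, [3, 6]⟩, ⟨7, 8, [4, 7, 8, 9, 10]⟩, ⟨12, 11, [11, 12]⟩, ⟨13, 13, [13]⟩, ⟨14, 14, [14]⟩]), (10, [⟨0, 0, [0]⟩, ⟨1, 1, [1]⟩, ⟨5, 5, [5]⟩, ⟨2, 2, [2]⟩, ⟨6, 6, [6]⟩, ⟨3, 3, [3]⟩, ⟨7, 8, [4, 7, 8, 9, 10]⟩, ⟨12, 11, [11, 12]⟩, ⟨13, 13, [13]⟩, ⟨14, 14, [14]⟩])] [(17, [(3, false), (5, true), (14, false), (6, true), (10, true), (7, true), (11, false), (8, false)]), (3, [(4, false), (5,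 false), (12, true), (9, false), (13, true), (10, false), (11, true), (8, false)])] 1 [(2, 26), (4, 12), (10, 20), (15, 20), (23, 10)]))))))))
  (.der [(876, 1, [(0, 1), (9, 1), (10, 1)]), (879, 1, [(0, 1)])]
  (.br [0, 1, -1, 0, 0, 0, -1, 1]
  (.der [(607, 1, [(0, 1)])]
  (.leaf [(1, [⟨0, 5, [0, 1, 5]⟩, ⟨2, 2, [2]⟩, ⟨6, 6, [6]⟩, ⟨3, 8, [3, 4, 7, 8]⟩, ⟨9, 9, [9]⟩, ⟨10, 11, [10, 11, 12]⟩, ⟨13, 13, [13]⟩, ⟨14, 14, [14]⟩])] [(1, [(3, false), (14, true), (13, true), (9, true), (6, true), (10, true), (7, false), (11, false), (8, false)])] 1 [(0, 3), (10, 2), (13, 1), (17, 1)]))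
  (.der [(725, 1, [(0, 1)]), (832, 1, [(0, 1)])]
  (.leaf [(2, [⟨0, 0, [0]⟩, ⟨1, 1, [1]⟩, ⟨5, 5, [5]⟩, ⟨2, 2, [2]⟩, ⟨6, 6, [6]⟩, ⟨3, 8, [3, 4, 7, 8]⟩, ⟨9, 9, [9]⟩, ⟨10, 11, [10, 11, 12]⟩, ⟨13, 14, [13, 14]⟩]), (10, [⟨0, 0, [0]⟩, ⟨1, 1, [1]⟩, ⟨5, 5, [5]⟩, ⟨2, 2, [2]⟩, ⟨6, 6, [6]⟩, ⟨3, 8, [3, 4, 7, 8]⟩, ⟨9, 9, [9]⟩, ⟨10, 11, [10, 11, 12]⟩, ⟨13, 13, [13]⟩, ⟨14, 14, [14]⟩])] [(1, [(4, false), (5, false), (14, false), (12, false), (6, true), (11, true), (8, false)]), (2, [(1, false), (14, true), (13, true), (9, true), (6, true), (10, true), (11, true), (8, false)]), (3, [(3, false), (5, true), (14, false), (13, true), (6, true), (10, true), (7, true), (11, false), (8, false)]), (6, [(4, false), (5, false), (13, true), (9, true), (6, true), (10, true), (7, true), (11, false), (8, false)])] 1 [(8, 2), (13, 4), (15, 20)]))))))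
  (.der [(260, 1, [(0, 1)]), (368, 1, [(0, 1), (6, 1), (8, 1), (9, 1), (18, 2), (20, 2)]), (383, 1, [(0, 1), (18, 1), (20, 1)]), (534, 1, [(0, 1), (7, 1), (11, 1)]), (655, 1, [(0, 1), (2, 1), (7, 1), (11, 1), (13, 2), (17, 1)]), (823, 1, [(0, 1), (6, 1), (18, 1), (20, 2)])]
  (.br [0, 0, 0, 0, -1, 0, 2, 0, -1]
  (.der [(177, 1, [(0, 1)])]
  (.leaf [(1, [⟨0, 0, [0]⟩, ⟨1, 5, [1, 2, 5]⟩, ⟨6, 6, [6]⟩, ⟨3, 8, [3, 4, 7, 8, 9, 10]⟩, ⟨11, 11, [11, 12]⟩, ⟨13, 14, [13, 14]⟩])] [(1, [(4, false), (5, false), (14, false), (6, true), (10, true), (11, true), (8, false)])] 1 [(14, 2)]))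
  (.leaf [(8, [⟨0, 0, [0]⟩, ⟨1, 5, [1, 2, 5]⟩, ⟨6, 6, [6]⟩, ⟨3, 11, [3, 4, 7, 8, 9, 10, 11, 12]⟩, ⟨13, 13, [13]⟩, ⟨14, 14, [14]⟩])] [(1, [(4, false), (5, false), (9, false), (13, true), (10, false), (11, true), (8, false)]), (7, [(4, false), (5, false), (14, false), (6, true), (10, true), (11, true), (8, false)])] 1 [(0, 6), (1, 4), (7, 4), (12, 12), (19, 2), (20, 2)])))))
  (.der [(485, 1, [(0, 1)]), (591, 1, [(0, 1)])]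
  (.br [0, 0, 0, -1, 0, 2, 0, -1]
  (.der [(339, 1, [(0, 1)]), (355, 1, [(0, 1), (6, 1)]), (553, 1, [(0, 1), (21, 1)])]
  (.br [0, 1, -1, 0, 0, 0, -1, 1]
  (.der [(607, 1, [(0, 1)])]
  (.br [0, 0, 0, 1, -2, 0, 0, 0, 0, 1]
  (.der [(654, 1, [(0, 1)])]
  (.br [0, 0, 0, 1, -1, 0, -1, 0, 0, 1]
  (.der [(655, 1, [(0, 1)]), (669, 1, [(0, 1)])]
  (.leaf [(1, [⟨0, 14, [0, 1, 2, 3, 4, 5, 6, 7, 8, 9, 10, 11, 12, 13, 14]⟩])] [(1, [(2, false), (5, false), (14, false), (9, false), (6, false), (13, false), (10, false), (7, false), (11, false), (8, false)])] 1 []))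
  (.der [(894, 1, [(0, 1)])]
  (.br [0, 1, 0, 0, -2, 0, 0, 0, 0, 1]
  (.der [(651, 1, [(0, 1)])]
  (.leaf [(2, [⟨0, 5, [0, 1, 5]⟩, ⟨2, 6, [2, 6]⟩, ⟨3, 11, [3, 4, 7, 8, 9, 10, 11, 12]⟩, ⟨13, 14, [13, 14]⟩])] [(1, [(2, false), (5, false), (14, false), (13, true), (6, false), (10, true), (7, false), (11, false), (8, false)]), (1, [(2, false), (5, false), (14, false), (9, true), (6, false), (10, true), (7, false), (11, false), (8, false)])] 1 [(3, 4), (12, 4), (21, 2)]))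
  (.der [(876, 1, [(0, 1)])]
  (.leaf [(4, [⟨0, 5, [0, 1, 5]⟩, ⟨2, 6, [2, 6]⟩, ⟨3, 11, [3, 4, 7, 8, 9, 10, 11, 12]⟩, ⟨13, 13, [13]⟩, ⟨14, 14, [14]⟩])] [(1, [(1, false), (14, true), (13, true), (9, false), (6, false), (10, true), (11, true), (8, false)]), (2, [(2, false), (5, false), (14, false), (13, true), (6, true), (10, true), (7, false), (11, false), (8, false)]), (1, [(2, false), (5, false), (14, false), (13, true), (9, false), (6, false), (10, true), (7, false), (11, false), (8, false)])] 1 [(3, 8), (5, 4), (12, 8), (21, 4)]))))))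
  (.der [(879, 1, [(0, 1)])]
  (.leaf [(1, [⟨0, 5, [0, 1, 5]⟩, ⟨2, 6, [2, 6]⟩, ⟨3, 8, [3, 4, 7, 8]⟩, ⟨9, 9, [9]⟩, ⟨10, 11, [10, 11, 12]⟩, ⟨13, 13, [13]⟩, ⟨14, 14, [14]⟩])] [(1, [(3, false), (14, true), (13, true), (9, true), (6, false), (10, true), (7, false), (11, false), (8, false)])] 1 [(1, 3), (10, 3), (17, 1)]))))
  (.der [(177, 1, [(0, 1), (2, 1), (3, 1), (22, 1)]), (832, 1, [(0, 1)])]
  (.br [0, 0, 0, 1, -2, 0, 0, 0, 0, 1]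
  (.der [(654, 1, [(0, 1)])]
  (.br [0, 0, 0, -1, 2, 0, 0, -1]
  (.der [(864, 1, [(0, 1)]), (880, 1, [(0, 1), (2, 1), (4, 1), (9, 1)])]
  (.br [0, 0, 0, 1, 0, -2, 0, 0, 0, 1]
  (.der [(368, 1, [(0, 1)])]
  (.leaf [(6, [⟨0, 5, [0, 1, 5]⟩, ⟨2, 6, [2, 6]⟩, ⟨3, 8, [3, 4, 7, 8, 9]⟩, ⟨10, 10, [10]⟩, ⟨11, 11, [11, 12]⟩, ⟨13, 14, [13, 14]⟩]), (16, [⟨0, 1, [0, 1]⟩, ⟨5, 5, [5]⟩, ⟨2, 6, [2, 6]⟩, ⟨3, 8, [3, 4, 7, 8, 9]⟩, ⟨10, 10, [10]⟩, ⟨11, 11, [11, 12]⟩, ⟨13, 14, [13, 14]⟩])] [(4, [(4, false), (5, false), (14, false), (12, false), (6, true), (11, true), (8, false)]), (3, [(1, false), (14, true), (13, true), (9, false), (6, false), (10, true), (11, true), (8, false)]), (6, [(2, false), (5, false), (14, false), (12, false), (9, true), (6, false), (13, false), (10, true), (7, true), (11, false), (8, false)]), (3, [(2, false), (5, false), (14,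 false), (13, true), (9, false), (6, false), (10, true), (7, true), (11, false), (8, false)]), (6, [(2, false), (5, false), (12, true), (9, true), (6, false), (10, true), (11, true), (8, false)])] 1 [(5, 10), (10, 20), (17, 12)]))
  (.der [(294, 1, [(0, 1), (12, 1), (13, 1)]), (354, 1, [(0, 1)])]
  (.leaf [(2, [⟨0, 5, [0, 1, 5]⟩, ⟨2, 6, [2, 6]⟩, ⟨3, 9, [3, 4, 7, 8, 9]⟩, ⟨10, 11, [10, 11, 12]⟩, ⟨13, 14, [13, 14]⟩]), (4, [⟨0, 1, [0, 1]⟩, ⟨5, 5, [5]⟩, ⟨2, 6, [2, 6]⟩, ⟨3, 9, [3, 4, 7, 8, 9]⟩, ⟨10, 11, [10, 11, 12]⟩, ⟨13, 14, [13, 14]⟩]), (2, [⟨0, 1, [0, 1]⟩, ⟨5, 5, [5]⟩, ⟨2, 6, [2, 6]⟩, ⟨3, 9, [3, 4, 7, 8, 9]⟩, ⟨10, 11, [10, 11, 12]⟩, ⟨13, 13, [13]⟩, ⟨14, 14, [14]⟩]), (4, [⟨0, 0, [0]⟩, ⟨1, 1, [1]⟩, ⟨5, 5, [5]⟩, ⟨2, 6, [2, 6]⟩, ⟨3, 9, [3, 4, 7, 8, 9]⟩, ⟨10, 11, [10, 11, 12]⟩, ⟨13, 13, [13]⟩, ⟨14, 14, [14]⟩])] [(9, [(2, false), (5, false),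 (14, false), (13, true), (9, false), (6, false), (10, true), (7, true), (11, false), (8, false)]), (3, [(2, false), (5, false), (12, true), (9, true), (6, false), (10, true), (11, true), (8, false)])] 1 [(1, 4), (9, 2), (17, 28)]))))
  (.der [(639, 1, [(0, 1)])]
  (.leaf [(1, [⟨0, 1, [0, 1]⟩, ⟨5, 5, [5]⟩, ⟨2, 6, [2, 6]⟩, ⟨3, 10, [3, 4, 7, 8, 9, 10]⟩, ⟨11, 11, [11, 12]⟩, ⟨13, 14, [13, 14]⟩])] [(1, [(2, false), (5, false), (14, false), (12, false), (9, false), (6, false), (10, true), (11, true), (8, false)])] 1 [(7, 1), (9, 1)]))))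
  (.der [(879, 1, [(0, 1)])]
  (.br [0, 0, 0, 0, -1, 1, 0, 1, -1]
  (.der [(643, 1, [(0, 1)])]
  (.leaf [(6, [⟨0, 5, [0, 1, 5]⟩, ⟨2, 6, [2, 6]⟩, ⟨3, 8, [3, 4, 7, 8]⟩, ⟨9, 9, [9]⟩, ⟨10, 11, [10, 11, 12]⟩, ⟨13, 14, [13, 14]⟩]), (16, [⟨0, 1, [0, 1]⟩, ⟨5, 5, [5]⟩, ⟨2, 6, [2, 6]⟩, ⟨3, 8, [3, 4, 7, 8]⟩, ⟨9, 9, [9]⟩, ⟨10, 11, [10, 11, 12]⟩, ⟨13, 14, [13, 14]⟩])] [(6, [(4, false), (5, false), (14, false), (12, false), (6, true), (11, true), (8, false)]), (7, [(1, false), (14, true), (13, true), (9, true), (6, false), (10, true), (11, true), (8, false)]), (9, [(2, false), (5, false), (12, true), (13, false), (9, true), (6, false), (10, true), (7, true), (11, false), (8, false)])] 1 [(9, 12), (16, 16), (21, 14), (24, 18)]))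
  (.der [(717, 1, [(0, 1), (5, 1), (24, 1)]), (868, 1, [(0, 1)])]
  (.leaf [(2, [⟨0, 1, [0, 1]⟩, ⟨5, 5, [5]⟩, ⟨2, 6, [2, 6]⟩, ⟨3, 8, [3, 4, 7, 8]⟩, ⟨9, 9, [9]⟩, ⟨10, 10, [10]⟩, ⟨11, 11, [11, 12]⟩, ⟨13, 14, [13, 14]⟩]), (8, [⟨0, 1, [0, 1]⟩, ⟨5, 5, [5]⟩, ⟨2, 6, [2, 6]⟩, ⟨3, 8, [3, 4, 7, 8]⟩, ⟨9, 9, [9]⟩, ⟨10, 10, [10]⟩, ⟨11, 11, [11, 12]⟩, ⟨13, 13, [13]⟩, ⟨14, 14, [14]⟩])] [(3, [(4, false), (5, false), (14, false), (12, false), (6, true), (11, true), (8, false)]), (4, [(1, false), (14, true), (13, true), (9, true), (6, false), (10, true), (11, true), (8, false)]), (3, [(2, false), (12, true), (13, true), (9, true), (6, false), (10, true), (7, true), (11, false), (8, false)])] 1 [(4, 2), (9, 6), (16, 4)]))))))))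
  (.der [(368, 1, [(0, 1), (14, 1), (15, 1)]), (383, 1, [(0, 1), (17, 1)]), (470, 1, [(0, 1), (1, 2), (4, 1)]), (655, 1, [(0, 1), (1, 1), (8, 1), (13, 1), (17, 1)]), (669, 1, [(0, 1), (1, 1), (8, 1), (13, 1), (17, 1)])]
  (.br [-1, 0, 0, 0, 0, 2, 0, 0, -1]
  (.der [(553, 1, [(0, 1)])]
  (.br [0, 0, 0, 0, -1, 0, 2, 0, -1]
  (.der [(177, 1, [(0, 1)])]
  (.leaf [(1, [⟨0, 14, [0, 1, 2, 3, 4, 5, 6, 7, 8, 9, 10, 11, 12, 13, 14]⟩]), (2, [⟨0, 6, [0, 1, 2, 5, 6]⟩, ⟨3, 8, [3, 4, 7, 8, 9, 10]⟩, ⟨11, 11, [11, 12]⟩, ⟨13, 14, [13, 14]⟩])] [(2, [(1, false), (5, false), (14, false), (9, false), (6, false), (13, false), (10, false), (11, true), (8, false)]), (1, [(1, false), (5, false), (12, true), (6, true), (13, false), (7, true), (11, false), (8, false)])] 1 [(2, 2), (3, 4), (8, 2)]))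
  (.leaf [(6, [⟨0, 5, [0, 1, 5]⟩, ⟨2, 11, [2, 3, 4, 6, 7, 8, 9, 10, 11, 12]⟩, ⟨13, 14, [13, 14]⟩]), (6, [⟨0, 5, [0, 1, 5]⟩, ⟨2, 11, [2, 3, 4, 6, 7, 8, 9, 10, 11, 12]⟩, ⟨13, 13, [13]⟩, ⟨14, 14, [14]⟩]), (2, [⟨0, 0, [0]⟩, ⟨1, 5, [1, 5]⟩, ⟨2, 11, [2, 3, 4, 6, 7, 8, 9, 10, 11, 12]⟩, ⟨13, 13, [13]⟩, ⟨14, 14, [14]⟩])] [(5, [(1, false), (5, false), (14, false), (6, true), (13, false), (7, true), (11, false), (8, false)]), (9, [(1, false), (5, false), (14, false), (9, false), (6, false), (13, false), (10, false), (11, true), (8, false)])] 1 [(0, 10), (2, 6), (3, 16), (4, 14), (8, 2), (21, 2)])))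
  (.der [(778, 1, [(0, 1)])]
  (.leaf [(2, [⟨0, 6, [0, 1, 2, 5, 6]⟩, ⟨3, 11, [3, 4, 7, 8, 9, 10, 11, 12]⟩, ⟨13, 13, [13]⟩, ⟨14, 14, [14]⟩])] [(1, [(1, false), (5, false), (14, false), (6, true), (13, true), (7, true), (11, false), (8, false)]), (1, [(1, false), (14, true), (9, false), (6, false), (13, true), (10, false), (11, true), (8, false)])] 1 [(2, 4), (22, 2)]))))))))))))))
  (.der [(138, 1, [(0, 1)]), (139, 1, [(0, 1), (8, 1), (9, 1)]), (142, 1, [(0, 1), (2, 1), (3, 1)]), (143, 1, [(0, 1), (2, 1), (3, 1), (8, 1), (9, 1)]), (177, 1, [(0, 1), (2, 1), (10, 1), (17, 1)]), (636, 1, [(0, 1), (2, 1), (8, 1)])]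
  (.br [-1, 0, 0, 0, 0, 2, 0, 0, -1]
  (.der [(553, 1, [(0, 1)])]
  (.br [-1, 0, 2, 0, -1]
  (.der [(35, 1, [(0, 1)])]
  (.leaf [(2, [⟨0, 1, [0, 1]⟩, ⟨2, 11, [2, 3, 4, 5, 6, 7, 8, 9, 10, 11, 12]⟩, ⟨13, 14, [13, 14]⟩])] [(1, [(4, false), (5, false), (14, false), (12, false), (6, false), (11, true), (8, false)]), (1, [(4, false), (5, false), (14, false), (12, false), (6, false), (13, false), (7, true), (11, false), (8, false)])] 1 []))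
  (.der [(77, 1, [(0, 1)])]
  (.br [0, 0, 0, 1, -1, 0, -1, 0, 0, 1]
  (.der [(655, 1, [(0, 1)]), (669, 1, [(0, 1)])]
  (.br [0, 1, -1, 0, 0, 0, -1, 1]
  (.der [(500, 1, [(0, 1)]), (591, 3, [(0, 2), (3, 1), (4, 2), (6, 1), (8, 1), (15, 1), (16, 1)]), (607, 1, [(0, 1)])]
  (.leaf [(1, [⟨0, 14, [0, 1, 2, 3, 4, 5, 6, 7, 8, 9, 10, 11, 12, 13, 14]⟩])] [(1, [(3, false), (5, false), (14, false), (9, false), (6, false), (13, false), (10, false), (7, false), (11, false), (8, false)])] 1 []))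
  (.der [(832, 1, [(0, 1)])]
  (.leaf [(2, [⟨0, 1, [0, 1]⟩, ⟨5, 11, [2, 3, 4, 5, 6, 7, 8, 9, 10, 11, 12]⟩, ⟨13, 14, [13, 14]⟩])] [(1, [(4, false), (5, false), (14, false), (12, false), (6, false), (13, false), (10, false), (11, true), (8, false)]), (1, [(4, false), (5, false), (14, false), (12, false), (6, false), (13, false), (10, false), (7, true), (11, false), (8, false)])] 1 [(5, 2)]))))
  (.der [(591, 1, [(0, 1), (3, 1), (5, 1), (7, 1), (11, 2), (15, 1)]), (643, 1, [(0, 1), (3, 1), (11, 2), (15, 1), (19, 1)]), (880, 1, [(0, 1)])]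
  (.br [0, -1, 1, 0, 0, 0, 1, -1]
  (.der [(832, 1, [(0, 1)])]
  (.br [-1, 0, 0, 1, 0, 1, -1]
  (.der [(489, 1, [(0, 1), (5, 1)]), (550, 1, [(0, 1)])]
  (.leaf [(2, [⟨0, 1, [0, 1]⟩, ⟨5, 11, [2, 3, 4, 5, 6, 7, 8, 9, 10, 11, 12]⟩, ⟨13, 14, [13, 14]⟩])] [(1, [(2, false), (9, false), (6, false), (10, false), (11, true), (8, false)]), (1, [(2, false), (9, false), (6, false), (10, false), (7, true), (11, false), (8, false)])] 1 [(6, 2)]))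
  (.der [(775, 1, [(0, 1)])]
  (.leaf [(2, [⟨0, 1, [0, 1]⟩, ⟨5, 5, [5]⟩, ⟨2, 11, [2, 3, 4, 6, 7, 8, 9, 10, 11, 12]⟩, ⟨13, 14, [13, 14]⟩])] [(1, [(4, false), (5, false), (14, false), (12, false), (13, false), (10, true), (7, true), (11, false), (8, false)]), (1, [(4, false), (5, false), (14, false), (12, false), (6, false), (10, true), (11, true), (8, false)])] 1 [(13, 4)]))))
  (.der [(500, 1, [(0, 1)]), (607, 1, [(0, 1)])]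
  (.leaf [(2, [⟨0, 5, [0, 1, 5]⟩, ⟨2, 11, [2, 3, 4, 6, 7, 8, 9, 10, 11, 12]⟩, ⟨13, 14, [13, 14]⟩])] [(1, [(4, false), (5, false), (14, false), (12, false), (6, false), (11, true), (8, false)]), (1, [(3, false), (5, false), (14, false), (12, false), (13, false), (10, true), (7, false), (11, false), (8, false)])] 1 []))))))))
  (.der [(368, 1, [(0, 1), (3, 1), (4, 1), (5, 1), (11, 1)]), (383, 1, [(0, 1), (13, 1), (17, 1)]), (778, 1, [(0, 1)])]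
  (.leaf [(2, [⟨0, 6, [0, 1, 2, 5, 6]⟩, ⟨9, 8, [3, 4, 7, 8, 9, 10]⟩, ⟨11, 11, [11, 12]⟩, ⟨13, 14, [13, 14]⟩])] [(1, [(4, false), (5, false), (14, false), (12, false), (10, true), (13, false), (11, true), (8, false)]), (1, [(4, false), (5, false), (14, false), (12, false), (6, false), (13, true), (7, true), (11, false), (8, false)])] 1 [(3, 2), (9, 2)]))))))

theorem tree5_ok : tree5.check ([0, 0, 0, 0, 0, -1, 0, 2, 0, -1] :: ctx0) (dersMask 0 com) = true := by decide +kernel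

end Pool.Agent.MSTDIntervals
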