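import Pool.Agent.MSTDIntervals.Data0

/-!
Certificate data (machine generated, checked by the kernel).
-/

namespace Pool.Agent.MSTDIntervals

/-- certificate for the face `[0, 1, -1, 0, 0, 0, 0, 0, -1, 1] = 0` -/
def tree6 : Tree :=
  (.br [0, 1, 0, 0, -2, 0, 0, 0, 0, 1]
  (.der [(143, 1, [(0, 1), (1, 1)]), (651, 1, [(0, 1)])]
  (.br [-1, 0, 2, 0, -1]
  (.der [(35, 1, [(0, 1)]), (67, 1, [(0, 1), (14, 1), (18, 1)]), (303, 1, [(0, 1), (7, 1), (9, 1), (12, 1), (14, 2), (15, 1), (18, 1)]), (534, 1, [(0, 1), (5, 2)])]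
  (.br [-1, 1, 0, 0, 0, 1, -1]
  (.der [(547, 1, [(0, 1)])]
  (.br [-1, 1, 0, 0, 0, 0, 0, 1, -1]
  (.der [(563, 1, [(0, 1)])]
  (.leaf [(2, [⟨0, 1, [0, 1]⟩, ⟨2, 11, [2, 3, 4, 5, 6, 7, 8, 9, 10, 11, 12]⟩, ⟨13, 14, [13, 14]⟩])] [(1, [(4, false), (5, false), (14, false), (6, true), (7, false), (11, false), (8, false)]), (1, [(4, false), (5, false), (13, true), (6, false), (7, false), (8, false)])] 1 []))
  (.der [(689, 1, [(0, 1)]), (788, 1, [(0, 1)])]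
  (.br [0, 0, 0, 0, 0, 1, -1, 0, -1, 1]
  (.der [(673, 1, [(0, 1)])]
  (.leaf [(4, [⟨0, 0, [0]⟩, ⟨1, 1, [1]⟩, ⟨2, 11, [2, 3, 4, 5, 6, 7, 8, 9, 10, 11, 12]⟩, ⟨13, 13, [13]⟩, ⟨14, 14, [14]⟩])] [(1, [(4, false), (5, false), (13, true), (6, false), (11, true), (8, false)]), (2, [(4, false), (5, false), (14, false), (6, true), (7, false), (11, false), (8, false)]), (1, [(0, false), (14, true), (13, false), (6, false), (7, false), (8, true)])] 1 [(5, 4)]))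
  (.der [(898, 1, [(0, 1)])]
  (.leaf [(2, [⟨0, 1, [0, 1]⟩, ⟨2, 13, [2, 3, 4, 5, 6, 7, 8, 9, 10, 11, 12, 13]⟩, ⟨14, 14, [14]⟩]), (2, [⟨0, 1, [0, 1]⟩, ⟨2, 11, [2, 3, 4, 5, 6, 7, 8, 9, 10, 11, 12]⟩, ⟨13, 13, [13]⟩, ⟨14, 14, [14]⟩])] [(1, [(4, false), (5, false), (13, true), (6, false), (11, true), (8, false)]), (2, [(4, false), (5, false), (14, false), (6, true), (7, false), (11, false), (8, false)]), (1, [(0, false), (14, true), (13, true), (6, false), (7, false), (8, true)])] 1 [(2, 4)]))))))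
  (.der [(772, 1, [(0, 1)])]
  (.br [0, 0, 0, 0, -1, 0, 2, 0, -1]
  (.der [(177, 1, [(0, 1)])]
  (.br [0, 0, 0, 1, 0, -1, 0, -1, 0, 1]
  (.der [(368, 1, [(0, 1), (11, 1), (12, 1)]), (383, 1, [(0, 1)])]
  (.br [-1, 0, 0, 0, 0, 2, 0, 0, -1]
  (.der [(553, 1, [(0, 1)])]
  (.br [1, -1, 0, -1, 1]
  (.der [(756, 1, [(0, 1)])]
  (.br [0, 1, 0, -2, 0, 1]
  (.der [(302, 1, [(0, 1)])]
  (.br [1, 0, -1, 0, -1, 0, 1]
  (.der [(93, 1, [(0, 1)])]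
  (.leaf [(4, [⟨0, 0, [0]⟩, ⟨1, 1, [1]⟩, ⟨2, 2, [2, 5]⟩, ⟨6, 8, [3, 4, 6, 7, 8, 9, 10]⟩, ⟨11, 11, [11, 12]⟩, ⟨13, 13, [13]⟩, ⟨14, 14, [14]⟩])] [(1, [(4, false), (5, false), (13, true), (6, false), (11, true), (8, false)]), (1, [(4, false), (5, false), (14, false), (6, true), (13, false), (7, true), (11, false), (8, false)]), (2, [(4, false), (5, false), (6, true), (13, false), (11, true), (8, false)])] 1 [(4, 4), (9, 8)]))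
  (.der [(51, 1, [(0, 1)]), (54, 2, [(0, 3), (2, 1), (5, 1), (12, 2), (16, 1), (17, 1), (19, 1), (21, 1)])]
  (.leaf [(2, [⟨0, 1, [0, 1]⟩, ⟨2, 2, [2, 5]⟩, ⟨3, 8, [3, 4, 6, 7, 8, 9, 10]⟩, ⟨11, 11, [11, 12]⟩, ⟨13, 14, [13, 14]⟩])] [(1, [(4, false), (5, false), (13, true), (6, false), (11, true), (8, false)]), (1, [(4, false), (5, false), (14, false), (6, true), (13, false), (7, true), (11, false), (8, false)])] 1 []))))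
  (.der [(54, 2, [(0, 3), (1, 1), (2, 1), (6, 2), (15, 2), (18, 5), (19, 1), (20, 4)]), (260, 1, [(0, 1)])]
  (.br [-1, 0, 1, 0, 1, 0, -1]
  (.der [(51, 1, [(0, 1)])]
  (.leaf [(2, [⟨0, 1, [0, 1]⟩, ⟨2, 5, [2, 5]⟩, ⟨3, 8, [3, 4, 6, 7, 8, 9, 10]⟩, ⟨11, 11, [11, 12]⟩, ⟨13, 14, [13, 14]⟩]), (2, [⟨0, 0, [0]⟩, ⟨1, 1, [1]⟩, ⟨2, 5, [2, 5]⟩, ⟨3, 8, [3, 4, 6, 7, 8, 9, 10]⟩, ⟨11, 11, [11, 12]⟩, ⟨13, 14, [13, 14]⟩])] [(1, [(4, false), (5, false), (13, true), (6, false), (11, true), (8, false)]), (3, [(4, false), (5, false), (6, true), (13, false), (11, true), (8, false)])] 1 [(5, 4), (9, 2)]))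
  (.leaf [(1, [⟨0, 0, [0]⟩, ⟨1, 1, [1]⟩, ⟨2, 8, [2, 3, 4, 5, 6, 7, 8, 9, 10]⟩, ⟨11, 11, [11, 12]⟩, ⟨13, 14, [13, 14]⟩])] [(1, [(4, false), (5, false), (6, true), (13, false), (11, true), (8, false)])] 1 [(0, 1), (1, 1), (7, 1)])))))
  (.der [(455, 1, [(0, 1), (17, 1), (19, 1)]), (531, 1, [(0, 1)])]
  (.leaf [(4, [⟨0, 1, [0, 1]⟩, ⟨2, 8, [2, 3, 4, 5, 6, 7, 8, 9, 10]⟩, ⟨11, 11, [11, 12]⟩, ⟨13, 14, [13, 14]⟩])] [(1, [(4, false), (5, false), (13, true), (6, false), (11, true), (8, false)]), (1, [(4, false), (5, false), (14, false), (6, true), (13, false), (7, true), (11, false), (8, false)]), (2, [(0, false), (5, false), (6, false), (13, false), (11, true), (8, false)])] 1 []))))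
  (.der [(139, 1, [(0, 1), (11, 2)]), (142, 2, [(0, 1), (2, 1), (4, 1), (11, 2)]), (318, 2, [(0, 1), (2, 1), (4, 1), (13, 2), (16, 2), (18, 2)]), (778, 1, [(0, 1)])]
  (.leaf [(1, [⟨0, 0, [0]⟩, ⟨1, 3, [1, 2, 3, 5, 6]⟩, ⟨9, 8, [4, 7, 8, 9, 10]⟩, ⟨11, 11, [11, 12]⟩, ⟨13, 13, [13]⟩, ⟨14, 14, [14]⟩]), (1, [⟨0, 0, [0]⟩, ⟨1, 1, [1]⟩, ⟨2, 3, [2, 3, 5, 6]⟩, ⟨9, 8, [4, 7, 8, 9, 10]⟩, ⟨11, 11, [11, 12]⟩, ⟨13, 13, [13]⟩, ⟨14, 14, [14]⟩])] [(1, [(4, false), (5, false), (14, false), (12, false), (10, true), (13, false), (11, true), (8, false)]), (1, [(4, false), (5, false), (14, false), (6, true), (13, true), (7, true), (11, false), (8, false)])] 1 [(0, 1), (6, 3), (9, 1), (11, 1), (13, 4), (17, 3)]))))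
  (.der [(302, 2, [(0, 2), (3, 1), (15, 1), (16, 1), (17, 2), (18, 1)]), (355, 1, [(0, 1)]), (553, 1, [(0, 1), (16, 1), (20, 1)]), (597, 1, [(0, 1), (8, 1), (12, 1), (16, 1)])]
  (.br [0, 0, 0, 0, -1, 1, 0, 1, -1]
  (.der [(494, 1, [(0, 1)]), (643, 1, [(0, 1)])]
  (.leaf [(2, [⟨0, 1, [0, 1]⟩, ⟨2, 11, [2, 3, 4, 5, 6, 7, 8, 9, 10, 11, 12]⟩, ⟨13, 14, [13, 14]⟩])] [(1, [(2, false), (14, false), (12, false), (13, false), (7, true), (11, false), (8, false)]), (1, [(2, false), (14, false), (12, false), (13, false), (6, false), (11, true), (8, false)])] 1 []))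
  (.der [(719, 1, [(0, 1)]), (868, 1, [(0, 1)])]
  (.br [-1, 0, 0, 0, 2, 0, -1]
  (.der [(54, 1, [(0, 1)])]
  (.br [1, 0, -1, 0, -1, 0, 1]
  (.der [(93, 1, [(0, 1)])]
  (.br [0, 1, 0, 0, -2, 0, 0, 1]
  (.der [(636, 1, [(0, 1)])]
  (.leaf [(2, [⟨0, 1, [0, 1]⟩, ⟨2, 10, [2, 3, 4, 5, 6, 7, 8, 9, 10]⟩, ⟨11, 11, [11, 12]⟩, ⟨13, 14, [13, 14]⟩])] [(1, [(4, false), (5, false), (9, false), (12, false), (13, true), (6, false), (7, true), (11, false), (8, false)]), (1, [(4, false), (5, false), (9, false), (12, false), (6, false), (13, false), (11, true), (8, false)])] 1 []))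
  (.der [(861, 1, [(0, 1)])]
  (.br [0, 0, 1, 0, 0, -2, 0, 0, 1]
  (.der [(823, 1, [(0, 1)])]
  (.leaf [(2, [⟨0, 1, [0, 1]⟩, ⟨2, 2, [2, 5]⟩, ⟨6, 10, [3, 4, 6, 7, 8, 9, 10]⟩, ⟨11, 11, [11, 12]⟩, ⟨13, 14, [13, 14]⟩]), (2, [⟨0, 1, [0, 1]⟩, ⟨2, 2, [2, 5]⟩, ⟨6, 10, [3, 4, 6, 7, 8, 9, 10]⟩, ⟨11, 11, [11, 12]⟩, ⟨13, 13, [13]⟩, ⟨14, 14, [14]⟩]), (2, [⟨0, 0, [0]⟩, ⟨1, 1, [1]⟩, ⟨2, 2, [2, 5]⟩, ⟨6, 10, [3, 4, 6, 7, 8, 9, 10]⟩, ⟨11, 11, [11, 12]⟩, ⟨13, 13, [13]⟩, ⟨14, 14, [14]⟩])] [(3, [(4, false), (5, false), (9, false), (12, false), (13, true), (6, false), (7, true), (11, false), (8, false)]), (2, [(4, false), (5, false), (9, false), (12, false), (6, true), (13, false), (11, true), (8, false)]), (1, [(4, false), (5, false), (9, false), (13, true), (6, false), (11, true), (8, false)])] 1 [(10, 6)]))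
  (.der [(598, 1, [(0, 1)])]
  (.leaf [(2, [⟨0, 1, [0, 1]⟩, ⟨2, 2, [2, 5]⟩, ⟨6, 10, [3, 4, 6, 7, 8, 9, 10]⟩, ⟨11, 11, [11, 12]⟩, ⟨13, 13, [13]⟩, ⟨14, 14, [14]⟩])] [(1, [(2, false), (14, true), (12, false), (13, true), (7, true), (11, false), (8, false)]), (1, [(4, false), (5, false), (9, false), (13, false), (6, false), (11, true), (8, false)])] 1 [(10, 2)]))))))
  (.der [(51, 1, [(0, 1)])]
  (.leaf [(4, [⟨0, 1, [0, 1]⟩, ⟨2, 2, [2, 5]⟩, ⟨3, 10, [3, 4, 6, 7, 8, 9, 10]⟩, ⟨11, 11, [11, 12]⟩, ⟨13, 14, [13, 14]⟩])] [(1, [(4, false), (5, false), (13, true), (6, false), (11, true), (8, false)]), (1, [(4, false), (5, false), (14, false), (6, true), (13, false), (7, true), (11, false), (8, false)]), (2, [(4, false), (5, false), (9, false), (12, false), (13, true), (6, false), (7, true), (11, false), (8, false)])] 1 []))))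
  (.leaf [(26, [⟨0, 0, [0]⟩, ⟨1, 10, [1, 2, 3, 4, 5, 6, 7, 8, 9, 10]⟩, ⟨11, 11, [11, 12]⟩, ⟨13, 13, [13]⟩, ⟨14, 14, [14]⟩]), (2, [⟨0, 0, [0]⟩, ⟨1, 1, [1]⟩, ⟨2, 10, [2, 3, 4, 5, 6, 7, 8, 9, 10]⟩, ⟨11, 11, [11, 12]⟩, ⟨13, 13, [13]⟩, ⟨14, 14, [14]⟩]), (16, [⟨0, 0, [0]⟩, ⟨1, 1, [1]⟩, ⟨2, 9, [2, 3, 5, 6, 9]⟩, ⟨4, 10, [4, 7, 8, 10]⟩, ⟨11, 11, [11, 12]⟩, ⟨13, 13, [13]⟩, ⟨14, 14, [14]⟩])] [(1, []), (43, [(2, false), (14, true), (12, false), (13, true), (7, true), (11, false), (8, false)])] 1 [(0, 92), (2, 18), (5, 12), (7, 20), (14, 134), (18, 34)])))))))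
  (.der [(51, 1, [(0, 1), (2, 1), (16, 1), (20, 1)]), (54, 4, [(0, 4), (2, 1), (5, 1), (8, 2), (10, 1), (15, 1), (16, 2), (19, 2), (20, 3)]), (191, 1, [(0, 1)]), (368, 1, [(0, 1), (1, 1), (2, 1), (7, 1), (10, 1), (16, 1)]), (553, 1, [(0, 1), (2, 1), (9, 2), (16, 2), (20, 2)])]
  (.br [0, 0, 0, 0, 0, -1, 1, 0, 1, -1]
  (.der [(606, 1, [(0, 1), (10, 1), (12, 1), (17, 1)]), (898, 1, [(0, 1)])]
  (.br [0, 1, 0, -2, 0, 1]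
  (.der [(302, 1, [(0, 1)]), (760, 1, [(0, 1), (3, 1)])]
  (.br [-1, 1, 0, 0, 0, 0, 0, 1, -1]
  (.der [(464, 1, [(0, 1)]), (563, 1, [(0, 1)])]
  (.br [0, 0, 0, 1, 0, -1, 0, -1, 0, 1]
  (.der [(383, 1, [(0, 1)])]
  (.leaf [(4, [⟨0, 1, [0, 1]⟩, ⟨2, 2, [2, 5]⟩, ⟨3, 8, [3, 4, 6, 7, 8, 9, 10]⟩, ⟨12, 11, [11, 12]⟩, ⟨13, 14, [13, 14]⟩])] [(1, [(4, false), (5, false), (14, false), (6, true), (13, false), (7, true), (11, false), (8, false)]), (2, [(0, false), (14, false), (13, true), (6, false), (7, true), (8, false)]), (1, [(4, false), (5, false), (10, true), (6, false), (7, true), (8, false)])] 1 [(2, 2)]))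
  (.leaf [(1, [⟨0, 1, [0, 1]⟩, ⟨2, 2, [2, 5]⟩, ⟨3, 11, [3, 4, 6, 7, 8, 9, 10, 11, 12]⟩, ⟨13, 13, [13]⟩, ⟨14, 14, [14]⟩])] [(1, [(0, false), (14, false), (13, true), (6, false), (7, true), (8, false)])] 1 [(0, 1), (4, 1), (19, 1)])))
  (.der [(689, 1, [(0, 1)]), (788, 1, [(0, 1)])]
  (.br [0, 0, 0, 1, 0, -1, 0, -1, 0, 1]
  (.der [(383, 1, [(0, 1)])]
  (.leaf [(4, [⟨0, 1, [0, 1]⟩, ⟨2, 2, [2, 5]⟩, ⟨3, 8, [3, 4, 6, 7, 8, 9, 10]⟩, ⟨12, 11, [11, 12]⟩, ⟨13, 14, [13, 14]⟩]), (4, [⟨0, 1, [0, 1]⟩, ⟨2, 2, [2, 5]⟩, ⟨3, 8, [3, 4, 6, 7, 8, 9, 10]⟩, ⟨12, 11, [11, 12]⟩, ⟨13, 13, [13]⟩, ⟨14, 14, [14]⟩])] [(2, [(4, false), (5, false), (14, false), (6, true), (13, false), (7, true), (11, false), (8, false)]), (1, [(0, false), (14, true), (13, true), (6, false), (7, true), (8, true)]), (5, [(4, false), (5, false), (14, false), (13, true), (6,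 false), (7, true), (11, false), (8, false)])] 1 [(2, 8)]))
  (.leaf [(1, [⟨0, 1, [0, 1]⟩, ⟨2, 2, [2, 5]⟩, ⟨3, 11, [3, 4, 6, 7, 8, 9, 10, 11, 12]⟩, ⟨13, 13, [13]⟩, ⟨14, 14, [14]⟩])] [(1, [(4, false), (5, false), (14, false), (13, true), (6, false), (7, true), (11, false), (8, false)])] 1 [(0, 1), (4, 1), (19, 1)])))))
  (.der [(260, 1, [(0, 1)]), (383, 4, [(0, 3), (1, 1), (2, 1), (4, 2), (17, 2), (18, 4), (19, 2), (22, 1)])]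
  (.br [-1, 0, 0, 2, 0, 0, -1]
  (.der [(535, 1, [(0, 1)])]
  (.br [-1, 1, 0, 0, 0, 0, 0, 1, -1]
  (.der [(563, 1, [(0, 1)])]
  (.leaf [(2, [⟨0, 1, [0, 1]⟩, ⟨2, 11, [2, 3, 4, 5, 6, 7, 8, 9, 10, 11, 12]⟩, ⟨13, 14, [13, 14]⟩])] [(1, [(4, false), (5, false), (10, false), (6, false), (11, true), (8, false)]), (1, [(4, false), (5, false), (10, false), (13, false), (7, true), (8, false)])] 1 []))
  (.der [(788, 1, [(0, 1)])]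
  (.leaf [(2, [⟨0, 0, [0]⟩, ⟨1, 1, [1]⟩, ⟨2, 11, [2, 3, 4, 5, 6, 7, 8, 9, 10, 11, 12]⟩, ⟨13, 13, [13]⟩, ⟨14, 14, [14]⟩])] [(1, [(4, false), (5, false), (10, false), (13, false), (11, true), (8, false)]), (1, [(4, false), (5, false), (10, false), (6, false), (7, true), (8, true)])] 1 [(8, 2)]))))
  (.der [(760, 1, [(0, 1)])]
  (.br [0, 0, 0, 1, 0, 0, -2, 0, 0, 1]
  (.der [(670, 1, [(0, 1)])]
  (.br [-1, 1, 0, 0, 0, 0, 0, 1, -1]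
  (.der [(464, 1, [(0, 1)]), (563, 1, [(0, 1)])]
  (.leaf [(2, [⟨0, 1, [0, 1]⟩, ⟨2, 5, [2, 5]⟩, ⟨3, 11, [3, 4, 6, 7, 8, 9, 10, 11, 12]⟩, ⟨13, 14, [13, 14]⟩])] [(1, [(0, false), (14, false), (10, false), (6, false), (7, true), (8, false)]), (1, [(4, false), (5, false), (10, true), (13, false), (11, true), (8, false)])] 1 []))
  (.leaf [(2, [⟨0, 1, [0, 1]⟩, ⟨2, 5, [2, 5]⟩, ⟨3, 11, [3, 4, 6, 7, 8, 9, 10, 11, 12]⟩, ⟨13, 14, [13, 14]⟩])] [(1, [(4, false), (5, false), (10, true), (6, false), (11, true), (8, false)]), (1, [(4, false), (5, false), (14, false), (10, false), (13, false), (7, true), (11, false), (8, false)])] 1 [])))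
  (.der [(895, 1, [(0, 1)])]
  (.br [-1, 1, 0, 0, 0, 0, 0, 1, -1]
  (.der [(464, 1, [(0, 1)]), (563, 1, [(0, 1)])]
  (.leaf [(2, [⟨0, 1, [0, 1]⟩, ⟨2, 5, [2, 5]⟩, ⟨3, 8, [3, 4, 6, 7, 8, 9, 10]⟩, ⟨12, 11, [11, 12]⟩, ⟨13, 14, [13, 14]⟩])] [(1, [(0, false), (14, false), (10, true), (6, false), (7, true), (8, false)]), (1, [(4, false), (5, false), (10, true), (13, false), (11, true), (8, false)])] 1 []))
  (.leaf [(2, [⟨0, 1, [0, 1]⟩, ⟨2, 5, [2, 5]⟩, ⟨3, 8, [3, 4, 6, 7, 8, 9, 10]⟩, ⟨12, 11, [11, 12]⟩, ⟨13, 14, [13, 14]⟩])] [(1, [(4, false), (5, false), (10, true), (6, false), (11, true), (8, false)]), (1, [(4, false), (5, false), (14, false), (10, true), (13, false), (7, true), (11, false), (8, false)])] 1 [])))))))))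
  (.der [(673, 1, [(0, 1)])]
  (.br [-1, 1, 0, 0, 0, 0, 0, 1, -1]
  (.der [(464, 1, [(0, 1)]), (563, 1, [(0, 1)])]
  (.leaf [(4, [⟨0, 0, [0]⟩, ⟨1, 1, [1]⟩, ⟨2, 11, [2, 3, 4, 5, 6, 7, 8, 9, 10, 11, 12]⟩, ⟨13, 14, [13, 14]⟩])] [(1, [(4, false), (5, false), (13, true), (6, false), (11, true), (8, false)]), (1, [(4, false), (5, false), (14, false), (6, true), (13, false), (7, true), (11, false), (8, false)]), (2, [(0, false), (14, false), (13, false), (6, false), (7, true), (8, false)])] 1 [(1, 4), (6, 4)]))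
  (.leaf [(4, [⟨0, 0, [0]⟩, ⟨1, 1, [1]⟩, ⟨2, 11, [2, 3, 4, 5, 6, 7, 8, 9, 10, 11, 12]⟩, ⟨13, 14, [13, 14]⟩])] [(1, [(4, false), (5, false), (13, true), (6, false), (11, true), (8, false)]), (1, [(4, false), (5, false), (14, false), (6, true), (13, false), (7, true), (11, false), (8, false)]), (2, [(4, false), (5, false), (14, false), (13, false), (6, false), (7, true), (11, false), (8, false)])] 1 [(1, 4), (6, 4)])))))))))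
  (.der [(77, 1, [(0, 1)]), (681, 1, [(0, 1), (4, 2)])]
  (.br [0, 0, 0, 1, -1, 0, -1, 0, 0, 1]
  (.der [(655, 1, [(0, 1)]), (669, 1, [(0, 1)])]
  (.br [0, 1, -1, 0, 0, 0, -1, 1]
  (.der [(500, 1, [(0, 1)]), (607, 1, [(0, 1)])]
  (.br [0, 0, 1, 0, 0, -2, 0, 0, 1]
  (.der [(823, 1, [(0, 1)])]
  (.br [-1, 0, 0, 2, 0, 0, -1]
  (.der [(535, 1, [(0, 1)])]
  (.leaf [(1, [⟨0, 14, [0, 1, 2, 3, 4, 5, 6, 7, 8, 9, 10, 11, 12, 13, 14]⟩])] [(1, [(3, false), (5, false), (10, false), (7, false), (11, false), (8, false)])] 1 []))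
  (.br [0, 0, 0, 1, 0, 0, -2, 0, 0, 1]
  (.der [(670, 1, [(0, 1)])]
  (.leaf [(1, [⟨0, 14, [0, 1, 2, 3, 4, 5, 6, 7, 8, 9, 10, 11, 12, 13, 14]⟩])] [(1, [(3, false), (5, false), (14, false), (10, false), (7, false), (11, false), (8, false)])] 1 []))
  (.der [(895, 1, [(0, 1)])]
  (.leaf [(2, [⟨0, 1, [0, 1]⟩, ⟨5, 11, [2, 3, 4, 5, 6, 7, 8, 9, 10, 11, 12]⟩, ⟨13, 13, [13]⟩, ⟨14, 14, [14]⟩])] [(1, [(3, false), (5, false), (14, false), (9, false), (13, true), (10, false), (7, false), (11, false), (8, false)]), (1, [(3, false), (5, false), (14, false), (10, true), (7, false), (11, false), (8, false)])] 1 [(3, 2), (7, 4), (18, 2)])))))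
  (.der [(598, 1, [(0, 1)])]
  (.leaf [(1, [⟨0, 14, [0, 1, 2, 3, 4, 5, 6, 7, 8, 9, 10, 11, 12, 13, 14]⟩])] [(1, [(3, false), (5, false), (14, false), (9, false), (13, false), (10, false), (7, false), (11, false), (8, false)])] 1 []))))
  (.der [(725, 1, [(0, 1)]), (832, 1, [(0, 1)])]
  (.br [0, 0, 1, 0, 0, -2, 0, 0, 1]
  (.der [(368, 2, [(0, 2), (1, 1), (2, 1), (3, 1), (17, 1), (20, 1)]), (823, 1, [(0, 1)])]
  (.br [0, 1, 0, -2, 0, 0, 0, 1]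
  (.der [(303, 1, [(0, 1)])]
  (.br [-1, 0, 0, 0, 0, 2, 0, 0, -1]
  (.der [(553, 1, [(0, 1)])]
  (.br [0, 0, 0, 0, -1, 0, 2, 0, -1]
  (.der [(177, 1, [(0, 1)]), (895, 1, [(0, 1), (18, 1)])]
  (.br [0, 0, 0, 1, 0, -1, 0, -1, 0, 1]
  (.der [(383, 1, [(0, 1)])]
  (.br [1, -1, 0, -1, 1]
  (.der [(756, 1, [(0, 1)])]
  (.br [0, 1, 0, -2, 0, 1]
  (.der [(302, 1, [(0, 1)])]
  (.br [-1, 0, 1, 0, 1, 0, -1]
  (.der [(51, 1, [(0, 1)]), (54, 10, [(0, 12), (3, 6), (4, 1), (5, 3), (6, 4), (10, 9), (12, 6), (13, 2), (27, 2)])]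
  (.leaf [(2, [⟨0, 0, [0]⟩, ⟨1, 1, [1]⟩, ⟨5, 2, [2, 5]⟩, ⟨3, 8, [3, 4, 6, 7, 8, 9, 10]⟩, ⟨11, 11, [11, 12]⟩, ⟨13, 13, [13]⟩, ⟨14, 14, [14]⟩])] [(1, [(4, false), (5, false), (13, true), (6, false), (11, true), (8, false)]), (1, [(4, false), (5, false), (14, false), (6, true), (13, false), (10, false), (7, true), (11, false), (8, false)])] 1 [(12, 4)]))
  (.der [(93, 1, [(0, 1)])]
  (.leaf [(2, [⟨0, 1, [0, 1]⟩, ⟨5, 2, [2, 5]⟩, ⟨6, 8, [3, 4, 6, 7, 8, 9, 10]⟩, ⟨11, 11, [11, 12]⟩, ⟨13, 13, [13]⟩, ⟨14, 14, [14]⟩]), (4, [⟨0, 0, [0]⟩, ⟨1, 1, [1]⟩, ⟨5, 2, [2, 5]⟩, ⟨6, 8, [3, 4, 6, 7, 8, 9, 10]⟩, ⟨11, 11, [11, 12]⟩, ⟨13, 13, [13]⟩, ⟨14, 14, [14]⟩])] [(1, [(4, false), (5, false), (14, false), (6, true), (13, false), (10, false), (7, true), (11, false), (8, false)]), (2, [(4, false), (5, false), (14, false), (9, false), (13, true), (10,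 false), (11, true), (8, false)]), (2, [(4, false), (5, false), (6, true), (13, false), (11, true), (8, false)]), (1, [(4, false), (5, false), (14, false), (9, false), (13, true), (7, true), (11, false), (8, false)])] 1 [(12, 10)]))))
  (.der [(260, 1, [(0, 1)])]
  (.br [0, 0, 0, 0, 0, 1, -1, 0, -1, 1]
  (.der [(673, 1, [(0, 1)])]
  (.leaf [(2, [⟨0, 1, [0, 1]⟩, ⟨5, 8, [2, 3, 4, 5, 6, 7, 8, 9, 10]⟩, ⟨11, 11, [11, 12]⟩, ⟨13, 14, [13, 14]⟩]), (2, [⟨0, 1, [0, 1]⟩, ⟨5, 8, [2, 3, 4, 5, 6, 7, 8, 9, 10]⟩, ⟨11, 11, [11, 12]⟩, ⟨13, 13, [13]⟩, ⟨14, 14, [14]⟩])] [(1, [(4, false), (5, false), (14, false), (9, false), (13, true), (10, false), (11, true), (8, false)]), (3, [(4, false), (5, false), (14, false), (13, false), (11, true), (8, false)])] 1 [(4, 2), (12, 4)]))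
  (.br [1, 0, -1, 0, -1, 0, 1]
  (.der [(93, 1, [(0, 1)])]
  (.leaf [(2, [⟨0, 0, [0]⟩, ⟨1, 5, [1, 2, 5]⟩, ⟨6, 8, [3, 4, 6, 7, 8, 9, 10]⟩, ⟨11, 11, [11, 12]⟩, ⟨13, 13, [13]⟩, ⟨14, 14, [14]⟩]), (2, [⟨0, 0, [0]⟩, ⟨1, 1, [1]⟩, ⟨5, 5, [2, 5]⟩, ⟨6, 8, [3, 4, 6, 7, 8, 9, 10]⟩, ⟨11, 11, [11, 12]⟩, ⟨13, 13, [13]⟩, ⟨14, 14, [14]⟩])] [(1, [(4, false), (5, false), (14, false), (9, false), (13, true), (10, false), (11, true), (8, false)]), (2, [(4, false), (5, false), (6, true), (13, false), (11, true), (8, false)]), (1, [(4, false), (5, false), (14, false), (10, true), (11, true), (8, false)])] 1 [(13, 6)]))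
  (.der [(51, 1, [(0, 1)]), (54, 11, [(0, 16), (1, 5), (4, 3), (6, 4), (7, 2), (11, 10), (12, 2), (15, 4), (28, 1)])]
  (.leaf [(2, [⟨0, 0, [0]⟩, ⟨1, 1, [1]⟩, ⟨5, 5, [2, 5]⟩, ⟨3, 8, [3, 4, 6, 7, 8, 9, 10]⟩, ⟨11, 11, [11, 12]⟩, ⟨13, 13, [13]⟩, ⟨14, 14, [14]⟩])] [(1, [(4, false), (5, false), (6, true), (13, false), (11, true), (8, false)]), (1, [(4, false), (5, false), (13, true), (10, false), (11, true), (8, false)])] 1 [(5, 2), (13, 4)])))))))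
  (.der [(455, 1, [(0, 1), (20, 1), (22, 1)]), (531, 1, [(0, 1)])]
  (.leaf [(2, [⟨0, 1, [0, 1]⟩, ⟨5, 11, [2, 3, 4, 5, 6, 7, 8, 9, 10, 11, 12]⟩, ⟨13, 13, [13]⟩, ⟨14, 14, [14]⟩]), (6, [⟨0, 1, [0, 1]⟩, ⟨5, 8, [2, 3, 4, 5, 6, 7, 8, 9, 10]⟩, ⟨11, 11, [11, 12]⟩, ⟨13, 13, [13]⟩, ⟨14, 14, [14]⟩])] [(1, [(4, false), (5, false), (13, true), (6, false), (11, true), (8, false)]), (7, [(0, false), (5, false), (6, false), (13, false), (11, true), (8, false)])] 1 [(0, 4), (2, 4), (5, 4), (10, 12), (21, 4)]))))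
  (.der [(302, 1, [(0, 1), (21, 1), (23, 1)]), (355, 1, [(0, 1)])]
  (.br [1, 0, -1, 0, -1, 0, 1]
  (.der [(93, 1, [(0, 1)])]
  (.br [0, 1, -1, 0, -1, 1]
  (.der [(485, 1, [(0, 1)]), (591, 1, [(0, 1)])]
  (.leaf [(2, [⟨0, 1, [0, 1]⟩, ⟨5, 10, [2, 3, 4, 5, 6, 7, 8, 9, 10]⟩, ⟨11, 11, [11, 12]⟩, ⟨13, 14, [13, 14]⟩])] [(1, [(4, false), (5, false), (14, false), (9, false), (13, true), (10, false), (11, true), (8, false)]), (1, [(2, false), (5, false), (14, false), (9, false), (6, false), (13, false), (7, true), (11, false), (8, false)])] 1 []))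
  (.der [(710, 1, [(0, 1)]), (772, 1, [(0, 1), (1, 1)]), (816, 1, [(0, 1)])]
  (.br [0, -1, 0, 0, 2, 0, 0, -1]
  (.der [(861, 1, [(0, 1)])]
  (.leaf [(4, [⟨0, 1, [0, 1]⟩, ⟨5, 2, [2, 5]⟩, ⟨6, 10, [3, 4, 6, 7, 8, 9, 10]⟩, ⟨11, 11, [11, 12]⟩, ⟨13, 13, [13]⟩, ⟨14, 14, [14]⟩]), (6, [⟨0, 0, [0]⟩, ⟨1, 1, [1]⟩, ⟨5, 2, [2, 5]⟩, ⟨6, 10, [3, 4, 6, 7, 8, 9, 10]⟩, ⟨11, 11, [11, 12]⟩, ⟨13, 13, [13]⟩, ⟨14, 14, [14]⟩])] [(5, [(4, false), (5, false), (14, false), (9, false), (13, true), (10, false), (11, true), (8, false)]), (3, [(4, false), (5, false), (14, false), (12, false), (6, true), (13, false), (7, true), (11, false), (8, false)]), (2, [(4, false), (5, false), (14, false), (9, false), (13, true), (6, false), (7, true), (11, false), (8, false)])] 1 [(10, 2), (12, 16), (23, 2)]))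
  (.leaf [(2, [⟨0, 0, [0]⟩, ⟨1, 1, [1]⟩, ⟨5, 2, [2, 5]⟩, ⟨6, 10, [3, 4, 6, 7, 8, 9, 10]⟩, ⟨11, 11, [11, 12]⟩, ⟨13, 13, [13]⟩, ⟨14, 14, [14]⟩])] [(1, [(4, false), (5, false), (14, false), (9, false), (13, true), (10, false), (11, true), (8, false)]), (1, [(2, false), (5, true), (14, false), (9, false), (6, true), (13, false), (7, true), (11, false), (8, false)])] 1 [(0, 2), (10, 2), (12, 4), (23, 2)])))))
  (.der [(51, 1, [(0, 1)]), (54, 7, [(0, 13), (1, 2), (2, 3), (5, 1), (8, 8), (9, 2), (12, 2), (18, 4), (25, 2)])]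
  (.br [-1, 1, 0, 0, 0, 1, -1]
  (.der [(455, 1, [(0, 2), (3, 1), (6, 1), (9, 1)]), (547, 1, [(0, 1)]), (898, 1, [(0, 1), (3, 1), (6, 1), (9, 1), (11, 1)])]
  (.leaf [(12, [⟨0, 1, [0, 1]⟩, ⟨5, 2, [2, 5]⟩, ⟨3, 10, [3, 4, 6, 7, 8, 9, 10]⟩, ⟨11, 11, [11, 12]⟩, ⟨13, 13, [13]⟩, ⟨14, 14, [14]⟩])] [(2, [(4, false), (5, false), (13, true), (6, false), (11, true), (8, false)]), (3, [(3, false), (5, true), (14, false), (9, false), (13, true), (10, false), (7, true), (11, false), (8, false)]), (7, [(0, false), (5, false), (14, false), (13, true), (6, false), (7, false), (11, false), (8, false)])] 1 [(1, 2), (6, 4), (9, 6), (11, 12), (21, 4), (22, 6)]))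
  (.der [(772, 1, [(0, 1)])]
  (.leaf [(8, [⟨0, 1, [0, 1]⟩, ⟨5, 2, [2, 5]⟩, ⟨3, 10, [3, 4, 6, 7, 8, 9, 10]⟩, ⟨11, 11, [11, 12]⟩, ⟨13, 14, [13, 14]⟩]), (2, [⟨0, 0, [0]⟩, ⟨1, 1, [1]⟩, ⟨5, 2, [2, 5]⟩, ⟨3, 10, [3, 4, 6, 7, 8, 9, 10]⟩, ⟨11, 11, [11, 12]⟩, ⟨13, 14, [13, 14]⟩])] [(2, [(4, false), (5, false), (13, true), (6, false), (11, true), (8, false)]), (4, [(4, false), (5, false), (14, false), (6, true), (13, false), (10, false), (7, true), (11, false), (8, false)]), (1, [(4, false), (5, false), (14, false), (9, false), (13, true), (10, false), (11, true), (8, false)]), (3, [(4, false), (5, false), (14, false), (9, false), (13, true), (6, false), (7, true), (11, false), (8, false)])] 1 [(1, 2), (11, 2)]))))))))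
  (.der [(54, 4, [(0, 5), (2, 1), (4, 3), (9, 2), (20, 3), (23, 2), (24, 3)]), (191, 1, [(0, 1)])]
  (.br [1, -1, 0, 0, 0, -1, 1]
  (.der [(772, 1, [(0, 1)])]
  (.br [0, 0, 0, 0, 0, -1, 1, 0, 1, -1]
  (.der [(606, 1, [(0, 1), (15, 1), (17, 1), (22, 1)]), (898, 1, [(0, 1)])]
  (.br [0, 0, 0, 1, 0, -1, 0, -1, 0, 1]
  (.der [(383, 1, [(0, 1)])]
  (.br [0, 0, 0, 1, 0, 0, -2, 0, 0, 1]
  (.der [(670, 1, [(0, 1)])]
  (.leaf [(2, [⟨0, 0, [0]⟩, ⟨1, 1, [1]⟩, ⟨5, 11, [2, 3, 4, 5, 6, 7, 8, 9, 10, 11, 12]⟩, ⟨13, 13, [13]⟩, ⟨14, 14, [14]⟩])] [(1, [(4, false), (5, false), (14, false), (10, false), (7, true), (11, false), (8, false)]), (1, [(4, false), (5, false), (14, false), (10, false), (6, false), (11, true), (8, false)])] 1 [(12, 4)]))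
  (.der [(895, 1, [(0, 1)])]
  (.br [-1, 0, 1, 0, 1, 0, -1]
  (.der [(51, 1, [(0, 1)])]
  (.br [0, 1, 0, -2, 0, 1]
  (.der [(302, 1, [(0, 1)])]
  (.leaf [(2, [⟨0, 1, [0, 1]⟩, ⟨5, 2, [2, 5]⟩, ⟨3, 8, [3, 4, 6, 7, 8, 9, 10]⟩, ⟨12, 11, [11, 12]⟩, ⟨13, 13, [13]⟩, ⟨14, 14, [14]⟩])] [(1, [(4, false), (5, false), (14, false), (13, true), (6, false), (7, true), (11, false), (8, false)]), (1, [(4, false), (5, false), (14, false), (10, true), (11, true), (8, false)])] 1 [(14, 2)]))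
  (.der [(260, 1, [(0, 1)])]
  (.leaf [(2, [⟨0, 1, [0, 1]⟩, ⟨5, 5, [2, 5]⟩, ⟨3, 8, [3, 4, 6, 7, 8, 9, 10]⟩, ⟨12, 11, [11, 12]⟩, ⟨13, 13, [13]⟩, ⟨14, 14, [14]⟩])] [(1, [(4, false), (5, false), (14, false), (10, true), (11, true), (8, false)]), (1, [(4, false), (5, false), (14, false), (10, true), (6, false), (11, true), (8, false)])] 1 [(14, 2)]))))
  (.der [(93, 1, [(0, 1)])]
  (.br [0, 1, 0, -2, 0, 1]
  (.der [(302, 1, [(0, 1)])]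
  (.leaf [(2, [⟨0, 2, [0, 1, 2, 5]⟩, ⟨6, 8, [3, 4, 6, 7, 8, 9, 10]⟩, ⟨12, 11, [11, 12]⟩, ⟨13, 13, [13]⟩, ⟨14, 14, [14]⟩]), (2, [⟨0, 0, [0]⟩, ⟨1, 1, [1]⟩, ⟨5, 2, [2, 5]⟩, ⟨6, 8, [3, 4, 6, 7, 8, 9, 10]⟩, ⟨12, 11, [11, 12]⟩, ⟨13, 13, [13]⟩, ⟨14, 14, [14]⟩])] [(1, [(4, false), (5, false), (14, false), (6, true), (13, false), (10, false), (7, true), (11, false), (8, false)]), (1, [(4, false), (5, false), (14, false), (9, false), (13, true), (10, false), (11, true), (8, false)]), (1, [(4, false), (5, false), (14, false), (13, true), (6, false), (7, true), (11, false), (8, false)]), (1, [(4, false), (5, false), (14, false), (10, true), (13, false), (11, true), (8, false)])] 1 [(14, 4)]))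
  (.der [(260, 1, [(0, 1)])]
  (.leaf [(2, [⟨0, 5, [0, 1, 2, 5]⟩, ⟨6, 8, [3, 4, 6, 7, 8, 9, 10]⟩, ⟨12, 11, [11, 12]⟩, ⟨13, 13, [13]⟩, ⟨14, 14, [14]⟩]), (2, [⟨0, 1, [0, 1]⟩, ⟨5, 5, [2, 5]⟩, ⟨6, 8, [3, 4, 6, 7, 8, 9, 10]⟩, ⟨12, 11, [11, 12]⟩, ⟨13, 13, [13]⟩, ⟨14, 14, [14]⟩])] [(1, [(4, false), (5, false), (14, false), (9, false), (13, true), (10, false), (11, true), (8, false)]), (2, [(4, false), (5, false), (14, false), (10, true), (13, false), (11, true), (8, false)]), (1, [(4, false), (5, false), (14, false), (10, true), (11, true), (8, false)])] 1 [(14, 2)]))))))))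
  (.der [(355, 1, [(0, 1)])]
  (.leaf [(2, [⟨0, 0, [0]⟩, ⟨1, 1, [1]⟩, ⟨5, 10, [2, 3, 4, 5, 6, 7, 8, 9, 10]⟩, ⟨12, 11, [11, 12]⟩, ⟨13, 13, [13]⟩, ⟨14, 14, [14]⟩])] [(1, [(4, false), (5, false), (14, false), (13, true), (6, false), (7, true), (11, false), (8, false)]), (1, [(4, false), (5, false), (14, false), (9, false), (13, true), (10, false), (7, true), (11, false), (8, false)])] 1 [(0, 2), (11, 2), (22, 2)]))))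
  (.der [(673, 1, [(0, 1)])]
  (.leaf [(2, [⟨0, 0, [0]⟩, ⟨1, 1, [1]⟩, ⟨5, 11, [2, 3, 4, 5, 6, 7, 8, 9, 10, 11, 12]⟩, ⟨13, 13, [13]⟩, ⟨14, 14, [14]⟩])] [(1, [(4, false), (5, false), (14, false), (13, false), (10, false), (7, true), (11, false), (8, false)]), (1, [(4, false), (5, false), (14, false), (13, false), (6, false), (11, true), (8, false)])] 1 [(10, 4)]))))
  (.der [(547, 1, [(0, 1)])]
  (.br [-1, 0, 0, 2, 0, 0, -1]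
  (.der [(535, 1, [(0, 1)])]
  (.leaf [(1, [⟨0, 14, [0, 1, 2, 3, 4, 5, 6, 7, 8, 9, 10, 11, 12, 13, 14]⟩])] [(1, [(4, false), (5, false), (10, false), (13, false), (6, false), (7, false), (11, false), (8, false)])] 1 []))
  (.der [(760, 1, [(0, 1)])]
  (.br [0, 0, 0, 0, 0, 1, -1, 0, -1, 1]
  (.der [(673, 1, [(0, 1)])]
  (.leaf [(1, [⟨0, 14, [0, 1, 2, 3, 4, 5, 6, 7, 8, 9, 10, 11, 12, 13, 14]⟩])] [(1, [(4, false), (5, false), (14, false), (13, false), (6, false), (7, false), (11, false), (8, false)])] 1 []))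
  (.der [(455, 1, [(0, 1), (2, 1), (23, 1)]), (898, 1, [(0, 1)])]
  (.br [0, 0, 0, 1, 0, -1, 0, -1, 0, 1]
  (.der [(383, 1, [(0, 1)])]
  (.leaf [(2, [⟨0, 1, [0, 1]⟩, ⟨5, 11, [2, 3, 4, 5, 6, 7, 8, 9, 10, 11, 12]⟩, ⟨13, 14, [13, 14]⟩]), (14, [⟨0, 1, [0, 1]⟩, ⟨5, 11, [2, 3, 4, 5, 6, 7, 8, 9, 10, 11, 12]⟩, ⟨13, 13, [13]⟩, ⟨14, 14, [14]⟩]), (10, [⟨0, 1, [0, 1]⟩, ⟨5, 8, [2, 3, 4, 5, 6, 7, 8, 9, 10]⟩, ⟨12, 11, [11, 12]⟩, ⟨13, 13, [13]⟩, ⟨14, 14, [14]⟩])] [(3, [(4, false), (5, false), (13, true), (6, false), (11, true), (8, false)]), (6, [(3, false), (5, true), (10, true), (7, true), (11, false), (8, false)]), (17, [(0, false), (5, false), (14, false), (13, true), (6, false), (7, false), (11, false), (8, false)])] 1 [(3, 24), (7, 2), (12, 26)]))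
  (.leaf [(2, [⟨0, 1, [0, 1]⟩, ⟨5, 11, [2, 3, 4, 5, 6, 7, 8, 9, 10, 11, 12]⟩, ⟨13, 13, [13]⟩, ⟨14, 14, [14]⟩])] [(1, [(4, false), (5, false), (14, false), (9, false), (13, true), (6, false), (7, false), (11, false), (8, false)]), (1, [(0, false), (5, false), (14, false), (13, true), (6, false), (7, false), (11, false), (8, false)])] 1 [(0, 2), (12, 2), (23, 2)])))))))))))
  (.der [(93, 1, [(0, 1), (12, 2), (19, 1), (23, 1)]), (383, 1, [(0, 1), (18, 1), (22, 1)]), (778, 1, [(0, 1)])]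
  (.br [0, 0, 1, 0, -2, 0, 1]
  (.der [(177, 1, [(0, 1), (20, 1), (24, 1)])]
  (.br [-1, 0, 0, 0, 2, 0, -1]
  (.der [(54, 1, [(0, 1)])]
  (.leaf [(1, [⟨0, 0, [0]⟩, ⟨1, 6, [1, 2, 5, 6]⟩, ⟨3, 8, [3, 4, 7, 8, 9, 10]⟩, ⟨11, 11, [11, 12]⟩, ⟨13, 13, [13]⟩, ⟨14, 14, [14]⟩])] [(1, [(4, false), (5, false), (14, false), (6, true), (13, true), (11, true), (8, false)])] 1 [(1, 1), (14, 1), (16, 1), (20, 1)]))
  (.leaf [(2, [⟨0, 0, [0]⟩, ⟨1, 8, [1, 2, 3, 4, 5, 6, 7, 8, 9, 10]⟩, ⟨11, 11, [11, 12]⟩, ⟨13, 13, [13]⟩, ⟨14, 14, [14]⟩]), (1, [⟨0, 0, [0]⟩, ⟨1, 1, [1]⟩, ⟨5, 8, [2, 3, 4, 5, 6, 7, 8, 9, 10]⟩, ⟨11, 11, [11, 12]⟩, ⟨13, 13, [13]⟩, ⟨14, 14, [14]⟩])] [(1, [(4, false), (5, false), (14, false), (12, false), (10, true), (13, false), (11, true), (8, false)]), (2, [(4, false), (5, false), (14, false), (6, true), (13, true), (11, true), (8,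 false)])] 1 [(0, 4), (6, 1), (9, 5), (10, 2), (16, 6), (20, 5), (24, 3)])))
  (.der [(109, 1, [(0, 1), (1, 1), (13, 2)]), (114, 1, [(0, 1)])]
  (.br [0, 1, 0, -1, 0, -1, 0, 1]
  (.der [(318, 1, [(0, 1)])]
  (.br [0, 0, 0, 0, -1, 0, 2, 0, -1]
  (.der [(177, 1, [(0, 1)])]
  (.leaf [(2, [⟨0, 0, [0]⟩, ⟨1, 3, [1, 2, 3, 5, 6]⟩, ⟨7, 8, [4, 7, 8, 9, 10]⟩, ⟨11, 11, [11, 12]⟩, ⟨13, 13, [13]⟩, ⟨14, 14, [14]⟩]), (2, [⟨0, 0, [0]⟩, ⟨1, 1, [1]⟩, ⟨5, 3, [2, 3, 5, 6]⟩, ⟨7, 8, [4, 7, 8, 9, 10]⟩, ⟨11, 11, [11, 12]⟩, ⟨13, 13, [13]⟩, ⟨14, 14, [14]⟩])] [(1, [(4, false), (5, false), (14, false), (12, false), (10, true), (13, false), (11, true), (8, false)]), (2, [(4, false), (5, false), (14, false), (6, true), (13, true), (10, false), (7, true), (11, false), (8, false)]), (1, [(4, false), (5, false), (14, false), (9, false), (13, true), (10, false),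 (11, true), (8, false)])] 1 [(2, 2), (10, 6), (15, 8)]))
  (.leaf [(1, [⟨0, 0, [0]⟩, ⟨1, 3, [1, 2, 3, 5, 6]⟩, ⟨7, 11, [4, 7, 8, 9, 10, 11, 12]⟩, ⟨13, 13, [13]⟩, ⟨14, 14, [14]⟩])] [(1, [(4, false), (5, false), (14, false), (6, true), (13, true), (10, false), (7, true), (11, false), (8, false)])] 1 [(0, 1), (11, 1), (15, 3)])))
  (.der [(260, 1, [(0, 1), (2, 1), (24, 1)]), (276, 1, [(0, 1)]), (550, 1, [(0, 1), (10, 1), (16, 1)])]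
  (.leaf [(1, [⟨0, 0, [0]⟩, ⟨1, 11, [1, 2, 3, 4, 5, 6, 7, 8, 9, 10, 11, 12]⟩, ⟨13, 13, [13]⟩, ⟨14, 14, [14]⟩]), (1, [⟨0, 0, [0]⟩, ⟨1, 6, [1, 2, 3, 5, 6]⟩, ⟨7, 11, [4, 7, 8, 9, 10, 11, 12]⟩, ⟨13, 13, [13]⟩, ⟨14, 14, [14]⟩]), (1, [⟨0, 0, [0]⟩, ⟨1, 5, [1, 2, 5]⟩, ⟨6, 6, [3, 6]⟩, ⟨7, 11, [4, 7, 8, 9, 10, 11, 12]⟩, ⟨13, 13, [13]⟩, ⟨14, 14, [14]⟩])] [(1, [(4, false), (5, false), (14, false), (6, true), (13, true), (10, false), (7, true), (11, false), (8, false)]), (1, [(4, false), (5, false), (14, false), (9, false), (13, true), (10, false), (11, true), (8, false)]), (1, [(4, false), (5, false), (14, false), (6, true), (10, false), (13, false), (11, true), (8, false)])] 1 [(2, 1), (14, 5), (16, 1)]))))))))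
  (.der [(535, 1, [(0, 1), (7, 1), (13, 1)])]
  (.leaf [(2, [⟨0, 0, [0]⟩, ⟨1, 11, [1, 2, 3, 4, 5, 6, 7, 8, 9, 10, 11, 12]⟩, ⟨13, 13, [13]⟩, ⟨14, 14, [14]⟩])] [(1, [(4, false), (5, false), (13, true), (6, false), (11, true), (8, false)]), (1, [(4, false), (5, false), (10, false), (13, false), (7, true), (11, false), (8, false)])] 1 [(0, 2), (6, 2), (7, 2), (11, 2)]))))
  (.der [(598, 1, [(0, 1)])]
  (.br [-1, 1, 0, 0, 0, 1, -1]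
  (.der [(547, 1, [(0, 1)])]
  (.leaf [(1, [⟨0, 14, [0, 1, 2, 3, 4, 5, 6, 7, 8, 9, 10, 11, 12, 13, 14]⟩])] [(1, [(4, false), (5, false), (14, false), (9, false), (13, false), (6, false), (7, false), (11, false), (8, false)])] 1 []))
  (.der [(772, 1, [(0, 1)])]
  (.br [1, 0, -1, 0, -1, 0, 1]
  (.leaf [(2, [⟨0, 0, [0]⟩, ⟨1, 1, [1]⟩, ⟨5, 11, [2, 3, 4, 5, 6, 7, 8, 9, 10, 11, 12]⟩, ⟨13, 13, [13]⟩, ⟨14, 14, [14]⟩])] [(1, [(4, false), (5, false), (14, false), (9, false), (13, false), (10, false), (11, true), (8, false)]), (1, [(4, false), (5, false), (14, false), (9, false), (13, false), (6, false), (7, true), (11, false), (8, false)])] 1 [(7, 4)])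
  (.leaf [(2, [⟨0, 0, [0]⟩, ⟨1, 1, [1]⟩, ⟨5, 11, [2, 3, 4, 5, 6, 7, 8, 9, 10, 11, 12]⟩, ⟨13, 13, [13]⟩, ⟨14, 14, [14]⟩])] [(1, [(4, false), (5, false), (14, false), (9, false), (13, false), (10, false), (11, true), (8, false)]), (1, [(4, false), (5, false), (14, false), (9, false), (13, false), (6, false), (7, true), (11, false), (8, false)])] 1 [(7, 4)])))))))))
  (.der [(302, 1, [(0, 2), (2, 1), (10, 2), (14, 1)]), (355, 1, [(0, 1), (8, 1), (10, 1)]), (553, 1, [(0, 1), (8, 1), (10, 1), (14, 1), (18, 1)]), (880, 1, [(0, 1)]), (894, 1, [(0, 1)])]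
  (.br [0, 0, 1, 0, 0, -2, 0, 0, 1]
  (.der [(54, 1, [(0, 1), (1, 2), (7, 1), (11, 3), (15, 2), (19, 1)]), (368, 1, [(0, 1), (7, 1), (13, 1)]), (823, 1, [(0, 1)])]
  (.br [1, 0, -1, 0, -1, 0, 1]
  (.der [(93, 1, [(0, 1)])]
  (.br [0, 1, -1, 0, 0, 0, -1, 1]
  (.der [(500, 1, [(0, 1)]), (550, 1, [(0, 1), (6, 1), (17, 1), (21, 1)]), (607, 1, [(0, 1)])]
  (.leaf [(44, [⟨0, 5, [0, 1, 5]⟩, ⟨2, 2, [2]⟩, ⟨6, 8, [3, 4, 6, 7, 8, 9]⟩, ⟨10, 11, [10, 11, 12]⟩, ⟨13, 13, [13]⟩, ⟨14, 14, [14]⟩])] [(2, []), (2, [(4, false), (5, false), (13, true), (6, false), (11, true), (8, false)]), (31, [(3, false), (5, false), (14, false), (9, true), (13, true), (10, true), (7, false), (11, false), (8, false)]), (9, [(0, false), (6, true), (10, false), (7, false), (11, false), (8, false)])] 1 [(0, 52), (1, 16), (2, 2), (4, 6), (6, 60), (17, 48)]))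
  (.der [(725, 1, [(0, 1)]), (832, 1, [(0, 1)])]
  (.br [-1, 0, 1, 0, 0, 0, 1, 0, -1]
  (.der [(177, 1, [(0, 1), (2, 1)])]
  (.br [-1, 0, 0, 2, -1]
  (.der [(534, 1, [(0, 1)])]
  (.leaf [(1, [⟨0, 1, [0, 1]⟩, ⟨5, 2, [2, 5]⟩, ⟨6, 10, [3, 4, 6, 7, 8, 9, 10]⟩, ⟨11, 11, [11, 12]⟩, ⟨13, 14, [13, 14]⟩]), (1, [⟨0, 1, [0, 1]⟩, ⟨5, 2, [2, 5]⟩, ⟨6, 6, [6]⟩, ⟨3, 8, [3, 4, 7, 8, 9]⟩, ⟨10, 10, [10]⟩, ⟨11, 11, [11, 12]⟩, ⟨13, 14, [13, 14]⟩])] [(2, [(4, false), (5, false), (9, false), (13, true), (10, true), (7, true), (11, false), (8, false)])] 1 [(6, 1), (15, 4), (19, 1)]))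
  (.der [(759, 1, [(0, 1)])]
  (.leaf [(1, [⟨0, 1, [0, 1]⟩, ⟨5, 5, [5]⟩, ⟨2, 2, [2]⟩, ⟨6, 6, [6]⟩, ⟨3, 8, [3, 4, 7, 8, 9]⟩, ⟨10, 10, [10]⟩, ⟨11, 11, [11, 12]⟩, ⟨13, 14, [13, 14]⟩])] [(1, [(4, false), (5, false), (9, true), (13, true), (10, true), (7, true), (11, false), (8, false)])] 1 [(11, 1), (15, 1)]))))
  (.br [0, 0, 0, 0, -1, 0, 2, 0, -1]
  (.der [(177, 1, [(0, 1)])]
  (.leaf [(1, [⟨0, 0, [0]⟩, ⟨1, 5, [1, 5]⟩, ⟨2, 2, [2]⟩, ⟨6, 6, [6]⟩, ⟨3, 8, [3, 4, 7, 8, 9]⟩, ⟨10, 10, [10]⟩, ⟨11, 11, [11, 12]⟩, ⟨13, 13, [13]⟩, ⟨14, 14, [14]⟩])] [(1, [(3, false), (5, true), (14, false), (9, true), (13, true), (10, true), (7, true), (11, false), (8, false)])] 1 [(1, 3), (15, 2), (20, 1)]))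
  (.der [(191, 1, [(0, 1)])]
  (.leaf [(46, [⟨0, 2, [0, 1, 2, 5]⟩, ⟨6, 8, [3, 4, 6, 7, 8, 9]⟩, ⟨10, 10, [10]⟩, ⟨12, 11, [11, 12]⟩, ⟨13, 14, [13, 14]⟩]), (26, [⟨0, 5, [0, 1, 5]⟩, ⟨2, 2, [2]⟩, ⟨6, 8, [3, 4, 6, 7, 8, 9]⟩, ⟨10, 10, [10]⟩, ⟨12, 11, [11, 12]⟩, ⟨13, 14, [13, 14]⟩]), (28, [⟨0, 1, [0, 1]⟩, ⟨5, 5, [5]⟩, ⟨2, 2, [2]⟩, ⟨6, 8, [3, 4, 6, 7, 8, 9]⟩, ⟨10, 10, [10]⟩, ⟨12, 11, [11, 12]⟩, ⟨13, 14, [13, 14]⟩]), (124, [⟨0, 1, [0, 1]⟩, ⟨5, 5, [5]⟩, ⟨2, 2, [2]⟩, ⟨6, 8, [3, 4, 6, 7, 8, 9]⟩, ⟨10, 10, [10]⟩, ⟨12, 11, [11, 12]⟩, ⟨13, 13, [13]⟩, ⟨14, 14, [14]⟩])] [(13, []), (51, [(4, false), (5, false), (13, true), (6, false), (11, true), (8, false)]), (28, [(4, false), (5, false), (14, false), (6, true), (13, false), (7, true), (11, false), (8, false)]), (132, [(4, false), (5, false), (14, false), (9, true), (13, true), (10, true), (7,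 true), (11, false), (8, false)])] 1 [(0, 4), (13, 18), (19, 42)])))))))
  (.der [(51, 1, [(0, 1)])]
  (.br [-1, 1, 0, 0, 0, 1, -1]
  (.der [(455, 2, [(0, 2), (2, 1), (3, 2), (5, 1), (9, 2), (18, 1)]), (547, 1, [(0, 1)])]
  (.leaf [(1, [⟨0, 1, [0, 1]⟩, ⟨5, 11, [2, 3, 4, 5, 6, 7, 8, 9, 10, 11, 12]⟩, ⟨13, 13, [13]⟩, ⟨14, 14, [14]⟩])] [(1, [(0, false), (5, false), (14, false), (9, true), (13, true), (6, false), (7, false), (11, false), (8, false)])] 1 [(6, 1), (9, 1), (11, 2), (13, 1), (17, 1)]))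
  (.der [(772, 1, [(0, 1)])]
  (.br [0, 0, 0, 0, -1, 0, 2, 0, -1]
  (.der [(177, 1, [(0, 1)])]
  (.leaf [(4, [⟨0, 1, [0, 1]⟩, ⟨5, 5, [5]⟩, ⟨2, 2, [2]⟩, ⟨3, 10, [3, 4, 6, 7, 8, 9, 10]⟩, ⟨11, 11, [11, 12]⟩, ⟨13, 14, [13, 14]⟩]), (6, [⟨0, 1, [0, 1]⟩, ⟨5, 5, [5]⟩, ⟨2, 2, [2]⟩, ⟨3, 10, [3, 4, 6, 7, 8, 9, 10]⟩, ⟨11, 11, [11, 12]⟩, ⟨13, 13, [13]⟩, ⟨14, 14, [14]⟩])] [(3, [(4, false), (5, false), (13, true), (6, false), (11, true), (8, false)]), (7, [(4, false), (5, false), (14, false), (9, true), (13, true), (6, false), (7, true), (11, false), (8, false)])] 1 [(2, 12), (4, 4), (5, 6), (7, 6), (12, 16), (18, 8)]))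
  (.leaf [(1, [⟨0, 1, [0, 1]⟩, ⟨5, 2, [2, 5]⟩, ⟨3, 11, [3, 4, 6, 7, 8, 9, 10, 11, 12]⟩, ⟨13, 13, [13]⟩, ⟨14, 14, [14]⟩]), (3, [⟨0, 1, [0, 1]⟩, ⟨5, 5, [5]⟩, ⟨2, 2, [2]⟩, ⟨3, 11, [3, 4, 6, 7, 8, 9, 10, 11, 12]⟩, ⟨13, 13, [13]⟩, ⟨14, 14, [14]⟩])] [(4, [(4, false), (5, false), (14, false), (9, true), (13, true), (6, false), (7, true), (11, false), (8, false)])] 1 [(0, 4), (2, 2), (4, 2), (5, 1), (12, 14), (18, 2)])))))))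
  (.der [(598, 1, [(0, 1)])]
  (.br [0, 1, -1, 0, 0, 0, -1, 1]
  (.der [(500, 1, [(0, 1)]), (537, 1, [(0, 1), (5, 1), (16, 1), (20, 1)]), (550, 1, [(0, 1), (5, 1), (16, 1), (20, 1)]), (607, 1, [(0, 1)])]
  (.br [0, 0, 0, 0, -1, 1, 0, 1, -1]
  (.der [(492, 1, [(0, 1), (1, 1), (6, 1), (17, 1)]), (643, 1, [(0, 1)])]
  (.leaf [(1, [⟨0, 14, [0, 1, 2, 3, 4, 5, 6, 7, 8, 9, 10, 11, 12, 13, 14]⟩])] [(1, [(2, false), (12, false), (13, false), (6, false), (10, false), (7, false), (11, false), (8, false)])] 1 []))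
  (.der [(868, 1, [(0, 1)])]
  (.br [0, 0, 0, 0, 1, 0, -2, 0, 1]
  (.der [(191, 1, [(0, 1)])]
  (.leaf [(4, [⟨0, 5, [0, 1, 5]⟩, ⟨2, 11, [2, 3, 4, 6, 7, 8, 9, 10, 11, 12]⟩, ⟨13, 13, [13]⟩, ⟨14, 14, [14]⟩]), (4, [⟨0, 1, [0, 1]⟩, ⟨5, 5, [5]⟩, ⟨2, 11, [2, 3, 4, 6, 7, 8, 9, 10, 11, 12]⟩, ⟨13, 13, [13]⟩, ⟨14, 14, [14]⟩]), (4, [⟨0, 1, [0, 1]⟩, ⟨5, 5, [5]⟩, ⟨2, 10, [2, 3, 4, 6, 7, 8, 9, 10]⟩, ⟨12, 11, [11, 12]⟩, ⟨13, 13, [13]⟩, ⟨14, 14, [14]⟩])] [(3, [(4, false), (5, false), (13, true), (6, false), (11, true), (8, false)]), (5, [(3, false), (5, false), (14, false), (9, true), (13, false), (10, true), (7, false), (11, false), (8, false)]), (4, [(3, false), (5, false), (12, false), (13, true), (6, false), (10, false), (7, false), (11, false), (8, false)])] 1 [(6, 8), (7, 16), (18, 4)]))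
  (.leaf [(4, [⟨0, 5, [0, 1, 5]⟩, ⟨2, 11, [2, 3, 4, 6, 7, 8, 9, 10, 11, 12]⟩, ⟨13, 13, [13]⟩, ⟨14, 14, [14]⟩])] [(1, [(4, false), (5, false), (13, true), (6, false), (11, true), (8, false)]), (1, [(3, false), (5, false), (14, false), (9, true), (13, false), (10, true), (7, false), (11, false), (8, false)]), (2, [(3, false), (5, false), (12, false), (13, true), (6, false), (10, false), (7, false), (11, false), (8, false)])] 1 [(0, 4), (2, 8), (7, 8), (18, 4)])))))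
  (.der [(832, 1, [(0, 1)])]
  (.br [1, 0, 0, -1, 0, -1, 1]
  (.der [(762, 1, [(0, 1)]), (772, 1, [(0, 1), (8, 1), (9, 1)]), (775, 1, [(0, 1)])]
  (.br [0, 0, 0, 0, -1, 1, 0, 1, -1]
  (.der [(494, 1, [(0, 1)]), (643, 1, [(0, 1)])]
  (.leaf [(4, [⟨0, 1, [0, 1]⟩, ⟨5, 5, [5]⟩, ⟨2, 11, [2, 3, 4, 6, 7, 8, 9, 10, 11, 12]⟩, ⟨13, 13, [13]⟩, ⟨14, 14, [14]⟩]), (10, [⟨0, 0, [0]⟩, ⟨1, 1, [1]⟩, ⟨5, 5, [5]⟩, ⟨2, 11, [2, 3, 4, 6, 7, 8, 9, 10, 11, 12]⟩, ⟨13, 13, [13]⟩, ⟨14, 14, [14]⟩])] [(5, [(2, false), (14, false), (12, false), (13, false), (6, false), (7, true), (11, false), (8, false)]), (3, [(4, false), (5, false), (12, true), (13, false), (6, false), (10, true), (11, true), (8, false)]), (6, [(2, false), (14, false), (12, false), (13, false), (10, true), (11, true), (8, false)])] 1 [(5, 2), (7, 24), (14, 20), (18, 8)]))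
  (.der [(54, 1, [(0, 1), (4, 1), (14, 2), (18, 1), (22, 1)]), (868, 1, [(0, 1)])]
  (.leaf [(2, [⟨0, 1, [0, 1]⟩, ⟨5, 5, [5]⟩, ⟨2, 2, [2]⟩, ⟨6, 6, [6]⟩, ⟨3, 11, [3, 4, 7, 8, 9, 10, 11, 12]⟩, ⟨13, 13, [13]⟩, ⟨14, 14, [14]⟩]), (2, [⟨0, 0, [0]⟩, ⟨1, 1, [1]⟩, ⟨5, 5, [5]⟩, ⟨2, 2, [2]⟩, ⟨6, 6, [6]⟩, ⟨3, 11, [3, 4, 7, 8, 9, 10, 11, 12]⟩, ⟨13, 13, [13]⟩, ⟨14, 14, [14]⟩])] [(2, [(4, false), (5, false), (14, false), (9, true), (13, false), (6, false), (10, true), (7, true), (11, false), (8, false)]), (1, [(4, false), (5, false), (12, true), (13, true), (6, false), (10, true), (11, true), (8, false)]), (1, [(4, false), (5, false), (14, false), (12, false), (13, true), (6, false), (10, true), (7, true), (11, false), (8, false)])] 1 [(7, 6), (14, 12), (18, 2)]))))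
  (.der [(537, 1, [(0, 1)]), (550, 1, [(0, 1)])]
  (.br [0, 0, 0, 0, -1, 0, 2, 0, -1]
  (.der [(177, 1, [(0, 1)])]
  (.br [0, 0, 0, 0, -1, 1, 0, 1, -1]
  (.der [(494, 1, [(0, 1)]), (643, 1, [(0, 1)])]
  (.leaf [(2, [⟨0, 1, [0, 1]⟩, ⟨5, 5, [5]⟩, ⟨2, 11, [2, 3, 4, 6, 7, 8, 9, 10, 11, 12]⟩, ⟨13, 13, [13]⟩, ⟨14, 14, [14]⟩])] [(1, [(4, false), (5, false), (12, false), (13, false), (6, false), (10, false), (11, true), (8, false)]), (1, [(2, false), (14, false), (9, true), (13, false), (6, false), (11, true), (8, false)])] 1 [(8, 2)]))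
  (.der [(719, 1, [(0, 1)]), (868, 1, [(0, 1)])]
  (.br [-1, 0, 0, 2, -1]
  (.der [(534, 1, [(0, 1)])]
  (.leaf [(2, [⟨0, 1, [0, 1]⟩, ⟨5, 10, [2, 3, 4, 5, 6, 7, 8, 9, 10]⟩, ⟨11, 11, [11, 12]⟩, ⟨13, 13, [13]⟩, ⟨14, 14, [14]⟩]), (2, [⟨0, 1, [0, 1]⟩, ⟨5, 5, [5]⟩, ⟨2, 10, [2, 3, 4, 6, 7, 8, 9, 10]⟩, ⟨11, 11, [11, 12]⟩, ⟨13, 13, [13]⟩, ⟨14, 14, [14]⟩]), (2, [⟨0, 0, [0]⟩, ⟨1, 1, [1]⟩, ⟨5, 5, [5]⟩, ⟨2, 10, [2, 3, 4, 6, 7, 8, 9, 10]⟩, ⟨11, 11, [11, 12]⟩, ⟨13, 13, [13]⟩, ⟨14, 14, [14]⟩])] [(1, [(4, false), (5, false), (14, false), (9, true), (13, false), (6, false), (10, false), (7, true), (11, false), (8, false)]), (2, [(4, false), (5, false), (12, false), (13, true), (6, false), (10, false), (11, true), (8, false)]), (1, [(2, false), (14, true), (9, true), (13, false), (6, false), (11, true), (8, false)]), (2, [(4, false), (5, false),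 (9, false), (13, false), (6, false), (11, true), (8, false)])] 1 [(9, 8)]))
  (.der [(759, 1, [(0, 1)])]
  (.br [1, -1, 0, 0, 0, -1, 1]
  (.der [(772, 1, [(0, 1)])]
  (.leaf [(2, [⟨0, 1, [0, 1]⟩, ⟨5, 5, [5]⟩, ⟨2, 10, [2, 3, 4, 6, 7, 8, 9, 10]⟩, ⟨11, 11, [11, 12]⟩, ⟨13, 13, [13]⟩, ⟨14, 14, [14]⟩]), (4, [⟨0, 0, [0]⟩, ⟨1, 1, [1]⟩, ⟨5, 5, [5]⟩, ⟨2, 10, [2, 3, 4, 6, 7, 8, 9, 10]⟩, ⟨11, 11, [11, 12]⟩, ⟨13, 13, [13]⟩, ⟨14, 14, [14]⟩])] [(1, [(4, false), (5, false), (14, false), (9, true), (13, false), (6, false), (10, false), (7, true), (11, false), (8, false)]), (2, [(4, false), (5, false), (12, false), (13, true), (6, false), (10, false), (11, true), (8, false)]), (2, [(4, false), (5, false), (9, true), (13, false), (6, false), (11, true), (8, false)]), (1, [(4, false), (5, false), (12, false), (13, true), (6, false), (7, true),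 (11, false), (8, false)])] 1 [(10, 10)]))
  (.leaf [(4, [⟨0, 1, [0, 1]⟩, ⟨5, 5, [5]⟩, ⟨2, 10, [2, 3, 4, 6, 7, 8, 9, 10]⟩, ⟨11, 11, [11, 12]⟩, ⟨13, 13, [13]⟩, ⟨14, 14, [14]⟩])] [(1, [(4, false), (5, false), (13, true), (6, false), (11, true), (8, false)]), (1, [(4, false), (5, false), (14, false), (9, true), (13, false), (6, false), (10, false), (7, true), (11, false), (8, false)]), (1, [(4, false), (5, false), (12, false), (13, true), (6, false), (10, false), (11, true), (8, false)]), (1, [(2, false), (14, true), (9, true), (13, false), (6, false), (11, true), (8, false)])] 1 [(0, 2), (10, 4)])))))))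
  (.der [(191, 1, [(0, 1)])]
  (.leaf [(2, [⟨0, 5, [0, 1, 5]⟩, ⟨2, 11, [2, 3, 4, 6, 7, 8, 9, 10, 11, 12]⟩, ⟨13, 13, [13]⟩, ⟨14, 14, [14]⟩]), (2, [⟨0, 1, [0, 1]⟩, ⟨5, 5, [5]⟩, ⟨2, 11, [2, 3, 4, 6, 7, 8, 9, 10, 11, 12]⟩, ⟨13, 13, [13]⟩, ⟨14, 14, [14]⟩]), (2, [⟨0, 0, [0]⟩, ⟨1, 1, [1]⟩, ⟨5, 5, [5]⟩, ⟨2, 11, [2, 3, 4, 6, 7, 8, 9, 10, 11, 12]⟩, ⟨13, 13, [13]⟩, ⟨14, 14, [14]⟩]), (6, [⟨0, 0, [0]⟩, ⟨1, 1, [1]⟩, ⟨5, 5, [5]⟩, ⟨2, 10, [2, 3, 4, 6, 7, 8, 9, 10]⟩, ⟨12, 11, [11, 12]⟩, ⟨13, 13, [13]⟩, ⟨14, 14, [14]⟩])] [(5, [(4, false), (5, false), (13, true), (6, false), (11, true), (8, false)]), (7, [(4, false), (5, false), (14, false), (9, true), (13, false), (6, false), (10, false), (7, true), (11, false), (8, false)])] 1 [(0, 2), (6, 2), (7, 14), (18, 2)]))))))))))))))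
  (.der [(54, 1, [(0, 1), (2, 1), (8, 1), (9, 1), (10, 1)]), (77, 1, [(0, 1), (4, 1), (6, 1), (13, 1), (14, 1)]), (294, 1, [(0, 1), (6, 2)]), (339, 1, [(0, 1), (6, 2), (13, 1), (15, 1)]), (598, 1, [(0, 1), (6, 2), (13, 1)]), (864, 1, [(0, 1), (13, 1), (15, 1)]), (876, 1, [(0, 1)])]
  (.br [0, 0, 0, 0, 0, -1, 1, 0, 1, -1]
  (.der [(606, 1, [(0, 1), (7, 1), (9, 1), (14, 1)]), (898, 1, [(0, 1)])]
  (.br [0, 1, -1, 0, 0, 0, -1, 1]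
  (.der [(500, 1, [(0, 1)]), (537, 1, [(0, 1), (3, 1), (14, 1), (18, 1)]), (550, 1, [(0, 1), (3, 1), (14, 1), (18, 1)]), (607, 1, [(0, 1)])]
  (.br [0, -1, 1, 0, 1, -1]
  (.der [(191, 1, [(0, 1), (1, 2), (4, 1), (15, 1)]), (816, 1, [(0, 1)])]
  (.br [0, 0, 0, 1, -2, 0, 0, 0, 0, 1]
  (.der [(654, 1, [(0, 1)])]
  (.br [0, 0, 0, 1, -1, 0, -1, 0, 0, 1]
  (.der [(655, 1, [(0, 1)]), (669, 1, [(0, 1)])]
  (.leaf [(1, [⟨0, 14, [0, 1, 2, 3, 4, 5, 6, 7, 8, 9, 10, 11, 12, 13, 14]⟩])] [(1, [(3, false), (5, false), (14, false), (9, false), (13, false), (10, false), (7, false), (11, false), (8, false)])] 1 []))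
  (.der [(355, 1, [(0, 1), (3, 1), (8, 1), (11, 1)]), (880, 1, [(0, 1)]), (894, 1, [(0, 1)])]
  (.br [0, 0, 0, 1, 0, -2, 0, 0, 0, 1]
  (.der [(368, 1, [(0, 1)])]
  (.br [0, 0, 1, -1, 0, -1, 1]
  (.der [(820, 1, [(0, 1)])]
  (.leaf [(2, [⟨0, 1, [0, 1]⟩, ⟨5, 5, [5]⟩, ⟨2, 8, [2, 3, 4, 6, 7, 8, 9]⟩, ⟨10, 10, [10]⟩, ⟨12, 11, [11, 12]⟩, ⟨13, 13, [13]⟩, ⟨14, 14, [14]⟩])] [(1, [(3, false), (5, false), (14, false), (9, true), (13, false), (10, true), (7, false), (11, false), (8, false)]), (1, [(3, false), (5, false), (14, false), (13, true), (9, false), (10, true), (7, false), (11, false), (8, false)])] 1 [(8, 2), (19, 2), (21, 2)]))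
  (.der [(470, 1, [(0, 1), (6, 1), (20, 1)]), (595, 1, [(0, 1)])]
  (.leaf [(1, [⟨0, 11, [0, 1, 2, 3, 4, 5, 6, 7, 8, 9, 10, 11, 12]⟩, ⟨13, 14, [13, 14]⟩]), (1, [⟨0, 10, [0, 1, 2, 3, 4, 5, 6, 7, 8, 9, 10]⟩, ⟨12, 11, [11, 12]⟩, ⟨13, 13, [13]⟩, ⟨14, 14, [14]⟩])] [(2, [(1, false), (5, false), (14, false), (13, true), (9, false), (10, false), (7, false), (11, false), (8, false)])] 1 [(19, 1)]))))
  (.der [(354, 1, [(0, 1)])]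
  (.leaf [(2, [⟨0, 1, [0, 1]⟩, ⟨5, 5, [5]⟩, ⟨2, 9, [2, 3, 4, 6, 7, 8, 9]⟩, ⟨10, 11, [10, 11, 12]⟩, ⟨13, 13, [13]⟩, ⟨14, 14, [14]⟩])] [(1, [(3, false), (5, false), (14, false), (13, true), (9, false), (6, true), (10, false), (7, false), (11, false), (8, false)]), (1, [(3, false), (5, false), (13, true), (10, true), (11, true), (8, false)])] 1 []))))))
  (.der [(879, 1, [(0, 1)])]
  (.leaf [(1, [⟨0, 5, [0, 1, 5]⟩, ⟨2, 8, [2, 3, 4, 6, 7, 8]⟩, ⟨9, 9, [9]⟩, ⟨10, 11, [10, 11, 12]⟩, ⟨13, 13, [13]⟩, ⟨14, 14, [14]⟩]), (1, [⟨0, 0, [0]⟩, ⟨1, 1, [1]⟩, ⟨5, 5, [5]⟩, ⟨2, 8, [2, 3, 4, 6, 7, 8]⟩, ⟨9, 9, [9]⟩, ⟨10, 11, [10, 11, 12]⟩, ⟨13, 13, [13]⟩, ⟨14, 14, [14]⟩])] [(2, [(3, false), (5, false), (14, false), (13, true), (9, true), (6, true), (10, false), (7, false), (11, false), (8, false)])] 1 [(10, 4), (16, 1), (17, 1), (18, 3)]))))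
  (.der [(485, 1, [(0, 1)]), (591, 1, [(0, 1)])]
  (.br [0, 0, 0, 1, -2, 0, 0, 0, 0, 1]
  (.der [(654, 1, [(0, 1)])]
  (.leaf [(4, [⟨0, 5, [0, 1, 5]⟩, ⟨2, 11, [2, 3, 4, 6, 7, 8, 9, 10, 11, 12]⟩, ⟨13, 13, [13]⟩, ⟨14, 14, [14]⟩])] [(1, [(4, false), (5, false), (13, true), (6, true), (11, true), (8, false)]), (1, [(2, false), (5, false), (12, false), (9, true), (6, false), (10, false), (11, true), (8, false)]), (2, [(2, false), (5, false), (14, false), (13, true), (9, false), (6, false), (10, false), (7, false), (11, false), (8, false)])] 1 [(1, 4), (5, 2)]))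
  (.der [(879, 1, [(0, 1)])]
  (.leaf [(4, [⟨0, 5, [0, 1, 5]⟩, ⟨2, 8, [2, 3, 4, 6, 7, 8]⟩, ⟨9, 11, [9, 10, 11, 12]⟩, ⟨13, 13, [13]⟩, ⟨14, 14, [14]⟩])] [(1, [(4, false), (5, false), (13, true), (6, true), (11, true), (8, false)]), (1, [(2, false), (5, false), (12, false), (9, true), (6, false), (10, false), (11, true), (8, false)]), (2, [(2, false), (5, false), (14, false), (13, true), (9, true), (6, false), (10, false), (7, false), (11, false), (8, false)])] 1 [(1, 4), (5, 2)]))))))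
  (.der [(725, 1, [(0, 1)]), (832, 1, [(0, 1)])]
  (.br [0, 0, 0, -1, 0, 1, 0, 1, 0, -1]
  (.der [(355, 1, [(0, 1)])]
  (.br [0, 0, 0, 0, 1, 0, -2, 0, 1]
  (.der [(191, 1, [(0, 1)])]
  (.br [0, 0, -1, 1, 0, 1, -1]
  (.der [(470, 1, [(0, 1), (4, 1), (18, 1)]), (595, 1, [(0, 1)])]
  (.br [0, 0, 0, 1, -2, 0, 0, 0, 0, 1]
  (.der [(654, 1, [(0, 1)])]
  (.leaf [(1, [⟨0, 0, [0]⟩, ⟨1, 10, [1, 2, 3, 4, 5, 6, 7, 8, 9, 10]⟩, ⟨12, 11, [11, 12]⟩, ⟨13, 13, [13]⟩, ⟨14, 14, [14]⟩])] [(1, [(1, false), (5, false), (14, false), (13, true), (9, false), (10, false), (7, true), (11, false), (8, false)])] 1 [(1, 1), (20, 1)]))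
  (.der [(879, 1, [(0, 1)])]
  (.leaf [(2, [⟨0, 0, [0]⟩, ⟨1, 5, [1, 5]⟩, ⟨2, 8, [2, 3, 4, 6, 7, 8]⟩, ⟨9, 9, [9]⟩, ⟨10, 11, [10, 11, 12]⟩, ⟨13, 13, [13]⟩, ⟨14, 14, [14]⟩])] [(1, [(4, false), (5, false), (13, true), (6, true), (11, true), (8, false)]), (1, [(1, false), (5, false), (14, false), (13, true), (9, true), (10, false), (7, true), (11, false), (8, false)])] 1 []))))
  (.der [(820, 1, [(0, 1)])]
  (.br [0, 0, 0, 1, -2, 0, 0, 0, 0, 1]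
  (.der [(654, 1, [(0, 1)])]
  (.br [0, 0, 0, -1, 1, 0, 1, 0, 0, -1]
  (.der [(880, 1, [(0, 1)]), (894, 1, [(0, 1)])]
  (.br [0, 0, 0, 1, 0, -2, 0, 0, 0, 1]
  (.der [(368, 1, [(0, 1)])]
  (.br [-1, 1, 0, 0, 0, 1, -1]
  (.der [(455, 1, [(0, 1), (8, 1), (22, 1)]), (547, 1, [(0, 1)])]
  (.leaf [(6, [⟨0, 1, [0, 1]⟩, ⟨5, 8, [2, 3, 4, 5, 6, 7, 8, 9]⟩, ⟨10, 10, [10]⟩, ⟨12, 11, [11, 12]⟩, ⟨13, 13, [13]⟩, ⟨14, 14, [14]⟩]), (4, [⟨0, 1, [0, 1]⟩, ⟨5, 5, [5]⟩, ⟨2, 8, [2, 3, 4, 6, 7, 8, 9]⟩, ⟨10, 10, [10]⟩, ⟨12, 11, [11, 12]⟩, ⟨13, 13, [13]⟩, ⟨14, 14, [14]⟩])] [(1, [(3, false), (5, true), (14, false), (13, true), (9, false), (10, true), (7, true), (11, false), (8, false)]), (2, [(4, false), (5, false), (13, true), (9, false), (10, true), (11, true), (8, false)]), (7, [(0, false), (5, false), (14, false), (13, true), (10, true), (6, false),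 (7, false), (11, false), (8, false)])] 1 [(10, 6), (21, 6)]))
  (.br [-1, 0, 0, 1, 0, 1, -1]
  (.leaf [(2, [⟨0, 1, [0, 1]⟩, ⟨5, 5, [5]⟩, ⟨2, 8, [2, 3, 4, 6, 7, 8, 9]⟩, ⟨10, 10, [10]⟩, ⟨12, 11, [11, 12]⟩, ⟨13, 13, [13]⟩, ⟨14, 14, [14]⟩])] [(1, [(4, false), (5, false), (14, false), (13, true), (10, true), (11, true), (8, false)]), (1, [(4, false), (5, false), (13, true), (10, true), (7, true), (11, false), (8, false)])] 1 [])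
  (.leaf [(1, [⟨0, 0, [0]⟩, ⟨1, 1, [1]⟩, ⟨5, 5, [5]⟩, ⟨2, 8, [2, 3, 4, 6, 7, 8, 9]⟩, ⟨10, 10, [10]⟩, ⟨12, 11, [11, 12]⟩, ⟨13, 13, [13]⟩, ⟨14, 14, [14]⟩])] [(1, [(4, false), (5, false), (14, false), (9, true), (13, false), (10, true), (7, true), (11, false), (8, false)])] 1 [(0, 2), (4, 2), (6, 2), (11, 1)]))))
  (.der [(354, 1, [(0, 1)])]
  (.leaf [(2, [⟨0, 0, [0]⟩, ⟨1, 1, [1]⟩, ⟨5, 5, [5]⟩, ⟨2, 9, [2, 3, 4, 6, 7, 8, 9]⟩, ⟨10, 10, [10]⟩, ⟨12, 11, [11, 12]⟩, ⟨13, 13, [13]⟩, ⟨14, 14, [14]⟩])] [(1, [(4, false), (5, false), (13, true), (6, true), (11, true), (8, false)]), (1, [(3, false), (5, true), (14, false), (13, true), (9, false), (10, true), (7, true), (11, false), (8, false)])] 1 []))))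
  (.der [(655, 1, [(0, 1)]), (669, 1, [(0, 1)])]
  (.leaf [(1, [⟨0, 0, [0]⟩, ⟨1, 1, [1]⟩, ⟨5, 10, [2, 3, 4, 5, 6, 7, 8, 9, 10]⟩, ⟨12, 13, [11, 12, 13]⟩, ⟨14, 14, [14]⟩])] [(1, [(4, false), (5, false), (14, false), (9, false), (13, false), (10, false), (7, true), (11, false), (8, false)])] 1 [(8, 1), (21, 1)]))))
  (.der [(879, 1, [(0, 1)])]
  (.leaf [(2, [⟨0, 0, [0]⟩, ⟨1, 1, [1]⟩, ⟨5, 5, [5]⟩, ⟨2, 8, [2, 3, 4, 6, 7, 8]⟩, ⟨9, 9, [9]⟩, ⟨10, 10, [10]⟩, ⟨12, 11, [11, 12]⟩, ⟨13, 13, [13]⟩, ⟨14, 14, [14]⟩])] [(1, [(4, false), (5, false), (13, true), (6, true), (11, true), (8, false)]), (1, [(3, false), (5, true), (14, false), (13, true), (9, true), (10, true), (7, true), (11, false), (8, false)])] 1 []))))))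
  (.der [(177, 1, [(0, 1)])]
  (.br [0, 0, 0, 1, -2, 0, 0, 0, 0, 1]
  (.der [(654, 1, [(0, 1)])]
  (.br [-1, 0, 0, 1, 0, 1, -1]
  (.der [(537, 1, [(0, 1)]), (550, 1, [(0, 1)])]
  (.br [0, 1, -1, 0, -1, 1]
  (.der [(485, 1, [(0, 1)]), (591, 1, [(0, 1)])]
  (.leaf [(4, [⟨0, 1, [0, 1]⟩, ⟨5, 5, [5]⟩, ⟨2, 10, [2, 3, 4, 6, 7, 8, 9, 10]⟩, ⟨11, 11, [11, 12]⟩, ⟨13, 13, [13]⟩, ⟨14, 14, [14]⟩]), (4, [⟨0, 0, [0]⟩, ⟨1, 1, [1]⟩, ⟨5, 5, [5]⟩, ⟨2, 10, [2, 3, 4, 6, 7, 8, 9, 10]⟩, ⟨11, 11, [11, 12]⟩, ⟨13, 13, [13]⟩, ⟨14, 14, [14]⟩])] [(1, [(4, false), (5, false), (13, true), (6, true), (11, true), (8, false)]), (2, [(2, false), (5, false), (14, false), (13, true), (9, false), (6, false), (10, false), (7, true), (11, false), (8, false)]), (3, [(2, false), (5, false), (12, false), (9, true), (6, false), (10, false), (11, true), (8, false)]), (2,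 [(2, false), (5, false), (13, true), (9, false), (6, false), (11, true), (8, false)])] 1 [(8, 10)]))
  (.der [(816, 1, [(0, 1)])]
  (.br [0, 0, 0, -1, 1, 0, 1, 0, 0, -1]
  (.br [0, 0, 0, 1, 0, -2, 0, 0, 0, 1]
  (.der [(368, 1, [(0, 1)])]
  (.leaf [(1, [⟨0, 0, [0]⟩, ⟨1, 1, [1]⟩, ⟨5, 5, [5]⟩, ⟨2, 8, [2, 3, 4, 6, 7, 8, 9]⟩, ⟨10, 10, [10]⟩, ⟨11, 11, [11, 12]⟩, ⟨13, 13, [13]⟩, ⟨14, 14, [14]⟩])] [(1, [(4, false), (5, false), (13, true), (6, true), (10, false), (11, true), (8, false)])] 1 [(5, 1), (10, 1)]))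
  (.der [(354, 1, [(0, 1)])]
  (.leaf [(1, [⟨0, 0, [0]⟩, ⟨1, 5, [1, 5]⟩, ⟨2, 9, [2, 3, 4, 6, 7, 8, 9]⟩, ⟨10, 10, [10]⟩, ⟨11, 11, [11, 12]⟩, ⟨13, 13, [13]⟩, ⟨14, 14, [14]⟩]), (9, [⟨0, 0, [0]⟩, ⟨1, 1, [1]⟩, ⟨5, 5, [5]⟩, ⟨2, 9, [2, 3, 4, 6, 7, 8, 9]⟩, ⟨10, 10, [10]⟩, ⟨11, 11, [11, 12]⟩, ⟨13, 13, [13]⟩, ⟨14, 14, [14]⟩])] [(4, [(4, false), (5, false), (13, true), (6, true), (11, true), (8, false)]), (2, [(1, false), (14, true), (13, true), (9, false), (6, true), (10, false), (11, true), (8, false)]), (4, [(4, false), (5, false), (14, false), (13, true), (9, false), (6, true), (10, false), (7, true), (11, false), (8, false)])] 1 [(0, 1), (9, 1), (21, 2), (23, 4)])))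
  (.der [(655, 1, [(0, 1)]), (669, 1, [(0, 1)])]
  (.leaf [(2, [⟨0, 0, [0]⟩, ⟨1, 5, [1, 5]⟩, ⟨2, 10, [2, 3, 4, 6, 7, 8, 9, 10]⟩, ⟨11, 11, [11, 12]⟩, ⟨13, 14, [13, 14]⟩])] [(1, [(4, false), (5, false), (13, true), (6, true), (11, true), (8, false)]), (1, [(4, false), (5, false), (14, false), (9, false), (13, false), (10, false), (7, true), (11, false), (8, false)])] 1 []))))))
  (.der [(762, 1, [(0, 1)]), (775, 1, [(0, 1)])]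
  (.br [0, 1, -1, 0, -1, 1]
  (.der [(485, 1, [(0, 1)]), (591, 1, [(0, 1)])]
  (.leaf [(4, [⟨0, 0, [0]⟩, ⟨1, 1, [1]⟩, ⟨5, 5, [5]⟩, ⟨2, 6, [2, 6]⟩, ⟨3, 10, [3, 4, 7, 8, 9, 10]⟩, ⟨11, 11, [11, 12]⟩, ⟨13, 13, [13]⟩, ⟨14, 14, [14]⟩])] [(1, [(4, false), (5, false), (13, true), (6, true), (11, true), (8, false)]), (2, [(2, false), (5, false), (14, false), (13, true), (9, false), (6, false), (10, true), (7, true), (11, false), (8, false)]), (1, [(2, false), (5, false), (12, true), (9, true), (6, false), (10, true), (11, true), (8, false)])] 1 [(8, 6), (15, 8), (19, 4)]))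
  (.der [(816, 1, [(0, 1)])]
  (.leaf [(2, [⟨0, 1, [0, 1]⟩, ⟨5, 5, [5]⟩, ⟨2, 2, [2]⟩, ⟨6, 6, [6]⟩, ⟨3, 10, [3, 4, 7, 8, 9, 10]⟩, ⟨11, 11, [11, 12]⟩, ⟨13, 13, [13]⟩, ⟨14, 14, [14]⟩]), (2, [⟨0, 0, [0]⟩, ⟨1, 1, [1]⟩, ⟨5, 5, [5]⟩, ⟨2, 2, [2]⟩, ⟨6, 6, [6]⟩, ⟨3, 10, [3, 4, 7, 8, 9, 10]⟩, ⟨11, 11, [11, 12]⟩, ⟨13, 13, [13]⟩, ⟨14, 14, [14]⟩])] [(1, [(4, false), (5, false), (13, true), (9, false), (6, true), (10, true), (11, true), (8, false)]), (2, [(4, false), (5, false), (14, false), (13, true), (6, true), (10, true), (11, true), (8, false)]), (1, [(4, false), (5, false), (14, false), (13, true), (9, false), (6, true), (10, true), (7, true), (11, false), (8, false)])] 1 [(8, 2), (15, 8), (19, 4)]))))))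
  (.der [(879, 1, [(0, 1)])]
  (.br [0, 1, -1, 0, -1, 1]
  (.der [(485, 1, [(0, 1)]), (591, 1, [(0, 1)])]
  (.br [-1, 0, 0, 1, 0, 1, -1]
  (.der [(537, 1, [(0, 1)]), (550, 1, [(0, 1)])]
  (.br [0, 0, 0, 0, -1, 1, 0, 1, -1]
  (.der [(643, 1, [(0, 1)])]
  (.leaf [(2, [⟨0, 0, [0]⟩, ⟨1, 5, [1, 5]⟩, ⟨2, 8, [2, 3, 4, 6, 7, 8]⟩, ⟨9, 10, [9, 10]⟩, ⟨11, 11, [11, 12]⟩, ⟨13, 14, [13, 14]⟩])] [(1, [(4, false), (5, false), (13, true), (6, true), (11, true), (8, false)]), (1, [(2, false), (5, false), (12, false), (13, false), (9, true), (6, false), (10, false), (7, true), (11, false), (8, false)])] 1 []))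
  (.der [(868, 1, [(0, 1)])]
  (.leaf [(2, [⟨0, 0, [0]⟩, ⟨1, 5, [1, 5]⟩, ⟨2, 8, [2, 3, 4, 6, 7, 8]⟩, ⟨9, 9, [9]⟩, ⟨10, 10, [10]⟩, ⟨11, 13, [11, 12, 13]⟩, ⟨14, 14, [14]⟩])] [(1, [(4, false), (5, false), (13, true), (6, true), (11, true), (8, false)]), (1, [(2, false), (5, false), (12, false), (13, true), (9, true), (6, false), (10, false), (7, true), (11, false), (8, false)])] 1 []))))
  (.der [(762, 1, [(0, 1)]), (775, 1, [(0, 1)])]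
  (.br [0, 0, 0, 0, -1, 1, 0, 1, -1]
  (.der [(643, 1, [(0, 1)])]
  (.leaf [(3, [⟨0, 1, [0, 1]⟩, ⟨5, 5, [5]⟩, ⟨2, 6, [2, 6]⟩, ⟨3, 8, [3, 4, 7, 8]⟩, ⟨9, 9, [9]⟩, ⟨10, 11, [10, 11, 12]⟩, ⟨13, 14, [13, 14]⟩])] [(1, [(4, false), (5, false), (13, true), (6, true), (11, true), (8, false)]), (2, [(2, false), (5, false), (12, true), (13, false), (9, true), (6, false), (10, true), (7, true), (11, false), (8, false)])] 1 [(10, 3), (16, 3), (23, 2), (24, 3)]))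
  (.der [(717, 1, [(0, 1), (1, 1), (24, 1)]), (868, 1, [(0, 1)])]
  (.leaf [(2, [⟨0, 0, [0]⟩, ⟨1, 5, [1, 5]⟩, ⟨2, 6, [2, 6]⟩, ⟨3, 8, [3, 4, 7, 8]⟩, ⟨9, 9, [9]⟩, ⟨10, 10, [10]⟩, ⟨11, 11, [11, 12]⟩, ⟨13, 13, [13]⟩, ⟨14, 14, [14]⟩])] [(1, [(4, false), (5, false), (13, true), (6, true), (11, true), (8, false)]), (1, [(2, false), (12, true), (13, true), (9, true), (6, false), (10, true), (7, true), (11, false), (8, false)])] 1 [(2, 2), (9, 2)]))))))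
  (.der [(710, 1, [(0, 1)]), (816, 1, [(0, 1)])]
  (.br [-1, 0, 0, 1, 0, 1, -1]
  (.der [(550, 1, [(0, 1)])]
  (.br [1, 0, -1, 0, -1, 0, 1]
  (.der [(93, 1, [(0, 1)])]
  (.leaf [(2, [⟨0, 0, [0]⟩, ⟨1, 5, [1, 5]⟩, ⟨2, 2, [2]⟩, ⟨6, 8, [3, 4, 6, 7, 8]⟩, ⟨9, 9, [9]⟩, ⟨10, 10, [10]⟩, ⟨11, 11, [11, 12]⟩, ⟨13, 14, [13, 14]⟩])] [(1, [(4, false), (5, false), (13, true), (6, true), (11, true), (8, false)]), (1, [(2, false), (5, true), (14, false), (13, true), (9, true), (6, true), (10, false), (7, true), (11, false), (8, false)])] 1 [(21, 2)]))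
  (.der [(51, 1, [(0, 1)]), (820, 1, [(0, 1), (4, 1), (22, 1)])]
  (.leaf [(6, [⟨0, 1, [0, 1]⟩, ⟨5, 5, [5]⟩, ⟨2, 2, [2]⟩, ⟨3, 8, [3, 4, 6, 7, 8]⟩, ⟨9, 9, [9]⟩, ⟨10, 10, [10]⟩, ⟨11, 11, [11, 12]⟩, ⟨13, 14, [13, 14]⟩]), (2, [⟨0, 0, [0]⟩, ⟨1, 1, [1]⟩, ⟨5, 5, [5]⟩, ⟨2, 2, [2]⟩, ⟨3, 8, [3, 4, 6, 7, 8]⟩, ⟨9, 9, [9]⟩, ⟨10, 10, [10]⟩, ⟨11, 11, [11, 12]⟩, ⟨13, 13, [13]⟩, ⟨14, 14, [14]⟩])] [(4, [(4, false), (5, false), (13, true), (6, true), (11, true), (8, false)]), (3, [(2, false), (5, true), (14, false), (13, true), (9, true), (6, true), (10, false), (7, true), (11, false), (8, false)]), (1, [(1, false), (14, true), (13, true), (9, true), (10, true), (11, true), (8, false)])] 1 [(4, 4), (21, 6), (22, 2)]))))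
  (.der [(93, 1, [(0, 1), (11, 1), (13, 1)]), (775, 1, [(0, 1)]), (820, 2, [(0, 2), (1, 1), (3, 1), (8, 1), (9, 2), (15, 2), (19, 1)])]
  (.leaf [(2, [⟨0, 0, [0]⟩, ⟨1, 5, [1, 5]⟩, ⟨2, 2, [2]⟩, ⟨6, 8, [3, 4, 6, 7, 8]⟩, ⟨9, 9, [9]⟩, ⟨10, 11, [10, 11, 12]⟩, ⟨13, 14, [13, 14]⟩]), (2, [⟨0, 0, [0]⟩, ⟨1, 5, [1, 5]⟩, ⟨2, 2, [2]⟩, ⟨6, 6, [6]⟩, ⟨3, 8, [3, 4, 7, 8]⟩, ⟨9, 9, [9]⟩, ⟨10, 11, [10, 11, 12]⟩, ⟨13, 13, [13]⟩, ⟨14, 14, [14]⟩]), (2, [⟨0, 0, [0]⟩, ⟨1, 5, [1, 5]⟩, ⟨2, 2, [2]⟩, ⟨6, 6, [6]⟩, ⟨3, 8, [3, 4, 7, 8]⟩, ⟨9, 9, [9]⟩, ⟨10, 10, [10]⟩, ⟨11, 11, [11, 12]⟩, ⟨13, 13, [13]⟩, ⟨14, 14, [14]⟩]), (6, [⟨0, 0, [0]⟩, ⟨1, 1, [1]⟩, ⟨5, 5, [5]⟩, ⟨2, 2, [2]⟩, ⟨6, 6, [6]⟩, ⟨3, 8, [3, 4, 7, 8]⟩, ⟨9, 9, [9]⟩, ⟨10, 10, [10]⟩, ⟨11, 11, [11, 12]⟩, ⟨13, 13, [13]⟩, ⟨14, 14, [14]⟩])] [(6, [(4, false), (5, false), (13, true), (6, true), (11, true),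 (8, false)]), (5, [(2, false), (5, true), (14, false), (13, true), (9, true), (6, true), (10, true), (7, true), (11, false), (8, false)]), (1, [(1, false), (14, true), (13, true), (9, true), (10, true), (11, true), (8, false)])] 1 [(19, 2)]))))))))))
  (.der [(368, 1, [(0, 1), (10, 1), (11, 1)]), (383, 1, [(0, 1)]), (655, 1, [(0, 1), (9, 1), (11, 1)]), (669, 1, [(0, 1), (9, 1), (11, 1)])]
  (.br [-1, 1, 0, 0, 0, 1, -1]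
  (.der [(191, 1, [(0, 1), (1, 1), (4, 1), (10, 1), (12, 1), (18, 1)]), (455, 1, [(0, 1), (3, 1), (17, 1)]), (547, 1, [(0, 1)])]
  (.leaf [(2, [⟨0, 0, [0]⟩, ⟨1, 8, [1, 2, 3, 4, 5, 6, 7, 8, 9, 10]⟩, ⟨12, 13, [11, 12, 13]⟩, ⟨14, 14, [14]⟩]), (2, [⟨0, 0, [0]⟩, ⟨1, 8, [1, 2, 3, 4, 5, 6, 7, 8, 9, 10]⟩, ⟨12, 11, [11, 12]⟩, ⟨13, 13, [13]⟩, ⟨14, 14, [14]⟩])] [(1, [(3, false), (5, true), (14, false), (13, true), (10, false), (7, true), (11, false), (8, false)]), (2, [(0, false), (5, false), (14, false), (13, true), (6, true), (7, false), (11, false), (8, false)]), (1, [(0, false), (5, false), (13, true), (10, false), (6, false), (11, true), (8, false)])] 1 [(10, 8)]))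
  (.der [(772, 1, [(0, 1)])]
  (.leaf [(2, [⟨0, 0, [0]⟩, ⟨1, 1, [1]⟩, ⟨5, 11, [2, 3, 4, 5, 6, 7, 8, 9, 10, 11, 12]⟩, ⟨13, 13, [13]⟩, ⟨14, 14, [14]⟩])] [(1, [(4, false), (5, false), (14, false), (9, false), (13, false), (10, false), (11, true), (8, false)]), (1, [(4, false), (5, false), (14, false), (9, false), (13, false), (10, false), (6, false), (7, true), (11, false), (8, false)])] 1 [(5, 4)]))))))))
  (.der [(550, 1, [(0, 1), (2, 1), (3, 1), (5, 1)]), (673, 1, [(0, 1)])]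
  (.br [0, 0, 0, 1, -2, 0, 0, 0, 0, 1]
  (.der [(654, 1, [(0, 1)])]
  (.br [0, 0, 0, 1, 0, -2, 0, 0, 0, 1]
  (.der [(368, 1, [(0, 1)])]
  (.br [0, 0, 0, 1, -1, 0, -1, 0, 0, 1]
  (.der [(655, 1, [(0, 1)])]
  (.br [0, 1, -1, 0, 0, 0, -1, 1]
  (.der [(500, 1, [(0, 1)]), (607, 1, [(0, 1)])]
  (.leaf [(1, [⟨0, 14, [0, 1, 2, 3, 4, 5, 6, 7, 8, 9, 10, 11, 12, 13, 14]⟩])] [(1, [(3, false), (5, false), (14, false), (13, false), (10, false), (7, false), (11, false), (8, false)])] 1 []))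
  (.der [(832, 1, [(0, 1)])]
  (.br [0, 1, -1, 0, -1, 0, 0, 1]
  (.der [(606, 1, [(0, 1)])]
  (.leaf [(2, [⟨0, 0, [0]⟩, ⟨1, 1, [1]⟩, ⟨5, 11, [2, 3, 4, 5, 6, 7, 8, 9, 10, 11, 12]⟩, ⟨13, 13, [13]⟩, ⟨14, 14, [14]⟩])] [(1, [(4, false), (5, false), (14, false), (13, false), (10, false), (6, false), (11, true), (8, false)]), (1, [(4, false), (5, false), (14, false), (13, false), (10, false), (7, true), (11, false), (8, false)])] 1 [(7, 4)]))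
  (.der [(831, 1, [(0, 1)])]
  (.leaf [(1, [⟨0, 0, [0]⟩, ⟨1, 1, [1]⟩, ⟨5, 13, [2, 3, 4, 5, 6, 7, 8, 9, 10, 11, 12, 13]⟩, ⟨14, 14, [14]⟩])] [(1, [(4, false), (5, false), (14, false), (13, false), (10, false), (6, true), (11, true), (8, false)])] 1 [(7, 1), (12, 2), (22, 1)]))))))
  (.der [(880, 1, [(0, 1)])]
  (.br [0, 1, -1, 0, 0, 0, -1, 1]
  (.der [(500, 1, [(0, 1)]), (607, 1, [(0, 1)])]
  (.leaf [(1, [⟨0, 5, [0, 1, 5]⟩, ⟨2, 8, [2, 3, 4, 6, 7, 8, 9]⟩, ⟨10, 11, [10, 11, 12]⟩, ⟨13, 14, [13, 14]⟩])] [(1, [(3, false), (5, false), (14, false), (13, false), (10, true), (7, false), (11, false), (8, false)])] 1 [(19, 1)]))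
  (.der [(725, 1, [(0, 1)]), (832, 1, [(0, 1)])]
  (.br [0, 0, 0, 0, 1, 0, -2, 0, 1]
  (.der [(191, 1, [(0, 1)])]
  (.br [0, 1, -1, 0, -1, 0, 0, 1]
  (.der [(606, 1, [(0, 1)])]
  (.leaf [(4, [⟨0, 1, [0, 1]⟩, ⟨5, 5, [5]⟩, ⟨2, 8, [2, 3, 4, 6, 7, 8, 9]⟩, ⟨10, 10, [10]⟩, ⟨12, 13, [11, 12, 13]⟩, ⟨14, 14, [14]⟩])] [(1, [(3, false), (5, true), (14, false), (13, false), (10, true), (7, true), (11, false), (8, false)]), (2, [(4, false), (5, false), (14, false), (13, false), (10, true), (11, true), (8, false)]), (1, [(4, false), (5, false), (13, true), (10, true), (6, false), (11, true), (8, false)])] 1 []))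
  (.leaf [(2, [⟨0, 0, [0]⟩, ⟨1, 1, [1]⟩, ⟨5, 5, [5]⟩, ⟨2, 8, [2, 3, 4, 6, 7, 8, 9]⟩, ⟨10, 12, [10, 12]⟩, ⟨11, 13, [11, 13]⟩, ⟨14, 14, [14]⟩])] [(1, [(4, false), (5, false), (13, true), (6, true), (11, true), (8, false)]), (1, [(4, false), (5, false), (14, false), (13, false), (10, true), (11, true), (8, false)])] 1 [(0, 4), (13, 4)])))
  (.leaf [(2, [⟨0, 0, [0]⟩, ⟨1, 1, [1]⟩, ⟨5, 5, [5]⟩, ⟨2, 8, [2, 3, 4, 6, 7, 8, 9]⟩, ⟨10, 11, [10, 11, 12]⟩, ⟨13, 13, [13]⟩, ⟨14, 14, [14]⟩])] [(1, [(4, false), (5, false), (13, true), (6, true), (11, true), (8, false)]), (1, [(4, false), (5, false), (14, false), (13, false), (10, true), (11, true), (8, false)])] 1 [(0, 2), (5, 2), (7, 4)])))))))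
  (.der [(354, 1, [(0, 1)]), (357, 1, [(0, 1), (10, 2), (11, 2)])]
  (.br [-1, 1, 0, 0, 0, 1, -1]
  (.der [(547, 1, [(0, 1)])]
  (.br [0, 1, -1, 0, -1, 1]
  (.der [(485, 1, [(0, 1)]), (591, 1, [(0, 1)])]
  (.leaf [(1, [⟨0, 14, [0, 1, 2, 3, 4, 5, 6, 7, 8, 9, 10, 11, 12, 13, 14]⟩])] [(1, [(2, false), (5, false), (14, false), (13, false), (9, false), (6, false), (7, false), (11, false), (8, false)])] 1 []))
  (.der [(710, 1, [(0, 1)]), (816, 1, [(0, 1)])]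
  (.br [0, 0, -1, 1, 0, 1, -1]
  (.der [(595, 1, [(0, 1)])]
  (.br [0, 1, -1, 0, 0, 0, -1, 1]
  (.der [(500, 1, [(0, 1)]), (607, 1, [(0, 1)])]
  (.br [0, 0, 0, 1, -1, 0, -1, 0, 0, 1]
  (.der [(669, 1, [(0, 1)])]
  (.leaf [(1, [⟨0, 14, [0, 1, 2, 3, 4, 5, 6, 7, 8, 9, 10, 11, 12, 13, 14]⟩])] [(1, [(3, false), (5, false), (14, false), (9, false), (10, false), (7, false), (11, false), (8, false)])] 1 []))
  (.der [(894, 1, [(0, 1)])]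
  (.leaf [(4, [⟨0, 1, [0, 1]⟩, ⟨5, 5, [5]⟩, ⟨2, 9, [2, 3, 4, 6, 7, 8, 9]⟩, ⟨10, 13, [10, 11, 12, 13]⟩, ⟨14, 14, [14]⟩])] [(1, [(2, false), (5, true), (14, false), (13, false), (9, false), (6, true), (7, false), (11, false), (8, false)]), (2, [(4, false), (5, false), (13, true), (9, false), (10, false), (11, true), (8, false)]), (1, [(3, false), (5, false), (14, false), (9, true), (10, false), (7, false), (11, false), (8, false)])] 1 [(0, 2)]))))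
  (.der [(725, 1, [(0, 1)]), (832, 1, [(0, 1)])]
  (.br [0, 0, 0, 1, -1, 0, -1, 0, 0, 1]
  (.der [(655, 1, [(0, 1)]), (669, 1, [(0, 1)])]
  (.br [0, 1, -1, 0, -1, 0, 0, 1]
  (.der [(606, 1, [(0, 1)])]
  (.leaf [(4, [⟨0, 1, [0, 1]⟩, ⟨5, 5, [5]⟩, ⟨2, 13, [2, 3, 4, 6, 7, 8, 9, 10, 11, 12, 13]⟩, ⟨14, 14, [14]⟩]), (8, [⟨0, 0, [0]⟩, ⟨1, 1, [1]⟩, ⟨5, 5, [5]⟩, ⟨2, 9, [2, 3, 4, 6, 7, 8, 9]⟩, ⟨10, 13, [10, 11, 12, 13]⟩, ⟨14, 14, [14]⟩])] [(5, [(2, false), (5, true), (14, false), (13, false), (9, false), (6, true), (7, false), (11, false), (8, false)]), (2, [(3, false), (5, true), (14, false), (9, false), (10, false), (7, true), (11, false), (8, false)]), (5, [(4, false), (5, false), (13, true), (10, false), (6, false), (11, true), (8, false)])] 1 [(6, 12), (24, 4)]))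
  (.leaf [(4, [⟨0, 0, [0]⟩, ⟨1, 5, [1, 5]⟩, ⟨2, 12, [2, 3, 4, 6, 7, 8, 9, 10, 12]⟩, ⟨11, 14, [11, 13, 14]⟩]), (4, [⟨0, 0, [0]⟩, ⟨1, 1, [1]⟩, ⟨5, 5, [5]⟩, ⟨2, 12, [2, 3, 4, 6, 7, 8, 9, 10, 12]⟩, ⟨11, 14, [11, 13, 14]⟩]), (2, [⟨0, 0, [0]⟩, ⟨1, 1, [1]⟩, ⟨5, 5, [5]⟩, ⟨2, 12, [2, 3, 4, 6, 7, 8, 9, 10, 12]⟩, ⟨11, 13, [11, 13]⟩, ⟨14, 14, [14]⟩]), (82, [⟨0, 0, [0]⟩, ⟨1, 1, [1]⟩, ⟨5, 5, [5]⟩, ⟨2, 9, [2, 3, 4, 6, 7, 8, 9]⟩, ⟨10, 12, [10, 12]⟩, ⟨11, 13, [11, 13]⟩, ⟨14, 14, [14]⟩])] [(2, []), (38, [(4, false), (5, false), (13, true), (6, true), (11, true), (8, false)]), (27, [(4, false), (5, false), (13, true), (9, false), (10, false), (11, true), (8, false)]), (25, [(3, false), (5, true), (14, false), (9, false), (10, false), (7, true), (11, false), (8, false)])] 1 [(0, 114), (5, 18), (6, 12)])))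
  (.der [(894, 1, [(0, 1)])]
  (.br [0, 1, -1, 0, -1, 0, 0, 1]
  (.der [(606, 1, [(0, 1)])]
  (.leaf [(1, [⟨0, 14, [0, 1, 2, 3, 4, 5, 6, 7, 8, 9, 10, 11, 12, 13, 14]⟩])] [(1, [(4, false), (5, false), (14, false), (13, false), (9, false), (10, false), (6, false), (7, false), (11, false), (8, false)])] 1 []))
  (.leaf [(12, [⟨0, 0, [0]⟩, ⟨1, 1, [1]⟩, ⟨5, 5, [5]⟩, ⟨2, 9, [2, 3, 4, 6, 7, 8, 9]⟩, ⟨10, 12, [10, 12]⟩, ⟨11, 14, [11, 13, 14]⟩]), (148, [⟨0, 0, [0]⟩, ⟨1, 1, [1]⟩, ⟨5, 5, [5]⟩, ⟨2, 9, [2, 3, 4, 6, 7, 8, 9]⟩, ⟨10, 12, [10, 12]⟩, ⟨11, 13, [11, 13]⟩, ⟨14, 14, [14]⟩])] [(3, []), (49, [(4, false), (5, false), (13, true), (6, true), (11, true), (8, false)]), (11, [(2, false), (5, true), (14, false), (13, false), (9, false), (6, true), (7, false), (11, false), (8, false)]), (65, [(4, false), (5, false), (13, true), (9, false),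 (10, false), (11, true), (8, false)]), (32, [(3, false), (5, true), (14, false), (9, true), (10, false), (7, true), (11, false), (8, false)])] 1 [(0, 210), (3, 32), (6, 9), (7, 17)])))))))
  (.der [(820, 1, [(0, 1)])]
  (.br [0, 1, -1, 0, 0, 0, -1, 1]
  (.der [(500, 1, [(0, 1)]), (607, 1, [(0, 1)])]
  (.leaf [(4, [⟨0, 1, [0, 1]⟩, ⟨5, 5, [5]⟩, ⟨2, 11, [2, 3, 4, 6, 7, 8, 9, 10, 11, 12]⟩, ⟨13, 14, [13, 14]⟩]), (4, [⟨0, 1, [0, 1]⟩, ⟨5, 5, [5]⟩, ⟨2, 9, [2, 3, 4, 6, 7, 8, 9]⟩, ⟨10, 11, [10, 11, 12]⟩, ⟨13, 14, [13, 14]⟩])] [(2, [(4, false), (5, false), (13, true), (6, true), (11, true), (8, false)]), (1, [(2, false), (5, true), (14, false), (13, false), (9, false), (6, true), (7, false), (11, false), (8, false)]), (5, [(3, false), (5, false), (14, false), (13, false), (9, false), (10, true), (7, false), (11, false), (8, false)])]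 1 [(1, 2), (4, 4)]))
  (.der [(725, 1, [(0, 1)]), (832, 1, [(0, 1)])]
  (.br [0, 0, 0, 0, 1, 0, -2, 0, 1]
  (.der [(191, 1, [(0, 1)])]
  (.leaf [(2, [⟨0, 0, [0]⟩, ⟨1, 1, [1]⟩, ⟨5, 5, [5]⟩, ⟨2, 9, [2, 3, 4, 6, 7, 8, 9]⟩, ⟨10, 10, [10]⟩, ⟨12, 13, [11, 12, 13]⟩, ⟨14, 14, [14]⟩])] [(1, [(4, false), (5, false), (13, true), (6, true), (11, true), (8, false)]), (1, [(3, false), (5, true), (14, false), (13, false), (9, false), (10, true), (7, true), (11, false), (8, false)])] 1 []))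
  (.leaf [(2, [⟨0, 1, [0, 1]⟩, ⟨5, 5, [5]⟩, ⟨2, 9, [2, 3, 4, 6, 7, 8, 9]⟩, ⟨10, 11, [10, 11, 12]⟩, ⟨13, 14, [13, 14]⟩])] [(1, [(4, false), (5, false), (13, true), (6, true), (11, true), (8, false)]), (1, [(2, false), (5, true), (14, false), (13, false), (9, false), (6, true), (7, false), (11, false), (8, false)])] 1 [(0, 4), (4, 4), (22, 2)])))))))))
  (.der [(680, 1, [(0, 1), (3, 1), (5, 1)]), (772, 1, [(0, 1)])]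
  (.br [0, 1, -1, 0, -1, 1]
  (.der [(485, 1, [(0, 1)]), (591, 1, [(0, 1)])]
  (.leaf [(2, [⟨0, 0, [0]⟩, ⟨1, 5, [1, 5]⟩, ⟨2, 13, [2, 3, 4, 6, 7, 8, 9, 10, 11, 12, 13]⟩, ⟨14, 14, [14]⟩]), (2, [⟨0, 0, [0]⟩, ⟨1, 5, [1, 5]⟩, ⟨2, 9, [2, 3, 4, 6, 7, 8, 9]⟩, ⟨10, 13, [10, 11, 12, 13]⟩, ⟨14, 14, [14]⟩])] [(1, [(0, false), (5, true), (14, false), (13, false), (9, false), (6, false), (7, true), (11, false), (8, false)]), (2, [(2, false), (5, false), (14, false), (13, false), (6, true), (10, false), (11, true), (8, false)]), (1, [(2, false), (5, false), (13, true), (9, false), (6, false), (11, true), (8, false)])] 1 [(0, 2)]))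
  (.der [(710, 1, [(0, 1)]), (816, 1, [(0, 1)])]
  (.br [0, 0, -1, 1, 0, 1, -1]
  (.der [(595, 1, [(0, 1)])]
  (.br [0, 1, -1, 0, -1, 0, 0, 1]
  (.der [(606, 1, [(0, 1)])]
  (.leaf [(10, [⟨0, 0, [0]⟩, ⟨1, 5, [1, 5]⟩, ⟨2, 9, [2, 3, 4, 6, 7, 8, 9]⟩, ⟨10, 13, [10, 11, 12, 13]⟩, ⟨14, 14, [14]⟩]), (2, [⟨0, 0, [0]⟩, ⟨1, 1, [1]⟩, ⟨5, 5, [5]⟩, ⟨2, 9, [2, 3, 4, 6, 7, 8, 9]⟩, ⟨10, 13, [10, 11, 12, 13]⟩, ⟨14, 14, [14]⟩])] [(3, [(4, false), (5, false), (13, true), (6, true), (11, true), (8, false)]), (3, [(1, false), (14, true), (13, false), (9, false), (10, false), (11, true), (8, false)]), (2, [(2, false), (5, true), (14, false), (13, false), (6, true), (7, true), (11, false), (8, false)]), (4, [(4, false), (5, false), (14, false), (13, false), (9, false), (10, false), (6, false), (7, true), (11, false), (8, false)])] 1 [(4, 2)]))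
  (.der [(831, 1, [(0, 1)])]
  (.leaf [(2, [⟨0, 0, [0]⟩, ⟨1, 1, [1]⟩, ⟨5, 5, [5]⟩, ⟨2, 9, [2, 3, 4, 6, 7, 8, 9]⟩, ⟨10, 12, [10, 12]⟩, ⟨11, 13, [11, 13]⟩, ⟨14, 14, [14]⟩])] [(1, [(1, false), (14, true), (13, false), (9, false), (10, false), (11, true), (8, false)]), (1, [(4, false), (5, false), (14, false), (13, false), (9, false), (10, false), (6, true), (7, true), (11, false), (8, false)])] 1 [(7, 2), (21, 2)]))))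
  (.der [(820, 1, [(0, 1)])]
  (.br [0, 1, -1, 0, -1, 0, 0, 1]
  (.der [(606, 1, [(0, 1)])]
  (.leaf [(2, [⟨0, 0, [0]⟩, ⟨1, 5, [1, 5]⟩, ⟨2, 9, [2, 3, 4, 6, 7, 8, 9]⟩, ⟨10, 11, [10, 11, 12]⟩, ⟨13, 14, [13, 14]⟩])] [(1, [(4, false), (5, false), (14, false), (13, false), (9, false), (10, true), (6, false), (11, true), (8, false)]), (1, [(4, false), (5, false), (14, false), (13, false), (6, true), (7, true), (11, false), (8, false)])] 1 []))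
  (.der [(51, 1, [(0, 1), (9, 1), (15, 1)]), (831, 1, [(0, 1)])]
  (.leaf [(2, [⟨0, 0, [0]⟩, ⟨1, 1, [1]⟩, ⟨5, 5, [5]⟩, ⟨2, 2, [2]⟩, ⟨3, 9, [3, 4, 6, 7, 8, 9]⟩, ⟨10, 13, [10, 11, 12, 13]⟩, ⟨14, 14, [14]⟩]), (2, [⟨0, 0, [0]⟩, ⟨1, 1, [1]⟩, ⟨5, 5, [5]⟩, ⟨2, 2, [2]⟩, ⟨3, 8, [3, 4, 6, 7, 8]⟩, ⟨9, 9, [9]⟩, ⟨10, 13, [10, 11, 12, 13]⟩, ⟨14, 14, [14]⟩])] [(1, [(4, false), (5, false), (13, true), (6, true), (11, true), (8, false)]), (1, [(0, false), (5, true), (14, false), (13, false), (9, false), (6, true), (7, true), (11, false), (8, false)]), (2, [(4, false), (5, false), (14, false), (13, false), (9, false), (10, true), (6, true), (11, true), (8, false)])] 1 [(4, 2), (24, 2)]))))))))))))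
  (.der [(879, 1, [(0, 1)]), (895, 1, [(0, 1), (8, 2), (9, 2)])]
  (.br [-1, 1, 0, 0, 0, 1, -1]
  (.der [(547, 1, [(0, 1)])]
  (.br [0, 1, -1, 0, -1, 1]
  (.der [(485, 1, [(0, 1)]), (591, 1, [(0, 1)])]
  (.leaf [(38, [⟨0, 5, [0, 1, 5]⟩, ⟨2, 8, [2, 3, 4, 6, 7, 8]⟩, ⟨9, 14, [9, 10, 11, 12, 13, 14]⟩]), (90, [⟨0, 5, [0, 1, 5]⟩, ⟨2, 8, [2, 3, 4, 6, 7, 8]⟩, ⟨9, 13, [9, 10, 11, 12, 13]⟩, ⟨14, 14, [14]⟩]), (36, [⟨0, 5, [0, 1, 5]⟩, ⟨2, 8, [2, 3, 4, 6, 7, 8]⟩, ⟨9, 9, [9]⟩, ⟨10, 13, [10, 11, 12, 13]⟩, ⟨14, 14, [14]⟩])] [(2, []), (9, [(3, false), (10, true), (11, true), (8, false)]), (42, [(4, false), (5, false), (13, true), (6, true), (11, true), (8, false)]), (111, [(2, false), (5, false), (14, false), (13, false), (9, true), (6, false), (7, false), (11, false), (8, false)])] 1 [(0, 84), (16, 12), (19, 66)]))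
  (.der [(710, 1, [(0, 1)]), (816, 1, [(0, 1)])]
  (.br [0, 1, -1, 0, -1, 0, 0, 1]
  (.der [(606, 1, [(0, 1)])]
  (.br [0, 0, -1, 1, 0, 1, -1]
  (.der [(595, 1, [(0, 1)])]
  (.leaf [(4, [⟨0, 1, [0, 1]⟩, ⟨5, 5, [5]⟩, ⟨2, 8, [2, 3, 4, 6, 7, 8]⟩, ⟨9, 9, [9]⟩, ⟨10, 13, [10, 11, 12, 13]⟩, ⟨14, 14, [14]⟩])] [(1, [(2, false), (5, true), (14, false), (13, false), (9, true), (6, true), (7, false), (11, false), (8, false)]), (2, [(4, false), (5, false), (13, true), (9, true), (10, false), (11, true), (8, false)]), (1, [(4, false), (5, false), (14, false), (10, true), (6, false), (7, false), (11, false), (8, false)])] 1 []))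
  (.der [(820, 1, [(0, 1)])]
  (.br [-1, 1, 0, 0, 0, 0, 0, 1, -1]
  (.der [(464, 1, [(0, 1)]), (563, 1, [(0, 1)])]
  (.leaf [(4, [⟨0, 1, [0, 1]⟩, ⟨5, 5, [5]⟩, ⟨2, 8, [2, 3, 4, 6, 7, 8]⟩, ⟨9, 11, [9, 10, 11, 12]⟩, ⟨13, 14, [13, 14]⟩]), (4, [⟨0, 1, [0, 1]⟩, ⟨5, 5, [5]⟩, ⟨2, 8, [2, 3, 4, 6, 7, 8]⟩, ⟨9, 9, [9]⟩, ⟨10, 11, [10, 11, 12]⟩, ⟨13, 14, [13, 14]⟩]), (4, [⟨0, 1, [0, 1]⟩, ⟨5, 5, [5]⟩, ⟨2, 8, [2, 3, 4, 6, 7, 8]⟩, ⟨9, 9, [9]⟩, ⟨10, 11, [10, 11, 12]⟩, ⟨13, 13, [13]⟩, ⟨14, 14, [14]⟩])] [(1, [(3, false), (10, true), (11, true), (8, false)]), (3, [(4, false), (5, false), (13, true), (6, true), (11, true), (8, false)]), (8, [(0, false), (14, false), (13, false), (9, true), (10, true), (6, false), (7, false), (8, false)])] 1 [(8, 6)]))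
  (.der [(689, 1, [(0, 1)]), (788, 1, [(0, 1)])]
  (.leaf [(4, [⟨0, 0, [0]⟩, ⟨1, 1, [1]⟩, ⟨5, 5, [5]⟩, ⟨2, 8, [2, 3, 4, 6, 7, 8]⟩, ⟨9, 9, [9]⟩, ⟨10, 12, [10, 12]⟩, ⟨11, 13, [11, 13]⟩, ⟨14, 14, [14]⟩])] [(1, [(2, false), (5, true), (14, false), (13, false), (9, true), (6, true), (7, false), (11, false), (8, false)]), (3, [(0, false), (14, true), (13, false), (9, true), (10, true), (6, false), (7, false), (8, true)])] 1 [(1, 2), (4, 4)]))))))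
  (.der [(725, 1, [(0, 1), (11, 1), (12, 1)]), (831, 1, [(0, 1)]), (832, 1, [(0, 1), (11, 1), (12, 1)])]
  (.br [0, 0, -1, 1, 0, 1, -1]
  (.der [(595, 1, [(0, 1)])]
  (.leaf [(4, [⟨0, 0, [0]⟩, ⟨1, 1, [1]⟩, ⟨5, 5, [5]⟩, ⟨2, 8, [2, 3, 4, 6, 7, 8]⟩, ⟨9, 9, [9]⟩, ⟨10, 12, [10, 12]⟩, ⟨11, 11, [11]⟩, ⟨13, 14, [13, 14]⟩])] [(1, [(2, false), (5, true), (14, false), (13, false), (9, true), (6, true), (7, false), (11, false), (8, false)]), (1, [(3, false), (5, true), (14, false), (10, true), (7, true), (11, false), (8, false)]), (2, [(4, false), (5, false), (13, true), (9, true), (10, false), (6, true), (11, true), (8, false)])] 1 []))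
  (.der [(820, 1, [(0, 1)])]
  (.leaf [(4, [⟨0, 0, [0]⟩, ⟨1, 1, [1]⟩, ⟨5, 5, [5]⟩, ⟨2, 8, [2, 3, 4, 6, 7, 8]⟩, ⟨9, 9, [9]⟩, ⟨10, 13, [10, 11, 12, 13]⟩, ⟨14, 14, [14]⟩]), (26, [⟨0, 0, [0]⟩, ⟨1, 1, [1]⟩, ⟨5, 5, [5]⟩, ⟨2, 8, [2, 3, 4, 6, 7, 8]⟩, ⟨9, 9, [9]⟩, ⟨10, 11, [10, 11, 12]⟩, ⟨13, 13, [13]⟩, ⟨14, 14, [14]⟩]), (6, [⟨0, 0, [0]⟩, ⟨1, 1, [1]⟩, ⟨5, 5, [5]⟩, ⟨2, 8, [2, 3, 4, 6, 7, 8]⟩, ⟨9, 9, [9]⟩, ⟨10, 12, [10, 12]⟩, ⟨11, 11, [11]⟩, ⟨13, 13, [13]⟩, ⟨14, 14, [14]⟩])] [(17, [(4, false), (5, false), (13, true), (6, true), (11, true), (8, false)]), (5, [(3, false), (5, true), (14, false), (10, true), (7, true), (11, false), (8, false)]), (14, [(4, false), (5, false), (14, false), (13, false), (9, true), (10, true), (6, true), (7, false), (11, false), (8, false)])] 1 [(7, 32), (8, 6), (12, 2), (20, 10)]))))))))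
  (.der [(680, 1, [(0, 1), (2, 1), (4, 1)]), (772, 1, [(0, 1)])]
  (.br [0, 1, -1, 0, -1, 1]
  (.der [(485, 1, [(0, 1)]), (591, 1, [(0, 1)])]
  (.leaf [(2, [⟨0, 0, [0]⟩, ⟨1, 5, [1, 5]⟩, ⟨2, 8, [2, 3, 4, 6, 7, 8]⟩, ⟨9, 9, [9]⟩, ⟨10, 14, [10, 11, 12, 13, 14]⟩]), (2, [⟨0, 0, [0]⟩, ⟨1, 1, [1]⟩, ⟨5, 5, [5]⟩, ⟨2, 8, [2, 3, 4, 6, 7, 8]⟩, ⟨9, 9, [9]⟩, ⟨10, 11, [10, 11, 12]⟩, ⟨13, 13, [13]⟩, ⟨14, 14, [14]⟩])] [(3, [(0, false), (5, true), (14, false), (13, false), (9, true), (6, false), (7, true), (11, false), (8, false)]), (1, [(2, false), (5, false), (13, true), (9, true), (6, false), (11, true), (8, false)])] 1 [(6, 8), (19, 2)]))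
  (.der [(816, 1, [(0, 1)])]
  (.br [0, 0, -1, 1, 0, 1, -1]
  (.der [(595, 1, [(0, 1)])]
  (.leaf [(2, [⟨0, 0, [0]⟩, ⟨1, 1, [1]⟩, ⟨5, 5, [5]⟩, ⟨2, 3, [2, 3]⟩, ⟨6, 8, [4, 6, 7, 8]⟩, ⟨9, 9, [9]⟩, ⟨10, 13, [10, 11, 12, 13]⟩, ⟨14, 14, [14]⟩])] [(1, [(0, false), (5, true), (14, false), (13, false), (9, true), (6, true), (7, true), (11, false), (8, false)]), (1, [(1, false), (14, true), (13, false), (9, true), (10, false), (11, true), (8, false)])] 1 []))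
  (.der [(820, 1, [(0, 1)])]
  (.br [0, 1, -1, 0, -1, 0, 0, 1]
  (.der [(606, 1, [(0, 1)])]
  (.leaf [(2, [⟨0, 0, [0]⟩, ⟨1, 5, [1, 5]⟩, ⟨2, 8, [2, 3, 4, 6, 7, 8]⟩, ⟨9, 9, [9]⟩, ⟨10, 11, [10, 11, 12]⟩, ⟨13, 14, [13, 14]⟩]), (2, [⟨0, 0, [0]⟩, ⟨1, 1, [1]⟩, ⟨5, 5, [5]⟩, ⟨2, 8, [2, 3, 4, 6, 7, 8]⟩, ⟨9, 9, [9]⟩, ⟨10, 11, [10, 11, 12]⟩, ⟨13, 14, [13, 14]⟩])] [(1, [(0, false), (5, true), (14, false), (13, false), (9, true), (6, true), (7, true), (11, false), (8, false)]), (1, [(4, false), (5, false), (14, false), (13, false), (7, true), (11, false), (8, false)]), (2, [(4, false), (5, false), (14, false), (13, false), (9, true), (10, true), (6, false), (11, true), (8, false)])] 1 []))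
  (.der [(831, 1, [(0, 1)])]
  (.leaf [(2, [⟨0, 1, [0, 1]⟩, ⟨5, 5, [5]⟩, ⟨2, 8, [2, 3, 4, 6, 7, 8]⟩, ⟨9, 9, [9]⟩, ⟨10, 11, [10, 11, 12]⟩, ⟨13, 14, [13, 14]⟩]), (8, [⟨0, 0, [0]⟩, ⟨1, 1, [1]⟩, ⟨5, 5, [5]⟩, ⟨2, 8, [2, 3, 4, 6, 7, 8]⟩, ⟨9, 9, [9]⟩, ⟨10, 12, [10, 12]⟩, ⟨11, 11, [11]⟩, ⟨13, 14, [13, 14]⟩])] [(1, [(4, false), (5, false), (13, true), (6, true), (11, true), (8, false)]), (3, [(4, false), (5, false), (14, false), (13, false), (7, true), (11, false), (8, false)]), (6, [(4, false), (5, false), (14, false), (13, false), (9, true), (10, true), (6, true), (11, true), (8, false)])] 1 [(2, 2), (3, 2), (7, 2), (18, 2)])))))))))))))))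

theorem tree6_ok : tree6.check ([0, -1, 1, 0, 0, 0, 0, 0, 1, -1] :: ctx0) (dersMask 0 com) = true := by decide +kernel

end Pool.Agent.MSTDIntervals
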