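import Pool.Agent.MSTDIntervals.Data0

/-!
Certificate data (machine generated, checked by the kernel).
-/

namespace Pool.Agent.MSTDIntervals

/-- certificate for the face `[1, 0, 0, -1, 0, -1, 0, 0, 1] = 0` -/
def tree7 : Tree :=
  (.der [(538, 1, [(0, 1)]), (551, 1, [(0, 1)])]
  (.br [0, 0, -1, 2, -1]
  (.der [(470, 1, [(0, 1), (11, 1), (13, 1)]), (655, 1, [(0, 1), (8, 1), (10, 1), (15, 1)])]
  (.leaf [(2, [⟨0, 13, [0, 1, 2, 3, 4, 5, 6, 7, 8, 9, 10, 11, 12, 13]⟩, ⟨14, 14, [14]⟩])] [(1, [(1, false), (5, false), (13, false), (11, true), (8, false)]), (1, [(1, false), (5, false), (13, false), (10, false), (11, true), (8, false)])] 1 [(0, 2)]))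
  (.br [-1, 0, 2, 0, -1]
  (.der [(651, 1, [(0, 1), (5, 1), (7, 1), (14, 1), (15, 1)])]
  (.leaf [(1, [⟨0, 14, [0, 1, 2, 3, 4, 5, 6, 7, 8, 9, 10, 11, 12, 13, 14]⟩])] [(1, [(4, false), (5, false), (13, false), (6, false), (11, false), (8, false)])] 1 []))
  (.br [0, 0, 0, 1, -2, 0, 0, 0, 0, 1]
  (.der [(654, 1, [(0, 1)])]
  (.br [0, 1, -1, 0, -1, 0, 0, 1]
  (.der [(606, 1, [(0, 1)])]
  (.br [0, 0, 1, -1, 0, -1, 1]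
  (.der [(820, 1, [(0, 1)])]
  (.br [0, 1, 0, 0, -2, 0, 0, 0, 0, 1]
  (.der [(651, 1, [(0, 1)])]
  (.leaf [(1, [⟨0, 14, [0, 1, 2, 3, 4, 5, 6, 7, 8, 9, 10, 11, 12, 13, 14]⟩])] [(1, [(4, false), (5, false), (13, false), (6, false), (11, false), (8, false)])] 1 []))
  (.der [(294, 1, [(0, 1), (11, 2)]), (339, 1, [(0, 1), (11, 2), (18, 1), (20, 1)]), (876, 1, [(0, 1)])]
  (.br [0, 0, 0, 1, 0, -2, 0, 0, 0, 1]
  (.der [(368, 1, [(0, 1)])]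
  (.br [0, 0, 0, 1, -1, 0, -1, 0, 0, 1]
  (.der [(655, 1, [(0, 1)])]
  (.leaf [(1, [⟨0, 14, [0, 1, 2, 3, 4, 5, 6, 7, 8, 9, 10, 11, 12, 13, 14]⟩])] [(1, [(4, false), (5, false), (13, false), (10, false), (6, false), (11, false), (8, false)])] 1 []))
  (.der [(880, 1, [(0, 1)])]
  (.leaf [(1, [⟨0, 5, [0, 1, 5]⟩, ⟨2, 8, [2, 3, 4, 6, 7, 8, 9]⟩, ⟨10, 11, [10, 11, 12]⟩, ⟨13, 14, [13, 14]⟩])] [(1, [(4, false), (5, false), (13, false), (10, true), (6, false), (11, false), (8, false)])] 1 [(21, 1)]))))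
  (.der [(354, 1, [(0, 1)])]
  (.leaf [(1, [⟨0, 14, [0, 1, 2, 3, 4, 5, 6, 7, 8, 9, 10, 11, 12, 13, 14]⟩]), (2, [⟨0, 1, [0, 1]⟩, ⟨5, 5, [5]⟩, ⟨2, 9, [2, 3, 4, 6, 7, 8, 9]⟩, ⟨10, 11, [10, 11, 12]⟩, ⟨13, 14, [13, 14]⟩])] [(2, [(4, false), (5, false), (13, false), (9, false), (10, true), (6, false), (11, false), (8, false)]), (1, [(4, false), (5, false), (13, false), (6, true), (11, false), (8, false)])] 1 [(20, 2)]))))))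
  (.der [(595, 1, [(0, 1)])]
  (.leaf [(1, [⟨0, 14, [0, 1, 2, 3, 4, 5, 6, 7, 8, 9, 10, 11, 12, 13, 14]⟩])] [(1, [(4, false), (5, false), (13, false), (9, false), (10, false), (6, false), (11, false), (8, false)])] 1 []))))
  (.der [(51, 1, [(0, 1), (5, 1), (11, 1)]), (54, 5, [(0, 7), (1, 2), (2, 4), (3, 1), (5, 7), (11, 5), (14, 2), (19, 2)]), (339, 1, [(0, 1), (9, 2), (14, 1), (16, 1)]), (725, 1, [(0, 1), (9, 1), (10, 1)]), (816, 1, [(0, 1), (10, 1), (11, 1)]), (831, 1, [(0, 1)])]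
  (.br [0, 0, 0, 1, 0, -2, 0, 0, 0, 1]
  (.der [(368, 1, [(0, 1)])]
  (.br [0, 0, 0, 1, -1, 0, -1, 0, 0, 1]
  (.der [(655, 1, [(0, 1)])]
  (.br [0, 0, 0, 1, 0, 0, 0, -2, 0, 1]
  (.der [(383, 2, [(0, 1), (2, 1)]), (413, 1, [(0, 1)])]
  (.leaf [(2, [⟨0, 0, [0]⟩, ⟨1, 8, [1, 2, 3, 4, 5, 6, 7, 8, 9, 10, 12]⟩, ⟨11, 14, [11, 13, 14]⟩])] [(1, [(4, false), (5, false), (13, false), (10, false), (6, true), (11, false), (8, false)]), (1, [(4, false), (5, false), (14, false), (6, true), (11, false), (8, false)])] 1 [(12, 2), (14, 2), (20, 2)]))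
  (.leaf [(1, [⟨0, 0, [0]⟩, ⟨1, 1, [1]⟩, ⟨5, 5, [5]⟩, ⟨2, 13, [2, 3, 4, 6, 7, 8, 9, 10, 11, 12, 13]⟩, ⟨14, 14, [14]⟩])] [(1, [(4, false), (5, false), (13, false), (10, false), (6, true), (11, false), (8, false)])] 1 [(0, 1), (3, 1), (12, 2), (20, 2)])))
  (.der [(876, 1, [(0, 1), (2, 1), (9, 1), (13, 1)]), (880, 1, [(0, 1)])]
  (.leaf [(2, [⟨0, 0, [0]⟩, ⟨1, 1, [1]⟩, ⟨5, 5, [5]⟩, ⟨2, 2, [2]⟩, ⟨3, 8, [3, 4, 6, 7, 8, 9]⟩, ⟨10, 12, [10, 12]⟩, ⟨11, 13, [11, 13]⟩, ⟨14, 14, [14]⟩])] [(1, [(3, false), (5, true), (13, false), (10, true), (6, true), (11, false), (8, false)]), (1, [(4, false), (5, false), (13, false), (6, true), (11, false), (8, false)])] 1 [(2, 2), (11, 4), (19, 6)]))))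
  (.der [(294, 2, [(0, 2), (1, 1), (2, 1), (8, 1), (12, 1), (21, 1)]), (354, 1, [(0, 1)]), (895, 1, [(0, 1), (11, 2)])]
  (.leaf [(1, [⟨0, 0, [0]⟩, ⟨1, 5, [1, 5]⟩, ⟨2, 9, [2, 3, 4, 6, 7, 8, 9]⟩, ⟨10, 13, [10, 11, 12, 13]⟩, ⟨14, 14, [14]⟩]), (4, [⟨0, 0, [0]⟩, ⟨1, 1, [1]⟩, ⟨5, 5, [5]⟩, ⟨2, 9, [2, 3, 4, 6, 7, 8, 9]⟩, ⟨10, 13, [10, 11, 12, 13]⟩, ⟨14, 14, [14]⟩]), (2, [⟨0, 0, [0]⟩, ⟨1, 1, [1]⟩, ⟨5, 5, [5]⟩, ⟨2, 8, [2, 3, 4, 6, 7, 8]⟩, ⟨9, 9, [9]⟩, ⟨10, 13, [10, 11, 12, 13]⟩, ⟨14, 14, [14]⟩])] [(1, [(3, false), (5, true), (14, false), (10, true), (6, true), (11, false), (8, false)]), (6, [(4, false), (5, false), (13, false), (9, false), (6, true), (11, false), (8, false)])] 1 [(0, 6), (1, 3), (18, 14), (21, 1)]))))))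
  (.der [(879, 1, [(0, 1)]), (880, 1, [(0, 1), (8, 1), (9, 1)])]
  (.br [0, 1, -1, 0, -1, 0, 0, 1]
  (.der [(606, 1, [(0, 1)])]
  (.br [0, 1, -1, 0, -1, 1]
  (.der [(591, 1, [(0, 1)])]
  (.leaf [(2, [⟨0, 5, [0, 1, 5]⟩, ⟨2, 8, [2, 3, 4, 6, 7, 8]⟩, ⟨9, 14, [9, 10, 11, 12, 13, 14]⟩]), (2, [⟨0, 5, [0, 1, 5]⟩, ⟨2, 8, [2, 3, 4, 6, 7, 8]⟩, ⟨9, 9, [9]⟩, ⟨10, 14, [10, 11, 12, 13, 14]⟩])] [(1, [(4, false), (5, false), (13, false), (10, true), (6, false), (11, false), (8, false)]), (3, [(4, false), (5, false), (13, false), (9, true), (6, false), (11, false), (8, false)])] 1 [(7, 4), (17, 4), (18, 4)]))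
  (.der [(710, 1, [(0, 1)]), (816, 1, [(0, 1)])]
  (.br [0, 0, -1, 1, 0, 1, -1]
  (.der [(595, 1, [(0, 1)])]
  (.leaf [(4, [⟨0, 1, [0, 1]⟩, ⟨5, 5, [5]⟩, ⟨2, 8, [2, 3, 4, 6, 7, 8]⟩, ⟨9, 9, [9]⟩, ⟨10, 13, [10, 11, 12, 13]⟩, ⟨14, 14, [14]⟩])] [(2, [(4, false), (5, false), (13, false), (10, true), (6, false), (11, false), (8, false)]), (1, [(2, false), (5, true), (13, false), (9, true), (6, true), (11, false), (8, false)]), (1, [(4, false), (5, false), (13, false), (9, true), (10, false), (11, true), (8, false)])] 1 [(19, 4), (20, 2)]))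
  (.der [(820, 1, [(0, 1)])]
  (.leaf [(2, [⟨0, 1, [0, 1]⟩, ⟨5, 5, [5]⟩, ⟨2, 8, [2, 3, 4, 6, 7, 8]⟩, ⟨9, 9, [9]⟩, ⟨10, 14, [10, 11, 12, 13, 14]⟩]), (2, [⟨0, 1, [0, 1]⟩, ⟨5, 5, [5]⟩, ⟨2, 8, [2, 3, 4, 6, 7, 8]⟩, ⟨9, 9, [9]⟩, ⟨10, 11, [10, 11, 12]⟩, ⟨13, 13, [13]⟩, ⟨14, 14, [14]⟩])] [(2, [(4, false), (5, false), (13, false), (10, true), (6, false), (11, false), (8, false)]), (1, [(2, false), (5, true), (13, false), (9, true), (6, true), (11, false), (8, false)]), (1, [(4, false), (5, false), (13, false), (9, true), (10, true), (11, true), (8, false)])] 1 [(19, 4)]))))))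
  (.der [(725, 1, [(0, 1), (9, 1), (10, 1)]), (816, 1, [(0, 1), (10, 1), (11, 1)]), (831, 1, [(0, 1)])]
  (.leaf [(2, [⟨0, 1, [0, 1]⟩, ⟨5, 5, [5]⟩, ⟨2, 2, [2]⟩, ⟨3, 3, [3]⟩, ⟨6, 8, [4, 6, 7, 8]⟩, ⟨9, 9, [9]⟩, ⟨10, 13, [10, 11, 12, 13]⟩, ⟨14, 14, [14]⟩])] [(1, [(3, false), (5, true), (13, false), (10, true), (6, true), (11, false), (8, false)]), (1, [(4, false), (5, false), (13, false), (9, true), (6, true), (11, false), (8, false)])] 1 [(17, 4)]))))))))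

theorem tree7_ok : tree7.check ([-1, 0, 0, 1, 0, 1, 0, 0, -1] :: ctx0) (dersMask 0 com) = true := by decide +kernel

end Pool.Agent.MSTDIntervals
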