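import Pool.Agent.MSTDIntervals.Data0

/-!
Certificate data (machine generated, checked by the kernel).
-/

namespace Pool.Agent.MSTDIntervals

/-- certificate for the face `[0, 0, 1, -1, 0, 0, 0, -1, 1] = 0` -/
def tree8 : Tree :=
  (.der [(479, 1, [(0, 1)]), (611, 1, [(0, 1)])]
  (.br [0, 1, 0, 0, -2, 0, 0, 1]
  (.der [(143, 1, [(0, 1), (3, 1), (9, 1)]), (591, 1, [(0, 1), (1, 1), (11, 1), (12, 1)]), (636, 1, [(0, 1)]), (895, 1, [(0, 1), (13, 1), (15, 1), (17, 2)])]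
  (.br [0, 0, -1, 0, 0, 2, 0, 0, -1]
  (.der [(598, 1, [(0, 1)])]
  (.br [0, 0, 0, 1, -1, 0, -1, 0, 0, 1]
  (.der [(655, 1, [(0, 1)]), (669, 1, [(0, 1)])]
  (.leaf [(1, [⟨0, 14, [0, 1, 2, 3, 4, 5, 6, 7, 8, 9, 10, 11, 12, 13, 14]⟩])] [(1, [(1, false), (14, false), (9, false), (13, false), (10, false), (11, false), (8, false)])] 1 []))
  (.der [(643, 1, [(0, 1), (2, 1), (3, 1), (5, 1), (10, 1), (14, 1)]), (880, 1, [(0, 1)])]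
  (.leaf [(2, [⟨0, 5, [0, 1, 5]⟩, ⟨2, 11, [2, 3, 4, 6, 7, 8, 9, 10, 11, 12]⟩, ⟨13, 14, [13, 14]⟩])] [(1, [(1, false), (14, false), (12, false), (6, false), (11, true), (8, false)]), (1, [(1, false), (14, false), (12, false), (13, false), (10, true), (11, false), (8, false)])] 1 []))))
  (.der [(669, 2, [(0, 1), (1, 1), (2, 1), (4, 1), (5, 1), (9, 2), (13, 2)]), (823, 1, [(0, 1)])]
  (.br [-1, 0, 0, 0, 2, 0, -1]
  (.der [(54, 1, [(0, 1)])]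
  (.br [-1, 0, 0, 1, 0, 1, -1]
  (.der [(550, 1, [(0, 1)])]
  (.leaf [(2, [⟨0, 11, [0, 1, 2, 3, 4, 5, 6, 7, 8, 9, 10, 11, 12]⟩, ⟨13, 14, [13, 14]⟩])] [(1, [(1, false), (14, false), (9, false), (13, true), (7, true), (11, false), (8, false)]), (1, [(4, false), (9, true), (6, false), (10, false), (11, false), (8, false)])] 1 [(3, 2), (4, 2), (15, 2)]))
  (.der [(775, 1, [(0, 1)])]
  (.leaf [(2, [⟨0, 6, [0, 1, 2, 5, 6]⟩, ⟨3, 11, [3, 4, 7, 8, 9, 10, 11, 12]⟩, ⟨13, 14, [13, 14]⟩])] [(1, [(1, false), (14, false), (9, false), (13, true), (7, true), (11, false), (8, false)]), (1, [(4, false), (9, true), (6, false), (10, true), (11, false), (8, false)])] 1 [(3, 2), (4, 2), (15, 2)]))))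
  (.der [(138, 1, [(0, 1)]), (139, 2, [(0, 2), (1, 1), (6, 1), (8, 1), (10, 2), (13, 1), (14, 1)]), (142, 1, [(0, 1), (4, 1), (5, 1)])]
  (.leaf [(2, [⟨0, 6, [0, 1, 2, 5, 6]⟩, ⟨9, 11, [3, 4, 7, 8, 9, 10, 11, 12]⟩, ⟨13, 14, [13, 14]⟩]), (6, [⟨0, 6, [0, 1, 2, 5, 6]⟩, ⟨9, 11, [3, 4, 7, 8, 9, 10, 11, 12]⟩, ⟨13, 13, [13]⟩, ⟨14, 14, [14]⟩])] [(1, [(1, false), (14, false), (10, true), (11, false), (8, false)]), (5, [(4, false), (9, true), (13, true), (11, true), (8, false)]), (2, [(1, false), (14, false), (9, false), (13, true), (7, true), (11, false), (8, false)])] 1 [(2, 4), (3, 14), (14, 12)]))))))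
  (.der [(54, 1, [(0, 1), (2, 1), (8, 1)]), (861, 1, [(0, 1)])]
  (.br [0, 0, 0, 1, -2, 0, 0, 0, 0, 1]
  (.der [(654, 1, [(0, 1)])]
  (.br [0, 0, 0, 1, 0, -2, 0, 0, 0, 1]
  (.der [(368, 1, [(0, 1)])]
  (.br [0, 0, -1, 1, 0, 1, -1]
  (.der [(595, 1, [(0, 1)])]
  (.br [0, 0, 0, 1, -1, 0, -1, 0, 0, 1]
  (.der [(669, 1, [(0, 1)])]
  (.leaf [(1, [⟨0, 14, [0, 1, 2, 3, 4, 5, 6, 7, 8, 9, 10, 11, 12, 13, 14]⟩])] [(1, [(1, false), (14, false), (9, false), (10, false), (11, false), (8, false)])] 1 []))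
  (.der [(894, 1, [(0, 1)])]
  (.leaf [(1, [⟨0, 5, [0, 1, 5]⟩, ⟨2, 8, [2, 3, 4, 6, 7, 8, 9]⟩, ⟨10, 11, [10, 11, 12]⟩, ⟨13, 14, [13, 14]⟩])] [(1, [(1, false), (14, false), (9, true), (10, false), (11, false), (8, false)])] 1 [(18, 1)]))))
  (.der [(820, 1, [(0, 1)])]
  (.br [0, 0, 0, 1, -1, 0, -1, 0, 0, 1]
  (.der [(655, 1, [(0, 1)]), (669, 1, [(0, 1)])]
  (.br [0, 0, -1, 0, 0, 2, 0, 0, -1]
  (.der [(598, 1, [(0, 1)])]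
  (.leaf [(1, [⟨0, 14, [0, 1, 2, 3, 4, 5, 6, 7, 8, 9, 10, 11, 12, 13, 14]⟩])] [(1, [(1, false), (14, false), (9, false), (13, false), (10, false), (11, false), (8, false)])] 1 []))
  (.der [(383, 1, [(0, 1), (6, 1), (17, 1)]), (823, 1, [(0, 1)])]
  (.br [0, 0, 0, 1, 0, 0, -2, 0, 0, 1]
  (.der [(670, 1, [(0, 1)])]
  (.leaf [(1, [⟨0, 14, [0, 1, 2, 3, 4, 5, 6, 7, 8, 9, 10, 11, 12, 13, 14]⟩])] [(1, [(1, false), (14, false), (10, false), (11, false), (8, false)])] 1 []))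
  (.der [(895, 1, [(0, 1)])]
  (.br [-1, 0, 0, 1, 0, 1, -1]
  (.der [(550, 1, [(0, 1)])]
  (.br [0, 0, 0, 0, 0, -1, 1, 0, 1, -1]
  (.der [(898, 1, [(0, 1)])]
  (.br [1, 0, -1, 0, -1, 0, 1]
  (.der [(93, 1, [(0, 1)])]
  (.br [0, 1, 0, -2, 0, 1]
  (.der [(302, 1, [(0, 1)])]
  (.leaf [(2, [⟨0, 2, [0, 1, 2, 5]⟩, ⟨6, 11, [3, 4, 6, 7, 8, 9, 10, 11, 12]⟩, ⟨13, 14, [13, 14]⟩])] [(1, [(1, false), (14, false), (9, false), (13, true), (10, false), (11, false), (8, false)]), (1, [(1, false), (14, false), (6, true), (10, false), (11, false), (8, false)])] 1 []))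
  (.der [(260, 1, [(0, 1)])]
  (.br [-1, 0, 0, 0, 2, 0, 0, 0, -1]
  (.der [(69, 1, [(0, 1)])]
  (.br [-1, 0, 1, 0, 0, 0, 1, 0, -1]
  (.der [(67, 1, [(0, 1)])]
  (.br [0, 1, 0, -1, 0, -1, 0, 1]
  (.der [(318, 1, [(0, 1)])]
  (.leaf [(2, [⟨0, 5, [0, 1, 2, 5]⟩, ⟨6, 3, [3, 6]⟩, ⟨4, 11, [4, 7, 8, 9, 10, 11, 12]⟩, ⟨13, 14, [13, 14]⟩])] [(1, [(1, false), (14, false), (6, true), (10, false), (11, false), (8, false)]), (1, [(4, false), (5, false), (13, true), (10, false), (11, false), (8, false)])] 1 [(28, 2)]))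
  (.der [(276, 1, [(0, 1)])]
  (.leaf [(2, [⟨0, 6, [0, 1, 2, 3, 5, 6]⟩, ⟨4, 11, [4, 7, 8, 9, 10, 11, 12]⟩, ⟨13, 14, [13, 14]⟩]), (2, [⟨0, 5, [0, 1, 2, 5]⟩, ⟨6, 6, [3, 6]⟩, ⟨4, 11, [4, 7, 8, 9, 10, 11, 12]⟩, ⟨13, 14, [13, 14]⟩])] [(1, [(1, false), (14, false), (9, false), (13, true), (10, false), (11, false), (8, false)]), (1, [(1, false), (14, false), (10, true), (11, false), (8, false)]), (1, [(4, false), (5, false), (13, true), (11, true), (8, false)]), (1, [(4, false), (5, false), (13, true), (10, false), (11, false), (8, false)])] 1 []))))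
  (.der [(109, 1, [(0, 1)]), (114, 1, [(0, 1), (1, 1)])]
  (.br [0, 1, 0, -1, 0, -1, 0, 1]
  (.der [(318, 1, [(0, 1)])]
  (.leaf [(2, [⟨0, 5, [0, 1, 2, 5]⟩, ⟨6, 3, [3, 6]⟩, ⟨7, 11, [4, 7, 8, 9, 10, 11, 12]⟩, ⟨13, 14, [13, 14]⟩])] [(1, [(1, false), (14, false), (9, false), (10, true), (11, false), (8, false)]), (1, [(1, false), (14, false), (6, true), (10, false), (11, false), (8, false)])] 1 [(28, 2)]))
  (.der [(276, 1, [(0, 1)])]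
  (.leaf [(2, [⟨0, 6, [0, 1, 2, 3, 5, 6]⟩, ⟨7, 11, [4, 7, 8, 9, 10, 11, 12]⟩, ⟨13, 14, [13, 14]⟩])] [(1, [(1, false), (14, false), (9, false), (10, true), (11, false), (8, false)]), (1, [(1, false), (14, false), (13, true), (10, false), (11, false), (8, false)])] 1 []))))))
  (.br [0, -1, 1, 0, 1, -1]
  (.der [(816, 1, [(0, 1)])]
  (.leaf [(2, [⟨0, 0, [0]⟩, ⟨1, 5, [1, 2, 5]⟩, ⟨6, 11, [3, 4, 6, 7, 8, 9, 10, 11, 12]⟩, ⟨13, 13, [13]⟩, ⟨14, 14, [14]⟩])] [(1, [(1, false), (14, false), (6, true), (10, false), (11, false), (8, false)]), (1, [(4, false), (9, true), (6, true), (10, false), (11, false), (8, false)])] 1 [(1, 2), (27, 2)]))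
  (.leaf [(2, [⟨0, 11, [0, 1, 2, 3, 4, 5, 6, 7, 8, 9, 10, 11, 12]⟩, ⟨13, 14, [13, 14]⟩])] [(1, [(1, false), (14, false), (9, false), (13, true), (10, false), (11, false), (8, false)]), (1, [(1, false), (14, false), (6, true), (10, false), (11, false), (8, false)])] 1 [(0, 2)]))))))
  (.der [(51, 1, [(0, 1)])]
  (.br [0, -1, 0, 2, 0, -1]
  (.der [(260, 1, [(0, 1)])]
  (.leaf [(2, [⟨0, 5, [0, 1, 2, 5]⟩, ⟨3, 11, [3, 4, 6, 7, 8, 9, 10, 11, 12]⟩, ⟨13, 14, [13, 14]⟩])] [(1, [(1, false), (14, false), (10, true), (11, false), (8, false)]), (1, [(4, false), (5, false), (13, true), (10, false), (11, false), (8, false)])] 1 []))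
  (.der [(302, 1, [(0, 1)])]
  (.br [0, 0, 0, 0, 1, 0, -2, 0, 1]
  (.der [(191, 1, [(0, 1)])]
  (.leaf [(2, [⟨0, 8, [0, 1, 2, 3, 4, 5, 6, 7, 8, 9, 10]⟩, ⟨12, 11, [11, 12]⟩, ⟨13, 14, [13, 14]⟩])] [(1, [(1, false), (14, false), (10, true), (11, false), (8, false)]), (1, [(1, false), (14, false), (13, true), (10, false), (11, false), (8, false)])] 1 []))
  (.der [(177, 1, [(0, 1)])]
  (.leaf [(2, [⟨0, 11, [0, 1, 2, 3, 4, 5, 6, 7, 8, 9, 10, 11, 12]⟩, ⟨13, 14, [13, 14]⟩]), (2, [⟨0, 2, [0, 1, 2, 5]⟩, ⟨3, 8, [3, 4, 6, 7, 8, 9, 10]⟩, ⟨11, 11, [11, 12]⟩, ⟨13, 14, [13, 14]⟩])] [(1, [(1, false), (14, false), (6, true), (10, false), (11, false), (8, false)]), (1, [(4, false), (5, false), (13, true), (10, false), (11, false), (8, false)]), (2, [(1, false), (14, false), (13, true), (10, false), (11, false), (8, false)])] 1 []))))))))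
  (.der [(673, 1, [(0, 1)])]
  (.leaf [(1, [⟨0, 14, [0, 1, 2, 3, 4, 5, 6, 7, 8, 9, 10, 11, 12, 13, 14]⟩])] [(1, [(1, false), (14, false), (13, false), (10, false), (11, false), (8, false)])] 1 []))))
  (.der [(775, 1, [(0, 1)])]
  (.br [0, 1, 0, -2, 0, 1]
  (.der [(302, 1, [(0, 1)])]
  (.leaf [(2, [⟨0, 2, [0, 1, 2, 5]⟩, ⟨6, 6, [6]⟩, ⟨3, 11, [3, 4, 7, 8, 9, 10, 11, 12]⟩, ⟨13, 14, [13, 14]⟩])] [(1, [(1, false), (14, false), (9, false), (13, true), (10, false), (11, false), (8, false)]), (1, [(1, false), (14, false), (6, true), (10, true), (11, false), (8, false)])] 1 []))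
  (.der [(260, 1, [(0, 1)]), (534, 1, [(0, 1), (10, 1), (14, 1)])]
  (.br [0, -1, 1, 0, 1, -1]
  (.der [(816, 1, [(0, 1)])]
  (.leaf [(1, [⟨0, 0, [0]⟩, ⟨1, 5, [1, 2, 5]⟩, ⟨6, 6, [6]⟩, ⟨3, 11, [3, 4, 7, 8, 9, 10, 11, 12]⟩, ⟨13, 14, [13, 14]⟩])] [(1, [(4, false), (5, false), (9, false), (6, true), (10, true), (11, false), (8, false)])] 1 [(15, 2), (20, 1)]))
  (.leaf [(2, [⟨0, 6, [0, 1, 2, 5, 6]⟩, ⟨3, 11, [3, 4, 7, 8, 9, 10, 11, 12]⟩, ⟨13, 14, [13, 14]⟩])] [(1, [(1, false), (14, false), (9, false), (13, true), (10, false), (11, false), (8, false)]), (1, [(1, false), (14, false), (6, true), (10, true), (11, false), (8, false)])] 1 [(0, 2)])))))))))))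
  (.der [(302, 1, [(0, 1), (10, 1), (12, 1), (17, 1), (19, 1)]), (598, 1, [(0, 1), (5, 1), (10, 1), (12, 1), (16, 1)]), (880, 1, [(0, 1)]), (894, 1, [(0, 1)])]
  (.br [-1, 0, 0, 1, 0, 1, -1]
  (.der [(550, 1, [(0, 1)])]
  (.br [0, -1, 1, 0, 1, -1]
  (.der [(816, 1, [(0, 1)])]
  (.br [0, 0, 0, 0, -1, 0, 2, 0, -1]
  (.der [(177, 1, [(0, 1)])]
  (.leaf [(2, [⟨0, 1, [0, 1]⟩, ⟨5, 5, [5]⟩, ⟨2, 8, [2, 3, 4, 6, 7, 8, 9]⟩, ⟨10, 10, [10]⟩, ⟨11, 11, [11, 12]⟩, ⟨13, 14, [13, 14]⟩])] [(1, [(4, false), (5, false), (13, true), (10, true), (11, false), (8, false)]), (1, [(1, false), (14, false), (9, true), (6, true), (10, false), (11, false), (8, false)])] 1 [(22, 2)]))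
  (.der [(191, 1, [(0, 1)])]
  (.leaf [(2, [⟨0, 5, [0, 1, 5]⟩, ⟨2, 8, [2, 3, 4, 6, 7, 8, 9]⟩, ⟨10, 10, [10]⟩, ⟨12, 14, [11, 12, 13, 14]⟩])] [(1, [(1, false), (14, false), (9, true), (10, true), (11, false), (8, false)]), (1, [(4, false), (5, false), (13, true), (10, true), (11, false), (8, false)])] 1 [(8, 2), (19, 2)]))))
  (.der [(485, 1, [(0, 1)]), (591, 1, [(0, 1)])]
  (.leaf [(2, [⟨0, 5, [0, 1, 5]⟩, ⟨2, 8, [2, 3, 4, 6, 7, 8, 9]⟩, ⟨10, 11, [10, 11, 12]⟩, ⟨13, 14, [13, 14]⟩])] [(1, [(1, false), (14, false), (9, true), (13, false), (10, true), (11, false), (8, false)]), (1, [(2, false), (5, false), (13, true), (9, false), (6, false), (10, false), (11, false), (8, false)])] 1 []))))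
  (.der [(93, 1, [(0, 1), (6, 1), (11, 1), (14, 1)]), (775, 1, [(0, 1)])]
  (.br [0, 0, 0, 0, 0, 1, -1, 0, -1, 1]
  (.der [(673, 1, [(0, 1)])]
  (.br [0, 1, 0, 0, -2, 0, 0, 0, 0, 1]
  (.der [(651, 1, [(0, 1)])]
  (.leaf [(2, [⟨0, 5, [0, 1, 5]⟩, ⟨2, 6, [2, 6]⟩, ⟨3, 11, [3, 4, 7, 8, 9, 10, 11, 12]⟩, ⟨13, 14, [13, 14]⟩])] [(1, [(4, false), (5, false), (13, true), (10, true), (11, false), (8, false)]), (1, [(1, false), (14, false), (13, false), (6, false), (10, true), (11, false), (8, false)])] 1 []))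
  (.der [(876, 1, [(0, 1)])]
  (.leaf [(1, [⟨0, 2, [0, 1, 2, 5]⟩, ⟨6, 8, [3, 4, 6, 7, 8, 9]⟩, ⟨10, 14, [10, 11, 12, 13, 14]⟩]), (2, [⟨0, 5, [0, 1, 5]⟩, ⟨2, 2, [2]⟩, ⟨6, 8, [3, 4, 6, 7, 8]⟩, ⟨9, 8, [9]⟩, ⟨10, 11, [10, 11, 12]⟩, ⟨13, 14, [13, 14]⟩]), (3, [⟨0, 0, [0]⟩, ⟨1, 5, [1, 5]⟩, ⟨2, 2, [2]⟩, ⟨6, 8, [3, 4, 6, 7, 8]⟩, ⟨9, 8, [9]⟩, ⟨10, 11, [10, 11, 12]⟩, ⟨13, 14, [13, 14]⟩])] [(2, [(1, false), (14, false), (9, true), (10, true), (11, false), (8, false)]), (4, [(1, false), (14, false), (13, false), (6, true), (10, true), (11, false), (8, false)])] 1 [(0, 4), (13, 1), (15, 5), (22, 5)]))))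
  (.der [(898, 1, [(0, 1)])]
  (.br [0, 1, 0, 0, -2, 0, 0, 0, 0, 1]
  (.der [(651, 1, [(0, 1)])]
  (.leaf [(2, [⟨0, 5, [0, 1, 5]⟩, ⟨2, 8, [2, 3, 4, 6, 7, 8, 9]⟩, ⟨10, 11, [10, 11, 12]⟩, ⟨13, 14, [13, 14]⟩])] [(1, [(1, false), (14, false), (9, true), (13, false), (10, true), (11, false), (8, false)]), (1, [(1, false), (14, false), (13, true), (6, false), (10, true), (11, false), (8, false)])] 1 [(15, 4), (19, 2)]))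
  (.der [(876, 1, [(0, 1)])]
  (.leaf [(2, [⟨0, 2, [0, 1, 2, 5]⟩, ⟨6, 8, [3, 4, 6, 7, 8, 9]⟩, ⟨10, 11, [10, 11, 12]⟩, ⟨13, 13, [13]⟩, ⟨14, 14, [14]⟩]), (2, [⟨0, 5, [0, 1, 5]⟩, ⟨2, 2, [2]⟩, ⟨6, 8, [3, 4, 6, 7, 8, 9]⟩, ⟨10, 11, [10, 11, 12]⟩, ⟨13, 13, [13]⟩, ⟨14, 14, [14]⟩]), (2, [⟨0, 5, [0, 1, 5]⟩, ⟨2, 2, [2]⟩, ⟨6, 6, [6]⟩, ⟨3, 8, [3, 4, 7, 8, 9]⟩, ⟨10, 11, [10, 11, 12]⟩, ⟨13, 13, [13]⟩, ⟨14, 14, [14]⟩]), (2, [⟨0, 0, [0]⟩, ⟨1, 5, [1, 5]⟩, ⟨2, 2, [2]⟩, ⟨6, 6, [6]⟩, ⟨3, 8, [3, 4, 7, 8, 9]⟩, ⟨10, 11, [10, 11, 12]⟩, ⟨13, 13, [13]⟩, ⟨14, 14, [14]⟩]), (2, [⟨0, 0, [0]⟩, ⟨1, 5, [1, 5]⟩, ⟨2, 2, [2]⟩, ⟨6, 6, [6]⟩, ⟨3, 8, [3, 4, 7, 8]⟩, ⟨9, 8, [9]⟩, ⟨10, 11, [10, 11, 12]⟩, ⟨13, 13, [13]⟩, ⟨14, 14, [14]⟩])] [(1, [(1, false), (14, false), (9, true), (10, true), (11, false), (8, false)]), (9, [(1, false), (14, false), (13, true), (6, true),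 (10, true), (11, false), (8, false)])] 1 [(13, 6), (15, 14), (19, 6), (22, 12)]))))))))))))
  (.der [(294, 1, [(0, 1), (5, 1), (6, 1)]), (339, 4, [(0, 3), (1, 1), (7, 2), (14, 2)]), (354, 1, [(0, 1)]), (598, 2, [(0, 2), (1, 1), (2, 1), (3, 1), (15, 1)])]
  (.br [0, 0, -1, 1, 0, 1, -1]
  (.der [(595, 1, [(0, 1)])]
  (.br [0, 0, 0, 0, 0, 1, -1, 0, -1, 1]
  (.der [(673, 1, [(0, 1)])]
  (.leaf [(1, [⟨0, 14, [0, 1, 2, 3, 4, 5, 6, 7, 8, 9, 10, 11, 12, 13, 14]⟩])] [(1, [(1, false), (14, false), (13, false), (9, false), (10, false), (11, false), (8, false)])] 1 []))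
  (.der [(898, 1, [(0, 1)])]
  (.leaf [(1, [⟨0, 11, [0, 1, 2, 3, 4, 5, 6, 7, 8, 9, 10, 11, 12]⟩, ⟨13, 13, [13]⟩, ⟨14, 14, [14]⟩])] [(1, [(1, false), (14, false), (13, true), (9, false), (10, false), (11, false), (8, false)])] 1 [(1, 1), (19, 1)]))))
  (.der [(820, 1, [(0, 1)])]
  (.br [0, 0, 0, 0, 0, 1, -1, 0, -1, 1]
  (.der [(673, 1, [(0, 1)])]
  (.br [0, 1, 0, 0, -2, 0, 0, 0, 0, 1]
  (.der [(651, 1, [(0, 1)])]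
  (.br [0, 0, 0, 1, -1, 0, -1, 0, 0, 1]
  (.der [(492, 1, [(0, 1), (4, 1)]), (643, 1, [(0, 1), (3, 1), (4, 1), (7, 1)]), (655, 1, [(0, 1)])]
  (.leaf [(1, [⟨0, 14, [0, 1, 2, 3, 4, 5, 6, 7, 8, 9, 10, 11, 12, 13, 14]⟩])] [(1, [(2, false), (12, false), (13, false), (10, false), (11, false), (8, false)])] 1 []))
  (.der [(880, 1, [(0, 1)])]
  (.br [-1, 0, 0, 1, 0, 1, -1]
  (.der [(550, 1, [(0, 1)])]
  (.leaf [(1, [⟨0, 14, [0, 1, 2, 3, 4, 5, 6, 7, 8, 9, 10, 11, 12, 13, 14]⟩])] [(1, [(1, false), (14, false), (13, false), (6, false), (10, false), (11, false), (8, false)])] 1 []))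
  (.der [(775, 1, [(0, 1)])]
  (.leaf [(26, [⟨0, 6, [0, 1, 2, 5, 6]⟩, ⟨3, 14, [3, 4, 7, 8, 9, 10, 11, 12, 13, 14]⟩]), (16, [⟨0, 5, [0, 1, 5]⟩, ⟨2, 6, [2, 6]⟩, ⟨3, 14, [3, 4, 7, 8, 9, 10, 11, 12, 13, 14]⟩]), (8, [⟨0, 5, [0, 1, 5]⟩, ⟨2, 6, [2, 6]⟩, ⟨3, 9, [3, 4, 7, 8, 9]⟩, ⟨10, 14, [10, 11, 12, 13, 14]⟩]), (10, [⟨0, 0, [0]⟩, ⟨1, 5, [1, 5]⟩, ⟨2, 6, [2, 6]⟩, ⟨3, 9, [3, 4, 7, 8, 9]⟩, ⟨10, 11, [10, 11, 12]⟩, ⟨13, 14, [13, 14]⟩])] [(1, []), (6, [(1, false), (14, false), (13, false), (10, true), (11, false), (8, false)]), (53, [(1, false), (14, false), (13, false), (6, false), (10, true), (11, false), (8, false)])] 1 [(7, 20), (15, 30), (22, 10)]))))))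
  (.der [(876, 1, [(0, 1)])]
  (.leaf [(4, [⟨0, 1, [0, 1]⟩, ⟨5, 5, [5]⟩, ⟨2, 9, [2, 3, 4, 6, 7, 8, 9]⟩, ⟨10, 11, [10, 11, 12]⟩, ⟨13, 14, [13, 14]⟩])] [(3, [(1, false), (14, false), (13, false), (9, false), (10, true), (11, false), (8, false)]), (1, [(4, false), (5, false), (13, true), (6, true), (11, true), (8, false)])] 1 [(0, 2), (2, 2)]))))
  (.der [(898, 1, [(0, 1)])]
  (.br [0, 1, 0, 0, -2, 0, 0, 0, 0, 1]
  (.der [(651, 1, [(0, 1)])]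
  (.br [0, 0, 0, 1, -1, 0, -1, 0, 0, 1]
  (.der [(492, 1, [(0, 1), (4, 1)]), (643, 1, [(0, 1), (3, 1), (4, 1), (7, 1)]), (655, 1, [(0, 1)])]
  (.leaf [(1, [⟨0, 14, [0, 1, 2, 3, 4, 5, 6, 7, 8, 9, 10, 11, 12, 13, 14]⟩])] [(1, [(2, false), (12, false), (13, false), (10, false), (11, false), (8, false)])] 1 []))
  (.der [(880, 1, [(0, 1)]), (894, 1, [(0, 1)])]
  (.br [0, 0, 0, 0, -1, 1, 0, 1, -1]
  (.der [(643, 1, [(0, 1)])]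
  (.br [-1, 0, 0, 1, 0, 1, -1]
  (.der [(537, 1, [(0, 1)]), (550, 1, [(0, 1)])]
  (.leaf [(1, [⟨0, 14, [0, 1, 2, 3, 4, 5, 6, 7, 8, 9, 10, 11, 12, 13, 14]⟩])] [(1, [(4, false), (5, false), (12, false), (13, false), (6, false), (10, false), (11, false), (8, false)])] 1 []))
  (.der [(762, 1, [(0, 1)]), (775, 1, [(0, 1)])]
  (.leaf [(4, [⟨0, 5, [0, 1, 5]⟩, ⟨2, 6, [2, 6]⟩, ⟨3, 9, [3, 4, 7, 8, 9]⟩, ⟨10, 14, [10, 11, 12, 13, 14]⟩]), (2, [⟨0, 0, [0]⟩, ⟨1, 5, [1, 5]⟩, ⟨2, 6, [2, 6]⟩, ⟨3, 9, [3, 4, 7, 8, 9]⟩, ⟨10, 14, [10, 11, 12, 13, 14]⟩]), (2, [⟨0, 0, [0]⟩, ⟨1, 5, [1, 5]⟩, ⟨2, 6, [2, 6]⟩, ⟨3, 9, [3, 4, 7, 8, 9]⟩, ⟨10, 11, [10, 11, 12]⟩, ⟨13, 14, [13, 14]⟩])] [(1, [(1, false), (14, false), (13, true), (9, false), (10, true), (11, false), (8, false)]), (3, [(4, false), (5, false), (12, true), (13, false), (6, false), (10, true),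 (11, false), (8, false)]), (4, [(1, false), (14, false), (12, false), (6, true), (10, true), (11, false), (8, false)])] 1 [(5, 2), (16, 8)]))))
  (.der [(470, 1, [(0, 2), (2, 1), (5, 1), (8, 2)]), (868, 1, [(0, 1)])]
  (.br [-1, 0, 0, 1, 0, 1, -1]
  (.der [(537, 1, [(0, 1)]), (550, 1, [(0, 1)])]
  (.leaf [(4, [⟨0, 5, [0, 1, 5]⟩, ⟨2, 9, [2, 3, 4, 6, 7, 8, 9]⟩, ⟨10, 13, [10, 11, 12, 13]⟩, ⟨14, 14, [14]⟩])] [(1, [(4, false), (5, false), (13, true), (6, false), (11, true), (8, false)]), (1, [(1, false), (14, false), (9, true), (13, false), (10, true), (11, false), (8, false)]), (2, [(1, false), (5, false), (12, false), (13, true), (6, false), (10, false), (11, false), (8, false)])] 1 []))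
  (.der [(762, 1, [(0, 1)]), (775, 1, [(0, 1)])]
  (.leaf [(4, [⟨0, 5, [0, 1, 5]⟩, ⟨2, 9, [2, 3, 4, 6, 7, 8, 9]⟩, ⟨10, 11, [10, 11, 12]⟩, ⟨13, 14, [13, 14]⟩])] [(2, [(1, false), (14, false), (13, true), (9, false), (10, true), (11, false), (8, false)]), (1, [(1, false), (14, false), (9, true), (13, false), (10, true), (11, false), (8, false)]), (1, [(1, false), (5, false), (12, true), (13, true), (6, false), (10, true), (11, false), (8, false)])] 1 [(1, 2), (9, 4), (16, 8), (20, 4)]))))))))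
  (.der [(69, 2, [(0, 2), (2, 1), (7, 1), (13, 1), (17, 1), (18, 1), (21, 1)]), (114, 2, [(0, 2), (7, 1), (9, 1), (13, 2), (17, 1), (18, 1), (19, 1)]), (876, 1, [(0, 1)])]
  (.br [0, 1, 0, -1, 0, -1, 0, 1]
  (.der [(318, 1, [(0, 1)])]
  (.br [-1, 0, 1, 0, 0, 0, 1, 0, -1]
  (.der [(67, 1, [(0, 1)])]
  (.leaf [(2, [⟨0, 5, [0, 1, 5]⟩, ⟨2, 3, [2, 3, 6]⟩, ⟨4, 9, [4, 7, 8, 9]⟩, ⟨10, 11, [10, 11, 12]⟩, ⟨13, 14, [13, 14]⟩])] [(1, [(1, false), (14, false), (13, true), (9, false), (10, true), (11, false), (8, false)]), (1, [(4, false), (5, false), (13, true), (6, true), (11, true), (8, false)])] 1 [(8, 2), (19, 2)]))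
  (.der [(109, 1, [(0, 1)])]
  (.leaf [(2, [⟨0, 5, [0, 1, 5]⟩, ⟨2, 3, [2, 3, 6]⟩, ⟨7, 9, [4, 7, 8, 9]⟩, ⟨10, 11, [10, 11, 12]⟩, ⟨13, 14, [13, 14]⟩]), (2, [⟨0, 5, [0, 1, 5]⟩, ⟨2, 3, [2, 3, 6]⟩, ⟨7, 9, [4, 7, 8, 9]⟩, ⟨10, 11, [10, 11, 12]⟩, ⟨13, 13, [13]⟩, ⟨14, 14, [14]⟩])] [(3, [(1, false), (14, false), (13, true), (9, false), (10, true), (11, false), (8, false)]), (1, [(4, false), (5, false), (13, true), (6, true), (11, true), (8, false)])] 1 [(2, 2), (8, 2), (19, 4)]))))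
  (.leaf [(2, [⟨0, 0, [0]⟩, ⟨1, 5, [1, 5]⟩, ⟨2, 9, [2, 3, 4, 6, 7, 8, 9]⟩, ⟨10, 11, [10, 11, 12]⟩, ⟨13, 13, [13]⟩, ⟨14, 14, [14]⟩])] [(1, [(1, false), (14, false), (13, true), (9, false), (10, true), (11, false), (8, false)]), (1, [(4, false), (5, false), (13, true), (6, true), (11, true), (8, false)])] 1 [(0, 2)])))))))))))
  (.der [(879, 1, [(0, 1)])]
  (.br [0, 0, -1, 1, 0, 1, -1]
  (.der [(595, 1, [(0, 1)])]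
  (.br [0, 0, 0, 0, 0, 1, -1, 0, -1, 1]
  (.der [(673, 1, [(0, 1)])]
  (.leaf [(38, [⟨0, 5, [0, 1, 5]⟩, ⟨2, 8, [2, 3, 4, 6, 7, 8]⟩, ⟨9, 14, [9, 10, 11, 12, 13, 14]⟩]), (6, [⟨0, 5, [0, 1, 5]⟩, ⟨2, 8, [2, 3, 4, 6, 7, 8]⟩, ⟨9, 13, [9, 10, 11, 12, 13]⟩, ⟨14, 14, [14]⟩]), (36, [⟨0, 5, [0, 1, 5]⟩, ⟨2, 8, [2, 3, 4, 6, 7, 8]⟩, ⟨9, 9, [9]⟩, ⟨10, 13, [10, 11, 12, 13]⟩, ⟨14, 14, [14]⟩])] [(2, []), (9, [(3, false), (10, true), (11, false), (8, false)]), (69, [(1, false), (14, false), (13, false), (9, true), (10, false), (11, false), (8, false)])] 1 [(15, 12), (17, 84)]))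
  (.der [(898, 1, [(0, 1)])]
  (.leaf [(1, [⟨0, 5, [0, 1, 5]⟩, ⟨2, 8, [2, 3, 4, 6, 7, 8]⟩, ⟨9, 9, [9]⟩, ⟨10, 11, [10, 11, 12]⟩, ⟨13, 14, [13, 14]⟩])] [(1, [(1, false), (14, false), (13, true), (9, true), (10, false), (11, false), (8, false)])] 1 [(13, 2), (17, 1)]))))
  (.der [(820, 1, [(0, 1)])]
  (.br [0, 0, 0, 0, 0, 1, -1, 0, -1, 1]
  (.der [(673, 1, [(0, 1)])]
  (.leaf [(1, [⟨0, 5, [0, 1, 5]⟩, ⟨2, 8, [2, 3, 4, 6, 7, 8]⟩, ⟨9, 9, [9]⟩, ⟨10, 11, [10, 11, 12]⟩, ⟨13, 14, [13, 14]⟩])] [(1, [(1, false), (14, false), (13, false), (9, true), (10, true), (11, false), (8, false)])] 1 [(4, 2), (12, 2), (17, 1)]))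
  (.der [(898, 1, [(0, 1)])]
  (.leaf [(1, [⟨0, 5, [0, 1, 5]⟩, ⟨2, 8, [2, 3, 4, 6, 7, 8]⟩, ⟨9, 9, [9]⟩, ⟨10, 11, [10, 11, 12]⟩, ⟨13, 14, [13, 14]⟩])] [(1, [(1, false), (14, false), (13, true), (9, true), (10, true), (11, false), (8, false)])] 1 [(4, 2), (11, 2), (15, 2), (17, 1)]))))))))))

theorem tree8_ok : tree8.check ([0, 0, -1, 1, 0, 0, 0, 1, -1] :: ctx0) (dersMask 0 com) = true := by decide +kernel

end Pool.Agent.MSTDIntervals
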