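import Pool.Agent.MSTDIntervals.Data0

/-!
Certificate data (machine generated, checked by the kernel).
-/

namespace Pool.Agent.MSTDIntervals

/-- certificate for the face `[-1, 0, 0, 1, 0, 0, 0, 1, -1] = 0` -/
def tree9 : Tree :=
  (.der [(109, 1, [(0, 1), (3, 1), (7, 1)]), (689, 1, [(0, 1), (2, 1), (3, 1)]), (788, 1, [(0, 1), (2, 1), (3, 1)])]
  (.br [0, 0, 0, 0, 0, 1, -1, 0, -1, 1]
  (.der [(673, 1, [(0, 1)])]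
  (.br [0, 1, 0, 0, -2, 1]
  (.der [(486, 1, [(0, 1)])]
  (.br [-1, 0, 0, 1, 0, 1, -1]
  (.der [(550, 1, [(0, 1)])]
  (.br [1, -1, 0, 0, 0, -1, 1]
  (.br [0, -1, 1, 0, 0, 0, 1, -1]
  (.der [(832, 1, [(0, 1)])]
  (.leaf [(2, [⟨0, 0, [0]⟩, ⟨1, 5, [1, 5]⟩, ⟨2, 13, [2, 3, 4, 6, 7, 8, 9, 10, 11, 12, 13]⟩, ⟨14, 14, [14]⟩])] [(1, [(4, false), (5, false), (14, false), (13, false), (7, true), (11, false), (8, false)]), (1, [(2, false), (6, false), (10, false), (7, true), (11, false), (8, false)])] 1 [(5, 4), (12, 4)]))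
  (.leaf [(2, [⟨0, 5, [0, 1, 5]⟩, ⟨2, 13, [2, 3, 4, 6, 7, 8, 9, 10, 11, 12, 13]⟩, ⟨14, 14, [14]⟩])] [(1, [(4, false), (5, false), (14, false), (13, false), (7, true), (11, false), (8, false)]), (1, [(2, false), (6, false), (10, false), (11, true), (8, false)])] 1 [(0, 2), (5, 2)]))
  (.leaf [(2, [⟨0, 5, [0, 1, 5]⟩, ⟨2, 13, [2, 3, 4, 6, 7, 8, 9, 10, 11, 12, 13]⟩, ⟨14, 14, [14]⟩])] [(1, [(4, false), (5, false), (14, false), (13, false), (7, true), (11, false), (8, false)]), (1, [(2, false), (6, false), (11, true), (8, false)])] 1 [(0, 2), (4, 2)])))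
  (.der [(775, 1, [(0, 1)])]
  (.br [0, -1, 1, 0, 0, 0, 1, -1]
  (.der [(832, 1, [(0, 1)])]
  (.leaf [(2, [⟨0, 0, [0]⟩, ⟨1, 5, [1, 5]⟩, ⟨2, 11, [2, 3, 4, 6, 7, 8, 9, 10, 11, 12]⟩, ⟨13, 14, [13, 14]⟩])] [(1, [(4, false), (5, false), (14, false), (13, false), (7, true), (11, false), (8, false)]), (1, [(2, false), (6, false), (10, true), (7, true), (11, false), (8, false)])] 1 [(4, 2), (11, 4)]))
  (.leaf [(2, [⟨0, 5, [0, 1, 5]⟩, ⟨2, 11, [2, 3, 4, 6, 7, 8, 9, 10, 11, 12]⟩, ⟨13, 14, [13, 14]⟩])] [(1, [(4, false), (5, false), (14, false), (13, false), (7, true), (11, false), (8, false)]), (1, [(2, false), (6, false), (10, true), (11, true), (8, false)])] 1 [(0, 2)])))))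
  (.br [0, 0, 0, 1, -2, 0, 0, 0, 0, 1]
  (.der [(654, 1, [(0, 1)])]
  (.br [-1, 0, 0, 1, 0, 1, -1]
  (.der [(550, 1, [(0, 1)])]
  (.br [0, 1, -1, 0, -1, 1]
  (.der [(485, 1, [(0, 1)]), (591, 1, [(0, 1)])]
  (.br [0, -1, 1, 0, 0, 0, 1, -1]
  (.der [(832, 1, [(0, 1)])]
  (.leaf [(2, [⟨0, 0, [0]⟩, ⟨1, 5, [1, 5]⟩, ⟨2, 13, [2, 3, 4, 6, 7, 8, 9, 10, 11, 12, 13]⟩, ⟨14, 14, [14]⟩])] [(1, [(4, false), (5, false), (14, false), (13, false), (7, true), (11, false), (8, false)]), (1, [(4, false), (5, false), (14, false), (13, false), (9, false), (6, false), (10, false), (7, true), (11, false), (8, false)])] 1 [(6, 4), (13, 4)]))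
  (.der [(500, 1, [(0, 1)]), (607, 1, [(0, 1)])]
  (.br [-1, 1, 0, 0, 0, 1, -1]
  (.der [(547, 1, [(0, 1)])]
  (.leaf [(1, [⟨0, 14, [0, 1, 2, 3, 4, 5, 6, 7, 8, 9, 10, 11, 12, 13, 14]⟩])] [(1, [(3, false), (5, false), (14, false), (13, false), (9, false), (6, false), (7, false), (11, false), (8, false)])] 1 []))
  (.der [(772, 1, [(0, 1)])]
  (.br [0, 0, 0, 1, -1, 0, -1, 0, 0, 1]
  (.der [(655, 1, [(0, 1)])]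
  (.leaf [(1, [⟨0, 14, [0, 1, 2, 3, 4, 5, 6, 7, 8, 9, 10, 11, 12, 13, 14]⟩])] [(1, [(2, false), (5, false), (14, false), (13, false), (10, false), (7, false), (11, false), (8, false)])] 1 []))
  (.der [(880, 1, [(0, 1)])]
  (.leaf [(6, [⟨0, 5, [0, 1, 5]⟩, ⟨2, 11, [2, 3, 4, 6, 7, 8, 9, 10, 11, 12]⟩, ⟨13, 14, [13, 14]⟩])] [(1, [(1, false), (14, true), (13, false), (9, false), (6, false), (10, false), (11, true), (8, false)]), (2, [(2, false), (5, false), (14, false), (13, false), (9, false), (6, false), (7, true), (11, false), (8, false)]), (3, [(2, false), (5, false), (14, false), (13, false), (10, true), (7, false), (11, false), (8, false)])] 1 [(2, 4), (21, 2)]))))))))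
  (.der [(816, 1, [(0, 1)])]
  (.br [0, 0, 0, -1, 0, 0, 0, 2, 0, -1]
  (.der [(357, 1, [(0, 1)])]
  (.br [0, -1, 1, 0, 0, 0, 1, -1]
  (.der [(832, 1, [(0, 1)])]
  (.br [0, 0, 0, 1, -1, 0, -1, 0, 0, 1]
  (.der [(655, 1, [(0, 1)])]
  (.leaf [(2, [⟨0, 0, [0]⟩, ⟨1, 5, [1, 5]⟩, ⟨2, 13, [2, 3, 4, 6, 7, 8, 9, 10, 11, 12, 13]⟩, ⟨14, 14, [14]⟩])] [(1, [(4, false), (5, false), (14, false), (13, false), (7, true), (11, false), (8, false)]), (1, [(4, false), (5, false), (14, false), (13, false), (10, false), (7, true), (11, false), (8, false)])] 1 [(8, 4), (15, 4)]))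
  (.der [(880, 1, [(0, 1)])]
  (.leaf [(2, [⟨0, 0, [0]⟩, ⟨1, 1, [1]⟩, ⟨5, 5, [5]⟩, ⟨2, 12, [2, 3, 4, 6, 7, 8, 9, 10, 12]⟩, ⟨11, 11, [11]⟩, ⟨13, 14, [13, 14]⟩])] [(1, [(4, false), (5, false), (14, false), (13, false), (9, false), (6, true), (10, false), (7, true), (11, false), (8, false)]), (1, [(4, false), (5, false), (14, false), (13, false), (10, true), (7, true), (11, false), (8, false)])] 1 [(8, 4), (15, 4)]))))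
  (.der [(500, 1, [(0, 1)]), (607, 1, [(0, 1)])]
  (.leaf [(2, [⟨0, 0, [0]⟩, ⟨1, 5, [1, 5]⟩, ⟨2, 12, [2, 3, 4, 6, 7, 8, 9, 10, 12]⟩, ⟨11, 11, [11]⟩, ⟨13, 14, [13, 14]⟩])] [(1, [(4, false), (5, false), (14, false), (13, false), (7, true), (11, false), (8, false)]), (1, [(3, false), (5, false), (14, false), (13, false), (9, false), (6, true), (10, false), (7, false), (11, false), (8, false)])] 1 [(7, 4)]))))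
  (.der [(368, 1, [(0, 1), (12, 2), (13, 2)]), (383, 1, [(0, 1), (12, 1), (13, 1)]), (413, 1, [(0, 1)])]
  (.leaf [(2, [⟨0, 0, [0]⟩, ⟨1, 8, [1, 2, 3, 4, 5, 6, 7, 8, 9, 10, 12]⟩, ⟨11, 14, [11, 13, 14]⟩]), (4, [⟨0, 0, [0]⟩, ⟨1, 5, [1, 5]⟩, ⟨2, 8, [2, 3, 4, 6, 7, 8, 9, 10, 12]⟩, ⟨11, 13, [11, 13]⟩, ⟨14, 14, [14]⟩])] [(5, [(4, false), (5, false), (14, false), (13, false), (7, true), (11, false), (8, false)]), (1, [(1, false), (14, true), (13, false), (9, false), (6, true), (10, false), (11, true), (8, false)])] 1 [(6, 10), (11, 2), (13, 10)]))))))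
  (.der [(93, 1, [(0, 1), (7, 1), (9, 1)]), (524, 1, [(0, 1), (3, 1), (19, 1)]), (775, 1, [(0, 1)]), (820, 1, [(0, 1), (5, 1), (6, 1)])]
  (.br [0, 1, -1, 0, -1, 1]
  (.der [(591, 1, [(0, 1)])]
  (.br [0, -1, 1, 0, 0, 0, 1, -1]
  (.der [(832, 1, [(0, 1)])]
  (.leaf [(2, [⟨0, 0, [0]⟩, ⟨1, 5, [1, 5]⟩, ⟨2, 11, [2, 3, 4, 6, 7, 8, 9, 10, 11, 12]⟩, ⟨13, 14, [13, 14]⟩])] [(1, [(4, false), (5, false), (14, false), (13, false), (7, true), (11, false), (8, false)]), (1, [(4, false), (14, false), (13, false), (9, false), (6, false), (10, true), (7, true), (11, false), (8, false)])] 1 [(6, 2), (13, 4)]))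
  (.der [(607, 1, [(0, 1)])]
  (.leaf [(6, [⟨0, 5, [0, 1, 5]⟩, ⟨2, 11, [2, 3, 4, 6, 7, 8, 9, 10, 11, 12]⟩, ⟨13, 14, [13, 14]⟩])] [(3, [(4, false), (5, false), (14, false), (13, false), (7, true), (11, false), (8, false)]), (1, [(1, false), (14, true), (13, false), (9, false), (10, true), (11, true), (8, false)]), (2, [(4, false), (14, false), (13, false), (9, false), (6, false), (10, true), (7, false), (11, false), (8, false)])] 1 [(0, 6), (6, 2)]))))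
  (.der [(816, 1, [(0, 1)])]
  (.br [0, -1, 1, 0, 0, 0, 1, -1]
  (.der [(832, 1, [(0, 1)])]
  (.leaf [(2, [⟨0, 0, [0]⟩, ⟨1, 5, [1, 5]⟩, ⟨2, 2, [2]⟩, ⟨6, 11, [3, 4, 6, 7, 8, 9, 10, 11, 12]⟩, ⟨13, 14, [13, 14]⟩])] [(1, [(4, false), (5, false), (14, false), (13, false), (7, true), (11, false), (8, false)]), (1, [(4, false), (14, false), (13, false), (9, false), (6, true), (10, true), (7, true), (11, false), (8, false)])] 1 [(6, 2), (13, 4)]))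
  (.der [(607, 1, [(0, 1)])]
  (.leaf [(6, [⟨0, 5, [0, 1, 5]⟩, ⟨2, 11, [2, 3, 4, 6, 7, 8, 9, 10, 11, 12]⟩, ⟨13, 14, [13, 14]⟩]), (4, [⟨0, 0, [0]⟩, ⟨1, 5, [1, 5]⟩, ⟨2, 11, [2, 3, 4, 6, 7, 8, 9, 10, 11, 12]⟩, ⟨13, 14, [13, 14]⟩])] [(5, [(4, false), (5, false), (14, false), (13, false), (7, true), (11, false), (8, false)]), (1, [(1, false), (14, true), (13, false), (9, false), (10, true), (11, true), (8, false)]), (4, [(4, false), (14, false), (13, false), (9, false), (6, true), (10, true), (7, false), (11, false), (8, false)])] 1 [(0, 10), (6, 6), (11, 8)]))))))))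
  (.der [(879, 1, [(0, 1)])]
  (.br [0, -1, 1, 0, 0, 0, 1, -1]
  (.der [(832, 1, [(0, 1)])]
  (.br [0, 1, -1, 0, -1, 1]
  (.der [(591, 1, [(0, 1)])]
  (.br [-1, 0, 0, 1, 0, 1, -1]
  (.der [(550, 1, [(0, 1)])]
  (.leaf [(6, [⟨0, 5, [0, 1, 5]⟩, ⟨2, 8, [2, 3, 4, 6, 7, 8]⟩, ⟨9, 14, [9, 10, 11, 12, 13, 14]⟩]), (4, [⟨0, 1, [0, 1]⟩, ⟨5, 5, [5]⟩, ⟨2, 8, [2, 3, 4, 6, 7, 8]⟩, ⟨9, 11, [9, 10, 11, 12]⟩, ⟨13, 13, [13]⟩, ⟨14, 14, [14]⟩]), (2, [⟨0, 0, [0]⟩, ⟨1, 1, [1]⟩, ⟨5, 5, [5]⟩, ⟨2, 8, [2, 3, 4, 6, 7, 8]⟩, ⟨9, 11, [9, 10, 11, 12]⟩, ⟨13, 13, [13]⟩, ⟨14, 14, [14]⟩])] [(1, [(1, false), (13, true), (9, true), (11, true), (8, false)]), (11, [(4, false), (5, false), (14, false), (13, false), (9, true), (6, false), (10, false), (7, true), (11, false), (8, false)])] 1 [(1, 12), (13, 16), (19, 14)]))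
  (.der [(318, 1, [(0, 1), (7, 1), (13, 1)]), (524, 1, [(0, 1), (5, 1), (21, 1)]), (775, 1, [(0, 1)])]
  (.leaf [(2, [⟨0, 5, [0, 1, 5]⟩, ⟨2, 3, [2, 3, 6]⟩, ⟨7, 8, [4, 7, 8]⟩, ⟨9, 11, [9, 10, 11, 12]⟩, ⟨13, 14, [13, 14]⟩])] [(1, [(4, false), (5, false), (14, false), (13, false), (7, true), (11, false), (8, false)]), (1, [(4, false), (14, false), (13, false), (9, true), (6, false), (10, true), (7, true), (11, false), (8, false)])] 1 [(6, 2), (7, 2), (13, 2)]))))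
  (.der [(710, 1, [(0, 1)]), (816, 1, [(0, 1)])]
  (.br [1, 0, -1, 0, -1, 0, 1]
  (.der [(93, 1, [(0, 1)])]
  (.leaf [(2, [⟨0, 0, [0]⟩, ⟨1, 5, [1, 5]⟩, ⟨2, 2, [2]⟩, ⟨6, 8, [3, 4, 6, 7, 8]⟩, ⟨9, 9, [9]⟩, ⟨10, 13, [10, 11, 12, 13]⟩, ⟨14, 14, [14]⟩])] [(1, [(4, false), (5, false), (14, false), (13, false), (7, true), (11, false), (8, false)]), (1, [(2, false), (5, true), (14, false), (13, false), (9, true), (6, true), (11, true), (8, false)])] 1 [(6, 2)]))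
  (.der [(51, 1, [(0, 1)])]
  (.leaf [(2, [⟨0, 0, [0]⟩, ⟨1, 1, [1]⟩, ⟨5, 5, [5]⟩, ⟨2, 2, [2]⟩, ⟨3, 8, [3, 4, 6, 7, 8]⟩, ⟨9, 9, [9]⟩, ⟨10, 12, [10, 12]⟩, ⟨11, 13, [11, 13]⟩, ⟨14, 14, [14]⟩])] [(1, [(4, false), (5, false), (14, false), (13, false), (7, true), (11, false), (8, false)]), (1, [(2, false), (5, true), (14, false), (13, false), (9, true), (6, true), (11, true), (8, false)])] 1 [(2, 2), (6, 4)]))))))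
  (.der [(607, 1, [(0, 1)])]
  (.br [0, 1, -1, 0, -1, 1]
  (.der [(485, 1, [(0, 1)]), (591, 1, [(0, 1)])]
  (.br [-1, 0, 0, 1, 0, 1, -1]
  (.der [(550, 1, [(0, 1)])]
  (.leaf [(76, [⟨0, 5, [0, 1, 5]⟩, ⟨2, 8, [2, 3, 4, 6, 7, 8]⟩, ⟨9, 14, [9, 10, 11, 12, 13, 14]⟩]), (30, [⟨0, 5, [0, 1, 5]⟩, ⟨2, 8, [2, 3, 4, 6, 7, 8]⟩, ⟨9, 13, [9, 10, 11, 12, 13]⟩, ⟨14, 14, [14]⟩]), (72, [⟨0, 5, [0, 1, 5]⟩, ⟨2, 8, [2, 3, 4, 6, 7, 8]⟩, ⟨9, 9, [9]⟩, ⟨10, 13, [10, 11, 12, 13]⟩, ⟨14, 14, [14]⟩]), (18, [⟨0, 1, [0, 1]⟩, ⟨5, 5, [5]⟩, ⟨2, 8, [2, 3, 4, 6, 7, 8]⟩, ⟨9, 9, [9]⟩, ⟨10, 13, [10, 11, 12, 13]⟩, ⟨14, 14, [14]⟩])] [(4, []), (18, [(3, false), (10, true), (11, true), (8, false)]), (9, [(4, false), (5, false), (14, false), (13, false), (7, true), (11, false), (8, false)]), (165, [(2, false), (5, false), (14, false), (13, false),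 (9, true), (6, false), (10, false), (7, false), (11, false), (8, false)])] 1 [(17, 24), (19, 204)]))
  (.der [(524, 1, [(0, 1), (5, 1), (21, 1)]), (775, 1, [(0, 1)])]
  (.leaf [(4, [⟨0, 5, [0, 1, 5]⟩, ⟨2, 8, [2, 3, 4, 6, 7, 8]⟩, ⟨9, 14, [9, 10, 11, 12, 13, 14]⟩]), (6, [⟨0, 5, [0, 1, 5]⟩, ⟨2, 8, [2, 3, 4, 6, 7, 8]⟩, ⟨9, 9, [9]⟩, ⟨10, 14, [10, 11, 12, 13, 14]⟩])] [(1, []), (9, [(4, false), (14, false), (13, false), (9, true), (6, false), (10, true), (7, false), (11, false), (8, false)])] 1 [(2, 12), (7, 6), (8, 18), (9, 6), (17, 6)]))))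
  (.der [(710, 1, [(0, 1)])]
  (.br [0, 0, -1, 1, 0, 1, -1]
  (.der [(595, 1, [(0, 1)])]
  (.leaf [(2, [⟨0, 0, [0]⟩, ⟨1, 5, [1, 5]⟩, ⟨2, 8, [2, 3, 4, 6, 7, 8]⟩, ⟨9, 12, [9, 10, 12]⟩, ⟨11, 14, [11, 13, 14]⟩]), (2, [⟨0, 0, [0]⟩, ⟨1, 5, [1, 5]⟩, ⟨2, 8, [2, 3, 4, 6, 7, 8]⟩, ⟨9, 9, [9]⟩, ⟨10, 12, [10, 12]⟩, ⟨11, 14, [11, 13, 14]⟩]), (2, [⟨0, 0, [0]⟩, ⟨1, 5, [1, 5]⟩, ⟨2, 8, [2, 3, 4, 6, 7, 8]⟩, ⟨9, 9, [9]⟩, ⟨10, 12, [10, 12]⟩, ⟨11, 13, [11, 13]⟩, ⟨14, 14, [14]⟩]), (6, [⟨0, 0, [0]⟩, ⟨1, 1, [1]⟩, ⟨5, 5, [5]⟩, ⟨2, 8, [2, 3, 4, 6, 7, 8]⟩, ⟨9, 9, [9]⟩, ⟨10, 12, [10, 12]⟩, ⟨11, 13, [11, 13]⟩, ⟨14, 14, [14]⟩])] [(5, [(4, false), (5, false), (14, false), (13, false), (7, true), (11, false), (8, false)]), (1, [(1, false), (13, true), (9, true), (11, true), (8, false)]), (6, [(2, false), (5, true), (14, false), (13,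 false), (9, true), (10, false), (7, false), (11, false), (8, false)])] 1 [(1, 8), (6, 24), (17, 4)]))
  (.der [(820, 1, [(0, 1)])]
  (.leaf [(2, [⟨0, 1, [0, 1]⟩, ⟨5, 5, [5]⟩, ⟨2, 8, [2, 3, 4, 6, 7, 8]⟩, ⟨9, 9, [9]⟩, ⟨10, 14, [10, 11, 12, 13, 14]⟩]), (6, [⟨0, 1, [0, 1]⟩, ⟨5, 5, [5]⟩, ⟨2, 8, [2, 3, 4, 6, 7, 8]⟩, ⟨9, 9, [9]⟩, ⟨10, 13, [10, 11, 12, 13]⟩, ⟨14, 14, [14]⟩]), (2, [⟨0, 1, [0, 1]⟩, ⟨5, 5, [5]⟩, ⟨2, 8, [2, 3, 4, 6, 7, 8]⟩, ⟨9, 9, [9]⟩, ⟨10, 11, [10, 11, 12]⟩, ⟨13, 13, [13]⟩, ⟨14, 14, [14]⟩])] [(4, [(4, false), (5, false), (14, false), (13, false), (7, true), (11, false), (8, false)]), (1, [(1, false), (13, true), (9, true), (11, true), (8, false)]), (1, [(1, false), (14, true), (13, false), (9, true), (10, true), (11, true), (8, false)]), (4, [(2, false), (5, true), (14, false), (13, false),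 (9, true), (10, true), (7, false), (11, false), (8, false)])] 1 [(2, 6), (6, 10)])))))))))))
  (.der [(606, 1, [(0, 1), (6, 1), (8, 1), (13, 1)]), (747, 1, [(0, 1)]), (898, 1, [(0, 1)])]
  (.br [0, 0, -1, 1, 0, 1, -1]
  (.der [(470, 1, [(0, 1), (1, 1), (14, 1)]), (595, 1, [(0, 1)])]
  (.br [0, 0, 0, 1, -2, 0, 0, 0, 0, 1]
  (.der [(654, 1, [(0, 1)])]
  (.br [0, 0, 0, -1, 0, 0, 0, 2, 0, -1]
  (.br [0, -1, 1, 0, 0, 0, 1, -1]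
  (.der [(832, 1, [(0, 1)])]
  (.br [0, 0, 0, 1, 0, -1, 0, -1, 0, 1]
  (.der [(669, 1, [(0, 1), (11, 1), (13, 1)])]
  (.leaf [(2, [⟨0, 0, [0]⟩, ⟨1, 13, [1, 2, 3, 4, 5, 6, 7, 8, 9, 10, 11, 12, 13]⟩, ⟨14, 14, [14]⟩]), (2, [⟨0, 0, [0]⟩, ⟨1, 5, [1, 5]⟩, ⟨2, 13, [2, 3, 4, 6, 7, 8, 9, 10, 11, 12, 13]⟩, ⟨14, 14, [14]⟩])] [(1, [(4, false), (5, false), (14, false), (13, true), (7, true), (11, false), (8, false)]), (3, [(1, false), (5, false), (14, false), (9, false), (10, false), (7, true), (11, false), (8, false)])] 1 [(4, 2), (6, 6), (13, 8)]))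
  (.br [-1, 0, 0, 2, -1]
  (.der [(534, 1, [(0, 1)])]
  (.leaf [(2, [⟨0, 0, [0]⟩, ⟨1, 5, [1, 5]⟩, ⟨2, 11, [2, 3, 4, 6, 7, 8, 9, 10, 11, 12]⟩, ⟨13, 13, [13]⟩, ⟨14, 14, [14]⟩])] [(1, [(4, false), (5, false), (14, false), (13, true), (7, true), (11, false), (8, false)]), (1, [(1, false), (5, false), (9, false), (10, false), (7, true), (11, false), (8, false)])] 1 [(7, 4), (14, 4)]))
  (.der [(759, 1, [(0, 1)])]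
  (.leaf [(2, [⟨0, 0, [0]⟩, ⟨1, 5, [1, 5]⟩, ⟨2, 13, [2, 3, 4, 6, 7, 8, 9, 10, 11, 12, 13]⟩, ⟨14, 14, [14]⟩])] [(1, [(1, false), (5, false), (9, true), (10, false), (7, true), (11, false), (8, false)]), (1, [(1, false), (5, false), (14, false), (13, true), (9, false), (10, false), (7, true), (11, false), (8, false)])] 1 [(5, 2), (7, 2), (14, 4)])))))
  (.der [(607, 1, [(0, 1)])]
  (.br [-1, 0, 0, 2, -1]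
  (.der [(534, 1, [(0, 1)])]
  (.leaf [(1, [⟨0, 14, [0, 1, 2, 3, 4, 5, 6, 7, 8, 9, 10, 11, 12, 13, 14]⟩])] [(1, [(1, false), (5, false), (9, false), (10, false), (7, false), (11, false), (8, false)])] 1 []))
  (.der [(759, 1, [(0, 1)])]
  (.leaf [(2, [⟨0, 5, [0, 1, 5]⟩, ⟨2, 11, [2, 3, 4, 6, 7, 8, 9, 10, 11, 12]⟩, ⟨13, 14, [13, 14]⟩])] [(1, [(1, false), (5, false), (9, true), (10, false), (7, false), (11, false), (8, false)]), (1, [(1, false), (5, false), (14, false), (13, true), (9, false), (10, false), (7, false), (11, false), (8, false)])] 1 [])))))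
  (.der [(368, 1, [(0, 1), (10, 2), (11, 2)]), (383, 1, [(0, 1), (10, 1), (11, 1)]), (413, 1, [(0, 1)])]
  (.leaf [(1, [⟨0, 8, [0, 1, 2, 3, 4, 5, 6, 7, 8, 9, 10, 12]⟩, ⟨11, 11, [11]⟩, ⟨13, 13, [13]⟩, ⟨14, 14, [14]⟩])] [(1, [(4, false), (5, false), (14, false), (13, true), (7, true), (11, false), (8, false)])] 1 [(0, 1), (4, 2), (5, 2), (9, 1), (11, 3)]))))
  (.der [(879, 1, [(0, 1)])]
  (.br [-1, 1, 0, 0, 0, 1, -1]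
  (.der [(455, 1, [(0, 1), (3, 1), (16, 1)]), (547, 1, [(0, 1)])]
  (.leaf [(1, [⟨0, 5, [0, 1, 5]⟩, ⟨2, 8, [2, 3, 4, 6, 7, 8]⟩, ⟨9, 9, [9]⟩, ⟨10, 11, [10, 11, 12]⟩, ⟨13, 14, [13, 14]⟩])] [(1, [(0, false), (5, false), (14, false), (13, true), (9, true), (10, false), (6, false), (7, false), (11, false), (8, false)])] 1 [(13, 2), (17, 1)]))
  (.der [(772, 1, [(0, 1)])]
  (.leaf [(2, [⟨0, 1, [0, 1]⟩, ⟨5, 5, [5]⟩, ⟨2, 8, [2, 3, 4, 6, 7, 8]⟩, ⟨9, 9, [9]⟩, ⟨10, 11, [10, 11, 12]⟩, ⟨13, 13, [13]⟩, ⟨14, 14, [14]⟩])] [(1, [(1, false), (13, true), (9, true), (10, false), (11, true), (8, false)]), (1, [(1, false), (5, false), (14, false), (13, true), (9, true), (10, false), (6, false), (7, true), (11, false), (8, false)])] 1 []))))))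
  (.der [(303, 1, [(0, 1), (7, 1), (9, 1), (12, 1), (14, 1)]), (702, 1, [(0, 1)]), (820, 1, [(0, 1)])]
  (.br [0, 0, 0, -1, 0, 1, 0, 1, 0, -1]
  (.der [(339, 1, [(0, 1), (14, 1)]), (355, 1, [(0, 1)]), (553, 1, [(0, 1), (14, 1), (18, 1)])]
  (.br [0, 0, 0, 1, 0, -2, 0, 0, 0, 1]
  (.der [(368, 1, [(0, 1)]), (654, 1, [(0, 1), (9, 2)])]
  (.br [0, 0, 0, 1, -1, 0, -1, 0, 0, 1]
  (.der [(655, 1, [(0, 1)]), (669, 1, [(0, 1)])]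
  (.br [0, -1, 1, 0, 1, -1]
  (.der [(816, 1, [(0, 1)])]
  (.br [0, -1, 1, 0, 0, 0, 1, -1]
  (.der [(832, 1, [(0, 1)])]
  (.leaf [(2, [⟨0, 0, [0]⟩, ⟨1, 1, [1]⟩, ⟨5, 5, [5]⟩, ⟨2, 11, [2, 3, 4, 6, 7, 8, 9, 10, 11, 12]⟩, ⟨13, 13, [13]⟩, ⟨14, 14, [14]⟩])] [(1, [(4, false), (5, false), (14, false), (9, false), (6, true), (13, false), (10, false), (7, true), (11, false), (8, false)]), (1, [(4, false), (5, false), (14, false), (13, true), (10, false), (7, true), (11, false), (8, false)])] 1 [(4, 2), (7, 4), (14, 4)]))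
  (.der [(500, 1, [(0, 1)]), (607, 1, [(0, 1)])]
  (.leaf [(2, [⟨0, 0, [0]⟩, ⟨1, 5, [1, 5]⟩, ⟨2, 11, [2, 3, 4, 6, 7, 8, 9, 10, 11, 12]⟩, ⟨13, 13, [13]⟩, ⟨14, 14, [14]⟩])] [(1, [(4, false), (5, false), (14, false), (13, true), (7, true), (11, false), (8, false)]), (1, [(3, false), (5, false), (14, false), (9, false), (6, true), (13, false), (10, false), (7, false), (11, false), (8, false)])] 1 [(2, 2), (4, 2), (7, 4)]))))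
  (.der [(485, 1, [(0, 1)]), (591, 1, [(0, 1)])]
  (.br [0, -1, 1, 0, 0, 0, 1, -1]
  (.der [(832, 1, [(0, 1)])]
  (.leaf [(2, [⟨0, 0, [0]⟩, ⟨1, 5, [1, 5]⟩, ⟨2, 11, [2, 3, 4, 6, 7, 8, 9, 10, 11, 12]⟩, ⟨13, 13, [13]⟩, ⟨14, 14, [14]⟩])] [(1, [(4, false), (5, false), (14, false), (13, true), (7, true), (11, false), (8, false)]), (1, [(2, false), (5, false), (14, false), (9, false), (6, false), (13, false), (10, false), (7, true), (11, false), (8, false)])] 1 [(7, 4), (14, 4)]))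
  (.der [(607, 1, [(0, 1)])]
  (.leaf [(1, [⟨0, 14, [0, 1, 2, 3, 4, 5, 6, 7, 8, 9, 10, 11, 12, 13, 14]⟩])] [(1, [(2, false), (5, false), (14, false), (9, false), (6, false), (13, false), (10, false), (7, false), (11, false), (8, false)])] 1 []))))))
  (.der [(759, 1, [(0, 1), (5, 1), (7, 1), (12, 1), (17, 1)]), (880, 1, [(0, 1)]), (894, 1, [(0, 1)])]
  (.br [0, -1, 1, 0, 0, 0, 1, -1]
  (.der [(832, 1, [(0, 1)])]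
  (.br [-1, 0, 0, 0, 2, 0, -1]
  (.der [(54, 1, [(0, 1)])]
  (.br [1, 0, -1, 0, -1, 0, 1]
  (.der [(93, 1, [(0, 1)])]
  (.br [0, 1, -1, 0, -1, 1]
  (.der [(485, 1, [(0, 1)]), (591, 1, [(0, 1)])]
  (.br [0, 0, 0, 0, -1, 0, 2, 0, -1]
  (.der [(177, 1, [(0, 1)])]
  (.leaf [(2, [⟨0, 0, [0]⟩, ⟨1, 5, [1, 5]⟩, ⟨2, 6, [2, 6]⟩, ⟨3, 8, [3, 4, 7, 8, 9]⟩, ⟨10, 10, [10]⟩, ⟨11, 11, [11, 12]⟩, ⟨13, 13, [13]⟩, ⟨14, 14, [14]⟩])] [(1, [(4, false), (5, false), (14, false), (13, true), (7, true), (11, false), (8, false)]), (1, [(2, false), (5, false), (14, false), (9, true), (6, false), (13, false), (10, true), (7, true), (11, false), (8, false)])] 1 [(6, 2), (10, 6), (17, 4)]))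
  (.der [(191, 1, [(0, 1)]), (550, 1, [(0, 1), (1, 1), (4, 1), (25, 1)])]
  (.leaf [(1, [⟨0, 1, [0, 1]⟩, ⟨5, 5, [5]⟩, ⟨2, 10, [2, 3, 4, 6, 7, 8, 9, 10]⟩, ⟨12, 11, [11, 12]⟩, ⟨13, 13, [13]⟩, ⟨14, 14, [14]⟩])] [(1, [(2, false), (5, false), (14, false), (13, true), (9, false), (6, false), (10, false), (7, true), (11, false), (8, false)])] 1 [(0, 1), (7, 1), (8, 1), (10, 1), (22, 1)]))))
  (.der [(816, 1, [(0, 1)])]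
  (.br [-1, 0, 0, 1, 0, 1, -1]
  (.der [(550, 1, [(0, 1)])]
  (.leaf [(2, [⟨0, 0, [0]⟩, ⟨1, 5, [1, 5]⟩, ⟨2, 2, [2]⟩, ⟨6, 8, [3, 4, 6, 7, 8, 9]⟩, ⟨10, 11, [10, 11, 12]⟩, ⟨13, 13, [13]⟩, ⟨14, 14, [14]⟩])] [(1, [(4, false), (5, false), (14, false), (13, true), (7, true), (11, false), (8, false)]), (1, [(4, false), (5, false), (14, false), (9, true), (6, true), (10, false), (7, true), (11, false), (8, false)])] 1 [(10, 4), (17, 4)]))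
  (.der [(775, 1, [(0, 1)])]
  (.leaf [(2, [⟨0, 0, [0]⟩, ⟨1, 5, [1, 5]⟩, ⟨2, 2, [2]⟩, ⟨6, 6, [6]⟩, ⟨3, 8, [3, 4, 7, 8, 9]⟩, ⟨10, 11, [10, 11, 12]⟩, ⟨13, 13, [13]⟩, ⟨14, 14, [14]⟩])] [(1, [(4, false), (5, false), (14, false), (13, true), (7, true), (11, false), (8, false)]), (1, [(4, false), (5, false), (14, false), (9, true), (6, true), (10, true), (7, true), (11, false), (8, false)])] 1 [(10, 4), (17, 4)]))))))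
  (.der [(51, 1, [(0, 1)]), (191, 1, [(0, 1), (8, 1), (11, 1), (15, 1)])]
  (.leaf [(1, [⟨0, 1, [0, 1]⟩, ⟨5, 5, [5]⟩, ⟨2, 2, [2]⟩, ⟨3, 10, [3, 4, 6, 7, 8, 9, 10]⟩, ⟨12, 11, [11, 12]⟩, ⟨13, 14, [13, 14]⟩]), (3, [⟨0, 1, [0, 1]⟩, ⟨5, 5, [5]⟩, ⟨2, 2, [2]⟩, ⟨3, 8, [3, 4, 6, 7, 8, 9]⟩, ⟨10, 10, [10]⟩, ⟨12, 12, [12]⟩, ⟨11, 11, [11]⟩, ⟨13, 13, [13]⟩, ⟨14, 14, [14]⟩])] [(2, [(4, false), (5, false), (14, false), (13, true), (7, true), (11, false), (8, false)]), (2, [(4, false), (5, false), (14, false), (9, true), (10, true), (7, true), (11, false), (8, false)])] 1 [(1, 1), (4, 2), (8, 9)]))))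
  (.der [(138, 1, [(0, 1)]), (139, 1, [(0, 1), (6, 1), (14, 2), (18, 1)]), (142, 1, [(0, 1), (1, 1), (8, 1), (14, 1)]), (143, 1, [(0, 1), (1, 1), (6, 1), (8, 1), (14, 3), (18, 1)]), (494, 1, [(0, 1), (2, 1), (14, 2), (18, 1), (22, 1)]), (598, 1, [(0, 1), (2, 2), (10, 1), (14, 3), (18, 2), (22, 1)])]
  (.leaf [(2, [⟨0, 5, [0, 1, 5]⟩, ⟨2, 8, [2, 3, 4, 6, 7, 8, 9]⟩, ⟨10, 11, [10, 11, 12]⟩, ⟨13, 14, [13, 14]⟩]), (3, [⟨0, 5, [0, 1, 5]⟩, ⟨2, 6, [2, 6]⟩, ⟨9, 8, [3, 4, 7, 8, 9]⟩, ⟨10, 11, [10, 11, 12]⟩, ⟨13, 14, [13, 14]⟩]), (3, [⟨0, 0, [0]⟩, ⟨1, 1, [1]⟩, ⟨5, 5, [5]⟩, ⟨2, 6, [2, 6]⟩, ⟨9, 8, [3, 4, 7, 8, 9]⟩, ⟨10, 11, [10, 11, 12]⟩, ⟨13, 14, [13, 14]⟩]), (5, [⟨0, 0, [0]⟩, ⟨1, 1, [1]⟩, ⟨5, 5, [5]⟩, ⟨2, 6, [2, 6]⟩, ⟨9, 8, [3, 4, 7, 8, 9]⟩, ⟨10, 11, [10, 11, 12]⟩, ⟨13, 13, [13]⟩, ⟨14, 14, [14]⟩])] [(1, []), (12,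 [(2, false), (14, false), (9, true), (13, false), (10, true), (7, true), (11, false), (8, false)])] 1 [(3, 13), (7, 23), (14, 46), (18, 2)]))))
  (.der [(500, 1, [(0, 1)]), (607, 1, [(0, 1)])]
  (.br [-1, 0, 0, 0, 2, 0, -1]
  (.der [(54, 1, [(0, 1)])]
  (.br [0, 0, 0, 0, -1, 0, 2, 0, -1]
  (.der [(177, 1, [(0, 1)])]
  (.br [0, 0, -1, 0, 0, 2, 0, 0, -1]
  (.der [(598, 1, [(0, 1)])]
  (.leaf [(10, [⟨0, 5, [0, 1, 5]⟩, ⟨2, 6, [2, 6]⟩, ⟨3, 8, [3, 4, 7, 8, 9]⟩, ⟨10, 10, [10]⟩, ⟨11, 11, [11, 12]⟩, ⟨13, 14, [13, 14]⟩]), (10, [⟨0, 5, [0, 1, 5]⟩, ⟨2, 6, [2, 6]⟩, ⟨3, 8, [3, 4, 7, 8, 9]⟩, ⟨10, 10, [10]⟩, ⟨11, 11, [11, 12]⟩, ⟨13, 13, [13]⟩, ⟨14, 14, [14]⟩])] [(6, [(4, false), (5, false), (14, false), (13, true), (7, true), (11, false), (8, false)]), (3, [(4, false), (5, false), (13, true), (9, false), (10, true),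 (11, true), (8, false)]), (11, [(3, false), (5, false), (14, false), (9, true), (13, false), (10, true), (7, false), (11, false), (8, false)])] 1 [(2, 2), (3, 12), (5, 18), (9, 36)]))
  (.der [(823, 1, [(0, 1)])]
  (.leaf [(22, [⟨0, 5, [0, 1, 5]⟩, ⟨2, 6, [2, 6]⟩, ⟨3, 8, [3, 4, 7, 8, 9]⟩, ⟨10, 10, [10]⟩, ⟨11, 11, [11, 12]⟩, ⟨13, 13, [13]⟩, ⟨14, 14, [14]⟩]), (26, [⟨0, 0, [0]⟩, ⟨1, 5, [1, 5]⟩, ⟨2, 6, [2, 6]⟩, ⟨3, 8, [3, 4, 7, 8, 9]⟩, ⟨10, 10, [10]⟩, ⟨11, 11, [11, 12]⟩, ⟨13, 13, [13]⟩, ⟨14, 14, [14]⟩]), (4, [⟨0, 0, [0]⟩, ⟨1, 1, [1]⟩, ⟨5, 5, [5]⟩, ⟨2, 6, [2, 6]⟩, ⟨3, 8, [3, 4, 7, 8, 9]⟩, ⟨10, 10, [10]⟩, ⟨11, 11, [11, 12]⟩, ⟨13, 13, [13]⟩, ⟨14, 14, [14]⟩])] [(1, []), (32, [(4, false), (5, false), (14, false), (13, true), (7, true), (11, false), (8, false)]), (19, [(3, false), (5, false), (9, true), (13,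 true), (10, true), (7, false), (11, false), (8, false)])] 1 [(2, 8), (5, 8), (9, 106), (16, 2)]))))
  (.der [(191, 1, [(0, 1)])]
  (.br [0, 0, 1, 0, 0, -2, 0, 0, 1]
  (.der [(823, 1, [(0, 1)])]
  (.leaf [(1, [⟨0, 8, [0, 1, 2, 3, 4, 5, 6, 7, 8, 9]⟩, ⟨10, 11, [10, 11, 12]⟩, ⟨13, 13, [13]⟩, ⟨14, 14, [14]⟩]), (1, [⟨0, 5, [0, 1, 5]⟩, ⟨2, 8, [2, 3, 4, 6, 7, 8]⟩, ⟨9, 8, [9]⟩, ⟨10, 10, [10]⟩, ⟨12, 11, [11, 12]⟩, ⟨13, 13, [13]⟩, ⟨14, 14, [14]⟩]), (4, [⟨0, 1, [0, 1]⟩, ⟨5, 5, [5]⟩, ⟨2, 8, [2, 3, 4, 6, 7, 8]⟩, ⟨9, 8, [9]⟩, ⟨10, 10, [10]⟩, ⟨12, 11, [11, 12]⟩, ⟨13, 13, [13]⟩, ⟨14, 14, [14]⟩])] [(2, [(4, false), (5, false), (14, false), (13, true), (7, true), (11, false), (8, false)]), (4, [(3, false), (5, false), (14, false), (9, true), (13, true), (10, true), (7, false), (11, false), (8, false)])] 1 [(1, 1), (6,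 4), (9, 5), (20, 5)]))
  (.der [(598, 1, [(0, 1)])]
  (.leaf [(1, [⟨0, 5, [0, 1, 5]⟩, ⟨2, 8, [2, 3, 4, 6, 7, 8]⟩, ⟨9, 8, [9]⟩, ⟨10, 10, [10]⟩, ⟨12, 11, [11, 12]⟩, ⟨13, 14, [13, 14]⟩])] [(1, [(3, false), (5, false), (14, false), (9, true), (13, false), (10, true), (7, false), (11, false), (8, false)])] 1 [(5, 1), (9, 1)]))))))
  (.der [(138, 1, [(0, 1)]), (139, 1, [(0, 1), (1, 2), (6, 1), (9, 2), (18, 1)]), (142, 1, [(0, 1), (8, 1), (9, 1)]), (143, 1, [(0, 1), (1, 2), (6, 1), (8, 1), (9, 3), (18, 1)]), (494, 1, [(0, 1), (1, 2), (2, 1), (9, 2), (18, 1), (22, 1)]), (598, 1, [(0, 1), (1, 3), (2, 2), (9, 3), (10, 1), (18, 2), (22, 1)])]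
  (.leaf [(1, [⟨0, 5, [0, 1, 5]⟩, ⟨2, 6, [2, 6]⟩, ⟨9, 8, [3, 4, 7, 8, 9]⟩, ⟨10, 11, [10, 11, 12]⟩, ⟨13, 13, [13]⟩, ⟨14, 14, [14]⟩])] [(1, [(2, false), (14, false), (9, true), (13, false), (10, true), (7, false), (11, false), (8, false)])] 1 [(1, 2), (3, 1), (7, 1), (9, 2), (15, 2)]))))))))
  (.der [(294, 1, [(0, 1), (6, 1), (7, 1)]), (354, 1, [(0, 1)])]
  (.br [0, 0, 0, 0, -1, 1, 0, 1, -1]
  (.der [(485, 1, [(0, 1), (5, 1), (6, 1), (8, 1)]), (591, 1, [(0, 1), (5, 1), (6, 1), (8, 1)]), (643, 1, [(0, 1)])]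
  (.br [0, 0, 0, 1, -2, 0, 0, 0, 0, 1]
  (.der [(654, 1, [(0, 1)])]
  (.br [0, -1, 1, 0, 0, 0, 1, -1]
  (.der [(832, 1, [(0, 1)])]
  (.br [1, 0, 0, -1, 0, -1, 1]
  (.der [(775, 1, [(0, 1)])]
  (.leaf [(2, [⟨0, 0, [0]⟩, ⟨1, 5, [1, 5]⟩, ⟨2, 11, [2, 3, 4, 6, 7, 8, 9, 10, 11, 12]⟩, ⟨13, 14, [13, 14]⟩])] [(1, [(4, false), (5, false), (14, false), (12, false), (13, false), (9, false), (6, false), (10, true), (7, true), (11, false), (8, false)]), (1, [(4, false), (5, false), (14, false), (12, false), (13, false), (7, true), (11, false), (8, false)])] 1 [(8, 2), (15, 4)]))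
  (.der [(492, 1, [(0, 1), (3, 1), (8, 1)])]
  (.br [0, 0, 0, 1, -1, 0, -1, 0, 0, 1]
  (.der [(655, 1, [(0, 1)])]
  (.leaf [(2, [⟨0, 0, [0]⟩, ⟨1, 5, [1, 5]⟩, ⟨2, 11, [2, 3, 4, 6, 7, 8, 9, 10, 11, 12]⟩, ⟨13, 13, [13]⟩, ⟨14, 14, [14]⟩])] [(1, [(4, false), (5, false), (14, false), (13, true), (7, true), (11, false), (8, false)]), (1, [(2, false), (12, false), (13, false), (10, false), (7, true), (11, false), (8, false)])] 1 [(9, 4), (16, 4)]))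
  (.der [(880, 1, [(0, 1)])]
  (.br [1, -1, 0, 0, 0, -1, 1]
  (.der [(772, 1, [(0, 1)])]
  (.leaf [(2, [⟨0, 0, [0]⟩, ⟨1, 5, [1, 5]⟩, ⟨2, 11, [2, 3, 4, 6, 7, 8, 9, 10, 11, 12]⟩, ⟨13, 14, [13, 14]⟩])] [(1, [(2, false), (12, false), (13, false), (9, false), (6, false), (7, true), (11, false), (8, false)]), (1, [(2, false), (12, false), (13, false), (10, true), (7, true), (11, false), (8, false)])] 1 [(10, 2), (17, 4)]))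
  (.der [(462, 1, [(0, 1)]), (547, 1, [(0, 1)])]
  (.leaf [(1, [⟨0, 14, [0, 1, 2, 3, 4, 5, 6, 7, 8, 9, 10, 11, 12, 13, 14]⟩])] [(1, [(0, false), (12, false), (13, false), (9, false), (6, false), (7, false), (11, false), (8, false)])] 1 []))))))))
  (.der [(500, 1, [(0, 1)]), (607, 1, [(0, 1)])]
  (.br [1, -1, 0, 0, 0, -1, 1]
  (.der [(772, 1, [(0, 1)])]
  (.br [0, 1, 0, 0, -2, 0, 0, 1]
  (.der [(636, 1, [(0, 1)])]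
  (.br [1, 0, 0, -1, 0, -1, 1]
  (.der [(775, 1, [(0, 1)])]
  (.br [0, 0, 0, 1, -1, 0, -1, 0, 0, 1]
  (.der [(492, 1, [(0, 1), (7, 1)]), (655, 1, [(0, 1)])]
  (.leaf [(2, [⟨0, 5, [0, 1, 5]⟩, ⟨2, 11, [2, 3, 4, 6, 7, 8, 9, 10, 11, 12]⟩, ⟨13, 14, [13, 14]⟩])] [(1, [(3, false), (5, false), (14, false), (12, false), (6, false), (10, true), (7, false), (11, false), (8, false)]), (1, [(2, false), (12, false), (13, false), (10, false), (11, true), (8, false)])] 1 [(4, 2), (27, 2)]))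
  (.der [(880, 1, [(0, 1)])]
  (.leaf [(12, [⟨0, 5, [0, 1, 5]⟩, ⟨2, 11, [2, 3, 4, 6, 7, 8, 9, 10, 11, 12]⟩, ⟨13, 14, [13, 14]⟩])] [(2, [(0, false), (14, true), (12, false), (13, false), (9, false), (6, false), (7, true), (8, true)]), (4, [(3, false), (5, false), (14, false), (12, false), (6, false), (10, true), (7, false), (11, false), (8, false)]), (1, [(1, false), (14, true), (12, false), (13, false), (10, true), (11, true), (8, false)]), (5, [(3, false), (5, false), (14, false), (12, false), (13, false), (10, true), (7, false), (11, false), (8, false)])] 1 [(4, 12), (12, 8), (13, 8)]))))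
  (.der [(492, 1, [(0, 1), (5, 1), (10, 1)]), (550, 1, [(0, 1)])]
  (.leaf [(1, [⟨0, 14, [0, 1, 2, 3, 4, 5, 6, 7, 8, 9, 10, 11, 12, 13, 14]⟩])] [(1, [(2, false), (12, false), (6, false), (10, false), (7, false), (11, false), (8, false)])] 1 []))))
  (.der [(54, 1, [(0, 1), (2, 1), (10, 1), (11, 1)]), (861, 1, [(0, 1)])]
  (.br [-1, 0, 0, 1, 0, 1, -1]
  (.der [(492, 1, [(0, 1), (5, 1), (10, 1)]), (550, 1, [(0, 1)])]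
  (.leaf [(4, [⟨0, 5, [0, 1, 5]⟩, ⟨2, 14, [2, 3, 4, 6, 7, 8, 9, 10, 11, 12, 13, 14]⟩]), (8, [⟨0, 5, [0, 1, 5]⟩, ⟨2, 13, [2, 3, 4, 6, 7, 8, 9, 10, 11, 12, 13]⟩, ⟨14, 14, [14]⟩])] [(1, [(1, false), (12, true), (13, false), (9, false), (10, true), (11, true), (8, false)]), (3, [(2, false), (12, false), (6, true), (10, false), (7, false), (11, false), (8, false)]), (8, [(2, false), (12, false), (13, false), (9, false), (6, false), (10, false), (7, false), (11, false), (8, false)])] 1 [(3, 6), (6, 6), (9, 2), (10, 6), (23, 6)]))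
  (.der [(762, 1, [(0, 1)]), (775, 1, [(0, 1)])]
  (.leaf [(2, [⟨0, 5, [0, 1, 5]⟩, ⟨2, 6, [2, 6]⟩, ⟨3, 9, [3, 4, 7, 8, 9]⟩, ⟨10, 11, [10, 11, 12]⟩, ⟨13, 14, [13, 14]⟩])] [(1, [(2, false), (5, false), (12, true), (6, true), (10, true), (7, false), (11, false), (8, false)]), (1, [(4, false), (12, true), (13, false), (9, false), (6, false), (10, true), (7, false), (11, false), (8, false)])] 1 [(3, 2), (11, 2), (12, 2)]))))))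
  (.der [(462, 1, [(0, 1)]), (547, 1, [(0, 1)])]
  (.leaf [(6, [⟨0, 5, [0, 1, 5]⟩, ⟨2, 11, [2, 3, 4, 6, 7, 8, 9, 10, 11, 12]⟩, ⟨13, 13, [13]⟩, ⟨14, 14, [14]⟩])] [(3, [(4, false), (5, false), (14, false), (13, true), (7, true), (11, false), (8, false)]), (1, [(1, false), (12, true), (13, false), (9, false), (10, true), (11, true), (8, false)]), (2, [(0, false), (12, false), (13, false), (9, false), (6, false), (7, false), (8, true)])] 1 [(0, 4), (1, 6), (8, 6)]))))))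
  (.der [(876, 1, [(0, 1), (8, 1), (9, 1)]), (879, 1, [(0, 1)])]
  (.br [-1, 1, 0, 0, 0, 1, -1]
  (.der [(462, 1, [(0, 1)]), (547, 1, [(0, 1)])]
  (.leaf [(6, [⟨0, 1, [0, 1]⟩, ⟨5, 5, [5]⟩, ⟨2, 8, [2, 3, 4, 6, 7, 8]⟩, ⟨9, 13, [9, 10, 11, 12, 13]⟩, ⟨14, 14, [14]⟩]), (2, [⟨0, 0, [0]⟩, ⟨1, 1, [1]⟩, ⟨5, 5, [5]⟩, ⟨2, 8, [2, 3, 4, 6, 7, 8]⟩, ⟨9, 13, [9, 10, 11, 12, 13]⟩, ⟨14, 14, [14]⟩]), (4, [⟨0, 0, [0]⟩, ⟨1, 1, [1]⟩, ⟨5, 5, [5]⟩, ⟨2, 8, [2, 3, 4, 6, 7, 8]⟩, ⟨9, 9, [9]⟩, ⟨10, 13, [10, 11, 12, 13]⟩, ⟨14, 14, [14]⟩])] [(5, [(1, false), (12, true), (13, false), (9, true), (10, true), (11, true), (8, false)]), (7, [(0, false), (12, false), (13, false), (6, true), (7, false), (8, true)])] 1 [(0, 4), (2, 8), (7, 8), (14, 12)]))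
  (.der [(687, 1, [(0, 1)]), (772, 1, [(0, 1)])]
  (.br [0, -1, 1, 0, 0, 0, 1, -1]
  (.der [(832, 1, [(0, 1)])]
  (.br [-1, 0, 0, 1, 0, 1, -1]
  (.der [(492, 1, [(0, 1), (4, 1), (9, 1)]), (550, 1, [(0, 1)])]
  (.leaf [(12, [⟨0, 0, [0]⟩, ⟨1, 5, [1, 5]⟩, ⟨2, 8, [2, 3, 4, 6, 7, 8]⟩, ⟨9, 9, [9]⟩, ⟨10, 14, [10, 11, 12, 13, 14]⟩]), (4, [⟨0, 0, [0]⟩, ⟨1, 1, [1]⟩, ⟨5, 5, [5]⟩, ⟨2, 8, [2, 3, 4, 6, 7, 8]⟩, ⟨9, 9, [9]⟩, ⟨10, 14, [10, 11, 12, 13, 14]⟩]), (70, [⟨0, 0, [0]⟩, ⟨1, 1, [1]⟩, ⟨5, 5, [5]⟩, ⟨2, 8, [2, 3, 4, 6, 7, 8]⟩, ⟨9, 9, [9]⟩, ⟨10, 13, [10, 11, 12, 13]⟩, ⟨14, 14, [14]⟩])] [(26, [(1, false), (12, true), (13, false), (9, true), (10, true), (11, true), (8, false)]), (21, [(0, false), (12, true), (13, false), (6, true), (7, true), (8, true)]), (39, [(2, false), (12, false), (13, false), (9, true), (6,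 false), (10, false), (7, true), (11, false), (8, false)])] 1 [(9, 46), (16, 180), (20, 16)]))
  (.der [(775, 1, [(0, 1)])]
  (.leaf [(16, [⟨0, 1, [0, 1]⟩, ⟨5, 5, [5]⟩, ⟨2, 6, [2, 6]⟩, ⟨3, 3, [3]⟩, ⟨7, 8, [4, 7, 8]⟩, ⟨9, 11, [9, 10, 11, 12]⟩, ⟨13, 14, [13, 14]⟩]), (10, [⟨0, 1, [0, 1]⟩, ⟨5, 5, [5]⟩, ⟨2, 6, [2, 6]⟩, ⟨3, 3, [3]⟩, ⟨7, 8, [4, 7, 8]⟩, ⟨9, 9, [9]⟩, ⟨10, 11, [10, 11, 12]⟩, ⟨13, 14, [13, 14]⟩]), (64, [⟨0, 1, [0, 1]⟩, ⟨5, 5, [5]⟩, ⟨2, 6, [2, 6]⟩, ⟨3, 3, [3]⟩, ⟨7, 8, [4, 7, 8]⟩, ⟨9, 9, [9]⟩, ⟨10, 11, [10, 11, 12]⟩, ⟨13, 13, [13]⟩, ⟨14, 14, [14]⟩])] [(4, []), (15, [(1, false), (12, true), (13, false), (9, true), (10, true), (11, true), (8, false)]), (71, [(4, false), (12, true), (13, false), (9, true), (6, false), (10, true), (7, true), (11, false), (8, false)])] 1 [(11, 38), (16, 142), (20, 62),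 (22, 46)]))))
  (.der [(607, 1, [(0, 1)])]
  (.br [-1, 0, 0, 1, 0, 1, -1]
  (.der [(492, 1, [(0, 1), (4, 1), (9, 1)]), (550, 1, [(0, 1)])]
  (.leaf [(4, [⟨0, 1, [0, 1]⟩, ⟨5, 5, [5]⟩, ⟨2, 8, [2, 3, 4, 6, 7, 8]⟩, ⟨9, 9, [9]⟩, ⟨10, 13, [10, 11, 12, 13]⟩, ⟨14, 14, [14]⟩])] [(2, [(1, false), (12, true), (13, false), (9, true), (10, true), (11, true), (8, false)]), (1, [(0, false), (12, true), (13, false), (6, true), (7, true), (8, true)]), (1, [(2, false), (12, false), (13, false), (9, true), (6, false), (10, false), (7, false), (11, false), (8, false)])] 1 [(0, 4), (1, 4), (9, 2)]))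
  (.der [(775, 1, [(0, 1)])]
  (.leaf [(2, [⟨0, 1, [0, 1]⟩, ⟨5, 5, [5]⟩, ⟨2, 6, [2, 6]⟩, ⟨3, 8, [3, 4, 7, 8]⟩, ⟨9, 9, [9]⟩, ⟨10, 11, [10, 11, 12]⟩, ⟨13, 14, [13, 14]⟩]), (2, [⟨0, 1, [0, 1]⟩, ⟨5, 5, [5]⟩, ⟨2, 6, [2, 6]⟩, ⟨3, 8, [3, 4, 7, 8]⟩, ⟨9, 9, [9]⟩, ⟨10, 11, [10, 11, 12]⟩, ⟨13, 13, [13]⟩, ⟨14, 14, [14]⟩])] [(2, [(1, false), (12, true), (13, false), (9, true), (10, true), (11, true), (8, false)]), (1, [(0, false), (12, true), (13, false), (6, true), (7, true), (8, true)]), (1, [(4, false), (12, true), (13, false), (9, true), (6, false), (10, true), (7, false), (11, false), (8, false)])] 1 [(1, 4)]))))))))))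
  (.der [(54, 1, [(0, 2), (1, 1), (7, 1), (12, 1), (17, 1), (20, 1)]), (868, 1, [(0, 1)])]
  (.br [0, 0, 0, 1, -2, 0, 0, 0, 0, 1]
  (.der [(654, 1, [(0, 1)])]
  (.br [-1, 1, 0, 0, 0, 1, -1]
  (.der [(455, 1, [(0, 1), (6, 1), (19, 1)]), (462, 1, [(0, 1)]), (547, 1, [(0, 1)])]
  (.br [0, 1, 0, 0, -2, 0, 0, 0, 0, 1]
  (.der [(651, 1, [(0, 1)])]
  (.leaf [(14, [⟨0, 11, [0, 1, 2, 3, 4, 5, 6, 7, 8, 9, 10, 11, 12]⟩, ⟨13, 13, [13]⟩, ⟨14, 14, [14]⟩]), (14, [⟨0, 5, [0, 1, 5]⟩, ⟨2, 11, [2, 3, 4, 6, 7, 8, 9, 10, 11, 12]⟩, ⟨13, 13, [13]⟩, ⟨14, 14, [14]⟩])] [(1, []), (3, [(4, false), (5, false), (14, false), (13, true), (7, true), (11, false), (8, false)]), (4, [(0, false), (12, false), (13, true), (6, false), (7, false), (8, true)]), (20, [(0, false), (5, false), (14, false), (13, true), (6, false), (7, false),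 (11, false), (8, false)])] 1 [(1, 14), (4, 6), (8, 22), (15, 10)]))
  (.br [0, 1, -1, 0, -1, 1]
  (.der [(591, 1, [(0, 1)])]
  (.leaf [(26, [⟨0, 5, [0, 1, 5]⟩, ⟨2, 9, [2, 3, 4, 6, 7, 8, 9]⟩, ⟨10, 12, [10, 12]⟩, ⟨11, 11, [11]⟩, ⟨13, 13, [13]⟩, ⟨14, 14, [14]⟩])] [(1, []), (25, [(0, false), (5, false), (14, false), (13, true), (9, false), (6, false), (7, false), (11, false), (8, false)])] 1 [(1, 24), (2, 10), (4, 30), (7, 14), (9, 38), (16, 2), (20, 6), (21, 14)]))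
  (.der [(816, 1, [(0, 1)])]
  (.leaf [(1, [⟨0, 0, [0]⟩, ⟨1, 1, [1]⟩, ⟨5, 5, [5]⟩, ⟨2, 9, [2, 3, 4, 6, 7, 8, 9]⟩, ⟨10, 10, [10]⟩, ⟨12, 12, [12]⟩, ⟨11, 11, [11]⟩, ⟨13, 13, [13]⟩, ⟨14, 14, [14]⟩])] [(1, [(0, false), (5, false), (14, false), (13, true), (9, false), (6, true), (7, false), (11, false), (8, false)])] 1 [(7, 1), (9, 2), (20, 1), (25, 1)])))))
  (.der [(772, 1, [(0, 1)])]
  (.br [0, 1, 0, 0, -2, 0, 0, 0, 0, 1]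
  (.der [(651, 1, [(0, 1)])]
  (.br [-1, 0, 0, 1, 0, 1, -1]
  (.der [(537, 1, [(0, 1)]), (550, 1, [(0, 1)])]
  (.br [0, -1, 1, 0, 0, 0, 1, -1]
  (.der [(832, 1, [(0, 1)])]
  (.leaf [(2, [⟨0, 0, [0]⟩, ⟨1, 5, [1, 5]⟩, ⟨2, 11, [2, 3, 4, 6, 7, 8, 9, 10, 11, 12]⟩, ⟨13, 13, [13]⟩, ⟨14, 14, [14]⟩])] [(1, [(4, false), (5, false), (12, false), (13, true), (6, false), (10, false), (7, true), (11, false), (8, false)]), (1, [(4, false), (5, false), (14, false), (13, true), (6, false), (7, true), (11, false), (8, false)])] 1 [(6, 2), (10, 2), (17, 4)]))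
  (.der [(500, 1, [(0, 1)]), (607, 1, [(0, 1)])]
  (.leaf [(2, [⟨0, 5, [0, 1, 5]⟩, ⟨2, 9, [2, 3, 4, 6, 7, 8, 9]⟩, ⟨10, 11, [10, 11, 12]⟩, ⟨13, 13, [13]⟩, ⟨14, 14, [14]⟩])] [(1, [(4, false), (5, false), (14, false), (13, true), (7, true), (11, false), (8, false)]), (1, [(3, false), (5, false), (12, false), (13, true), (6, false), (10, false), (7, false), (11, false), (8, false)])] 1 [(0, 2), (8, 2), (10, 2)]))))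
  (.der [(717, 1, [(0, 1), (4, 1), (24, 1)]), (775, 1, [(0, 1)])]
  (.br [0, -1, 1, 0, 0, 0, 1, -1]
  (.der [(832, 1, [(0, 1)])]
  (.leaf [(1, [⟨0, 1, [0, 1]⟩, ⟨5, 5, [5]⟩, ⟨2, 6, [2, 6]⟩, ⟨3, 9, [3, 4, 7, 8, 9]⟩, ⟨10, 11, [10, 11, 12]⟩, ⟨13, 13, [13]⟩, ⟨14, 14, [14]⟩]), (1, [⟨0, 0, [0]⟩, ⟨1, 1, [1]⟩, ⟨5, 5, [5]⟩, ⟨2, 6, [2, 6]⟩, ⟨3, 9, [3, 4, 7, 8, 9]⟩, ⟨10, 11, [10, 11, 12]⟩, ⟨13, 13, [13]⟩, ⟨14, 14, [14]⟩])] [(1, [(2, false), (12, true), (13, true), (6, false), (10, true), (7, true), (11, false), (8, false)]), (1, [(4, false), (5, false), (14, false), (13, true), (6, false), (10, true), (7, true), (11, false), (8, false)])] 1 [(6, 2), (10, 1), (17, 6), (24, 1)]))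
  (.der [(607, 1, [(0, 1)])]
  (.br [0, 0, 0, 0, -1, 0, 2, 0, -1]
  (.der [(177, 1, [(0, 1)])]
  (.leaf [(28, [⟨0, 5, [0, 1, 5]⟩, ⟨2, 6, [2, 6]⟩, ⟨3, 9, [3, 4, 7, 8, 9]⟩, ⟨10, 10, [10]⟩, ⟨11, 11, [11, 12]⟩, ⟨13, 14, [13, 14]⟩]), (6, [⟨0, 5, [0, 1, 5]⟩, ⟨2, 6, [2, 6]⟩, ⟨3, 9, [3, 4, 7, 8, 9]⟩, ⟨10, 10, [10]⟩, ⟨11, 11, [11, 12]⟩, ⟨13, 13, [13]⟩, ⟨14, 14, [14]⟩])] [(1, []), (5, [(4, false), (5, false), (14, false), (13, true), (7, true), (11, false), (8, false)]), (28, [(2, false), (12, true), (13, true), (6, false), (10, true), (7, false), (11, false), (8, false)])] 1 [(1, 30), (3, 10), (7, 32), (11, 14), (13, 30)]))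
  (.der [(191, 1, [(0, 1)])]
  (.leaf [(2, [⟨0, 5, [0, 1, 5]⟩, ⟨2, 9, [2, 3, 4, 6, 7, 8, 9]⟩, ⟨10, 13, [10, 11, 12, 13]⟩, ⟨14, 14, [14]⟩]), (6, [⟨0, 5, [0, 1, 5]⟩, ⟨2, 6, [2, 6]⟩, ⟨3, 9, [3, 4, 7, 8, 9]⟩, ⟨10, 10, [10]⟩, ⟨12, 11, [11, 12]⟩, ⟨13, 13, [13]⟩, ⟨14, 14, [14]⟩])] [(3, [(4, false), (5, false), (14, false), (13, true), (7, true), (11, false), (8, false)]), (5, [(2, false), (12, true), (13, true), (6, false), (10, true), (7, false), (11, false), (8, false)])] 1 [(3, 6), (7, 6), (11, 4), (21, 2)]))))))))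
  (.der [(114, 2, [(0, 2), (2, 1), (3, 2), (4, 1), (15, 2), (20, 2)]), (876, 1, [(0, 1)])]
  (.br [0, 1, 0, -1, 0, -1, 0, 1]
  (.der [(318, 1, [(0, 1)])]
  (.br [0, 0, 0, 0, -1, 0, 2, 0, -1]
  (.der [(177, 1, [(0, 1)])]
  (.br [0, -1, 1, 0, 0, 0, 1, -1]
  (.der [(832, 1, [(0, 1)])]
  (.br [-1, 0, 0, 1, 0, 1, -1]
  (.der [(550, 1, [(0, 1)])]
  (.br [0, 1, -1, 0, -1, 1]
  (.der [(485, 1, [(0, 1)]), (591, 1, [(0, 1)])]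
  (.leaf [(2, [⟨0, 3, [0, 1, 2, 3, 5, 6]⟩, ⟨7, 9, [4, 7, 8, 9]⟩, ⟨10, 10, [10]⟩, ⟨11, 11, [11, 12]⟩, ⟨13, 13, [13]⟩, ⟨14, 14, [14]⟩]), (12, [⟨0, 5, [0, 1, 5]⟩, ⟨2, 3, [2, 3, 6]⟩, ⟨7, 9, [4, 7, 8, 9]⟩, ⟨10, 10, [10]⟩, ⟨11, 11, [11, 12]⟩, ⟨13, 13, [13]⟩, ⟨14, 14, [14]⟩]), (22, [⟨0, 0, [0]⟩, ⟨1, 5, [1, 5]⟩, ⟨2, 3, [2, 3, 6]⟩, ⟨7, 9, [4, 7, 8, 9]⟩, ⟨10, 10, [10]⟩, ⟨11, 11, [11, 12]⟩, ⟨13, 13, [13]⟩, ⟨14, 14, [14]⟩])] [(2, [(1, false), (12, true), (13, true), (9, false), (10, true), (11, true), (8, false)]), (17, [(4, false), (12, true), (13, true), (6, true), (10, false), (7, true), (11, false), (8, false)]), (17, [(2, false), (5, false), (14, false), (13, true), (9, false), (6, false), (10, false), (7, true), (11, false), (8, false)])] 1 [(13, 18), (20, 36), (24, 8), (25, 22), (26, 38)]))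
  (.der [(710, 1, [(0, 1)]), (816, 1, [(0, 1)])]
  (.leaf [(6, [⟨0, 0, [0]⟩, ⟨1, 1, [1]⟩, ⟨5, 5, [5]⟩, ⟨2, 3, [2, 3, 6]⟩, ⟨7, 9, [4, 7, 8, 9]⟩, ⟨10, 10, [10]⟩, ⟨11, 11, [11, 12]⟩, ⟨13, 13, [13]⟩, ⟨14, 14, [14]⟩])] [(1, []), (1, [(4, false), (5, false), (14, false), (13, true), (7, true), (11, false), (8, false)]), (4, [(2, false), (5, true), (14, false), (13, true), (9, false), (6, true), (10, false), (7, true), (11, false), (8, false)])] 1 [(4, 2), (9, 2), (13, 14), (20, 2)]))))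
  (.der [(717, 1, [(0, 1), (7, 1), (27, 1)]), (775, 1, [(0, 1)])]
  (.br [0, 1, -1, 0, -1, 1]
  (.der [(485, 1, [(0, 1)]), (591, 1, [(0, 1)])]
  (.leaf [(2, [⟨0, 5, [0, 1, 5]⟩, ⟨2, 6, [2, 6]⟩, ⟨3, 3, [3]⟩, ⟨7, 9, [4, 7, 8, 9]⟩, ⟨10, 10, [10]⟩, ⟨11, 11, [11, 12]⟩, ⟨13, 14, [13, 14]⟩]), (2, [⟨0, 0, [0]⟩, ⟨1, 5, [1, 5]⟩, ⟨2, 6, [2, 6]⟩, ⟨3, 3, [3]⟩, ⟨7, 9, [4, 7, 8, 9]⟩, ⟨10, 10, [10]⟩, ⟨11, 11, [11, 12]⟩, ⟨13, 14, [13, 14]⟩]), (4, [⟨0, 0, [0]⟩, ⟨1, 5, [1, 5]⟩, ⟨2, 6, [2, 6]⟩, ⟨3, 3, [3]⟩, ⟨7, 9, [4, 7, 8, 9]⟩, ⟨10, 10, [10]⟩, ⟨11, 11, [11, 12]⟩, ⟨13, 13, [13]⟩, ⟨14, 14, [14]⟩])] [(1, []), (3, [(2, false), (12, true), (13, true), (6, true), (10, true), (7, true), (11, false), (8, false)]), (4, [(2, false), (5, false), (14, false), (13, true), (9, false), (6, false), (10, true), (7, true), (11, false),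 (8, false)])] 1 [(13, 10), (20, 10)]))
  (.der [(710, 1, [(0, 1)]), (816, 1, [(0, 1)])]
  (.leaf [(4, [⟨0, 0, [0]⟩, ⟨1, 1, [1]⟩, ⟨5, 5, [5]⟩, ⟨2, 6, [2, 6]⟩, ⟨3, 3, [3]⟩, ⟨7, 9, [4, 7, 8, 9]⟩, ⟨10, 10, [10]⟩, ⟨11, 11, [11, 12]⟩, ⟨13, 14, [13, 14]⟩]), (20, [⟨0, 0, [0]⟩, ⟨1, 1, [1]⟩, ⟨5, 5, [5]⟩, ⟨2, 6, [2, 6]⟩, ⟨3, 3, [3]⟩, ⟨7, 9, [4, 7, 8, 9]⟩, ⟨10, 10, [10]⟩, ⟨11, 11, [11, 12]⟩, ⟨13, 13, [13]⟩, ⟨14, 14, [14]⟩])] [(3, []), (5, [(4, false), (5, false), (14, false), (13, true), (7, true), (11, false), (8, false)]), (16, [(2, false), (5, true), (14, false), (13, true), (9, false), (6, true), (10, true), (7, true), (11, false), (8, false)])] 1 [(4, 10), (7, 1), (9, 9), (13, 46), (20, 20), (24, 10)]))))))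
  (.der [(607, 1, [(0, 1)])]
  (.br [-1, 0, 0, 1, 0, 1, -1]
  (.der [(550, 1, [(0, 1)])]
  (.leaf [(2, [⟨0, 5, [0, 1, 5]⟩, ⟨2, 3, [2, 3, 6]⟩, ⟨7, 9, [4, 7, 8, 9]⟩, ⟨10, 10, [10]⟩, ⟨11, 11, [11, 12]⟩, ⟨13, 13, [13]⟩, ⟨14, 14, [14]⟩]), (2, [⟨0, 5, [0, 1, 5]⟩, ⟨2, 3, [2, 3, 6]⟩, ⟨7, 8, [4, 7, 8]⟩, ⟨9, 9, [9]⟩, ⟨10, 10, [10]⟩, ⟨11, 11, [11, 12]⟩, ⟨13, 13, [13]⟩, ⟨14, 14, [14]⟩])] [(1, [(4, false), (5, false), (14, false), (13, true), (7, true), (11, false), (8, false)]), (1, [(1, false), (12, true), (13, true), (9, false), (10, true), (11, true), (8, false)]), (2, [(4, false), (12, true), (13, true), (6, true), (10, false), (7, false), (11, false), (8, false)])] 1 [(12, 4), (24, 2)]))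
  (.der [(717, 1, [(0, 1), (7, 1), (27, 1)]), (775, 1, [(0, 1)])]
  (.br [0, 1, -1, 0, -1, 1]
  (.der [(485, 1, [(0, 1)]), (591, 1, [(0, 1)])]
  (.leaf [(32, [⟨0, 5, [0, 1, 5]⟩, ⟨2, 6, [2, 6]⟩, ⟨3, 3, [3]⟩, ⟨7, 9, [4, 7, 8, 9]⟩, ⟨10, 10, [10]⟩, ⟨11, 11, [11, 12]⟩, ⟨13, 14, [13, 14]⟩]), (10, [⟨0, 5, [0, 1, 5]⟩, ⟨2, 6, [2, 6]⟩, ⟨3, 3, [3]⟩, ⟨7, 9, [4, 7, 8, 9]⟩, ⟨10, 10, [10]⟩, ⟨11, 11, [11, 12]⟩, ⟨13, 13, [13]⟩, ⟨14, 14, [14]⟩])] [(2, []), (5, [(1, false), (12, true), (13, true), (9, false), (10, true), (11, true), (8, false)]), (15, [(2, false), (12, true), (13, true), (6, true), (10, true), (7, false), (11, false), (8, false)]), (20, [(2, false), (5, false), (14, false), (13, true), (9, false), (6, false), (10, true), (7, false), (11, false), (8, false)])] 1 [(3, 4), (9, 8), (15, 12), (24, 22), (26,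 18)]))
  (.der [(710, 1, [(0, 1)]), (816, 1, [(0, 1)])]
  (.leaf [(4, [⟨0, 0, [0]⟩, ⟨1, 1, [1]⟩, ⟨5, 5, [5]⟩, ⟨2, 6, [2, 6]⟩, ⟨3, 3, [3]⟩, ⟨7, 9, [4, 7, 8, 9]⟩, ⟨10, 10, [10]⟩, ⟨11, 11, [11, 12]⟩, ⟨13, 14, [13, 14]⟩]), (3, [⟨0, 0, [0]⟩, ⟨1, 1, [1]⟩, ⟨5, 5, [5]⟩, ⟨2, 6, [2, 6]⟩, ⟨3, 3, [3]⟩, ⟨7, 9, [4, 7, 8, 9]⟩, ⟨10, 10, [10]⟩, ⟨11, 11, [11, 12]⟩, ⟨13, 13, [13]⟩, ⟨14, 14, [14]⟩]), (13, [⟨0, 0, [0]⟩, ⟨1, 1, [1]⟩, ⟨5, 5, [5]⟩, ⟨2, 6, [2, 6]⟩, ⟨3, 3, [3]⟩, ⟨7, 8, [4, 7, 8]⟩, ⟨9, 9, [9]⟩, ⟨10, 10, [10]⟩, ⟨11, 11, [11, 12]⟩, ⟨13, 13, [13]⟩, ⟨14, 14, [14]⟩])] [(3, []), (17, [(2, false), (5, true), (14, false), (13, true), (9, false), (6, true), (10, true), (7, false), (11, false), (8, false)])] 1 [(3, 6), (5, 12), (9, 15), (13, 32), (24, 6), (27, 12)]))))))))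
  (.der [(191, 1, [(0, 1)])]
  (.br [0, 1, -1, 0, -1, 1]
  (.der [(485, 1, [(0, 1)]), (591, 1, [(0, 1)])]
  (.leaf [(2, [⟨0, 0, [0]⟩, ⟨1, 5, [1, 5]⟩, ⟨2, 9, [2, 3, 4, 6, 7, 8, 9]⟩, ⟨10, 10, [10]⟩, ⟨12, 11, [11, 12]⟩, ⟨13, 14, [13, 14]⟩]), (7, [⟨0, 0, [0]⟩, ⟨1, 5, [1, 5]⟩, ⟨2, 9, [2, 3, 4, 6, 7, 8, 9]⟩, ⟨10, 10, [10]⟩, ⟨12, 11, [11, 12]⟩, ⟨13, 13, [13]⟩, ⟨14, 14, [14]⟩])] [(2, [(1, false), (12, true), (13, true), (9, false), (10, true), (11, true), (8, false)]), (7, [(2, false), (5, false), (14, false), (13, true), (9, false), (6, false), (7, true), (11, false), (8, false)])] 1 [(3, 7), (7, 2), (22, 4), (23, 3), (24, 4)]))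
  (.der [(710, 1, [(0, 1)]), (816, 1, [(0, 1)])]
  (.leaf [(6, [⟨0, 0, [0]⟩, ⟨1, 5, [1, 5]⟩, ⟨2, 9, [2, 3, 4, 6, 7, 8, 9]⟩, ⟨10, 10, [10]⟩, ⟨12, 11, [11, 12]⟩, ⟨13, 13, [13]⟩, ⟨14, 14, [14]⟩]), (2, [⟨0, 0, [0]⟩, ⟨1, 5, [1, 5]⟩, ⟨2, 8, [2, 3, 4, 6, 7, 8]⟩, ⟨9, 9, [9]⟩, ⟨10, 10, [10]⟩, ⟨12, 11, [11, 12]⟩, ⟨13, 13, [13]⟩, ⟨14, 14, [14]⟩])] [(5, [(4, false), (5, false), (14, false), (13, true), (7, true), (11, false), (8, false)]), (1, [(1, false), (12, true), (13, true), (9, false), (10, true), (11, true), (8, false)]), (2, [(2, false), (5, true), (14, false), (13, true), (9, false), (6, true), (7, true), (11, false), (8, false)])] 1 [(11, 12), (23, 6)]))))))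
  (.der [(276, 1, [(0, 1)]), (537, 1, [(0, 1), (10, 1), (16, 1)]), (550, 1, [(0, 1), (10, 1), (16, 1)]), (832, 1, [(0, 1), (7, 1)])]
  (.leaf [(2, [⟨0, 0, [0]⟩, ⟨1, 5, [1, 5]⟩, ⟨2, 6, [2, 3, 6]⟩, ⟨7, 11, [4, 7, 8, 9, 10, 11, 12]⟩, ⟨13, 13, [13]⟩, ⟨14, 14, [14]⟩]), (8, [⟨0, 0, [0]⟩, ⟨1, 5, [1, 5]⟩, ⟨2, 6, [2, 3, 6]⟩, ⟨7, 9, [4, 7, 8, 9]⟩, ⟨10, 11, [10, 11, 12]⟩, ⟨13, 13, [13]⟩, ⟨14, 14, [14]⟩]), (4, [⟨0, 0, [0]⟩, ⟨1, 5, [1, 5]⟩, ⟨2, 6, [2, 6]⟩, ⟨3, 6, [3]⟩, ⟨7, 9, [4, 7, 8, 9]⟩, ⟨10, 11, [10, 11, 12]⟩, ⟨13, 13, [13]⟩, ⟨14, 14, [14]⟩])] [(1, [(1, false), (12, true), (13, true), (9, false), (10, true), (11, true), (8, false)]), (4, [(4, false), (5, false), (12, false), (13, true), (6, true), (10, false), (7, true), (11, false), (8, false)]), (9, [(4, false), (5, false), (14, false), (13, true), (9, false),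 (10, true), (6, false), (7, true), (11, false), (8, false)])] 1 [(5, 6), (9, 16), (10, 2), (16, 22), (21, 4)]))))))))
  (.der [(876, 1, [(0, 1), (8, 1), (9, 1)]), (879, 1, [(0, 1)])]
  (.br [-1, 1, 0, 0, 0, 1, -1]
  (.der [(455, 1, [(0, 1), (6, 1), (19, 1)]), (547, 1, [(0, 1)])]
  (.br [0, 1, -1, 0, -1, 1]
  (.der [(591, 1, [(0, 1)])]
  (.leaf [(1, [⟨0, 5, [0, 1, 5]⟩, ⟨2, 8, [2, 3, 4, 6, 7, 8]⟩, ⟨9, 9, [9]⟩, ⟨10, 11, [10, 11, 12]⟩, ⟨13, 14, [13, 14]⟩])] [(1, [(0, false), (5, false), (14, false), (13, true), (9, true), (6, false), (7, false), (11, false), (8, false)])] 1 [(10, 2), (20, 2), (21, 1)]))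
  (.der [(816, 1, [(0, 1)])]
  (.leaf [(14, [⟨0, 1, [0, 1]⟩, ⟨5, 5, [5]⟩, ⟨2, 8, [2, 3, 4, 6, 7, 8]⟩, ⟨9, 9, [9]⟩, ⟨10, 12, [10, 12]⟩, ⟨11, 13, [11, 13]⟩, ⟨14, 14, [14]⟩]), (4, [⟨0, 1, [0, 1]⟩, ⟨5, 5, [5]⟩, ⟨2, 8, [2, 3, 4, 6, 7, 8]⟩, ⟨9, 9, [9]⟩, ⟨10, 10, [10]⟩, ⟨12, 12, [12]⟩, ⟨11, 13, [11, 13]⟩, ⟨14, 14, [14]⟩]), (4, [⟨0, 1, [0, 1]⟩, ⟨5, 5, [5]⟩, ⟨2, 8, [2, 3, 4, 6, 7, 8]⟩, ⟨9, 9, [9]⟩, ⟨10, 10, [10]⟩, ⟨12, 12, [12]⟩, ⟨11, 11, [11]⟩, ⟨13, 13, [13]⟩, ⟨14, 14, [14]⟩]), (8, [⟨0, 0, [0]⟩, ⟨1, 1, [1]⟩, ⟨5, 5, [5]⟩, ⟨2, 8, [2, 3, 4, 6, 7, 8]⟩, ⟨9, 9, [9]⟩, ⟨10, 10, [10]⟩, ⟨12, 12, [12]⟩, ⟨11, 11, [11]⟩, ⟨13, 13, [13]⟩, ⟨14, 14, [14]⟩])] [(5, [(3, false), (10, true), (11, true), (8, false)]), (2, [(1, false), (12, true), (13, true), (9, true), (10, true), (11, true), (8, false)]), (23, [(0, false), (5,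 false), (14, false), (13, true), (9, true), (6, true), (7, false), (11, false), (8, false)])] 1 [(8, 30), (19, 24), (21, 8)]))))
  (.der [(687, 1, [(0, 1)]), (772, 1, [(0, 1)])]
  (.br [0, 1, 0, -1, 0, -1, 0, 1]
  (.der [(318, 1, [(0, 1)])]
  (.br [0, 0, 0, 0, -1, 0, 2, 0, -1]
  (.der [(177, 1, [(0, 1)])]
  (.br [0, 1, -1, 0, -1, 1]
  (.der [(485, 1, [(0, 1)]), (591, 1, [(0, 1)])]
  (.br [0, -1, 1, 0, 0, 0, 1, -1]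
  (.der [(832, 1, [(0, 1)])]
  (.br [-1, 0, 0, 1, 0, 1, -1]
  (.der [(550, 1, [(0, 1)]), (749, 1, [(0, 1), (11, 1), (12, 1)])]
  (.leaf [(76, [⟨0, 5, [0, 1, 5]⟩, ⟨2, 3, [2, 3, 6]⟩, ⟨7, 8, [4, 7, 8]⟩, ⟨9, 9, [9]⟩, ⟨10, 10, [10]⟩, ⟨11, 11, [11, 12]⟩, ⟨13, 13, [13]⟩, ⟨14, 14, [14]⟩]), (90, [⟨0, 1, [0, 1]⟩, ⟨5, 5, [5]⟩, ⟨2, 3, [2, 3, 6]⟩, ⟨7, 8, [4, 7, 8]⟩, ⟨9, 9, [9]⟩, ⟨10, 10, [10]⟩, ⟨11, 11, [11, 12]⟩, ⟨13, 13, [13]⟩, ⟨14, 14, [14]⟩])] [(1, []), (55, [(1, false), (12, true), (13, true), (9, true), (10, true), (11, true), (8, false)]), (30, [(0, false), (12, true), (13, true), (6, true), (7, true), (8, true)]), (80, [(4, false), (14, true), (13, true), (9, true), (6, false), (10, false), (7, true), (11, false), (8, false)])] 1 [(19, 162), (23, 6), (24, 144), (27, 12)]))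
  (.der [(775, 1, [(0, 1)])]
  (.leaf [(16, [⟨0, 1, [0, 1]⟩, ⟨5, 5, [5]⟩, ⟨2, 6, [2, 6]⟩, ⟨3, 3, [3]⟩, ⟨7, 8, [4, 7, 8]⟩, ⟨9, 9, [9]⟩, ⟨10, 10, [10]⟩, ⟨11, 11, [11, 12]⟩, ⟨13, 14, [13, 14]⟩]), (20, [⟨0, 1, [0, 1]⟩, ⟨5, 5, [5]⟩, ⟨2, 6, [2, 6]⟩, ⟨3, 3, [3]⟩, ⟨7, 8, [4, 7, 8]⟩, ⟨9, 9, [9]⟩, ⟨10, 10, [10]⟩, ⟨11, 11, [11, 12]⟩, ⟨13, 13, [13]⟩, ⟨14, 14, [14]⟩])] [(1, []), (14, [(1, false), (12, true), (13, true), (9, true), (10, true), (11, true), (8, false)]), (6, [(0, false), (12, true), (13, true), (6, true), (7, true), (8, true)]), (15, [(2, false), (5, false), (14, false), (13, true), (9, true), (6, false), (10, true), (7, true), (11, false), (8, false)])] 1 [(12, 8), (19, 26), (24, 6)]))))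
  (.der [(607, 1, [(0, 1)])]
  (.br [-1, 0, 0, 1, 0, 1, -1]
  (.der [(550, 1, [(0, 1)]), (749, 1, [(0, 1), (11, 1), (12, 1)])]
  (.leaf [(10, [⟨0, 5, [0, 1, 5]⟩, ⟨2, 3, [2, 3, 6]⟩, ⟨7, 8, [4, 7, 8]⟩, ⟨9, 10, [9, 10]⟩, ⟨11, 11, [11, 12]⟩, ⟨13, 13, [13]⟩, ⟨14, 14, [14]⟩]), (62, [⟨0, 5, [0, 1, 5]⟩, ⟨2, 3, [2, 3, 6]⟩, ⟨7, 8, [4, 7, 8]⟩, ⟨9, 9, [9]⟩, ⟨10, 10, [10]⟩, ⟨11, 11, [11, 12]⟩, ⟨13, 13, [13]⟩, ⟨14, 14, [14]⟩])] [(2, []), (20, [(1, false), (12, true), (13, true), (9, true), (10, true), (11, true), (8, false)]), (15, [(0, false), (12, true), (13, true), (6, true), (7, true), (8, true)]), (35, [(4, false), (14, true), (13, true), (9, true), (6, false), (10, false), (7, false), (11, false), (8, false)])] 1 [(19, 4), (23, 12), (24, 48), (27, 14)]))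
  (.der [(775, 1, [(0, 1)])]
  (.leaf [(1, [⟨0, 5, [0, 1, 5]⟩, ⟨2, 6, [2, 6]⟩, ⟨3, 8, [3, 4, 7, 8]⟩, ⟨9, 9, [9]⟩, ⟨10, 11, [10, 11, 12]⟩, ⟨13, 14, [13, 14]⟩])] [(1, [(2, false), (5, false), (14, false), (13, true), (9, true), (6, false), (10, true), (7, false), (11, false), (8, false)])] 1 [(4, 1), (5, 1), (19, 2), (23, 2), (27, 1)]))))))
  (.der [(710, 1, [(0, 1)]), (816, 1, [(0, 1)])]
  (.br [0, -1, 1, 0, 0, 0, 1, -1]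
  (.der [(832, 1, [(0, 1)])]
  (.br [-1, 0, 0, 1, 0, 1, -1]
  (.der [(537, 1, [(0, 1)]), (550, 1, [(0, 1)])]
  (.leaf [(4, [⟨0, 0, [0]⟩, ⟨1, 5, [1, 5]⟩, ⟨2, 3, [2, 3, 6]⟩, ⟨7, 8, [4, 7, 8]⟩, ⟨9, 9, [9]⟩, ⟨10, 10, [10]⟩, ⟨11, 11, [11, 12]⟩, ⟨13, 14, [13, 14]⟩]), (48, [⟨0, 0, [0]⟩, ⟨1, 5, [1, 5]⟩, ⟨2, 3, [2, 3, 6]⟩, ⟨7, 8, [4, 7, 8]⟩, ⟨9, 9, [9]⟩, ⟨10, 10, [10]⟩, ⟨11, 11, [11, 12]⟩, ⟨13, 13, [13]⟩, ⟨14, 14, [14]⟩]), (10, [⟨0, 0, [0]⟩, ⟨1, 1, [1]⟩, ⟨5, 5, [5]⟩, ⟨2, 3, [2, 3, 6]⟩, ⟨7, 8, [4, 7, 8]⟩, ⟨9, 9, [9]⟩, ⟨10, 10, [10]⟩, ⟨11, 11, [11, 12]⟩, ⟨13, 13, [13]⟩, ⟨14, 14, [14]⟩])] [(3, []), (35, [(4, false), (5, false), (14, false), (13, true), (7, true), (11, false), (8, false)]), (24, [(2, false), (5, true), (12, false), (13, true), (9, true), (6, true), (10, false), (7, true), (11, false), (8, false)])]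 1 [(4, 26), (5, 8), (12, 122), (19, 10)]))
  (.der [(762, 1, [(0, 1)]), (775, 1, [(0, 1)])]
  (.leaf [(2, [⟨0, 0, [0]⟩, ⟨1, 5, [1, 5]⟩, ⟨2, 6, [2, 6]⟩, ⟨3, 3, [3]⟩, ⟨7, 8, [4, 7, 8]⟩, ⟨9, 9, [9]⟩, ⟨10, 10, [10]⟩, ⟨11, 11, [11, 12]⟩, ⟨13, 14, [13, 14]⟩]), (100, [⟨0, 0, [0]⟩, ⟨1, 5, [1, 5]⟩, ⟨2, 6, [2, 6]⟩, ⟨3, 3, [3]⟩, ⟨7, 8, [4, 7, 8]⟩, ⟨9, 9, [9]⟩, ⟨10, 10, [10]⟩, ⟨11, 11, [11, 12]⟩, ⟨13, 13, [13]⟩, ⟨14, 14, [14]⟩]), (30, [⟨0, 0, [0]⟩, ⟨1, 1, [1]⟩, ⟨5, 5, [5]⟩, ⟨2, 6, [2, 6]⟩, ⟨3, 3, [3]⟩, ⟨7, 8, [4, 7, 8]⟩, ⟨9, 9, [9]⟩, ⟨10, 10, [10]⟩, ⟨11, 11, [11, 12]⟩, ⟨13, 13, [13]⟩, ⟨14, 14, [14]⟩])] [(65, [(4, false), (5, false), (14, false), (13, true), (7, true), (11, false), (8, false)]), (22, [(1, false), (12, true), (13, true), (9, true), (10, true), (11, true), (8, false)]), (13, [(0, false), (12, true),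 (13, true), (6, true), (7, true), (8, true)]), (32, [(2, false), (5, true), (12, true), (13, true), (9, true), (6, true), (10, true), (7, true), (11, false), (8, false)])] 1 [(12, 190), (19, 64)]))))
  (.der [(607, 1, [(0, 1)]), (762, 1, [(0, 1), (1, 1), (2, 1), (11, 1)]), (775, 1, [(0, 1), (1, 1), (2, 1), (11, 1)])]
  (.leaf [(24, [⟨0, 5, [0, 1, 5]⟩, ⟨2, 6, [2, 6]⟩, ⟨3, 3, [3]⟩, ⟨7, 8, [4, 7, 8]⟩, ⟨9, 9, [9]⟩, ⟨10, 10, [10]⟩, ⟨11, 14, [11, 12, 13, 14]⟩]), (14, [⟨0, 5, [0, 1, 5]⟩, ⟨2, 6, [2, 6]⟩, ⟨3, 3, [3]⟩, ⟨7, 8, [4, 7, 8]⟩, ⟨9, 9, [9]⟩, ⟨10, 10, [10]⟩, ⟨11, 11, [11, 12]⟩, ⟨13, 14, [13, 14]⟩]), (24, [⟨0, 0, [0]⟩, ⟨1, 5, [1, 5]⟩, ⟨2, 6, [2, 6]⟩, ⟨3, 3, [3]⟩, ⟨7, 8, [4, 7, 8]⟩, ⟨9, 9, [9]⟩, ⟨10, 10, [10]⟩, ⟨11, 11, [11, 12]⟩, ⟨13, 14, [13, 14]⟩]), (116, [⟨0, 0, [0]⟩, ⟨1, 5, [1, 5]⟩, ⟨2, 6, [2, 6]⟩,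 ⟨3, 3, [3]⟩, ⟨7, 8, [4, 7, 8]⟩, ⟨9, 9, [9]⟩, ⟨10, 10, [10]⟩, ⟨11, 11, [11, 12]⟩, ⟨13, 13, [13]⟩, ⟨14, 14, [14]⟩])] [(6, []), (15, [(3, false), (10, true), (11, true), (8, false)]), (85, [(4, false), (5, false), (14, false), (13, true), (7, true), (11, false), (8, false)]), (72, [(2, false), (5, true), (12, true), (13, true), (9, true), (6, true), (10, true), (7, false), (11, false), (8, false)])] 1 [(11, 220), (22, 24)]))))))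
  (.der [(191, 1, [(0, 1)])]
  (.br [0, 1, -1, 0, -1, 1]
  (.der [(485, 1, [(0, 1)]), (591, 1, [(0, 1)])]
  (.leaf [(1, [⟨0, 5, [0, 1, 5]⟩, ⟨2, 8, [2, 3, 4, 6, 7, 8]⟩, ⟨9, 9, [9]⟩, ⟨10, 10, [10]⟩, ⟨12, 11, [11, 12]⟩, ⟨13, 14, [13, 14]⟩]), (2, [⟨0, 1, [0, 1]⟩, ⟨5, 5, [5]⟩, ⟨2, 8, [2, 3, 4, 6, 7, 8]⟩, ⟨9, 9, [9]⟩, ⟨10, 10, [10]⟩, ⟨12, 11, [11, 12]⟩, ⟨13, 14, [13, 14]⟩])] [(1, [(1, false), (12, true), (13, true), (9, true), (10, true), (11, true), (8, false)]), (2, [(2, false), (5, false), (14, false), (13, true), (9, true), (6, false), (7, true), (11, false), (8, false)])] 1 [(0, 2), (19, 4), (25, 1)]))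
  (.der [(710, 1, [(0, 1)]), (816, 1, [(0, 1)])]
  (.leaf [(8, [⟨0, 0, [0]⟩, ⟨1, 5, [1, 5]⟩, ⟨2, 8, [2, 3, 4, 6, 7, 8]⟩, ⟨9, 9, [9]⟩, ⟨10, 10, [10]⟩, ⟨12, 11, [11, 12]⟩, ⟨13, 13, [13]⟩, ⟨14, 14, [14]⟩])] [(5, [(4, false), (5, false), (14, false), (13, true), (7, true), (11, false), (8, false)]), (1, [(1, false), (12, true), (13, true), (9, true), (10, true), (11, true), (8, false)]), (2, [(2, false), (5, true), (14, false), (13, true), (9, true), (6, true), (7, true), (11, false), (8, false)])] 1 [(10, 12), (22, 6)]))))))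
  (.der [(276, 1, [(0, 1)])]
  (.leaf [(2, [⟨0, 5, [0, 1, 5]⟩, ⟨2, 6, [2, 6]⟩, ⟨3, 6, [3]⟩, ⟨7, 8, [4, 7, 8]⟩, ⟨9, 9, [9]⟩, ⟨10, 11, [10, 11, 12]⟩, ⟨13, 13, [13]⟩, ⟨14, 14, [14]⟩]), (4, [⟨0, 0, [0]⟩, ⟨1, 5, [1, 5]⟩, ⟨2, 6, [2, 6]⟩, ⟨3, 6, [3]⟩, ⟨7, 8, [4, 7, 8]⟩, ⟨9, 9, [9]⟩, ⟨10, 11, [10, 11, 12]⟩, ⟨13, 13, [13]⟩, ⟨14, 14, [14]⟩])] [(1, [(4, false), (5, false), (14, false), (13, true), (7, true), (11, false), (8, false)]), (1, [(1, false), (12, true), (13, true), (9, true), (10, true), (11, true), (8, false)]), (4, [(4, false), (5, false), (14, false), (13, true), (9, true), (10, true), (6, false), (7, true), (11, false), (8, false)])] 1 [(0, 2), (8, 8), (15, 8), (20, 4)]))))))))))))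
  (.der [(368, 2, [(0, 3), (1, 1), (2, 1), (8, 1), (10, 3), (15, 1), (19, 1)]), (383, 1, [(0, 1)]), (669, 1, [(0, 1), (8, 1), (10, 1)]), (868, 1, [(0, 1), (13, 1)])]
  (.br [0, 0, 0, 0, -1, 0, 2, 0, -1]
  (.der [(177, 1, [(0, 1)])]
  (.br [-1, 0, 0, 0, 2, 0, -1]
  (.der [(54, 1, [(0, 1)])]
  (.br [0, -1, 1, 0, 1, -1]
  (.der [(816, 1, [(0, 1)])]
  (.br [0, -1, 1, 0, 0, 0, 1, -1]
  (.der [(832, 1, [(0, 1)])]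
  (.br [-1, 0, 0, 1, 0, 1, -1]
  (.der [(550, 1, [(0, 1)])]
  (.leaf [(2, [⟨0, 0, [0]⟩, ⟨1, 6, [1, 2, 5, 6]⟩, ⟨3, 8, [3, 4, 7, 8, 9, 10]⟩, ⟨11, 11, [11, 12]⟩, ⟨13, 13, [13]⟩, ⟨14, 14, [14]⟩]), (2, [⟨0, 0, [0]⟩, ⟨1, 5, [1, 5]⟩, ⟨2, 6, [2, 6]⟩, ⟨3, 8, [3, 4, 7, 8, 9, 10]⟩, ⟨11, 11, [11, 12]⟩, ⟨13, 13, [13]⟩, ⟨14, 14, [14]⟩])] [(3, [(4, false), (5, false), (14, false), (13, true), (7, true), (11, false), (8, false)]), (1, [(4, false), (5, false), (14, false), (9, false), (6, true), (10, false), (7, true), (11, false), (8, false)])] 1 [(4, 2), (8, 12), (9, 2), (15, 10)]))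
  (.der [(775, 1, [(0, 1)])]
  (.leaf [(2, [⟨0, 0, [0]⟩, ⟨1, 6, [1, 2, 5, 6]⟩, ⟨3, 8, [3, 4, 7, 8, 9, 10]⟩, ⟨11, 11, [11, 12]⟩, ⟨13, 13, [13]⟩, ⟨14, 14, [14]⟩]), (2, [⟨0, 0, [0]⟩, ⟨1, 5, [1, 5]⟩, ⟨2, 6, [2, 6]⟩, ⟨3, 8, [3, 4, 7, 8, 9, 10]⟩, ⟨11, 11, [11, 12]⟩, ⟨13, 13, [13]⟩, ⟨14, 14, [14]⟩])] [(3, [(4, false), (5, false), (14, false), (13, true), (7, true), (11, false), (8, false)]), (1, [(4, false), (5, false), (14, false), (9, false), (6, true), (10, true), (7, true), (11, false), (8, false)])] 1 [(8, 10), (9, 2), (13, 2), (15, 8)]))))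
  (.leaf [(2, [⟨0, 6, [0, 1, 2, 5, 6]⟩, ⟨3, 8, [3, 4, 7, 8, 9, 10]⟩, ⟨11, 11, [11, 12]⟩, ⟨13, 13, [13]⟩, ⟨14, 14, [14]⟩]), (2, [⟨0, 5, [0, 1, 5]⟩, ⟨2, 6, [2, 6]⟩, ⟨3, 8, [3, 4, 7, 8, 9, 10]⟩, ⟨11, 11, [11, 12]⟩, ⟨13, 13, [13]⟩, ⟨14, 14, [14]⟩])] [(3, [(4, false), (5, false), (14, false), (13, true), (7, true), (11, false), (8, false)]), (1, [(1, false), (14, true), (9, false), (10, true), (11, true), (8, false)])] 1 [(0, 6), (7, 6)])))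
  (.der [(485, 1, [(0, 1)]), (591, 1, [(0, 1)])]
  (.br [0, -1, 1, 0, 0, 0, 1, -1]
  (.der [(832, 1, [(0, 1)])]
  (.br [-1, 0, 0, 1, 0, 1, -1]
  (.der [(550, 1, [(0, 1)])]
  (.leaf [(2, [⟨0, 0, [0]⟩, ⟨1, 8, [1, 2, 3, 4, 5, 6, 7, 8, 9, 10]⟩, ⟨11, 11, [11, 12]⟩, ⟨13, 14, [13, 14]⟩])] [(1, [(4, false), (5, false), (14, false), (13, true), (7, true), (11, false), (8, false)]), (1, [(2, false), (5, false), (14, false), (9, false), (6, false), (10, false), (7, true), (11, false), (8, false)])] 1 [(8, 2), (15, 4)]))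
  (.der [(775, 1, [(0, 1)])]
  (.leaf [(2, [⟨0, 0, [0]⟩, ⟨1, 6, [1, 2, 5, 6]⟩, ⟨3, 8, [3, 4, 7, 8, 9, 10]⟩, ⟨11, 11, [11, 12]⟩, ⟨13, 14, [13, 14]⟩])] [(1, [(4, false), (5, false), (14, false), (13, true), (7, true), (11, false), (8, false)]), (1, [(2, false), (5, false), (14, false), (9, false), (6, false), (10, true), (7, true), (11, false), (8, false)])] 1 [(8, 2), (15, 4)]))))
  (.leaf [(2, [⟨0, 6, [0, 1, 2, 5, 6]⟩, ⟨3, 8, [3, 4, 7, 8, 9, 10]⟩, ⟨11, 11, [11, 12]⟩, ⟨13, 13, [13]⟩, ⟨14, 14, [14]⟩]), (2, [⟨0, 5, [0, 1, 5]⟩, ⟨2, 6, [2, 6]⟩, ⟨3, 8, [3, 4, 7, 8, 9, 10]⟩, ⟨11, 11, [11, 12]⟩, ⟨13, 13, [13]⟩, ⟨14, 14, [14]⟩])] [(3, [(4, false), (5, false), (14, false), (13, true), (7, true), (11, false), (8, false)]), (1, [(1, false), (14, true), (9, false), (10, true), (11, true), (8, false)])] 1 [(0, 6),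 (7, 6)])))))
  (.der [(138, 1, [(0, 1)]), (139, 1, [(0, 1), (4, 1), (12, 2), (16, 1)]), (142, 1, [(0, 1), (6, 1), (7, 1)]), (143, 1, [(0, 1), (4, 1), (6, 1), (7, 1), (12, 2), (16, 1)])]
  (.br [-1, 0, 0, 0, 0, 2, 0, 0, -1]
  (.der [(553, 1, [(0, 1)])]
  (.leaf [(2, [⟨0, 6, [0, 1, 2, 5, 6]⟩, ⟨9, 8, [3, 4, 7, 8, 9, 10]⟩, ⟨11, 11, [11, 12]⟩, ⟨13, 13, [13]⟩, ⟨14, 14, [14]⟩]), (6, [⟨0, 0, [0]⟩, ⟨1, 6, [1, 2, 5, 6]⟩, ⟨9, 8, [3, 4, 7, 8, 9, 10]⟩, ⟨11, 11, [11, 12]⟩, ⟨13, 13, [13]⟩, ⟨14, 14, [14]⟩])] [(4, [(4, false), (5, false), (14, false), (13, true), (7, true), (11, false), (8, false)]), (3, [(1, false), (14, true), (12, false), (13, true), (11, true), (8, false)]), (1, [(4, false), (5, false), (14, false), (6, true), (13, false), (7, true), (11, false), (8, false)])] 1 [(3, 2), (6, 6), (13, 12)]))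
  (.der [(778, 1, [(0, 1)])]
  (.leaf [(2, [⟨0, 0, [0]⟩, ⟨1, 6, [1, 2, 5, 6]⟩, ⟨9, 8, [3, 4, 7, 8, 9, 10]⟩, ⟨11, 11, [11, 12]⟩, ⟨13, 13, [13]⟩, ⟨14, 14, [14]⟩])] [(1, [(1, false), (14, true), (12, false), (13, true), (11, true), (8, false)]), (1, [(4, false), (5, false), (14, false), (6, true), (13, true), (7, true), (11, false), (8, false)])] 1 [(11, 2), (13, 2)]))))))
  (.der [(191, 1, [(0, 1)])]
  (.br [0, -1, 1, 0, 0, 0, 1, -1]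
  (.der [(832, 1, [(0, 1)])]
  (.leaf [(2, [⟨0, 0, [0]⟩, ⟨1, 8, [1, 2, 3, 4, 5, 6, 7, 8, 9, 10]⟩, ⟨12, 11, [11, 12]⟩, ⟨13, 13, [13]⟩, ⟨14, 14, [14]⟩]), (2, [⟨0, 0, [0]⟩, ⟨1, 5, [1, 5]⟩, ⟨2, 8, [2, 3, 4, 6, 7, 8, 9, 10]⟩, ⟨12, 11, [11, 12]⟩, ⟨13, 13, [13]⟩, ⟨14, 14, [14]⟩])] [(3, [(4, false), (5, false), (14, false), (13, true), (7, true), (11, false), (8, false)]), (1, [(4, false), (5, false), (14, false), (9, false), (10, true), (7, true), (11, false), (8, false)])] 1 [(5, 6), (10, 4), (12, 4)]))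
  (.der [(500, 1, [(0, 1)]), (607, 1, [(0, 1)])]
  (.leaf [(4, [⟨0, 8, [0, 1, 2, 3, 4, 5, 6, 7, 8, 9, 10]⟩, ⟨12, 11, [11, 12]⟩, ⟨13, 13, [13]⟩, ⟨14, 14, [14]⟩]), (2, [⟨0, 0, [0]⟩, ⟨1, 8, [1, 2, 3, 4, 5, 6, 7, 8, 9, 10]⟩, ⟨12, 11, [11, 12]⟩, ⟨13, 13, [13]⟩, ⟨14, 14, [14]⟩]), (6, [⟨0, 0, [0]⟩, ⟨1, 5, [1, 5]⟩, ⟨2, 8, [2, 3, 4, 6, 7, 8, 9, 10]⟩, ⟨12, 11, [11, 12]⟩, ⟨13, 13, [13]⟩, ⟨14, 14, [14]⟩])] [(9, [(4, false), (5, false), (14, false), (13, true), (7, true), (11, false), (8, false)]), (3, [(3, false), (5, false), (14, false), (9, false), (10, true), (7, false), (11, false), (8, false)])] 1 [(0, 2), (1, 4), (3, 4), (5, 14), (10, 16)]))))))))))))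

theorem tree9_ok : tree9.check ([1, 0, 0, -1, 0, 0, 0, -1, 1] :: ctx0) (dersMask 0 com) = true := by decide +kernel

end Pool.Agent.MSTDIntervals
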