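import Pool.Agent.MSTDIntervals.Measure
import Pool.Agent.MSTDIntervals.Defs

/-!
The sumset and the difference set of five intervals satisfy the interface `Geo`.
-/

namespace Pool.Agent.MSTDIntervals

open MeasureTheory Set
open scoped Pointwise

lemma icc_add {a b c d : ℝ} (h1 : a ≤ b) (h2 : c ≤ d) :
    Icc a b + Icc c d = Icc (a + c) (b + d) := by
  ext x
  rw [Set.mem_add]
  constructor
  · rintro ⟨u, ⟨hu1, hu2⟩, w, ⟨hw1, hw2⟩, rfl⟩
    exact ⟨by linarith, by linarith⟩
  · rintro ⟨hx1, hx2⟩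
    rcases le_total (x - c) b with h | h
    · exact ⟨x - c, ⟨by linarith, h⟩, c, ⟨le_refl _, h2⟩, by ring⟩
    · exact ⟨b, ⟨h1, le_refl _⟩, x - b, ⟨by linarith, by linarith⟩, by ring⟩

lemma icc_sub {a b c d : ℝ} (h1 : a ≤ b) (h2 : c ≤ d) :
    Icc a b - Icc c d = Icc (a - d) (b - c) := by
  ext x
  rw [Set.mem_sub]
  constructor
  · rintro ⟨u, ⟨hu1, hu2⟩, w, ⟨hw1, hw2⟩, rfl⟩
    exact ⟨by linarith, by linarith⟩
  · rintro ⟨hx1, hx2⟩
    rcases le_total (x + c) a with h | h
    · exact ⟨a, ⟨le_refl _, h1⟩, a - x, ⟨by linarith, by linarith⟩, by ring⟩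
    · exact ⟨x + c, ⟨h, by linarith⟩, c, ⟨le_refl _, h2⟩, by ring⟩

/-- endpoint values of `v` as a sequence -/
noncomputable def Y (v : Vec 5) (k : ℕ) : ℝ :=
  if h : k / 2 < 5 then (if k % 2 = 0 then (v ⟨k / 2, h⟩).1 else (v ⟨k / 2, h⟩).2) else 0

lemma Y0 (v : Vec 5) : Y v 0 = (v 0).1 := by simp [Y]
lemma Y1 (v : Vec 5) : Y v 1 = (v 0).2 := by simp [Y]
lemma Y2 (v : Vec 5) : Y v 2 = (v 1).1 := by simp [Y]
lemma Y3 (v : Vec 5) : Y v 3 = (v 1).2 := by simp [Y]
lemma Y4 (v : Vec 5) : Y v 4 = (v 2).1 := by simp [Y]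
lemma Y5 (v : Vec 5) : Y v 5 = (v 2).2 := by simp [Y]
lemma Y6 (v : Vec 5) : Y v 6 = (v 3).1 := by simp [Y]
lemma Y7 (v : Vec 5) : Y v 7 = (v 3).2 := by simp [Y]
lemma Y8 (v : Vec 5) : Y v 8 = (v 4).1 := by simp [Y]
lemma Y9 (v : Vec 5) : Y v 9 = (v 4).2 := by simp [Y]

lemma continuous_Y (k : ℕ) : Continuous fun v : Vec 5 => Y v k := by
  unfold Y
  split_ifs <;> fun_prop

lemma continuous_ev : ∀ (f : Form) (k : ℕ), Continuous fun v : Vec 5 => ev (Y v) k f
  | [], k => by simpa using continuous_const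
  | c :: cs, k => by
      simp only [ev_cons]
      exact (continuous_const.mul (continuous_Y k)).add (continuous_ev cs (k + 1))

/-- index of the sum interval `i, j` -/
def sidx (i j : Fin 5) : ℕ :=
  match i.val, j.val with
  | 0, 0 => 0 | 0, 1 => 1 | 0, 2 => 2 | 0, 3 => 3 | 0, 4 => 4
  | 1, 0 => 1 | 1, 1 => 5 | 1, 2 => 6 | 1, 3 => 7 | 1, 4 => 8
  | 2, 0 => 2 | 2, 1 => 6 | 2, 2 => 9 | 2, 3 => 10 | 2, 4 => 11
  | 3, 0 => 3 | 3, 1 => 7 | 3, 2 => 10 | 3, 3 => 12 | 3, 4 => 13
  | 4, 0 => 4 | 4, 1 => 8 | 4, 2 => 11 | 4, 3 => 13 | 4, 4 => 14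
  | _, _ => 0

lemma sidx_spec (v : Vec 5) (i j : Fin 5) : sidx i j < 15 ∧
    ev (Y v) 0 (SL.getD (sidx i j) []) = (v i).1 + (v j).1 ∧
    ev (Y v) 0 (SR.getD (sidx i j) []) = (v i).2 + (v j).2 := by
  fin_cases i <;> fin_cases j <;>
    refine ⟨by decide, ?_, ?_⟩ <;>
    simp [sidx, SL, SR, Y0, Y1, Y2, Y3, Y4, Y5, Y6, Y7, Y8, Y9] <;> ring

lemma didx_spec (v : Vec 5) (hv : v ∈ PSet 5) (k : ℕ) (hk : k < 15) :
    ev (Y v) 0 (DL.getD k []) ≤ ev (Y v) 0 (DR.getD k []) ∧
    Icc (ev (Y v) 0 (DL.getD k [])) (ev (Y v) 0 (DR.getD k [])) ⊆ (J v - J v) ∩ Ici 0 := by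
  obtain ⟨h1, h2⟩ := hv
  have key : ∀ i j : Fin 5, i ≤ j → Icc (max 0 ((v j).1 - (v i).2)) ((v j).2 - (v i).1) ⊆
      (J v - J v) ∩ Ici 0 := by
    intro i j _ x hx
    have hx1 : 0 ≤ x := (le_max_left _ _).trans hx.1
    have hx2 : (v j).1 - (v i).2 ≤ x := (le_max_right _ _).trans hx.1
    refine ⟨?_, hx1⟩
    have : x ∈ Icc (v j).1 (v j).2 - Icc (v i).1 (v i).2 := by
      rw [icc_sub (h1 j) (h1 i)]
      exact ⟨hx2, hx.2⟩
    exact Set.sub_subset_sub (subset_iUnion (fun i => Icc (v i).1 (v i).2) j)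
      (subset_iUnion (fun i => Icc (v i).1 (v i).2) i) this
  have a01 := h2 0 1 (by decide)
  have a02 := h2 0 2 (by decide)
  have a03 := h2 0 3 (by decide)
  have a04 := h2 0 4 (by decide)
  have a12 := h2 1 2 (by decide)
  have a13 := h2 1 3 (by decide)
  have a14 := h2 1 4 (by decide)
  have a23 := h2 2 3 (by decide)
  have a24 := h2 2 4 (by decide)
  have a34 := h2 3 4 (by decide)
  have b0 := h1 0
  have b1 := h1 1
  have b2 := h1 2
  have b3 := h1 3
  have b4 := h1 4
  have fin : ∀ (i j : Fin 5) (l r : ℝ), i ≤ j → max 0 ((v j).1 - (v i).2) = l →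
      (v j).2 - (v i).1 = r → l ≤ r → l ≤ r ∧ Icc l r ⊆ (J v - J v) ∩ Ici 0 := by
    intro i j l r hij e1 e2 hlr
    rw [← e1, ← e2] at *
    exact ⟨hlr, key i j hij⟩
  interval_cases k
  · exact fin 0 0 _ _ (by decide) (by simp [DL]; linarith) (by simp [DR, Y0, Y1]; ring)
      (by simp [DL, DR, Y0, Y1]; linarith)
  · exact fin 1 1 _ _ (by decide) (by simp [DL]; linarith) (by simp [DR, Y2, Y3]; ring)
      (by simp [DL, DR, Y2, Y3]; linarith)
  · exact fin 2 2 _ _ (by decide) (by simp [DL]; linarith) (by simp [DR, Y4, Y5]; ring)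
      (by simp [DL, DR, Y4, Y5]; linarith)
  · exact fin 3 3 _ _ (by decide) (by simp [DL]; linarith) (by simp [DR, Y6, Y7]; ring)
      (by simp [DL, DR, Y6, Y7]; linarith)
  · exact fin 4 4 _ _ (by decide) (by simp [DL]; linarith) (by simp [DR, Y8, Y9]; ring)
      (by simp [DL, DR, Y8, Y9]; linarith)
  · exact fin 0 1 _ _ (by decide)
      (by rw [max_eq_right (by linarith)]; simp [DL, Y1, Y2]; ring)
      (by simp [DR, Y0, Y3]; ring) (by simp [DL, DR, Y0, Y1, Y2, Y3]; linarith)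
  · exact fin 0 2 _ _ (by decide)
      (by rw [max_eq_right (by linarith)]; simp [DL, Y1, Y4]; ring)
      (by simp [DR, Y0, Y5]; ring) (by simp [DL, DR, Y0, Y1, Y4, Y5]; linarith)
  · exact fin 0 3 _ _ (by decide)
      (by rw [max_eq_right (by linarith)]; simp [DL, Y1, Y6]; ring)
      (by simp [DR, Y0, Y7]; ring) (by simp [DL, DR, Y0, Y1, Y6, Y7]; linarith)
  · exact fin 0 4 _ _ (by decide)
      (by rw [max_eq_right (by linarith)]; simp [DL, Y1, Y8]; ring)
      (by simp [DR, Y0, Y9]; ring) (by simp [DL, DR, Y0, Y1, Y8, Y9]; linarith)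
  · exact fin 1 2 _ _ (by decide)
      (by rw [max_eq_right (by linarith)]; simp [DL, Y3, Y4]; ring)
      (by simp [DR, Y2, Y5]; ring) (by simp [DL, DR, Y2, Y3, Y4, Y5]; linarith)
  · exact fin 1 3 _ _ (by decide)
      (by rw [max_eq_right (by linarith)]; simp [DL, Y3, Y6]; ring)
      (by simp [DR, Y2, Y7]; ring) (by simp [DL, DR, Y2, Y3, Y6, Y7]; linarith)
  · exact fin 1 4 _ _ (by decide)
      (by rw [max_eq_right (by linarith)]; simp [DL, Y3, Y8]; ring)
      (by simp [DR, Y2, Y9]; ring) (by simp [DL, DR, Y2, Y3, Y8, Y9]; linarith)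
  · exact fin 2 3 _ _ (by decide)
      (by rw [max_eq_right (by linarith)]; simp [DL, Y5, Y6]; ring)
      (by simp [DR, Y4, Y7]; ring) (by simp [DL, DR, Y4, Y5, Y6, Y7]; linarith)
  · exact fin 2 4 _ _ (by decide)
      (by rw [max_eq_right (by linarith)]; simp [DL, Y5, Y8]; ring)
      (by simp [DR, Y4, Y9]; ring) (by simp [DL, DR, Y4, Y5, Y8, Y9]; linarith)
  · exact fin 3 4 _ _ (by decide)
      (by rw [max_eq_right (by linarith)]; simp [DL, Y7, Y8]; ring)
      (by simp [DR, Y6, Y9]; ring) (by simp [DL, DR, Y6, Y7, Y8, Y9]; linarith)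

lemma bounded_J {n : ℕ} (v : Vec n) : IsCompact (J v) :=
  isCompact_iUnion fun _ => isCompact_Icc

lemma finite_add {n : ℕ} (v : Vec n) : volume (J v + J v) ≠ ⊤ :=
  ((bounded_J v).add (bounded_J v)).measure_lt_top.ne

lemma compact_sub {n : ℕ} (v : Vec n) : IsCompact (J v - J v) := by
  rw [sub_eq_add_neg]
  exact (bounded_J v).add (bounded_J v).neg

lemma finite_sub {n : ℕ} (v : Vec n) : volume (J v - J v) ≠ ⊤ :=
  (compact_sub v).measure_lt_top.ne

lemma mstd_iff {n : ℕ} (v : Vec n) :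
    MSTD v ↔ volume.real (J v - J v) < volume.real (J v + J v) := by
  unfold MSTD
  rw [Measure.real, Measure.real, ENNReal.toReal_lt_toReal (finite_sub v) (finite_add v)]

lemma two_mul_half {n : ℕ} (v : Vec n) :
    2 * volume.real ((J v - J v) ∩ Ici 0) ≤ volume.real (J v - J v) := by
  set D := J v - J v with hD
  have hDc : IsCompact D := compact_sub v
  have hDm : MeasurableSet D := hDc.measurableSet
  have hsymm : ∀ x, x ∈ D → -x ∈ D := by
    intro x hx
    obtain ⟨a, ha, b, hb, rfl⟩ := Set.mem_sub.1 hx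
    exact Set.mem_sub.2 ⟨b, hb, a, ha, by ring⟩
  have h1 : volume.real D = volume.real (D ∩ Ici 0) + volume.real (D ∩ Iio 0) := by
    have : D = (D ∩ Ici 0) ∪ (D ∩ Iio 0) := by
      rw [← Set.inter_union_distrib_left]
      simp
    have hdis : Disjoint (D ∩ Ici 0) (D ∩ Iio 0) := by
      rw [Set.disjoint_left]
      rintro x ⟨_, hx⟩ ⟨_, hx2⟩
      exact absurd (show (0 : ℝ) ≤ x from hx) (not_le.2 hx2)
    conv_lhs => rw [this]
    exact measureReal_union hdis (hDm.inter measurableSet_Iio)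
      (ne_top_of_le_ne_top hDc.measure_lt_top.ne (measure_mono inter_subset_left))
      (ne_top_of_le_ne_top hDc.measure_lt_top.ne (measure_mono inter_subset_left))
  have h2 : volume.real (D ∩ Ici 0) ≤ volume.real (D ∩ Iio 0) := by
    have e1 : volume.real (D ∩ Ici 0) ≤ volume.real (D ∩ Ioi 0) := by
      have hsub : D ∩ Ici 0 ⊆ (D ∩ Ioi 0) ∪ {0} := by
        rintro x ⟨hx, hx2⟩
        rcases eq_or_lt_of_le (show (0 : ℝ) ≤ x from hx2) with h | h
        · right; exact h.symm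
        · left; exact ⟨hx, h⟩
      have : volume (D ∩ Ici 0) ≤ volume (D ∩ Ioi 0) := by
        refine (measure_mono hsub).trans ((measure_union_le _ _).trans ?_)
        simp
      exact ENNReal.toReal_mono
        (ne_top_of_le_ne_top hDc.measure_lt_top.ne (measure_mono inter_subset_left)) this
    have e2 : volume.real (D ∩ Ioi 0) = volume.real (D ∩ Iio 0) := by
      have : D ∩ Iio 0 = -(D ∩ Ioi 0) := by
        ext x
        simp only [mem_inter_iff, mem_Iio, Set.mem_neg, mem_Ioi]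
        constructor
        · rintro ⟨hx, hx2⟩
          exact ⟨hsymm x hx, by linarith⟩
        · rintro ⟨hx, hx2⟩
          exact ⟨by simpa using hsymm _ hx, by linarith⟩
      rw [this, Measure.real, Measure.real, Measure.measure_neg]
    linarith
  linarith

lemma steps_eq (y : ℕ → ℝ) : ∀ (t : List (Nat × Bool)) (i : ℕ),
    pathVal (ev y 0 (DR.getD i []))
      (t.map (fun q => (ev y 0 (DL.getD q.1 []), ev y 0 (DR.getD q.1 []), q.2))) =
    ev y 0 (stepsForm i t)
  | [], i => by simp [pathVal, stepsForm]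
  | (j, false) :: r, i => by
      simp only [List.map_cons, pathVal, stepsForm, ev_addF, ev_subF]
      rw [steps_eq y r j]
  | (j, true) :: r, i => by
      simp only [List.map_cons, pathVal, stepsForm, ev_addF, ev_subF]
      rw [steps_eq y r j]

lemma steps_ok {y : ℕ → ℝ} (hlen : ∀ k < 15, ev y 0 (DL.getD k []) ≤ ev y 0 (DR.getD k []))
    {mask : Nat} (hk : Known y mask) : ∀ (t : List (Nat × Bool)) (i : ℕ), i < 15 →
    stepsOK mask i t = true →
    PathR (ev y 0 (DR.getD i []))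
      (t.map (fun q => (ev y 0 (DL.getD q.1 []), ev y 0 (DR.getD q.1 []), q.2))) ∧
      ∀ q ∈ t, q.1 < 15
  | [], i, _, _ => by simp [PathR]
  | (j, false) :: r, i, hi, h => by
      simp only [stepsOK, Bool.and_eq_true, Nat.blt_eq] at h
      obtain ⟨⟨hj, h1⟩, h2⟩ := h
      obtain ⟨ih1, ih2⟩ := steps_ok hlen hk r j hj h2
      have := hk _ h1
      have e1 : (450 + 15 * i + j) / 225 = 2 := by omega
      have e2 : (450 + 15 * i + j) % 225 / 15 = i := by omega
      have e3 : (450 + 15 * i + j) % 15 = j := by omega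
      simp only [factForm, e1, e2, e3, ev_subF] at this
      refine ⟨⟨by linarith, ih1⟩, ?_⟩
      intro q hq
      rcases List.mem_cons.1 hq with rfl | hq
      · exact hj
      · exact ih2 q hq
  | (j, true) :: r, i, hi, h => by
      simp only [stepsOK, Bool.and_eq_true, Nat.blt_eq] at h
      obtain ⟨⟨hj, h1⟩, h2⟩ := h
      obtain ⟨ih1, ih2⟩ := steps_ok hlen hk r j hj h2
      have := hk _ h1
      have e1 : (675 + 15 * i + j) / 225 = 3 := by omega
      have e2 : (675 + 15 * i + j) % 225 / 15 = i := by omega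
      have e3 : (675 + 15 * i + j) % 15 = j := by omega
      simp only [factForm, e1, e2, e3, ev_subF] at this
      refine ⟨⟨by linarith, hlen j hj, ih1⟩, ?_⟩
      intro q hq
      rcases List.mem_cons.1 hq with rfl | hq
      · exact hj
      · exact ih2 q hq

lemma coverForm_eq (y : ℕ → ℝ) : ∀ gs : List Group, ev y 0 (coverForm gs) =
    ((gs.map (fun g => (ev y 0 (SL.getD g.kL []), ev y 0 (SR.getD g.kR [])))).map
      (fun p : ℝ × ℝ => p.2 - p.1)).sum
  | [] => by simp [coverForm]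
  | g :: r => by
      simp only [coverForm, ev_addF, ev_subF, List.map_cons, List.sum_cons]
      rw [coverForm_eq y r]

theorem geo (v : Vec 5) (hv : v ∈ PSet 5) :
    Geo (Y v) (volume.real (J v + J v)) (volume.real (J v - J v)) := by
  have hlenS : ∀ i, ev (Y v) 0 (SL.getD i []) ≤ ev (Y v) 0 (SR.getD i []) := by
    intro i
    by_cases hi : i < 15
    · obtain ⟨h1, _⟩ := hv
      have b0 := h1 0
      have b1 := h1 1
      have b2 := h1 2
      have b3 := h1 3
      have b4 := h1 4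
      interval_cases i <;>
        simp [SL, SR, Y0, Y1, Y2, Y3, Y4, Y5, Y6, Y7, Y8, Y9] <;> linarith
    · have e1 : SL.getD i [] = [] := by
        simp only [List.getD]
        rw [List.getElem?_eq_none (by simp [SL]; omega)]
        rfl
      have e2 : SR.getD i [] = [] := by
        simp only [List.getD]
        rw [List.getElem?_eq_none (by simp [SR]; omega)]
        rfl
      rw [e1, e2]
  refine ⟨?_, hlenS, ?_⟩
  · intro gs hgs hcov
    rw [coverForm_eq]
    have hsum : 0 ≤ ((gs.map (fun g => (ev (Y v) 0 (SL.getD g.kL []),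
        ev (Y v) 0 (SR.getD g.kR [])))).map (fun p : ℝ × ℝ => p.2 - p.1)).sum := by
      apply List.sum_nonneg
      intro x hx
      simp only [List.map_map, List.mem_map, Function.comp] at hx
      obtain ⟨g, hg, rfl⟩ := hx
      linarith [hgs g hg]
    have := cover_measure (gs.map (fun g => (ev (Y v) 0 (SL.getD g.kL []),
        ev (Y v) 0 (SR.getD g.kR [])))) (J v + J v) ?_ ?_
    · rw [Measure.real]
      exact ENNReal.toReal_le_of_le_ofReal hsum this
    · intro p hp
      obtain ⟨g, hg, rfl⟩ := List.mem_map.1 hp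
      exact hgs g hg
    · intro x hx
      obtain ⟨a, ha, b, hb, rfl⟩ := Set.mem_add.1 hx
      obtain ⟨i, hi⟩ := mem_iUnion.1 ha
      obtain ⟨j, hj⟩ := mem_iUnion.1 hb
      obtain ⟨h1, h2, h3⟩ := sidx_spec v i j
      obtain ⟨g, hg, hg1, hg2⟩ := hcov _ h1
      refine ⟨_, List.mem_map_of_mem hg, ?_, ?_⟩
      · rw [h2] at hg1
        exact hg1.trans (add_le_add hi.1 hj.1)
      · rw [h3] at hg2
        exact (add_le_add hi.2 hj.2).trans hg2
  · intro mask p hk hp
    have hfin : volume ((J v - J v) ∩ Ici 0) ≠ ⊤ :=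
      ne_top_of_le_ne_top (finite_sub v) (measure_mono inter_subset_left)
    have hhalf := two_mul_half v
    cases p with
    | nil =>
      simp only [pathForm, ev_nil, mul_zero]
      exact measureReal_nonneg
    | cons q r =>
      obtain ⟨i, fl⟩ := q
      simp only [pathOK, Bool.and_eq_true, Nat.blt_eq] at hp
      obtain ⟨hi, hr⟩ := hp
      obtain ⟨h1, h2⟩ := steps_ok (fun k hk => (didx_spec v hv k hk).1) hk r i hi hr
      obtain ⟨h3, h4⟩ := didx_spec v hv i hi
      have := path_measure' hfin _ _ _ h3 h4 h1 (by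
        intro q hq
        obtain ⟨q', hq', rfl⟩ := List.mem_map.1 hq
        exact (didx_spec v hv q'.1 (h2 q' hq')).2)
      rw [steps_eq] at this
      simp only [pathForm, ev_addF, ev_subF]
      linarith

end Pool.Agent.MSTDIntervals
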