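import Pool.Agent.MSTDIntervals.Geometry
import Pool.Agent.MSTDIntervals.Face0
import Pool.Agent.MSTDIntervals.Face1
import Pool.Agent.MSTDIntervals.Face2
import Pool.Agent.MSTDIntervals.Face3
import Pool.Agent.MSTDIntervals.Face4
import Pool.Agent.MSTDIntervals.Face5
import Pool.Agent.MSTDIntervals.Face6
import Pool.Agent.MSTDIntervals.Face7
import Pool.Agent.MSTDIntervals.Face8
import Pool.Agent.MSTDIntervals.Face9
import Pool.Agent.MSTDIntervals.Face10

/-!
The region cut out by the seven region forms is both open and closed in the set of MSTD points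
of `P_5`, and it contains no point with a zero gap.
-/

namespace Pool.Agent.MSTDIntervals

open MeasureTheory Set
open scoped Pointwise

/-- the four gaps followed by the seven region forms -/
def faces : List Form :=
  [[0, -1, 1], [0, 0, 0, -1, 1], [0, 0, 0, 0, 0, 0, 0, -1, 1], [0, 0, 0, 0, 0, -1, 1],
   [0, 0, 0, -1, 1, 0, 0, 0, 1, -1],
   [0, 0, 0, 0, 0, 1, 0, -2, 0, 1],
   [0, 1, -1, 0, 0, 0, 0, 0, -1, 1],
   [1, 0, 0, -1, 0, -1, 0, 0, 1],
   [0, 0, 1, -1, 0, 0, 0, -1, 1],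
   [-1, 0, 0, 1, 0, 0, 0, 1, -1],
   [0, -1, 0, 0, 1, 0, 1, 0, 0, -1]]

lemma ctx0_of_faces {v : Vec 5} (hv : v ∈ PSet 5) (h : ∀ f ∈ faces, 0 ≤ ev (Y v) 0 f) :
    Ctx (Y v) ctx0 := by
  obtain ⟨h1, h2⟩ := hv
  have b0 := h1 0
  have b1 := h1 1
  have b2 := h1 2
  have b3 := h1 3
  have b4 := h1 4
  have a01 := h2 0 1 (by decide)
  have a12 := h2 1 2 (by decide)
  have a23 := h2 2 3 (by decide)
  have a34 := h2 3 4 (by decide)
  intro g hg
  simp only [ctx0, List.mem_cons, List.not_mem_nil, or_false] at hg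
  rcases hg with rfl | rfl | rfl | rfl | rfl | rfl | rfl | rfl | rfl | hg
  · simp [Y0, Y1]; linarith
  · simp [Y1, Y2]; linarith
  · simp [Y2, Y3]; linarith
  · simp [Y3, Y4]; linarith
  · simp [Y4, Y5]; linarith
  · simp [Y5, Y6]; linarith
  · simp [Y6, Y7]; linarith
  · simp [Y7, Y8]; linarith
  · simp [Y8, Y9]; linarith
  · apply h
    simp only [faces, List.mem_cons, List.not_mem_nil, or_false]
    tauto

lemma faces_pos {v : Vec 5} (hv : v ∈ PSet 5) (hm : MSTD v)
    (h : ∀ f ∈ faces, 0 ≤ ev (Y v) 0 f) : ∀ f ∈ faces, 0 < ev (Y v) 0 f := by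
  have hc := ctx0_of_faces hv h
  have hk : Known (Y v) (dersMask 0 com) := ders_sound hc com 0 (known_zero _) com_ok
  have hgeo := geo v hv
  rw [mstd_iff] at hm
  have key : ∀ (f nf : Form) (t : Tree), ev (Y v) 0 nf = - ev (Y v) 0 f →
      t.check (nf :: ctx0) (dersMask 0 com) = true → 0 < ev (Y v) 0 f := by
    intro f nf t hnf ht
    by_contra hcon
    have hcon' : ev (Y v) 0 f ≤ 0 := not_lt.1 hcon
    have hc' : Ctx (Y v) (nf :: ctx0) := by
      intro g hg
      rcases List.mem_cons.1 hg with rfl | hg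
      · rw [hnf]; linarith
      · exact hc g hg
    have := Tree.sound hgeo t _ _ hc' hk ht
    linarith
  intro f hf
  simp only [faces, List.mem_cons, List.not_mem_nil, or_false] at hf
  rcases hf with rfl | rfl | rfl | rfl | rfl | rfl | rfl | rfl | rfl | rfl | rfl
  · exact key _ _ _ (by simp; ring) tree0_ok
  · exact key _ _ _ (by simp; ring) tree1_ok
  · exact key _ _ _ (by simp; ring) tree2_ok
  · exact key _ _ _ (by simp; ring) tree3_ok
  · exact key _ _ _ (by simp; ring) tree4_ok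
  · exact key _ _ _ (by simp; ring) tree5_ok
  · exact key _ _ _ (by simp; ring) tree6_ok
  · exact key _ _ _ (by simp; ring) tree7_ok
  · exact key _ _ _ (by simp; ring) tree8_ok
  · exact key _ _ _ (by simp; ring) tree9_ok
  · exact key _ _ _ (by simp; ring) tree10_ok

/-- MSTD paths in `P_5` starting in the region stay in the region. -/
theorem stays {γ : unitInterval → Vec 5} (hγ : Continuous γ)
    (hP : ∀ t, γ t ∈ PSet 5 ∧ MSTD (γ t)) (h0 : ∀ f ∈ faces, 0 < ev (Y (γ 0)) 0 f) :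
    ∀ t, ∀ f ∈ faces, 0 < ev (Y (γ t)) 0 f := by
  have hcont : ∀ f : Form, Continuous fun t => ev (Y (γ t)) 0 f := fun f =>
    (continuous_ev f 0).comp hγ
  let U : Set unitInterval := {t | ∀ f ∈ faces, 0 < ev (Y (γ t)) 0 f}
  have hUopen : IsOpen U := by
    have : U = ⋂ f ∈ faces.toFinset, {t | 0 < ev (Y (γ t)) 0 f} := by
      ext t
      simp [U]
    rw [this]
    exact isOpen_biInter_finset fun f _ => isOpen_lt continuous_const (hcont f)
  have hUclosed : IsClosed U := by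
    have : U = {t | ∀ f ∈ faces, 0 ≤ ev (Y (γ t)) 0 f} := by
      ext t
      constructor
      · intro h f hf
        exact (h f hf).le
      · intro h
        exact faces_pos (hP t).1 (hP t).2 h
    rw [this]
    have h2 : {t | ∀ f ∈ faces, 0 ≤ ev (Y (γ t)) 0 f} =
        ⋂ f ∈ faces, {t | 0 ≤ ev (Y (γ t)) 0 f} := by
      ext t
      simp
    rw [h2]
    exact isClosed_biInter fun f _ => isClosed_le continuous_const (hcont f)
  have hU : U = univ := IsClopen.eq_univ ⟨hUclosed, hUopen⟩ ⟨0, h0⟩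
  intro t
  have : t ∈ U := by rw [hU]; trivial
  exact this

/-! ### explicit points -/

/-- real vector from an integer vector -/
def ofInt {n : ℕ} (w : Fin n → ℤ × ℤ) : Vec n := fun i => ((w i).1, (w i).2)

lemma add_mem {n : ℕ} {v : Vec n} (h : ∀ i, (v i).1 ≤ (v i).2) (i j : Fin n) :
    Icc ((v i).1 + (v j).1) ((v i).2 + (v j).2) ⊆ J v + J v := by
  rw [← icc_add (h i) (h j)]
  exact Set.add_subset_add (subset_iUnion (fun i => Icc (v i).1 (v i).2) i)
    (subset_iUnion (fun i => Icc (v i).1 (v i).2) j)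

lemma sum_cast (L : List (ℤ × ℤ)) : (((L.map (fun p => p.2 - p.1)).sum : ℤ) : ℝ) =
    ((L.map (fun p : ℤ × ℤ => ((p.1 : ℝ), (p.2 : ℝ)))).map (fun p : ℝ × ℝ => p.2 - p.1)).sum := by
  induction L with
  | nil => simp
  | cons a r ih =>
    rw [List.map_cons, List.sum_cons, Int.cast_add, ih]
    simp

/-- upper bound for the difference set by an integer cover -/
lemma sub_le {n : ℕ} (w : Fin n → ℤ × ℤ) (L : List (ℤ × ℤ)) (hL : ∀ p ∈ L, p.1 ≤ p.2)
    (hcov : ∀ i j, ∃ p ∈ L, p.1 ≤ (w i).1 - (w j).2 ∧ (w i).2 - (w j).1 ≤ p.2) :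
    volume.real (J (ofInt w) - J (ofInt w)) ≤ (((L.map (fun p => p.2 - p.1)).sum : ℤ) : ℝ) := by
  have h0 : (0 : ℝ) ≤ (((L.map (fun p => p.2 - p.1)).sum : ℤ) : ℝ) := by
    have : (0 : ℤ) ≤ (L.map (fun p => p.2 - p.1)).sum := by
      apply List.sum_nonneg
      intro x hx
      obtain ⟨p, hp, rfl⟩ := List.mem_map.1 hx
      linarith [hL p hp]
    exact_mod_cast this
  have h1 := cover_measure (L.map (fun p : ℤ × ℤ => ((p.1 : ℝ), (p.2 : ℝ))))
    (J (ofInt w) - J (ofInt w)) ?_ ?_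
  · rw [← sum_cast] at h1
    exact ENNReal.toReal_le_of_le_ofReal h0 h1
  · intro p hp
    obtain ⟨q, hq, rfl⟩ := List.mem_map.1 hp
    have := hL q hq
    simp only
    exact_mod_cast this
  · intro x hx
    obtain ⟨a, ha, b, hb, rfl⟩ := Set.mem_sub.1 hx
    obtain ⟨i, hi⟩ := mem_iUnion.1 ha
    obtain ⟨j, hj⟩ := mem_iUnion.1 hb
    obtain ⟨p, hp, hp1, hp2⟩ := hcov i j
    refine ⟨_, List.mem_map_of_mem hp, ?_, ?_⟩
    · have e : ((p.1 : ℤ) : ℝ) ≤ ((w i).1 : ℝ) - ((w j).2 : ℝ) := by exact_mod_cast hp1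
      have e1 : ((w i).1 : ℝ) ≤ a := hi.1
      have e2 : b ≤ ((w j).2 : ℝ) := hj.2
      simp only
      linarith
    · have e : ((w i).2 : ℝ) - ((w j).1 : ℝ) ≤ ((p.2 : ℤ) : ℝ) := by exact_mod_cast hp2
      have e1 : a ≤ ((w i).2 : ℝ) := hi.2
      have e2 : ((w j).1 : ℝ) ≤ b := hj.1
      simp only
      linarith

/-- integer paths -/
def PathZ {n : ℕ} (w : Fin n → ℤ × ℤ) : ℤ → List (Fin n × Fin n × Bool) → Bool
  | _, [] => true
  | r, (i, j, false) :: t => decide ((w i).1 + (w j).1 ≤ r) && PathZ w ((w i).2 + (w j).2) t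
  | r, (i, j, true) :: t => decide (r ≤ (w i).1 + (w j).1) && PathZ w ((w i).2 + (w j).2) t

def pathValZ {n : ℕ} (w : Fin n → ℤ × ℤ) : ℤ → List (Fin n × Fin n × Bool) → ℤ
  | _, [] => 0
  | r, (i, j, false) :: t => ((w i).2 + (w j).2 - r) + pathValZ w ((w i).2 + (w j).2) t
  | _, (i, j, true) :: t =>
      ((w i).2 + (w j).2 - ((w i).1 + (w j).1)) + pathValZ w ((w i).2 + (w j).2) t

lemma pathZ_spec {n : ℕ} (w : Fin n → ℤ × ℤ) (hw : ∀ i, (w i).1 ≤ (w i).2) :
    ∀ (t : List (Fin n × Fin n × Bool)) (r : ℤ), PathZ w r t = true →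
    PathR (r : ℝ) (t.map fun q => (((w q.1).1 : ℝ) + ((w q.2.1).1 : ℝ),
      ((w q.1).2 : ℝ) + ((w q.2.1).2 : ℝ), q.2.2)) ∧
    pathVal (r : ℝ) (t.map fun q => (((w q.1).1 : ℝ) + ((w q.2.1).1 : ℝ),
      ((w q.1).2 : ℝ) + ((w q.2.1).2 : ℝ), q.2.2)) = (pathValZ w r t : ℝ)
  | [], r, _ => by simp [PathR, pathVal, pathValZ]
  | (i, j, false) :: t, r, h => by
      simp only [PathZ, Bool.and_eq_true, decide_eq_true_eq] at h
      obtain ⟨h1, h2⟩ := pathZ_spec w hw t _ h.2
      push_cast at h1 h2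
      simp only [List.map_cons, PathR, pathVal, pathValZ]
      refine ⟨⟨by exact_mod_cast h.1, h1⟩, ?_⟩
      rw [h2]
      push_cast
      ring
  | (i, j, true) :: t, r, h => by
      simp only [PathZ, Bool.and_eq_true, decide_eq_true_eq] at h
      obtain ⟨h1, h2⟩ := pathZ_spec w hw t _ h.2
      push_cast at h1 h2
      simp only [List.map_cons, PathR, pathVal, pathValZ]
      have e := hw i
      have e' := hw j
      refine ⟨⟨by exact_mod_cast h.1, by exact_mod_cast add_le_add e e', h1⟩, ?_⟩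
      rw [h2]
      push_cast
      ring

/-- lower bound for the sumset by an integer path -/
lemma le_add {n : ℕ} (w : Fin n → ℤ × ℤ) (hw : ∀ i, (w i).1 ≤ (w i).2) (i0 j0 : Fin n)
    (t : List (Fin n × Fin n × Bool)) (hp : PathZ w ((w i0).2 + (w j0).2) t = true) :
    ((((w i0).2 + (w j0).2 - ((w i0).1 + (w j0).1)) + pathValZ w ((w i0).2 + (w j0).2) t : ℤ) : ℝ)
      ≤ volume.real (J (ofInt w) + J (ofInt w)) := by
  have hw' : ∀ i, (ofInt w i).1 ≤ (ofInt w i).2 := fun i => by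
    simp only [ofInt]
    exact_mod_cast hw i
  obtain ⟨h1, h2⟩ := pathZ_spec w hw t _ hp
  push_cast at h1 h2
  have h3 := path_measure' (finite_add (ofInt w)) ((ofInt w i0).1 + (ofInt w j0).1)
    ((ofInt w i0).2 + (ofInt w j0).2) _ (add_le_add (hw' i0) (hw' j0)) (add_mem hw' i0 j0) h1 ?_
  · simp only [ofInt] at h3
    rw [h2] at h3
    push_cast
    linarith
  · intro q hq
    obtain ⟨q', _, rfl⟩ := List.mem_map.1 hq
    exact add_mem hw' q'.1 q'.2.1

/-- an MSTD point of `P_4` -/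
def w4 : Fin 4 → ℤ × ℤ := ![(0, 3), (5, 7), (11, 12), (15, 18)]

/-- the starting point in `P_5` -/
def w5 : Fin 5 → ℤ × ℤ := ![(0, 1), (3, 5), (9, 16), (19, 20), (23, 26)]

lemma ofInt_mem {n : ℕ} (w : Fin n → ℤ × ℤ) (h1 : ∀ i, (w i).1 ≤ (w i).2)
    (h2 : ∀ i j, i < j → (w i).2 ≤ (w j).1) : ofInt w ∈ PSet n := by
  refine ⟨fun i => ?_, fun i j hij => ?_⟩
  · simp only [ofInt]
    exact_mod_cast h1 i
  · simp only [ofInt]
    exact_mod_cast h2 i j hij

lemma w4_mem : ofInt w4 ∈ PSet 4 := ofInt_mem w4 (by decide) (by decide)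

lemma w5_mem : ofInt w5 ∈ PSet 5 := ofInt_mem w5 (by decide) (by decide)

lemma w4_mstd : MSTD (ofInt w4) := by
  rw [mstd_iff]
  have h1 := sub_le w4 [(-18, -8), (-7, 7), (8, 18)] (by decide) (by decide)
  have h2 := le_add w4 (by decide) 0 0
    [(0, 1, false), (1, 1, false), (0, 2, false), (0, 3, false), (1, 3, false), (2, 3, true),
      (3, 3, false)] (by decide)
  have e1 : (([(-18, -8), (-7, 7), (8, 18)] : List (ℤ × ℤ)).map (fun p => p.2 - p.1)).sum = 34 := by
    decide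
  have e2 : ((w4 0).2 + (w4 0).2 - ((w4 0).1 + (w4 0).1)) + pathValZ w4 ((w4 0).2 + (w4 0).2)
    [(0, 1, false), (1, 1, false), (0, 2, false), (0, 3, false), (1, 3, false), (2, 3, true),
      (3, 3, false)] = 35 := by decide
  rw [e1] at h1
  rw [e2] at h2
  refine lt_of_le_of_lt h1 (lt_of_lt_of_le ?_ h2)
  norm_num

lemma w5_mstd : MSTD (ofInt w5) := by
  rw [mstd_iff]
  have h1 := sub_le w5 [(-26, -18), (-17, 17), (18, 26)] (by decide) (by decide)
  have h2 := le_add w5 (by decide) 0 0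
    [(0, 1, true), (1, 1, false), (0, 2, false), (1, 2, false), (2, 2, false), (2, 3, false),
      (2, 4, false), (3, 4, false), (4, 4, false)] (by decide)
  have e1 : (([(-26, -18), (-17, 17), (18, 26)] : List (ℤ × ℤ)).map
      (fun p => p.2 - p.1)).sum = 50 := by decide
  have e2 : ((w5 0).2 + (w5 0).2 - ((w5 0).1 + (w5 0).1)) + pathValZ w5 ((w5 0).2 + (w5 0).2)
    [(0, 1, true), (1, 1, false), (0, 2, false), (1, 2, false), (2, 2, false), (2, 3, false),
      (2, 4, false), (3, 4, false), (4, 4, false)] = 51 := by decide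
  rw [e1] at h1
  rw [e2] at h2
  refine lt_of_le_of_lt h1 (lt_of_lt_of_le ?_ h2)
  norm_num

lemma w5_faces : ∀ f ∈ faces, 0 < ev (Y (ofInt w5)) 0 f := by
  intro f hf
  simp only [faces, List.mem_cons, List.not_mem_nil, or_false] at hf
  rcases hf with rfl | rfl | rfl | rfl | rfl | rfl | rfl | rfl | rfl | rfl | rfl <;>
    simp [Y0, Y1, Y2, Y3, Y4, Y5, Y6, Y7, Y8, Y9, ofInt, w5] <;> norm_num

/-- no MSTD path from `w5` reaches a vector with two touching intervals -/
theorem gaps_stay {w' : Vec 5} (h : JoinedMSTD 5 (ofInt w5) w') (i : Fin 4) :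
    (w' i.castSucc).2 < (w' i.succ).1 := by
  obtain ⟨γ, hγ, h0, h1, hP⟩ := h
  have hs := stays hγ hP (by rw [h0]; exact w5_faces) 1
  rw [h1] at hs
  have e0 := hs [0, -1, 1] (by decide)
  have e1 := hs [0, 0, 0, -1, 1] (by decide)
  have e2 := hs [0, 0, 0, 0, 0, 0, 0, -1, 1] (by decide)
  have e3 := hs [0, 0, 0, 0, 0, -1, 1] (by decide)
  simp [Y1, Y2] at e0
  simp [Y3, Y4] at e1
  simp [Y7, Y8] at e2
  simp [Y5, Y6] at e3
  fin_cases i
  · show (w' 0).2 < (w' 1).1
    linarith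
  · show (w' 1).2 < (w' 2).1
    linarith
  · show (w' 2).2 < (w' 3).1
    linarith
  · show (w' 3).2 < (w' 4).1
    linarith

lemma cleaved_gap {n : ℕ} {w : Vec (n + 1)} (h : IsCleavedImage n w) :
    ∃ i : Fin n, (w i.castSucc).2 = (w i.succ).1 := by
  obtain ⟨v, _, _, i, p, _, _, rfl⟩ := h
  refine ⟨i, ?_⟩
  simp [cleave]

end Pool.Agent.MSTDIntervals
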