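import Pool.Agent.MSTDIntervals.Basic

/-!
Measure bounds: covers and paths of intervals.
-/

namespace Pool.Agent.MSTDIntervals

open MeasureTheory Set

/-- upper bound by a cover with intervals -/
lemma cover_measure : ∀ (L : List (ℝ × ℝ)) (A : Set ℝ), (∀ p ∈ L, p.1 ≤ p.2) →
    (∀ x ∈ A, ∃ p ∈ L, p.1 ≤ x ∧ x ≤ p.2) →
    volume A ≤ ENNReal.ofReal ((L.map (fun p => p.2 - p.1)).sum)
  | [], A, _, hA => by
      have : A = ∅ := by
        ext x
        simp only [mem_empty_iff_false, iff_false]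
        intro hx
        obtain ⟨p, hp, _⟩ := hA x hx
        simp at hp
      simp [this]
  | q :: r, A, hL, hA => by
      have hq : q.1 ≤ q.2 := hL q (by simp)
      have hr : ∀ p ∈ r, p.1 ≤ p.2 := fun p hp => hL p (List.mem_cons_of_mem _ hp)
      have hsum : 0 ≤ ((r.map (fun p => p.2 - p.1)).sum) := by
        apply List.sum_nonneg
        intro x hx
        obtain ⟨p, hp, rfl⟩ := List.mem_map.1 hx
        linarith [hr p hp]
      have hsub : A ⊆ Icc q.1 q.2 ∪ (A \ Icc q.1 q.2) := by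
        intro x hx
        by_cases h : x ∈ Icc q.1 q.2
        · exact Or.inl h
        · exact Or.inr ⟨hx, h⟩
      have h1 : volume (A \ Icc q.1 q.2) ≤ ENNReal.ofReal ((r.map (fun p => p.2 - p.1)).sum) := by
        apply cover_measure r _ hr
        rintro x ⟨hx, hx2⟩
        obtain ⟨p, hp, hp1, hp2⟩ := hA x hx
        rcases List.mem_cons.1 hp with rfl | hp
        · exact absurd ⟨hp1, hp2⟩ hx2
        · exact ⟨p, hp, hp1, hp2⟩
      calc volume A ≤ volume (Icc q.1 q.2 ∪ (A \ Icc q.1 q.2)) := measure_mono hsub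
        _ ≤ volume (Icc q.1 q.2) + volume (A \ Icc q.1 q.2) := measure_union_le _ _
        _ ≤ ENNReal.ofReal (q.2 - q.1) + ENNReal.ofReal ((r.map (fun p => p.2 - p.1)).sum) := by
            rw [Real.volume_Icc]
            gcongr
        _ = ENNReal.ofReal ((q.2 - q.1) + (r.map (fun p => p.2 - p.1)).sum) := by
            rw [ENNReal.ofReal_add (by linarith) hsum]
        _ = _ := by simp

/-- a step of a path: the next interval overlaps the part already treated -/
lemma step_join {A : Set ℝ} (hA : volume A ≠ ⊤) {r l' r' m : ℝ} (hm : m ≤ volume.real (A ∩ Iic r))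
    (h1 : l' ≤ r) (hI : Icc l' r' ⊆ A) : m + (r' - r) ≤ volume.real (A ∩ Iic r') := by
  have hfin : ∀ B : Set ℝ, volume (A ∩ B) ≠ ⊤ := fun B =>
    ne_top_of_le_ne_top hA (measure_mono inter_subset_left)
  rcases le_total r r' with h | h
  · have hsub : (A ∩ Iic r) ∪ Ioc r r' ⊆ A ∩ Iic r' := by
      rintro x (⟨hx1, hx2⟩ | ⟨hx1, hx2⟩)
      · exact ⟨hx1, le_trans hx2 h⟩
      · exact ⟨hI ⟨by linarith, hx2⟩, hx2⟩
    have hdis : Disjoint (A ∩ Iic r) (Ioc r r') := by
      rw [Set.disjoint_left]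
      rintro x ⟨_, hx2⟩ ⟨hx3, _⟩
      exact absurd hx2 (not_le.2 hx3)
    have e1 : volume.real ((A ∩ Iic r) ∪ Ioc r r') = volume.real (A ∩ Iic r) + (r' - r) := by
      rw [measureReal_union hdis measurableSet_Ioc (hfin _) (by simp)]
      congr 1
      rw [Measure.real, Real.volume_Ioc, ENNReal.toReal_ofReal (by linarith)]
    have e2 : volume.real ((A ∩ Iic r) ∪ Ioc r r') ≤ volume.real (A ∩ Iic r') :=
      measureReal_mono hsub (hfin _)
    linarith
  · have hsub : A ∩ Iic r ⊆ (A ∩ Iic r') ∪ Ioc r' r := by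
      rintro x ⟨hx1, hx2⟩
      rcases le_or_gt x r' with h3 | h3
      · exact Or.inl ⟨hx1, h3⟩
      · exact Or.inr ⟨h3, hx2⟩
    have e1 : volume.real (A ∩ Iic r) ≤ volume.real ((A ∩ Iic r') ∪ Ioc r' r) := by
      refine measureReal_mono hsub ?_
      refine ne_top_of_le_ne_top ?_ (measure_union_le _ _)
      simp only [ne_eq, ENNReal.add_eq_top, not_or]
      exact ⟨hfin _, by simp⟩
    have e2 : volume.real ((A ∩ Iic r') ∪ Ioc r' r) ≤ volume.real (A ∩ Iic r') + (r - r') := by
      refine (measureReal_union_le _ _).trans ?_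
      have : volume.real (Ioc r' r) = r - r' := by
        rw [Measure.real, Real.volume_Ioc, ENNReal.toReal_ofReal (by linarith)]
      rw [this]
    linarith

/-- a step of a path: the next interval starts to the right of the part already treated -/
lemma step_gap {A : Set ℝ} (hA : volume A ≠ ⊤) {r l' r' m : ℝ} (hm : m ≤ volume.real (A ∩ Iic r))
    (h1 : r ≤ l') (h2 : l' ≤ r') (hI : Icc l' r' ⊆ A) :
    m + (r' - l') ≤ volume.real (A ∩ Iic r') := by
  have hfin : ∀ B : Set ℝ, volume (A ∩ B) ≠ ⊤ := fun B =>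
    ne_top_of_le_ne_top hA (measure_mono inter_subset_left)
  have hsub : (A ∩ Iic r) ∪ Ioc l' r' ⊆ A ∩ Iic r' := by
    rintro x (⟨hx1, hx2⟩ | ⟨hx1, hx2⟩)
    · exact ⟨hx1, le_trans hx2 (h1.trans h2)⟩
    · exact ⟨hI ⟨le_of_lt hx1, hx2⟩, hx2⟩
  have hdis : Disjoint (A ∩ Iic r) (Ioc l' r') := by
    rw [Set.disjoint_left]
    rintro x ⟨_, hx2⟩ ⟨hx3, _⟩
    exact absurd (le_trans hx2 h1) (not_le.2 hx3)
  have e1 : volume.real ((A ∩ Iic r) ∪ Ioc l' r') = volume.real (A ∩ Iic r) + (r' - l') := by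
    rw [measureReal_union hdis measurableSet_Ioc (hfin _) (by simp)]
    congr 1
    rw [Measure.real, Real.volume_Ioc, ENNReal.toReal_ofReal (by linarith)]
  have e2 : volume.real ((A ∩ Iic r) ∪ Ioc l' r') ≤ volume.real (A ∩ Iic r') :=
    measureReal_mono hsub (hfin _)
  linarith

/-- a path of intervals, given by lower and upper ends and flags for the steps -/
def PathR : ℝ → List (ℝ × ℝ × Bool) → Prop
  | _, [] => True
  | r, (l', r', false) :: t => l' ≤ r ∧ PathR r' t
  | r, (l', r', true) :: t => r ≤ l' ∧ l' ≤ r' ∧ PathR r' t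

noncomputable def pathVal : ℝ → List (ℝ × ℝ × Bool) → ℝ
  | _, [] => 0
  | r, (_, r', false) :: t => (r' - r) + pathVal r' t
  | _, (l', r', true) :: t => (r' - l') + pathVal r' t

lemma path_measure {A : Set ℝ} (hA : volume A ≠ ⊤) : ∀ (t : List (ℝ × ℝ × Bool)) (r m : ℝ),
    m ≤ volume.real (A ∩ Iic r) → PathR r t → (∀ q ∈ t, Icc q.1 q.2.1 ⊆ A) →
    m + pathVal r t ≤ volume.real A
  | [], r, m, hm, _, _ => by
      simp only [pathVal, add_zero]
      exact hm.trans (measureReal_mono inter_subset_left hA)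
  | (l', r', false) :: t, r, m, hm, hp, hI => by
      obtain ⟨h1, h2⟩ := hp
      have h3 := step_join hA hm h1 (hI (l', r', false) (by simp))
      have h4 := path_measure hA t r' _ h3 h2 (fun q hq => hI q (List.mem_cons_of_mem _ hq))
      simp only [pathVal]
      linarith
  | (l', r', true) :: t, r, m, hm, hp, hI => by
      obtain ⟨h1, h1', h2⟩ := hp
      have h3 := step_gap hA hm h1 h1' (hI (l', r', true) (by simp))
      have h4 := path_measure hA t r' _ h3 h2 (fun q hq => hI q (List.mem_cons_of_mem _ hq))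
      simp only [pathVal]
      linarith

/-- path starting with the interval `[l, r]` -/
lemma path_measure' {A : Set ℝ} (hA : volume A ≠ ⊤) (l r : ℝ) (t : List (ℝ × ℝ × Bool))
    (hlr : l ≤ r) (h0 : Icc l r ⊆ A) (hp : PathR r t) (hI : ∀ q ∈ t, Icc q.1 q.2.1 ⊆ A) :
    (r - l) + pathVal r t ≤ volume.real A := by
  refine path_measure hA t r _ ?_ hp hI
  have : volume.real (Icc l r) ≤ volume.real (A ∩ Iic r) :=
    measureReal_mono (fun x hx => ⟨h0 hx, hx.2⟩)
      (ne_top_of_le_ne_top hA (measure_mono inter_subset_left))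
  rwa [Measure.real, Real.volume_Icc, ENNReal.toReal_ofReal (by linarith)] at this

end Pool.Agent.MSTDIntervals
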